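import Pool.Agent.P.MP_1206ce_ag.AS.Supp

/-! Cohomology with supports in a filter; twisted pull-back, extension by zero, degrees. -/

open scoped Topology
open Filter Set

noncomputable section

namespace Pool.Agent.HK

variable {Y Y' Y'' : Type} [TopologicalSpace Y] [TopologicalSpace Y'] [TopologicalSpace Y'']

/-- The filter of complements of compact subsets of `A`. -/
def cc (A : Set Y) : Filter Y := ⨅ C ∈ {C : Set Y | IsCompact C ∧ C ⊆ A}, 𝓟 Cᶜ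

theorem mem_cc {A S : Set Y} : S ∈ cc A ↔ ∃ C, IsCompact C ∧ C ⊆ A ∧ Cᶜ ⊆ S := by
  have h : (cc A).HasBasis (fun C => C ∈ {C : Set Y | IsCompact C ∧ C ⊆ A}) compl := by
    refine hasBasis_biInf_principal ?_ ⟨∅, isCompact_empty, empty_subset _⟩
    rintro C ⟨hC, hCA⟩ D ⟨hD, hDA⟩
    exact ⟨C ∪ D, ⟨hC.union hD, union_subset hCA hDA⟩,
      compl_subset_compl.2 subset_union_left, compl_subset_compl.2 subset_union_right⟩
  rw [h.mem_iff]
  exact ⟨fun ⟨C, h1, h2⟩ => ⟨C, h1.1, h1.2, h2⟩, fun ⟨C, h1, h2, h3⟩ => ⟨C, ⟨h1, h2⟩, h3⟩⟩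

/-- Cochains whose support has complement in `F`. -/
def CC (F : Filter Y) (A : Set Y) : Submodule ℂ (Coch Y) where
  carrier := {c | Bdd c ∧ (supp A c)ᶜ ∈ F}
  add_mem' := fun {a b} ha hb => ⟨ha.1.add hb.1, mem_of_superset (inter_mem ha.2 hb.2) (by
    rw [← compl_union]; exact compl_subset_compl.2 (supp_add A a b))⟩
  zero_mem' := ⟨Bdd.zero, by rw [supp_zero, compl_empty]; exact univ_mem⟩
  smul_mem' := fun z a ha =>
    ⟨ha.1.smul z, mem_of_superset ha.2 (compl_subset_compl.2 (supp_smul A z a))⟩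

/-- Locally zero cochains. -/
def N0 (A : Set Y) : Submodule ℂ (Coch Y) where
  carrier := {c | supp A c = ∅}
  add_mem' := fun {a b} ha hb => subset_empty_iff.1 ((supp_add A a b).trans
    (union_subset (subset_empty_iff.2 ha) (subset_empty_iff.2 hb)))
  zero_mem' := supp_zero A
  smul_mem' := fun z a ha => subset_empty_iff.1 ((supp_smul A z a).trans (subset_empty_iff.2 ha))

/-- Cocycles. -/
def ZZ (F : Filter Y) (A : Set Y) : Submodule ℂ (Coch Y) where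
  carrier := {c | c ∈ CC F A ∧ dd c ∈ N0 A}
  add_mem' := fun {a b} ha hb => ⟨add_mem ha.1 hb.1, by rw [dd_add]; exact add_mem ha.2 hb.2⟩
  zero_mem' := ⟨zero_mem _, by rw [dd_zero]; exact zero_mem _⟩
  smul_mem' := fun z a ha =>
    ⟨Submodule.smul_mem _ z ha.1, by rw [dd_smul]; exact Submodule.smul_mem _ z ha.2⟩

/-- Coboundaries (up to locally zero cochains). -/
def BB (F : Filter Y) (A : Set Y) : Submodule ℂ (Coch Y) where
  carrier := {c | ∃ e ∈ CC F A, c - dd e ∈ N0 A}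
  add_mem' := by
    rintro a b ⟨e, he, h⟩ ⟨e', he', h'⟩
    refine ⟨e + e', add_mem he he', ?_⟩
    rw [dd_add, add_sub_add_comm]
    exact add_mem h h'
  zero_mem' := ⟨0, zero_mem _, by rw [dd_zero, sub_zero]; exact zero_mem _⟩
  smul_mem' := by
    rintro z a ⟨e, he, h⟩
    refine ⟨z • e, Submodule.smul_mem _ z he, ?_⟩
    rw [dd_smul, ← smul_sub]
    exact Submodule.smul_mem _ z h

theorem mem_CC {F : Filter Y} {A : Set Y} {c : Coch Y} :
    c ∈ CC F A ↔ Bdd c ∧ (supp A c)ᶜ ∈ F := Iff.rfl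
theorem mem_N0 {A : Set Y} {c : Coch Y} : c ∈ N0 A ↔ supp A c = ∅ := Iff.rfl
theorem mem_ZZ {F : Filter Y} {A : Set Y} {c : Coch Y} :
    c ∈ ZZ F A ↔ c ∈ CC F A ∧ dd c ∈ N0 A := Iff.rfl
theorem mem_BB {F : Filter Y} {A : Set Y} {c : Coch Y} :
    c ∈ BB F A ↔ ∃ e ∈ CC F A, c - dd e ∈ N0 A := Iff.rfl
theorem mem_CC_cc {A : Set Y} {c : Coch Y} :
    c ∈ CC (cc A) A ↔ Bdd c ∧ IsCompact (supp A c) := by
  rw [mem_CC, mem_cc]
  refine and_congr_right fun _ => ⟨?_, fun h => ⟨_, h, supp_subset A c, Subset.rfl⟩⟩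
  rintro ⟨C, hC, hCA, h⟩
  exact (supp_closedIn A c).isCompact hC hCA (compl_subset_compl.1 h)
theorem mem_CC_bot {A : Set Y} {c : Coch Y} : c ∈ CC ⊥ A ↔ Bdd c :=
  ⟨fun h => h.1, fun h => ⟨h, mem_bot⟩⟩
theorem N0_le_BB (F : Filter Y) (A : Set Y) : N0 A ≤ BB F A := fun c hc =>
  ⟨0, zero_mem _, by rwa [dd_zero, sub_zero]⟩

theorem Basic_N0_of_subset {A : Set Y} {A' : Set Y'} {a : Coch Y} {b : Coch Y'} (hb : b ∈ N0 A')
    {f : Y → Y'} (h : supp A a ⊆ f ⁻¹' supp A' b) : a ∈ N0 A := by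
  rw [mem_N0] at hb
  rw [hb, preimage_empty] at h
  exact subset_empty_iff.1 h

theorem Basic_N0_cup_left {A : Set Y} {a : Coch Y} (ha : a ∈ N0 A) (b : Coch Y) :
    cup a b ∈ N0 A :=
  Basic_N0_of_subset (f := id) ha ((supp_cup A a b).trans inter_subset_left)

theorem Basic_N0_cup_right {A : Set Y} (a : Coch Y) {b : Coch Y} (hb : b ∈ N0 A) :
    cup a b ∈ N0 A :=
  Basic_N0_of_subset (f := id) hb ((supp_cup A a b).trans inter_subset_right)

theorem Basic_N0_apply {A : Set Y} {c : Coch Y} (hc : c ∈ N0 A) {y : Y} (hy : y ∈ A) :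
    ∃ U ∈ 𝓝 y, ∀ l : List Y, (∀ z ∈ l, z ∈ A ∧ z ∈ U) → c l = 0 :=
  (not_mem_supp hy).1 (by rw [mem_N0.1 hc]; exact notMem_empty y)

theorem Basic_N0_of_forall {A : Set Y} {c : Coch Y}
    (h : ∀ l : List Y, (∀ z ∈ l, z ∈ A) → c l = 0) : c ∈ N0 A := by
  refine eq_empty_of_forall_notMem fun y hy => ?_
  obtain ⟨l, hl, hne⟩ := hy.2 univ univ_mem
  exact hne (h l fun z hz => (hl z hz).1)

omit [TopologicalSpace Y] in
theorem Basic_sgC_sgC (a : Coch Y) : sgC (sgC a) = a := by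
  funext l
  simp only [sgC]
  rw [← mul_assoc, ← mul_pow]
  simp

omit [TopologicalSpace Y] in
theorem Basic_dd_sgC (a : Coch Y) : dd (sgC a) = -sgC (dd a) := by
  funext l
  simp only [dd, sgC, Pi.neg_apply, Finset.mul_sum, ← Finset.sum_neg_distrib]
  refine Finset.sum_congr rfl fun i hi => ?_
  rw [Finset.mem_range] at hi
  rw [List.length_eraseIdx_add_one hi, pow_succ]
  ring

omit [TopologicalSpace Y] in
theorem Basic_prC_sub (k : ℤ) (a b : Coch Y) : prC k (a - b) = prC k a - prC k b := by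
  funext l
  simp only [prC, Pi.sub_apply]
  split_ifs <;> simp

omit [TopologicalSpace Y] in
theorem Basic_dd_cons (c : Coch Y) (y : Y) (l : List Y) :
    dd c (y :: l) = c l - dd (fun l' => c (y :: l')) l := by
  simp only [dd, List.length_cons, Finset.sum_range_succ', List.eraseIdx_cons_succ,
    List.eraseIdx_cons_zero, pow_zero, one_mul, pow_succ]
  rw [sub_eq_add_neg, add_comm, ← Finset.sum_neg_distrib]
  congr 1
  exact Finset.sum_congr rfl fun i _ => by ring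

/-- The degree projection as a linear map. -/
def Basic_prL (Y : Type) (k : ℤ) : Coch Y →ₗ[ℂ] Coch Y where
  toFun := prC k
  map_add' a b := by
    funext l
    simp only [prC, Pi.add_apply]
    split_ifs <;> simp
  map_smul' z a := by
    funext l
    simp only [prC, Pi.smul_apply, RingHom.id_apply]
    split_ifs <;> simp

/-- Dictionary with the definitions used in the statement. -/
theorem adm_true {A : Set Y} {c : Coch Y} : Adm True A c ↔ c ∈ CC (cc A) A := by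
  rw [mem_CC_cc]
  exact ⟨fun h => ⟨⟨h.1, h.2.1⟩, h.2.2 trivial⟩, fun h => ⟨h.1.1, h.1.2, fun _ => h.2⟩⟩
theorem adm_false {A : Set Y} {c : Coch Y} : Adm False A c ↔ c ∈ CC ⊥ A := by
  rw [mem_CC_bot]
  exact ⟨fun h => ⟨h.1, h.2.1⟩, fun h => ⟨h.1, h.2, fun h' => h'.elim⟩⟩
theorem cocycle_true {A : Set Y} {c : Coch Y} : Cocycle True A c ↔ c ∈ ZZ (cc A) A :=
  and_congr adm_true Iff.rfl
theorem cocycle_false {A : Set Y} {c : Coch Y} : Cocycle False A c ↔ c ∈ ZZ ⊥ A :=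
  and_congr adm_false Iff.rfl
theorem cohom_true {A : Set Y} {a b : Coch Y} : Cohom True A a b ↔ a - b ∈ BB (cc A) A :=
  exists_congr fun _ => and_congr adm_true Iff.rfl
theorem cohom_false {A : Set Y} {a b : Coch Y} : Cohom False A a b ↔ a - b ∈ BB ⊥ A :=
  exists_congr fun _ => and_congr adm_false Iff.rfl

theorem ZZ_cc_le_bot (A : Set Y) : ZZ (cc A) A ≤ ZZ ⊥ A := fun _ h =>
  ⟨mem_CC_bot.2 h.1.1, h.2⟩
theorem BB_cc_le_bot (A : Set Y) : BB (cc A) A ≤ BB ⊥ A := fun _ ⟨e, he, h⟩ =>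
  ⟨e, mem_CC_bot.2 he.1, h⟩

theorem Basic_cc_eq_bot_of {A : Set Y} (hA : IsCompact A) : CC (cc A) A = CC ⊥ A := by
  ext c
  rw [mem_CC_cc, mem_CC_bot]
  exact ⟨fun h => h.1, fun h =>
    ⟨h, (supp_closedIn A c).isCompact hA Subset.rfl (supp_subset A c)⟩⟩

theorem ZZ_cc_eq_bot {A : Set Y} (hA : IsCompact A) : ZZ (cc A) A = ZZ ⊥ A := by
  ext c
  rw [mem_ZZ, mem_ZZ, Basic_cc_eq_bot_of hA]
theorem BB_cc_eq_bot {A : Set Y} (hA : IsCompact A) : BB (cc A) A = BB ⊥ A := by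
  ext c
  rw [mem_BB, mem_BB, Basic_cc_eq_bot_of hA]
theorem one_mem_ZZ (A : Set Y) : (one : Coch Y) ∈ ZZ ⊥ A :=
  ⟨mem_CC_bot.2 Bdd.one, by rw [dd_one]; exact zero_mem _⟩

theorem Basic_prC_mem_CC {F : Filter Y} {A : Set Y} (k : ℤ) {c : Coch Y} (h : c ∈ CC F A) :
    prC k c ∈ CC F A :=
  ⟨h.1.prC k, mem_of_superset h.2 (compl_subset_compl.2 (supp_prC A k c))⟩

theorem Basic_prC_mem_N0 {A : Set Y} (k : ℤ) {c : Coch Y} (h : c ∈ N0 A) : prC k c ∈ N0 A :=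
  Basic_N0_of_subset (f := id) h (supp_prC A k c)

theorem prC_mem_ZZ {F : Filter Y} {A : Set Y} (k : ℤ) {c : Coch Y} (h : c ∈ ZZ F A) :
    prC k c ∈ ZZ F A :=
  ⟨Basic_prC_mem_CC k h.1, by rw [← prC_dd]; exact Basic_prC_mem_N0 _ h.2⟩
theorem prC_mem_BB {F : Filter Y} {A : Set Y} (k : ℤ) {c : Coch Y} (h : c ∈ BB F A) :
    prC k c ∈ BB F A := by
  obtain ⟨e, he, h⟩ := h
  refine ⟨prC (k - 1) e, Basic_prC_mem_CC _ he, ?_⟩
  rw [← prC_dd, sub_add_cancel, ← Basic_prC_sub]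
  exact Basic_prC_mem_N0 _ h
/-- ordinary cohomology: products and pull-backs -/
theorem cup_mem_ZZ {A : Set Y} {a b : Coch Y} (ha : a ∈ ZZ ⊥ A) (hb : b ∈ ZZ ⊥ A) :
    cup a b ∈ ZZ ⊥ A := by
  refine ⟨mem_CC_bot.2 (ha.1.1.cup hb.1.1), ?_⟩
  rw [dd_cup ha.1.1.1 hb.1.1.1]
  exact add_mem (Basic_N0_cup_left ha.2 b) (Basic_N0_cup_right _ hb.2)
theorem cup_mem_BB_left {A : Set Y} {a b : Coch Y} (h0 : a [] = 0) (ha : a ∈ BB ⊥ A)
    (hb : b ∈ ZZ ⊥ A) : cup a b ∈ BB ⊥ A := by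
  have _ := h0
  obtain ⟨e, he, h⟩ := ha
  refine ⟨cup e b, mem_CC_bot.2 (he.1.cup hb.1.1), ?_⟩
  rw [dd_cup he.1.1 hb.1.1.1, ← sub_sub, ← sub_cup]
  exact sub_mem (Basic_N0_cup_left h b) (Basic_N0_cup_right _ hb.2)
theorem cup_mem_BB_right {A : Set Y} {a b : Coch Y} (ha : a ∈ ZZ ⊥ A) (h0 : b [] = 0)
    (hb : b ∈ BB ⊥ A) : cup a b ∈ BB ⊥ A := by
  have _ := h0
  obtain ⟨e, he, h⟩ := hb
  refine ⟨cup (sgC a) e, mem_CC_bot.2 (ha.1.1.sgC.cup he.1), ?_⟩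
  rw [dd_cup ha.1.1.sgC.1 he.1.1, Basic_sgC_sgC, add_comm, ← sub_sub, ← cup_sub]
  refine sub_mem (Basic_N0_cup_right a h) (Basic_N0_cup_left ?_ e)
  rw [Basic_dd_sgC]
  refine neg_mem ?_
  rw [mem_N0, supp_sgC]
  exact ha.2
theorem cup_congr {A : Set Y} {a a' b b' : Coch Y} (ha : a ∈ ZZ ⊥ A) (ha' : a' ∈ ZZ ⊥ A)
    (hb : b ∈ ZZ ⊥ A) (hb' : b' ∈ ZZ ⊥ A) (h1 : a - a' ∈ BB ⊥ A) (h2 : b - b' ∈ BB ⊥ A) :
    cup a b - cup a' b' ∈ BB ⊥ A := by
  have h : cup a b - cup a' b' = cup (a - a') b + cup a' (b - b') := by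
    rw [sub_cup, cup_sub, sub_add_sub_cancel]
  rw [h]
  exact add_mem (cup_mem_BB_left (sub_mem ha ha').1.1.1 h1 hb)
    (cup_mem_BB_right ha' (sub_mem hb hb').1.1.1 h2)
theorem cupL_mem_ZZ {A : Set Y} {L : List (Coch Y)} (h : ∀ w ∈ L, w ∈ ZZ ⊥ A) :
    cupL L ∈ ZZ ⊥ A := by
  induction L with
  | nil => exact one_mem_ZZ A
  | cons w L ih =>
    exact cup_mem_ZZ (h w List.mem_cons_self) (ih fun w' hw' => h w' (List.mem_cons_of_mem _ hw'))

theorem Basic_pb_mem_N0 {A : Set Y} {A' : Set Y'} {f : Y' → Y} (hf : ContinuousOn f A')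
    (hm : MapsTo f A' A) {a : Coch Y} (ha : a ∈ N0 A) : pb f a ∈ N0 A' :=
  Basic_N0_of_subset ha (supp_pb hf hm a)

theorem Basic_pb_mem_CC_cc {A : Set Y} {A' : Set Y'} {f : Y' → Y} (hf : ProperOn f A' A)
    {a : Coch Y} (ha : a ∈ CC (cc A) A) : pb f a ∈ CC (cc A') A' := by
  rw [mem_CC_cc] at ha ⊢
  exact ⟨ha.1.pb f, (supp_closedIn A' _).isCompact (hf.2.2 _ ha.2 (supp_subset A a))
    inter_subset_left (subset_inter (supp_subset A' _) (supp_pb hf.1 hf.2.1 a))⟩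

theorem pb_mem_ZZ {A : Set Y} {A' : Set Y'} {f : Y' → Y} (hf : ContinuousOn f A')
    (hm : MapsTo f A' A) {a : Coch Y} (ha : a ∈ ZZ ⊥ A) : pb f a ∈ ZZ ⊥ A' :=
  ⟨mem_CC_bot.2 (ha.1.1.pb f), by rw [← pb_dd]; exact Basic_pb_mem_N0 hf hm ha.2⟩
theorem pb_mem_BB {A : Set Y} {A' : Set Y'} {f : Y' → Y} (hf : ContinuousOn f A')
    (hm : MapsTo f A' A) {a : Coch Y} (ha : a ∈ BB ⊥ A) : pb f a ∈ BB ⊥ A' := by
  obtain ⟨e, he, h⟩ := ha
  refine ⟨pb f e, mem_CC_bot.2 (he.1.pb f), ?_⟩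
  rw [← pb_dd, ← pb_sub]
  exact Basic_pb_mem_N0 hf hm h
theorem pb_mem_ZZ_cc {A : Set Y} {A' : Set Y'} {f : Y' → Y} (hf : ProperOn f A' A)
    {a : Coch Y} (ha : a ∈ ZZ (cc A) A) : pb f a ∈ ZZ (cc A') A' :=
  ⟨Basic_pb_mem_CC_cc hf ha.1, by rw [← pb_dd]; exact Basic_pb_mem_N0 hf.1 hf.2.1 ha.2⟩
theorem pb_mem_BB_cc {A : Set Y} {A' : Set Y'} {f : Y' → Y} (hf : ProperOn f A' A)
    {a : Coch Y} (ha : a ∈ BB (cc A) A) : pb f a ∈ BB (cc A') A' := by
  obtain ⟨e, he, h⟩ := ha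
  refine ⟨pb f e, Basic_pb_mem_CC_cc hf he, ?_⟩
  rw [← pb_dd, ← pb_sub]
  exact Basic_pb_mem_N0 hf.1 hf.2.1 h
/-- Degree zero: a cocycle of degree zero is a locally constant function. -/
theorem deg_zero_locConst {A : Set Y} {c : Coch Y} (hc : c ∈ ZZ ⊥ A) (h0 : HomC 0 c) :
    ∀ y ∈ A, ∀ᶠ z in 𝓝[A] y, c [z] = c [y] := by
  have _ := h0
  intro y hy
  obtain ⟨U, hU, h⟩ := Basic_N0_apply hc.2 hy
  filter_upwards [self_mem_nhdsWithin, mem_nhdsWithin_of_mem_nhds hU] with z hz hzU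
  have h1 := h [y, z] (by
    intro w hw
    rcases List.mem_pair.1 hw with rfl | rfl
    · exact ⟨hy, mem_of_mem_nhds hU⟩
    · exact ⟨hz, hzU⟩)
  simp only [dd, List.length_cons, List.length_nil, Finset.sum_range_succ, Finset.sum_range_zero,
    List.eraseIdx_cons_succ, List.eraseIdx_cons_zero] at h1
  linear_combination h1
theorem deg_zero_mem_N0 {A : Set Y} {c : Coch Y} (h0 : HomC 0 c) (h : ∀ y ∈ A, c [y] = 0) :
    c ∈ N0 A := by
  refine Basic_N0_of_forall fun l hl => ?_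
  by_cases h1 : l.length = 1
  · obtain ⟨y, rfl⟩ := List.length_eq_one_iff.1 h1
    exact h y (hl y List.mem_cons_self)
  · exact h0 l (by omega)
theorem deg_zero_of_mem_BB {F : Filter Y} {A : Set Y} {c : Coch Y} (hc : c ∈ BB F A) :
    ∀ y ∈ A, c [y] = 0 := by
  intro y hy
  obtain ⟨e, he, h⟩ := hc
  obtain ⟨U, hU, h⟩ := Basic_N0_apply h hy
  have h1 := h [y] (by
    intro w hw
    rw [List.mem_singleton.1 hw]
    exact ⟨hy, mem_of_mem_nhds hU⟩)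
  have h2 : e [] = 0 := he.1.1
  simpa [dd, h2] using h1

/-- Cohomology of `A` with supports in `F`. -/
def H (F : Filter Y) (A : Set Y) : Type := ↥(ZZ F A) ⧸ (BB F A).submoduleOf (ZZ F A)

instance (F : Filter Y) (A : Set Y) : AddCommGroup (H F A) :=
  inferInstanceAs (AddCommGroup (↥(ZZ F A) ⧸ (BB F A).submoduleOf (ZZ F A)))
instance (F : Filter Y) (A : Set Y) : Module ℂ (H F A) :=
  inferInstanceAs (Module ℂ (↥(ZZ F A) ⧸ (BB F A).submoduleOf (ZZ F A)))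

/-- Compactly supported cohomology. -/
abbrev Hc (A : Set Y) : Type := H (cc A) A

open Classical in
/-- The class of a cocycle (zero for other cochains). -/
def cls (F : Filter Y) (A : Set Y) (c : Coch Y) : H F A :=
  if h : c ∈ ZZ F A then (Submodule.Quotient.mk (⟨c, h⟩ : ZZ F A) :
    ↥(ZZ F A) ⧸ (BB F A).submoduleOf (ZZ F A)) else 0

/-- The class in compactly supported cohomology. -/
abbrev clc (A : Set Y) (c : Coch Y) : Hc A := cls (cc A) A c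

theorem Basic_cls_eq {F : Filter Y} {A : Set Y} {c : Coch Y} (h : c ∈ ZZ F A) :
    cls F A c = (Submodule.Quotient.mk (⟨c, h⟩ : ZZ F A) :
      ↥(ZZ F A) ⧸ (BB F A).submoduleOf (ZZ F A)) := dif_pos h

theorem cls_surj {F : Filter Y} {A : Set Y} (x : H F A) : ∃ c ∈ ZZ F A, cls F A c = x := by
  obtain ⟨⟨c, hc⟩, rfl⟩ := Submodule.Quotient.mk_surjective ((BB F A).submoduleOf (ZZ F A)) x
  exact ⟨c, hc, Basic_cls_eq hc⟩
theorem cls_eq_iff {F : Filter Y} {A : Set Y} {a b : Coch Y} (ha : a ∈ ZZ F A) (hb : b ∈ ZZ F A) :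
    cls F A a = cls F A b ↔ a - b ∈ BB F A := by
  rw [Basic_cls_eq ha, Basic_cls_eq hb]
  exact Submodule.Quotient.eq ((BB F A).submoduleOf (ZZ F A))
theorem cls_eq_zero_iff {F : Filter Y} {A : Set Y} {a : Coch Y} (ha : a ∈ ZZ F A) :
    cls F A a = 0 ↔ a ∈ BB F A := by
  rw [Basic_cls_eq ha]
  exact Submodule.Quotient.mk_eq_zero ((BB F A).submoduleOf (ZZ F A))
theorem cls_add {F : Filter Y} {A : Set Y} {a b : Coch Y} (ha : a ∈ ZZ F A) (hb : b ∈ ZZ F A) :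
    cls F A (a + b) = cls F A a + cls F A b := by
  rw [Basic_cls_eq ha, Basic_cls_eq hb, Basic_cls_eq (add_mem ha hb)]
  rfl
theorem cls_smul {F : Filter Y} {A : Set Y} (z : ℂ) {a : Coch Y} (ha : a ∈ ZZ F A) :
    cls F A (z • a) = z • cls F A a := by
  rw [Basic_cls_eq ha, Basic_cls_eq (Submodule.smul_mem _ z ha)]
  rfl

theorem Basic_cls_zero (F : Filter Y) (A : Set Y) : cls F A 0 = 0 :=
  (cls_eq_zero_iff (zero_mem _)).2 (zero_mem _)

theorem cls_sum {ι : Type} {F : Filter Y} {A : Set Y} (s : Finset ι) {a : ι → Coch Y}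
    (ha : ∀ i ∈ s, a i ∈ ZZ F A) : cls F A (∑ i ∈ s, a i) = ∑ i ∈ s, cls F A (a i) := by
  classical
  induction s using Finset.induction_on with
  | empty => rw [Finset.sum_empty, Finset.sum_empty, Basic_cls_zero]
  | insert i s hi ih =>
    have h1 : ∀ j ∈ s, a j ∈ ZZ F A := fun j hj => ha j (Finset.mem_insert_of_mem hj)
    rw [Finset.sum_insert hi, Finset.sum_insert hi,
      cls_add (ha i (Finset.mem_insert_self i s)) (sum_mem h1), ih h1]
theorem subsingleton_H_iff {F : Filter Y} {A : Set Y} :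
    Subsingleton (H F A) ↔ ZZ F A ≤ BB F A := by
  refine ⟨fun h c hc => (cls_eq_zero_iff hc).1 (Subsingleton.elim _ _), fun h => ⟨fun x y => ?_⟩⟩
  obtain ⟨a, ha, rfl⟩ := cls_surj x
  obtain ⟨b, hb, rfl⟩ := cls_surj y
  exact (cls_eq_iff ha hb).2 (h (sub_mem ha hb))
instance (F : Filter Y) : Subsingleton (H F (∅ : Set Y)) :=
  subsingleton_H_iff.2 fun c _ => N0_le_BB F ∅ (subset_empty_iff.1 (supp_subset ∅ c))

/-- A cochain map that respects cocycles and coboundaries induces a linear map. -/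
theorem exists_induced {F : Filter Y} {A : Set Y} {F' : Filter Y'} {A' : Set Y'}
    (T : Coch Y →ₗ[ℂ] Coch Y') (hZ : ∀ c ∈ ZZ F A, T c ∈ ZZ F' A')
    (hB : ∀ c ∈ ZZ F A, c ∈ BB F A → T c ∈ BB F' A') :
    ∃ L : H F A →ₗ[ℂ] H F' A', ∀ c ∈ ZZ F A, L (cls F A c) = cls F' A' (T c) := by
  refine ⟨Submodule.mapQ ((BB F A).submoduleOf (ZZ F A)) ((BB F' A').submoduleOf (ZZ F' A'))
    (T.restrict hZ) fun c hc => hB c.1 c.2 hc, fun c hc => ?_⟩
  rw [Basic_cls_eq hc, Basic_cls_eq (hZ c hc)]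
  rfl

open Classical in
/-- The linear map induced by `T` if there is one, zero otherwise. -/
def induced (F : Filter Y) (A : Set Y) (F' : Filter Y') (A' : Set Y') (T : Coch Y → Coch Y') :
    H F A →ₗ[ℂ] H F' A' :=
  if h : ∃ L : H F A →ₗ[ℂ] H F' A', ∀ c ∈ ZZ F A, L (cls F A c) = cls F' A' (T c) then
    Classical.choose h else 0

/-- Degree `k` projection. -/
def prH (F : Filter Y) (A : Set Y) (k : ℤ) : H F A →ₗ[ℂ] H F A := induced F A F A (prC k)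

/-- Twisted pull-back `a ↦ π^* a ∪ w`. -/
def tw (A : Set Y) (A' : Set Y') (π : Y' → Y) (w : Coch Y') : Hc A →ₗ[ℂ] Hc A' :=
  induced (cc A) A (cc A') A' fun a => cup (pb π a) w

open Classical in
/-- Extension by zero from an open subset. -/
def ext (U A : Set Y) : Hc U →ₗ[ℂ] Hc A :=
  if h : ∃ L : Hc U →ₗ[ℂ] Hc A, ∀ a ∈ ZZ (cc A) A, supp A a ⊆ U → L (clc U a) = clc A a then
    Classical.choose h else 0

/-- Restriction to a closed subset. -/
abbrev res (A A' : Set Y) : Hc A →ₗ[ℂ] Hc A' := tw A A' id one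

/-- The support of `w` is proper over `A`. -/
def PropOver (A : Set Y) (A' : Set Y') (π : Y' → Y) (w : Coch Y') : Prop :=
  ∀ C, IsCompact C → C ⊆ A → ∃ C', IsCompact C' ∧ C' ⊆ A' ∧ supp A' w ∩ π ⁻¹' C ⊆ C'

/-- Hypotheses under which `tw` is the induced map. -/
def TwOK (A : Set Y) (A' : Set Y') (π : Y' → Y) (w : Coch Y') : Prop :=
  ContinuousOn π A' ∧ MapsTo π A' A ∧ w ∈ ZZ ⊥ A' ∧ PropOver A A' π w

theorem prH_cls {F : Filter Y} {A : Set Y} (k : ℤ) {c : Coch Y} (hc : c ∈ ZZ F A) :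
    prH F A k (cls F A c) = cls F A (prC k c) := by
  have h : ∃ L : H F A →ₗ[ℂ] H F A, ∀ c ∈ ZZ F A, L (cls F A c) = cls F A (prC k c) :=
    exists_induced (Basic_prL Y k) (fun _ hc => prC_mem_ZZ k hc) fun _ _ hc => prC_mem_BB k hc
  rw [prH, induced, dif_pos h]
  exact Classical.choose_spec h c hc
theorem prH_prH {F : Filter Y} {A : Set Y} (j k : ℤ) (x : H F A) :
    prH F A j (prH F A k x) = if j = k then prH F A k x else 0 := by
  obtain ⟨c, hc, rfl⟩ := cls_surj x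
  rw [prH_cls k hc, prH_cls j (prC_mem_ZZ k hc)]
  split_ifs with h
  · rw [h, (HomC.prC k c).prC_self]
  · rw [(HomC.prC k c).prC_ne h, Basic_cls_zero]
theorem prH_neg {F : Filter Y} {A : Set Y} {k : ℤ} (hk : k < 0) (x : H F A) :
    prH F A k x = 0 := by
  obtain ⟨c, hc, rfl⟩ := cls_surj x
  rw [prH_cls k hc, (HomC.prC k c).eq_zero (hc.1.1.prC k).1 hk, Basic_cls_zero]
theorem sum_prH {F : Filter Y} {A : Set Y} (x : H F A) :
    ∃ N : ℕ, ∀ M : ℕ, N ≤ M → x = ∑ k ∈ Finset.range M, prH F A (k : ℤ) x := by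
  obtain ⟨c, hc, rfl⟩ := cls_surj x
  obtain ⟨N, hN⟩ := hc.1.1.sum_prC
  refine ⟨N, fun M hM => ?_⟩
  rw [Finset.sum_congr rfl fun (k : ℕ) _ => prH_cls (k : ℤ) hc,
    ← cls_sum _ fun (k : ℕ) _ => prC_mem_ZZ (k : ℤ) hc, ← hN M hM]
theorem eq_zero_of_prH {F : Filter Y} {A : Set Y} {x : H F A} (h : ∀ k, prH F A k x = 0) :
    x = 0 := by
  obtain ⟨N, hN⟩ := sum_prH x
  rw [hN N le_rfl]
  exact Finset.sum_eq_zero fun k _ => h k
theorem exists_homC_of_prH {F : Filter Y} {A : Set Y} {k : ℤ} {x : H F A} (h : prH F A k x = x) :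
    ∃ c ∈ ZZ F A, HomC k c ∧ cls F A c = x := by
  obtain ⟨c, hc, rfl⟩ := cls_surj x
  exact ⟨prC k c, prC_mem_ZZ k hc, HomC.prC k c, (prH_cls k hc).symm.trans h⟩

/-- The cohomology of a point. -/
theorem point_ZZ {F : Filter Y} {y : Y} {c : Coch Y} (hc : c ∈ ZZ F {y}) :
    c - c [y] • one ∈ BB ⊥ ({y} : Set Y) := by
  obtain ⟨U, hU, h⟩ := Basic_N0_apply hc.2 (mem_singleton y)
  have hb : Bdd (c - c [y] • one) := by
    rw [sub_eq_add_neg, ← neg_smul]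
    exact hc.1.1.add (Bdd.one.smul _)
  obtain ⟨N, hN⟩ := hb.2
  refine ⟨fun l => (c - c [y] • one : Coch Y) (y :: l), mem_CC_bot.2 ⟨by simp [one], N, fun l hl =>
    hN _ (by rw [List.length_cons]; omega)⟩, Basic_N0_of_forall fun l hl => ?_⟩
  rw [Pi.sub_apply, ← Basic_dd_cons, dd_sub, dd_smul, dd_one, smul_zero, sub_zero]
  refine h _ fun z hz => ?_
  have hz' : z = y := by
    rcases List.mem_cons.1 hz with h1 | h1
    · exact h1
    · exact hl z h1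
  rw [hz']
  exact ⟨mem_singleton y, mem_of_mem_nhds hU⟩

end Pool.Agent.HK
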