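import Pool.Agent.P.MP_1206ce_ag.AS.Euclid

/-! Convex charts, locally Euclidean subsets, dimension bound. -/

open scoped Topology
open Filter Set

noncomputable section

namespace Pool.Agent.HK

variable {Y : Type} [TopologicalSpace Y]
variable {F : Type} [NormedAddCommGroup F] [NormedSpace ℝ F] [FiniteDimensional ℝ F]

/-- `O` is homeomorphic to an open convex subset of `ℝ^D`. -/
def ConvChart (D : ℕ) (O : Set Y) : Prop :=
  ∃ (C : Set (Fin D → ℝ)) (f : Y → Fin D → ℝ) (g : (Fin D → ℝ) → Y),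
    Convex ℝ C ∧ IsOpen C ∧ HomeoOn f g O C

/-- Locally Euclidean of dimension at most `D`. -/
def LocEucLE (D : ℕ) (A : Set Y) : Prop :=
  ∀ y ∈ A, ∃ D' ≤ D, ∃ O, OpenIn O A ∧ y ∈ O ∧ ConvChart D' O

/-- Locally Euclidean. -/
def LocEuc (A : Set Y) : Prop := ∀ y ∈ A, ∃ D O, OpenIn O A ∧ y ∈ O ∧ ConvChart D O

theorem Chart_trans {Y' Y'' : Type} [TopologicalSpace Y'] [TopologicalSpace Y''] {A : Set Y}
    {A' : Set Y'} {A'' : Set Y''} {f : Y' → Y} {g : Y → Y'} {f' : Y'' → Y'} {g' : Y' → Y''}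
    (h : HomeoOn f g A' A) (h' : HomeoOn f' g' A'' A') : HomeoOn (f ∘ f') (g' ∘ g) A'' A := by
  obtain ⟨h1, h2, h3, h4, h5, h6⟩ := h
  obtain ⟨k1, k2, k3, k4, k5, k6⟩ := h'
  refine ⟨h1.comp k1 k3, k2.comp h2 h4, h3.comp k3, k4.comp h4, fun y hy => ?_, fun y hy => ?_⟩
  · simp only [Function.comp_apply]
    rw [h5 _ (k3 hy), k5 _ hy]
  · simp only [Function.comp_apply]
    rw [k6 _ (h4 hy), h6 _ hy]

theorem Chart_openIn_of_isOpen {B C : Set Y} (hB : IsOpen B) (h : B ⊆ C) : OpenIn B C :=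
  ⟨B, hB, (inter_eq_right.mpr h).symm⟩

omit [FiniteDimensional ℝ F] in
theorem Chart_small {O : Set Y} {C : Set F} {f : Y → F} {g : F → Y} (ho : IsOpen C)
    (h : HomeoOn f g O C) {V : Set Y} (hV : IsOpen V) {y : Y} (hy : y ∈ O) (hyV : y ∈ V) :
    ∃ B : Set F, Convex ℝ B ∧ IsOpen B ∧ B ⊆ C ∧ f y ∈ B ∧ O ∩ f ⁻¹' B ⊆ V := by
  obtain ⟨-, h2, h3, -, h5, -⟩ := h
  have hW : IsOpen (C ∩ g ⁻¹' V) := h2.isOpen_inter_preimage ho hV
  have hyW : f y ∈ C ∩ g ⁻¹' V := ⟨h3 hy, by rw [mem_preimage, h5 _ hy]; exact hyV⟩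
  obtain ⟨r, hr, hb⟩ := Metric.isOpen_iff.mp hW _ hyW
  refine ⟨Metric.ball (f y) r, convex_ball _ _, Metric.isOpen_ball, fun z hz => (hb hz).1,
    Metric.mem_ball_self hr, fun z hz => ?_⟩
  have := (hb hz.2).2
  rwa [mem_preimage, h5 _ hz.1] at this

theorem ConvChart.of_homeoOn {O : Set Y} {C : Set F} {f : Y → F} {g : F → Y} (hC : Convex ℝ C)
    (ho : IsOpen C) (h : HomeoOn f g O C) : ConvChart (Module.finrank ℝ F) O := by
  let e : F ≃L[ℝ] (Fin (Module.finrank ℝ F) → ℝ) := ContinuousLinearEquiv.ofFinrankEq (by simp)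
  have he : HomeoOn e e.symm C (e '' C) := by
    refine ⟨e.continuous.continuousOn, e.symm.continuous.continuousOn, mapsTo_image _ _, ?_,
      fun y _ => e.symm_apply_apply y, fun y _ => e.apply_symm_apply y⟩
    rintro _ ⟨x, hx, rfl⟩
    rwa [e.symm_apply_apply]
  exact ⟨e '' C, e ∘ f, g ∘ e.symm, hC.linear_image e.toLinearEquiv.toLinearMap, e.isOpenMap _ ho,
    Chart_trans he h⟩

/-- A chart onto an arbitrary open set contains small convex charts. -/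
theorem exists_convChart {A O : Set Y} {C : Set F} {f : Y → F} {g : F → Y} (hO : OpenIn O A)
    (ho : IsOpen C) (h : HomeoOn f g O C) {y : Y} (hy : y ∈ O) {O' : Set Y} (hO' : OpenIn O' A)
    (hy' : y ∈ O') : ∃ O'', OpenIn O'' A ∧ y ∈ O'' ∧ O'' ⊆ O' ∧
      ConvChart (Module.finrank ℝ F) O'' := by
  obtain ⟨V, hV, rfl⟩ := hO'
  obtain ⟨B, hB, hBo, hBC, hyB, hs⟩ := Chart_small ho h hV hy hy'.2
  refine ⟨O ∩ f ⁻¹' B, ((Chart_openIn_of_isOpen hBo hBC).preimage h.1 h.2.2.1).trans hO,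
    ⟨hy, hyB⟩, fun z hz => ⟨hO.subset hz.1, hs hz⟩, ConvChart.of_homeoOn hB hBo (h.restrict hBC)⟩

theorem ConvChart.exists_small {D : ℕ} {O O' : Set Y} (h : ConvChart D O) (hO' : OpenIn O' O)
    {y : Y} (hy : y ∈ O') : ∃ O'', OpenIn O'' O ∧ y ∈ O'' ∧ O'' ⊆ O' ∧ ConvChart D O'' ∧
      (Nice Y → Function.Bijective (ext O'' O)) := by
  obtain ⟨C, f, g, hC, ho, h⟩ := h
  obtain ⟨V, hV, rfl⟩ := hO'
  obtain ⟨B, hB, hBo, hBC, hyB, hs⟩ := Chart_small ho h hV hy.1 hy.2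
  have hBC' : OpenIn B C := Chart_openIn_of_isOpen hBo hBC
  refine ⟨O ∩ f ⁻¹' B, hBC'.preimage h.1 h.2.2.1, ⟨hy.1, hyB⟩, fun z hz => ⟨hz.1, hs hz⟩,
    ⟨B, f, g, hB, hBo, h.restrict hBC⟩, fun _ => ?_⟩
  have key := tw_ext (h.properOn.twOK (one_mem_ZZ O)) hBC' rfl
  have h1 : Function.Bijective (tw C O f one ∘ₗ ext B C) := by
    rw [LinearMap.coe_comp]
    exact h.tw_bijective.comp (ext_convex_bijective hC ho hB hBo ⟨_, hyB⟩ hBC)
  rw [key, LinearMap.coe_comp] at h1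
  exact (Function.Bijective.of_comp_iff _ (h.restrict hBC).tw_bijective).mp h1

theorem ConvChart.prod {Y' : Type} [TopologicalSpace Y'] {D D' : ℕ} {O : Set Y} {O' : Set Y'}
    (h : ConvChart D O) (h' : ConvChart D' O') : ConvChart (D + D') (O ×ˢ O') := by
  obtain ⟨C, f, g, hC, ho, h1, h2, h3, h4, h5, h6⟩ := h
  obtain ⟨C', f', g', hC', ho', k1, k2, k3, k4, k5, k6⟩ := h'
  have hh : HomeoOn (Prod.map f f') (Prod.map g g') (O ×ˢ O') (C ×ˢ C') :=
    ⟨h1.prodMap k1, h2.prodMap k2, h3.prodMap k3, h4.prodMap k4,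
      fun y hy => Prod.ext (h5 _ hy.1) (k5 _ hy.2), fun y hy => Prod.ext (h6 _ hy.1) (k6 _ hy.2)⟩
  have := ConvChart.of_homeoOn (hC.prod hC') (ho.prod ho') hh
  simpa using this

theorem ConvChart.of_homeoOn' {Y' : Type} [TopologicalSpace Y'] {D : ℕ} {O : Set Y} {O' : Set Y'}
    {f : Y' → Y} {g : Y → Y'} (h : ConvChart D O) (hf : HomeoOn f g O' O) : ConvChart D O' := by
  obtain ⟨C, f', g', hC, ho, h⟩ := h
  exact ⟨C, f' ∘ f, g ∘ g', hC, ho, Chart_trans h hf⟩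

theorem ConvChart.exists_gen {D : ℕ} {O : Set Y} (h : ConvChart D O) (hne : O.Nonempty) :
    ∃ w : Coch Y, HomC D w ∧ IsGenOn O w := by
  obtain ⟨C, f, g, hC, ho, h⟩ := h
  obtain ⟨y, hy⟩ := hne
  obtain ⟨w, hw, hg⟩ := exists_gen_convex hC ho ⟨f y, h.2.2.1 hy⟩
  refine ⟨pb f w, ?_, IsGenOn.of_homeoOn h hg (pb_mem_ZZ_cc h.properOn hg.1) ?_⟩
  · have := hw.pb f
    simpa using this
  · rw [sub_self]
    exact Submodule.zero_mem _

theorem LocEucLE.locEuc {D : ℕ} {A : Set Y} (h : LocEucLE D A) : LocEuc A := fun y hy => by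
  obtain ⟨D', -, O, h1, h2, h3⟩ := h y hy
  exact ⟨D', O, h1, h2, h3⟩

theorem Chart_shrink {D : ℕ} {A U O : Set Y} (hU : OpenIn U A) (hO : OpenIn O A)
    (h : ConvChart D O) {y : Y} (hyU : y ∈ U) (hyO : y ∈ O) :
    ∃ O'', OpenIn O'' U ∧ y ∈ O'' ∧ ConvChart D O'' := by
  obtain ⟨V, hV, rfl⟩ := hU
  obtain ⟨O'', h1, h2, h3, h4, -⟩ := h.exists_small (O' := O ∩ V) ⟨V, hV, rfl⟩ ⟨hyO, hyU.2⟩
  exact ⟨O'', (h1.trans hO).of_subset (fun z hz => ⟨hO.subset (h3 hz).1, (h3 hz).2⟩)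
    inter_subset_left, h2, h4⟩

theorem LocEucLE.openIn {D : ℕ} {A U : Set Y} (h : LocEucLE D A) (hU : OpenIn U A) :
    LocEucLE D U := fun y hy => by
  obtain ⟨D', hD, O, h1, h2, h3⟩ := h y (hU.subset hy)
  obtain ⟨O'', k1, k2, k3⟩ := Chart_shrink hU h1 h3 hy h2
  exact ⟨D', hD, O'', k1, k2, k3⟩

theorem LocEuc.openIn {A U : Set Y} (h : LocEuc A) (hU : OpenIn U A) : LocEuc U :=   fun y hy => by
  obtain ⟨D', O, h1, h2, h3⟩ := h y (hU.subset hy)
  obtain ⟨O'', k1, k2, k3⟩ := Chart_shrink hU h1 h3 hy h2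
  exact ⟨D', O'', k1, k2, k3⟩

omit [NormedSpace ℝ F] [FiniteDimensional ℝ F] in
theorem Chart_lc_open [LocallyCompactSpace F] {C : Set F} (ho : IsOpen C) : LC C :=
  LC.univ.openIn (Chart_openIn_of_isOpen ho (subset_univ _))

theorem LocEuc.lc {A : Set Y} (h : LocEuc A) : LC A := fun y hy => by
  obtain ⟨D, O, ⟨V, hV, rfl⟩, h2, C, f, g, -, ho, h⟩ := h y hy
  obtain ⟨K, hK, hKO, hn⟩ := LC.of_homeoOn h (Chart_lc_open ho) y h2
  refine ⟨K, hK, hKO.trans inter_subset_left, ?_⟩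
  rwa [nhdsWithin_inter_of_mem' (mem_nhdsWithin_of_mem_nhds (hV.mem_nhds h2.2))] at hn

theorem LocEuc.prod {Y' : Type} [TopologicalSpace Y'] {A : Set Y} {A' : Set Y'} (h : LocEuc A)
    (h' : LocEuc A') : LocEuc (A ×ˢ A') := fun y hy => by
  obtain ⟨D, O, ⟨V, hV, rfl⟩, h2, h3⟩ := h y.1 hy.1
  obtain ⟨D', O', ⟨V', hV', rfl⟩, k2, k3⟩ := h' y.2 hy.2
  exact ⟨D + D', _, ⟨V ×ˢ V', hV.prod hV', (prod_inter_prod).symm⟩, ⟨h2, k2⟩, h3.prod k3⟩

theorem LocEuc.of_homeoOn {Y' : Type} [TopologicalSpace Y'] {A : Set Y} {A' : Set Y'}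
    {f : Y' → Y} {g : Y → Y'} (h : LocEuc A) (hf : HomeoOn f g A' A) : LocEuc A' :=   fun y hy => by
  obtain ⟨D, O, h1, h2, h3⟩ := h (f y) (hf.2.2.1 hy)
  exact ⟨D, A' ∩ f ⁻¹' O, h1.preimage hf.1 hf.2.2.1, ⟨hy, h2⟩,
    h3.of_homeoOn' (hf.restrict h1.subset)⟩

theorem locEuc_submodule (Λ : Submodule ℝ F) : LocEuc (Λ : Set F) := fun y hy => by
  obtain ⟨p, hp⟩ := Λ.subtype.exists_leftInverse_of_injective (Submodule.ker_subtype Λ)
  have hp' : ∀ v : Λ, p (v : F) = v := fun v => LinearMap.congr_fun hp v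
  have hh : HomeoOn p (Subtype.val : Λ → F) (Λ : Set F) univ :=
    ⟨p.continuous_of_finiteDimensional.continuousOn, continuous_subtype_val.continuousOn,
      mapsTo_univ _ _, fun v _ => v.2, fun v hv => congrArg Subtype.val (hp' ⟨v, hv⟩),
      fun v _ => hp' v⟩
  exact ⟨_, Λ, OpenIn.refl _, hy, ConvChart.of_homeoOn convex_univ isOpen_univ hh⟩


/-- Vanishing of compactly supported cohomology above degree `D`. -/
def Chart_Van (D : ℤ) (A : Set Y) : Prop := ∀ k, D < k → ∀ x : Hc A, prH _ A k x = 0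

theorem Chart_van_empty (D : ℤ) : Chart_Van D (∅ : Set Y) := fun _ _ _ => Subsingleton.elim _ _

theorem Chart_van_homeo {Y' : Type} [TopologicalSpace Y'] {D : ℤ} {A : Set Y} {A' : Set Y'}
    {f : Y' → Y} {g : Y → Y'} (h : HomeoOn f g A' A) (hA : Chart_Van D A) : Chart_Van D A' := by
  intro k hk x'
  obtain ⟨x, rfl⟩ := h.tw_bijective.2 x'
  have := tw_prH (h.properOn.twOK (one_mem_ZZ A')) HomC.one k x
  rw [add_zero, hA k hk x, map_zero] at this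
  exact this

theorem Chart_van_convex {D : ℤ} {C : Set F} (hC : Convex ℝ C) (ho : IsOpen C)
    (hD : (Module.finrank ℝ F : ℤ) ≤ D) : Chart_Van D C := by
  rcases C.eq_empty_or_nonempty with rfl | hne
  · exact Chart_van_empty D
  obtain ⟨w, hw, h1, -, h3⟩ := exists_gen_convex hC ho hne
  intro k hk x
  obtain ⟨z, rfl⟩ := h3 x
  rw [map_smul, prH_cls k h1, hw.prC_ne (by omega),
    (cls_eq_zero_iff (Submodule.zero_mem _)).mpr (Submodule.zero_mem _), smul_zero]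

/-- The closed part of the long exact sequence. -/
theorem Chart_van_closed [Nice Y] {D : ℤ} {A A' U : Set Y} (hA : LC A) (h : ClosedIn A' A)
    (hU : U = A \ A') (h1 : Chart_Van D A) (h2 : Chart_Van D U) : Chart_Van D A' := by
  intro k hk x
  obtain ⟨δ, -, e2, -, e4, -⟩ := les hA h hU
  have h0 : δ (prH _ A' k x) = 0 := by rw [← e4 k x, h2 (k + 1) (by omega)]
  obtain ⟨z, hz⟩ := (e2 _).mp h0
  have h3 := tw_prH (h.properOn.twOK (one_mem_ZZ A')) HomC.one k z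
  rw [add_zero, h1 k hk z, map_zero] at h3
  have h4 := prH_prH k k x
  rw [if_pos rfl] at h4
  rw [← h4, ← hz]
  exact h3

theorem Chart_openIn_union {A U V : Set Y} (hU : OpenIn U A) (hV : OpenIn V A) :
    OpenIn (U ∪ V) A := by
  obtain ⟨O, hO, rfl⟩ := hU
  obtain ⟨O', hO', rfl⟩ := hV
  exact ⟨O ∪ O', hO.union hO', (inter_union_distrib_left _ _ _).symm⟩

theorem Chart_openIn_inter {A U V : Set Y} (hU : OpenIn U A) (hV : OpenIn V A) :
    OpenIn (U ∩ V) A := by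
  obtain ⟨O, hO, rfl⟩ := hU
  obtain ⟨O', hO', rfl⟩ := hV
  exact ⟨O ∩ O', hO.inter hO', (inter_inter_distrib_left _ _ _).symm⟩

/-- Mayer-Vietoris for two open subsets. -/
theorem Chart_van_union [Nice Y] {D : ℤ} {A U V : Set Y} (hA : LC A) (hU : OpenIn U A)
    (hV : OpenIn V A) (h1 : Chart_Van D U) (h2 : Chart_Van D V) (h3 : Chart_Van D (U ∩ V)) :
    Chart_Van D (U ∪ V) := by
  have hUV : OpenIn (U ∪ V) A := Chart_openIn_union hU hV
  have hU' : OpenIn U (U ∪ V) := hU.of_subset subset_union_left hUV.subset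
  have hI : OpenIn (U ∩ V) V := (Chart_openIn_inter hU hV).of_subset inter_subset_right hV.subset
  have h4 : Chart_Van D (V \ (U ∩ V)) :=
    Chart_van_closed (hA.openIn hV) hI.diff (sdiff_sdiff_cancel_left inter_subset_right).symm h2 h3
  have e : (U ∪ V) \ U = V \ (U ∩ V) := by
    ext z
    simp only [Set.mem_sdiff, mem_union, mem_inter_iff]
    tauto
  intro k hk x
  have := prH_eq_zero_total (k := k) (hA.openIn hUV) hU'.diff
    (sdiff_sdiff_cancel_left subset_union_left).symm (LinearMap.ext (h1 k hk))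
    (by rw [e]; exact LinearMap.ext (h4 k hk))
  rw [this, LinearMap.zero_apply]

theorem Chart_openIn_list {A : Set Y} (L : List (Set Y)) (hL : ∀ B ∈ L, OpenIn B A) :
    OpenIn (⋃ B ∈ L, B) A := by
  induction L with
  | nil => exact ⟨∅, isOpen_empty, by simp⟩
  | cons b L ih =>
    have e : (⋃ B ∈ b :: L, B) = b ∪ ⋃ B ∈ L, B := by
      ext z
      simp
    rw [e]
    exact Chart_openIn_union (hL b (by simp)) (ih fun B hB => hL B (by simp [hB]))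

theorem Chart_van_list [Nice Y] {D : ℤ} {A : Set Y} (hA : LC A) (S : Set (Set Y))
    (hS : ∀ B ∈ S, ∀ B' ∈ S, B ∩ B' ∈ S) (ho : ∀ B ∈ S, OpenIn B A)
    (hv : ∀ B ∈ S, Chart_Van D B) (n : ℕ) :
    ∀ L : List (Set Y), L.length = n → (∀ B ∈ L, B ∈ S) → Chart_Van D (⋃ B ∈ L, B) := by
  induction n with
  | zero =>
    intro L hL _
    rw [List.length_eq_zero_iff.mp hL]
    simpa using Chart_van_empty D
  | succ n ih =>
    intro L hL hm
    obtain ⟨b, L, rfl⟩ := List.exists_cons_of_length_eq_add_one hL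
    have e : (⋃ B ∈ b :: L, B) = b ∪ ⋃ B ∈ L, B := by
      ext z
      simp
    have e' : b ∩ (⋃ B ∈ L, B) = ⋃ B ∈ L.map (fun B => b ∩ B), B := by
      ext z
      simp only [mem_inter_iff, mem_iUnion, List.mem_map, exists_prop]
      constructor
      · rintro ⟨hz, B, hB, hzB⟩
        exact ⟨_, ⟨B, hB, rfl⟩, hz, hzB⟩
      · rintro ⟨_, ⟨B, hB, rfl⟩, hz, hzB⟩
        exact ⟨hz, B, hB, hzB⟩
    have hb : b ∈ S := hm b (by simp)
    have hm' : ∀ B ∈ L, B ∈ S := fun B hB => hm B (by simp [hB])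
    have hl : L.length = n := by simpa using hL
    rw [e]
    refine Chart_van_union hA (ho b hb) (Chart_openIn_list L fun B hB => ho B (hm' B hB))
      (hv b hb) (ih L hl hm') ?_
    rw [e']
    refine ih _ (by simpa using hl) fun B hB => ?_
    obtain ⟨B', hB', rfl⟩ := List.mem_map.mp hB
    exact hS b hb B' (hm' B' hB')

/-- Vanishing passes from an intersection-closed open cover to the whole set. -/
theorem Chart_van_cover [Nice Y] {D : ℤ} {A : Set Y} (hA : LC A) (S : Set (Set Y))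
    (hS : ∀ B ∈ S, ∀ B' ∈ S, B ∩ B' ∈ S) (ho : ∀ B ∈ S, OpenIn B A)
    (hv : ∀ B ∈ S, Chart_Van D B) (hc : ∀ y ∈ A, ∃ B ∈ S, y ∈ B) : Chart_Van D A := by
  intro k hk x
  have : Nonempty {L : List (Set Y) // ∀ B ∈ L, B ∈ S} := ⟨⟨[], by simp⟩⟩
  have hop : ∀ L : {L : List (Set Y) // ∀ B ∈ L, B ∈ S}, OpenIn (⋃ B ∈ L.1, B) A :=
    fun L => Chart_openIn_list L.1 fun B hB => ho B (L.2 B hB)
  obtain ⟨L, y, rfl⟩ := exists_ext_of_directed
    (fun L : {L : List (Set Y) // ∀ B ∈ L, B ∈ S} => ⋃ B ∈ L.1, B) hop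
    (fun L L' => ⟨⟨L.1 ++ L'.1, fun B hB => (List.mem_append.mp hB).elim (L.2 B) (L'.2 B)⟩,
      biUnion_subset_biUnion_left fun B hB => List.mem_append_left _ hB,
      biUnion_subset_biUnion_left fun B hB => List.mem_append_right _ hB⟩)
    (fun y hy => by
      obtain ⟨B, hB, hyB⟩ := hc y hy
      exact mem_iUnion.mpr ⟨⟨[B], by simpa using hB⟩, by simpa using hyB⟩) x
  rw [ext_prH (hop L), Chart_van_list hA S hS ho hv _ L.1 rfl L.2 k hk y, map_zero]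

theorem Chart_van_open {D' : ℕ} {D : ℤ} (hD : (D' : ℤ) ≤ D) {W : Set (Fin D' → ℝ)}
    (hW : IsOpen W) : Chart_Van D W := by
  refine Chart_van_cover (Chart_lc_open hW) {B | Convex ℝ B ∧ IsOpen B ∧ B ⊆ W}
    (fun B hB B' hB' => ⟨hB.1.inter hB'.1, hB.2.1.inter hB'.2.1, inter_subset_left.trans hB.2.2⟩)
    (fun B hB => Chart_openIn_of_isOpen hB.2.1 hB.2.2)
    (fun B hB => Chart_van_convex hB.1 hB.2.1 (by simpa using hD)) fun y hy => ?_
  obtain ⟨r, hr, hb⟩ := Metric.isOpen_iff.mp hW _ hy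
  exact ⟨Metric.ball y r, ⟨convex_ball _ _, Metric.isOpen_ball, hb⟩, Metric.mem_ball_self hr⟩

/-- Dimension bound. -/
theorem LocEucLE.prH_eq_zero [Nice Y] {D : ℕ} {A : Set Y} (h : LocEucLE D A) {k : ℤ}
    (hk : (D : ℤ) < k) : prH _ A k = (0 : Hc A →ₗ[ℂ] Hc A) := by
  refine LinearMap.ext (Chart_van_cover (D := D) h.locEuc.lc
    {B | OpenIn B A ∧ ∃ D' ≤ D, ∃ (W : Set (Fin D' → ℝ)) (f : Y → Fin D' → ℝ)
      (g : (Fin D' → ℝ) → Y), IsOpen W ∧ HomeoOn f g B W} ?_ (fun B hB => hB.1) ?_ ?_ k hk)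
  · rintro B ⟨hB, D', hD, W, f, g, hW, hf⟩ B' ⟨hB', -⟩
    refine ⟨Chart_openIn_inter hB hB', D', hD, ?_⟩
    obtain ⟨V, hV, rfl⟩ := hB'
    refine ⟨W ∩ g ⁻¹' V, f, g, hf.2.1.isOpen_inter_preimage hW hV, ?_⟩
    have e : B ∩ (A ∩ V) = B ∩ f ⁻¹' (W ∩ g ⁻¹' V) := by
      ext z
      constructor
      · rintro ⟨hz, -, hzV⟩
        refine ⟨hz, hf.2.2.1 hz, ?_⟩
        rw [mem_preimage, hf.2.2.2.2.1 z hz]
        exact hzV
      · rintro ⟨hz, -, hzV⟩
        rw [mem_preimage, hf.2.2.2.2.1 z hz] at hzV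
        exact ⟨hz, hB.subset hz, hzV⟩
    rw [e]
    exact hf.restrict inter_subset_left
  · rintro B ⟨-, D', hD, W, f, g, hW, hf⟩
    exact Chart_van_homeo hf (Chart_van_open (by exact_mod_cast hD) hW)
  · intro y hy
    obtain ⟨D', hD, O, h1, h2, C, f, g, -, ho, hf⟩ := h y hy
    exact ⟨O, ⟨h1, D', hD, C, f, g, ho, hf⟩, h2⟩


end Pool.Agent.HK
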