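import Pool.Agent.P.MP_1206ce_ag.Defs

/-! Cochain level algebra and supports. -/

open scoped Topology
open Filter Set

noncomputable section

namespace Pool.Agent.HK

variable {Y Y' Y'' : Type}

/-- Bounded degree, no component on the empty list. -/
def Bdd (c : Coch Y) : Prop := c [] = 0 ∧ ∃ N : ℕ, ∀ l : List Y, N < l.length → c l = 0

/-- Homogeneous of degree `k`. -/
def HomC (k : ℤ) (c : Coch Y) : Prop := ∀ l : List Y, (l.length : ℤ) ≠ k + 1 → c l = 0

/-- Degree `k` component. -/
def prC (k : ℤ) (c : Coch Y) : Coch Y := fun l => if (l.length : ℤ) = k + 1 then c l else 0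

/-- The sign twist `(-1)^degree`. -/
def sgC (c : Coch Y) : Coch Y := fun l => (-1 : ℂ) ^ (l.length + 1) * c l

open Classical in
/-- Extension by zero: kill all lists that leave `U`. -/
def ext0 (U : Set Y) (c : Coch Y) : Coch Y := fun l => if ∀ z ∈ l, z ∈ U then c l else 0

/-- Product of a list of cochains. -/
def cupL (L : List (Coch Y)) : Coch Y := L.foldr cup one

/-- The shift of a cochain by a first point. -/
def Coch_sh (x : Y) (a : Coch Y) : Coch Y := fun l => a (x :: l)

theorem Coch_dd_cons (a : Coch Y) (x : Y) (l : List Y) :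
    dd a (x :: l) = a l - dd (Coch_sh x a) l := by
  simp only [dd, Coch_sh, List.length_cons, Finset.sum_range_succ', List.eraseIdx_cons_succ,
    List.eraseIdx_cons_zero, pow_succ, mul_neg, mul_one, neg_mul, Finset.sum_neg_distrib,
    pow_zero, one_mul]
  ring

theorem Coch_sh_dd (x : Y) (a : Coch Y) : Coch_sh x (dd a) = a - dd (Coch_sh x a) :=
  funext fun l => Coch_dd_cons a x l

theorem Coch_cup_nil (a b : Coch Y) : cup a b [] = 0 := rfl

theorem Coch_cup_cons (a b : Coch Y) (x : Y) (l : List Y) :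
    cup a b (x :: l) = a [x] * b (x :: l) + cup (Coch_sh x a) b l := by
  simp only [cup, Coch_sh, List.length_cons, Finset.sum_range_succ', List.take_succ_cons,
    List.drop_succ_cons, List.take_zero, List.drop_zero]
  ring

theorem Coch_sh_cup (x : Y) (a b : Coch Y) :
    Coch_sh x (cup a b) = a [x] • Coch_sh x b + cup (Coch_sh x a) b :=
  funext fun l => Coch_cup_cons a b x l

theorem Coch_sh_sg (x : Y) (a : Coch Y) : Coch_sh x (sgC a) = (-1 : ℂ) • sgC (Coch_sh x a) := by
  funext l
  simp only [Coch_sh, sgC, List.length_cons, Pi.smul_apply, smul_eq_mul]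
  ring

theorem Coch_add_cup (a a' b : Coch Y) : cup (a + a') b = cup a b + cup a' b := by
  funext l
  simp only [cup, Pi.add_apply, add_mul, Finset.sum_add_distrib]

theorem Coch_sub_cup (a a' b : Coch Y) : cup (a - a') b = cup a b - cup a' b := by
  funext l
  simp only [cup, Pi.sub_apply, sub_mul, Finset.sum_sub_distrib]

theorem Coch_smul_cup (z : ℂ) (a b : Coch Y) : cup (z • a) b = z • cup a b := by
  funext l
  simp only [cup, Pi.smul_apply, smul_eq_mul, Finset.mul_sum, mul_assoc]

theorem Coch_cup_one (a : Coch Y) (x : Y) (l : List Y) : cup a one (x :: l) = a (x :: l) := by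
  induction l generalizing a x with
  | nil => rw [Coch_cup_cons, Coch_cup_nil]; simp [one]
  | cons y l ih => rw [Coch_cup_cons, ih]; simp [one, Coch_sh]

theorem dd_add (a b : Coch Y) : dd (a + b) = dd a + dd b := by
  funext l
  simp only [dd, Pi.add_apply, mul_add, Finset.sum_add_distrib]

theorem dd_smul (z : ℂ) (a : Coch Y) : dd (z • a) = z • dd a := by
  funext l
  simp only [dd, Pi.smul_apply, smul_eq_mul, Finset.mul_sum, mul_left_comm]

theorem dd_zero : dd (0 : Coch Y) = 0 := by
  funext l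
  simp [dd]

theorem dd_sub (a b : Coch Y) : dd (a - b) = dd a - dd b := by
  funext l
  simp only [dd, Pi.sub_apply, mul_sub, Finset.sum_sub_distrib]

theorem dd_dd (a : Coch Y) : dd (dd a) = 0 := by
  funext l
  induction l generalizing a with
  | nil => rfl
  | cons x l ih => rw [Coch_dd_cons, Coch_sh_dd, dd_sub, Pi.sub_apply, ih]; simp

theorem dd_one : dd (one : Coch Y) = 0 := by
  funext l
  by_cases h : l.length = 2
  · obtain ⟨x, y, rfl⟩ := List.length_eq_two.1 h
    simp [dd, one, Finset.sum_range_succ]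
  · refine Finset.sum_eq_zero fun i hi => ?_
    have h1 := Finset.mem_range.1 hi
    rw [one, if_neg (by rw [List.length_eraseIdx_of_lt h1]; omega), mul_zero]

theorem Coch_dd_cup {b : Coch Y} (hb : b [] = 0) (a : Coch Y) (l : List Y) :
    dd (cup a b) l = cup (dd a) b l + cup (sgC a) (dd b) l - a [] * b l := by
  induction l generalizing a with
  | nil => rw [hb, Coch_cup_nil, Coch_cup_nil]; simp [dd]
  | cons x l ih =>
    have e1 : dd a [x] = a [] := by simp [dd]
    have e2 : sgC a [x] = a [x] := by simp [sgC]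
    have e3 : Coch_sh x a [] = a [x] := rfl
    rw [Coch_dd_cons, Coch_sh_cup, dd_add, dd_smul, Pi.add_apply, ih, Coch_cup_cons (dd a),
      Coch_cup_cons (sgC a), Coch_sh_dd, Coch_sh_sg, Coch_sub_cup, Coch_smul_cup,
      Coch_dd_cons b, e1, e2, e3]
    simp only [Pi.smul_apply, Pi.sub_apply, smul_eq_mul]
    ring

theorem dd_cup {a b : Coch Y} (ha : a [] = 0) (hb : b [] = 0) :
    dd (cup a b) = cup (dd a) b + cup (sgC a) (dd b) := by
  funext l
  rw [Coch_dd_cup hb, ha]
  simp

theorem cup_assoc (a b c : Coch Y) : cup (cup a b) c = cup a (cup b c) := by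
  funext l
  induction l generalizing a with
  | nil => rfl
  | cons x l ih =>
    rw [Coch_cup_cons, Coch_sh_cup, Coch_add_cup, Coch_smul_cup, Pi.add_apply, ih,
      Coch_cup_cons a (cup b c), Coch_cup_cons b c, Coch_cup_cons a b, Coch_cup_nil]
    simp only [Pi.smul_apply, smul_eq_mul]
    ring

theorem one_cup {a : Coch Y} (ha : a [] = 0) : cup one a = a := by
  funext l
  cases l with
  | nil => rw [ha]; rfl
  | cons x l =>
    have h : cup (Coch_sh x one) a l = 0 := Finset.sum_eq_zero fun i hi => by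
      have h1 := Finset.mem_range.1 hi
      rw [Coch_sh, one, if_neg (by simp only [List.length_cons, List.length_take]; omega),
        zero_mul]
    rw [Coch_cup_cons, h]
    simp [one]

theorem cup_one {a : Coch Y} (ha : a [] = 0) : cup a one = a := by
  funext l
  cases l with
  | nil => rw [ha]; rfl
  | cons x l => exact Coch_cup_one a x l

theorem cup_nil (a b : Coch Y) : cup a b [] = 0 := rfl

theorem add_cup (a a' b : Coch Y) : cup (a + a') b = cup a b + cup a' b := Coch_add_cup a a' b

theorem cup_add (a b b' : Coch Y) : cup a (b + b') = cup a b + cup a b' := by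
  funext l
  simp only [cup, Pi.add_apply, mul_add, Finset.sum_add_distrib]

theorem sub_cup (a a' b : Coch Y) : cup (a - a') b = cup a b - cup a' b := Coch_sub_cup a a' b

theorem cup_sub (a b b' : Coch Y) : cup a (b - b') = cup a b - cup a b' := by
  funext l
  simp only [cup, Pi.sub_apply, mul_sub, Finset.sum_sub_distrib]

theorem smul_cup (z : ℂ) (a b : Coch Y) : cup (z • a) b = z • cup a b := Coch_smul_cup z a b

theorem cup_smul (z : ℂ) (a b : Coch Y) : cup a (z • b) = z • cup a b := by
  funext l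
  simp only [cup, Pi.smul_apply, smul_eq_mul, Finset.mul_sum, mul_left_comm]

theorem zero_cup (b : Coch Y) : cup 0 b = 0 := by
  funext l
  simp [cup]

theorem cup_zero (a : Coch Y) : cup a 0 = 0 := by
  funext l
  simp [cup]

theorem sum_cup {ι : Type} (s : Finset ι) (a : ι → Coch Y) (b : Coch Y) :
    cup (∑ i ∈ s, a i) b = ∑ i ∈ s, cup (a i) b := by
  funext l
  simp only [cup, Finset.sum_apply, Finset.sum_mul]
  exact Finset.sum_comm

theorem cup_sum {ι : Type} (s : Finset ι) (a : Coch Y) (b : ι → Coch Y) :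
    cup a (∑ i ∈ s, b i) = ∑ i ∈ s, cup a (b i) := by
  funext l
  simp only [cup, Finset.sum_apply, Finset.mul_sum]
  exact Finset.sum_comm

theorem pb_add (f : Y' → Y) (a b : Coch Y) : pb f (a + b) = pb f a + pb f b := rfl

theorem pb_sub (f : Y' → Y) (a b : Coch Y) : pb f (a - b) = pb f a - pb f b := rfl

theorem pb_smul (f : Y' → Y) (z : ℂ) (a : Coch Y) : pb f (z • a) = z • pb f a := rfl

theorem pb_zero (f : Y' → Y) : pb f (0 : Coch Y) = 0 := rfl

theorem pb_sum {ι : Type} (f : Y' → Y) (s : Finset ι) (a : ι → Coch Y) :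
    pb f (∑ i ∈ s, a i) = ∑ i ∈ s, pb f (a i) := by
  funext l
  simp only [pb, Finset.sum_apply]

theorem pb_dd (f : Y' → Y) (a : Coch Y) : pb f (dd a) = dd (pb f a) := by
  funext l
  simp only [pb, dd, List.length_map, List.eraseIdx_map]

theorem pb_cup (f : Y' → Y) (a b : Coch Y) : pb f (cup a b) = cup (pb f a) (pb f b) := by
  funext l
  simp only [pb, cup, List.length_map, List.map_take, List.map_drop]

theorem pb_one (f : Y' → Y) : pb f (one : Coch Y) = one := by
  funext l
  simp only [pb, one, List.length_map]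

theorem pb_pb (f : Y' → Y) (g : Y'' → Y') (a : Coch Y) : pb g (pb f a) = pb (f ∘ g) a := by
  funext l
  simp only [pb, List.map_map]

theorem pb_id (a : Coch Y) : pb id a = a := by
  funext l
  simp only [pb, List.map_id]

theorem pb_cupL (f : Y' → Y) (L : List (Coch Y)) : pb f (cupL L) = cupL (L.map (pb f)) := by
  induction L with
  | nil => exact pb_one f
  | cons a L ih => exact (pb_cup f a (cupL L)).trans (congrArg (cup (pb f a)) ih)

theorem cupL_append (L L' : List (Coch Y)) : cupL (L ++ L') = cup (cupL L) (cupL L') := by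
  induction L with
  | nil =>
    refine (one_cup ?_).symm
    cases L' with
    | nil => simp [cupL, one]
    | cons a L' => rfl
  | cons a L ih => exact (congrArg (cup a) ih).trans (cup_assoc a _ _).symm

theorem Bdd.zero : Bdd (0 : Coch Y) := ⟨rfl, 0, fun _ _ => rfl⟩

theorem Bdd.one : Bdd (one : Coch Y) :=
  ⟨by simp [Pool.Agent.HK.one], 1, fun _ h => if_neg h.ne'⟩

theorem Bdd.add {a b : Coch Y} (ha : Bdd a) (hb : Bdd b) : Bdd (a + b) := by
  obtain ⟨a0, N, hN⟩ := ha
  obtain ⟨b0, M, hM⟩ := hb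
  refine ⟨by simp [a0, b0], N + M, fun l h => ?_⟩
  rw [Pi.add_apply, hN l (by omega), hM l (by omega), add_zero]

theorem Bdd.smul (z : ℂ) {a : Coch Y} (ha : Bdd a) : Bdd (z • a) := by
  obtain ⟨a0, N, hN⟩ := ha
  exact ⟨by simp [a0], N, fun l h => by simp [hN l h]⟩

theorem Bdd.dd {a : Coch Y} (ha : Bdd a) : Bdd (dd a) := by
  obtain ⟨-, N, hN⟩ := ha
  refine ⟨rfl, N + 1, fun l h => Finset.sum_eq_zero fun i hi => ?_⟩
  rw [hN _ (by rw [List.length_eraseIdx_of_lt (Finset.mem_range.1 hi)]; omega), mul_zero]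

theorem Bdd.cup {a b : Coch Y} (ha : Bdd a) (hb : Bdd b) : Bdd (cup a b) := by
  obtain ⟨-, N, hN⟩ := ha
  obtain ⟨-, M, hM⟩ := hb
  refine ⟨rfl, N + M, fun l h => Finset.sum_eq_zero fun i hi => ?_⟩
  have h1 := Finset.mem_range.1 hi
  by_cases h2 : N < i + 1
  · rw [hN _ (by rw [List.length_take]; omega), zero_mul]
  · rw [hM _ (by rw [List.length_drop]; omega), mul_zero]

theorem Bdd.pb (f : Y' → Y) {a : Coch Y} (ha : Bdd a) : Bdd (pb f a) := by
  obtain ⟨a0, N, hN⟩ := ha
  exact ⟨a0, N, fun l h => hN _ (by rwa [List.length_map])⟩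

theorem Bdd.prC (k : ℤ) {a : Coch Y} (ha : Bdd a) : Bdd (prC k a) := by
  obtain ⟨a0, N, hN⟩ := ha
  exact ⟨by simp [Pool.Agent.HK.prC, a0], N, fun l h => by simp [Pool.Agent.HK.prC, hN l h]⟩

theorem Bdd.sgC {a : Coch Y} (ha : Bdd a) : Bdd (sgC a) := by
  obtain ⟨a0, N, hN⟩ := ha
  exact ⟨by simp [Pool.Agent.HK.sgC, a0], N, fun l h => by simp [Pool.Agent.HK.sgC, hN l h]⟩

theorem Bdd.ext0 (U : Set Y) {a : Coch Y} (ha : Bdd a) : Bdd (ext0 U a) := by
  obtain ⟨a0, N, hN⟩ := ha
  exact ⟨by simp [Pool.Agent.HK.ext0, a0], N, fun l h => by simp [Pool.Agent.HK.ext0, hN l h]⟩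

theorem HomC.bdd {k : ℤ} {a : Coch Y} (ha : HomC k a) (hk : 0 ≤ k) : Bdd a :=
  ⟨ha [] (by simp only [List.length_nil]; omega), (k + 1).toNat, fun l h => ha l (by omega)⟩

theorem HomC.eq_zero {k : ℤ} {a : Coch Y} (ha : HomC k a) (h0 : a [] = 0) (hk : k < 0) :
    a = 0 := by
  funext l
  cases l with
  | nil => exact h0
  | cons x l => exact ha _ (by simp only [List.length_cons]; omega)

theorem HomC.one : HomC 0 (one : Coch Y) := fun _ h => if_neg (by omega)

theorem HomC.zero (k : ℤ) : HomC k (0 : Coch Y) := fun _ _ => rfl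

theorem HomC.add {k : ℤ} {a b : Coch Y} (ha : HomC k a) (hb : HomC k b) : HomC k (a + b) :=
  fun l h => by rw [Pi.add_apply, ha l h, hb l h, add_zero]

theorem HomC.smul {k : ℤ} (z : ℂ) {a : Coch Y} (ha : HomC k a) : HomC k (z • a) :=
  fun l h => by simp [ha l h]

theorem HomC.dd {k : ℤ} {a : Coch Y} (ha : HomC k a) : HomC (k + 1) (dd a) :=
  fun l h => Finset.sum_eq_zero fun i hi => by
    have h1 := Finset.mem_range.1 hi
    rw [ha _ (by rw [List.length_eraseIdx_of_lt h1]; omega), mul_zero]

theorem HomC.cup {j k : ℤ} {a b : Coch Y} (ha : HomC j a) (hb : HomC k b) :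
    HomC (j + k) (cup a b) :=
  fun l h => Finset.sum_eq_zero fun i hi => by
    have h1 := Finset.mem_range.1 hi
    by_cases h2 : (i : ℤ) = j
    · rw [hb _ (by rw [List.length_drop]; omega), mul_zero]
    · rw [ha _ (by rw [List.length_take]; omega), zero_mul]

theorem HomC.pb {k : ℤ} (f : Y' → Y) {a : Coch Y} (ha : HomC k a) : HomC k (pb f a) :=
  fun l h => ha _ (by rwa [List.length_map])

theorem HomC.ext0 {k : ℤ} (U : Set Y) {a : Coch Y} (ha : HomC k a) : HomC k (ext0 U a) :=
  fun l h => by simp [Pool.Agent.HK.ext0, ha l h]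

theorem HomC.prC (k : ℤ) (a : Coch Y) : HomC k (prC k a) := fun _ h => if_neg h

theorem HomC.prC_self {k : ℤ} {a : Coch Y} (ha : HomC k a) : Pool.Agent.HK.prC k a = a := by
  funext l
  by_cases h : (l.length : ℤ) = k + 1
  · exact if_pos h
  · exact (if_neg h).trans (ha l h).symm

theorem HomC.prC_ne {j k : ℤ} {a : Coch Y} (ha : HomC k a) (h : j ≠ k) :
    Pool.Agent.HK.prC j a = 0 := by
  funext l
  by_cases h1 : (l.length : ℤ) = j + 1
  · exact (if_pos h1).trans (ha l (by omega))
  · exact if_neg h1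

theorem HomC.sgC_even {k : ℤ} {a : Coch Y} (ha : HomC k a) (hk : Even k) : sgC a = a := by
  funext l
  by_cases h : (l.length : ℤ) = k + 1
  · have h1 : Even (l.length + 1) := by
      obtain ⟨m, rfl⟩ := hk
      exact ⟨(m + 1).toNat, by omega⟩
    rw [sgC, h1.neg_one_pow, one_mul]
  · rw [sgC, ha l h, mul_zero]

theorem HomC.cupL {ι : Type} (s : List ι) (w : ι → Coch Y) (k : ℤ) (hw : ∀ i ∈ s, HomC k (w i)) :
    HomC (k * s.length) (cupL (s.map w)) := by
  induction s with
  | nil => simpa [Pool.Agent.HK.cupL] using HomC.one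
  | cons i s ih =>
    have h := (hw i List.mem_cons_self).cup (ih fun j hj => hw j (List.mem_cons_of_mem _ hj))
    have e : k * ((i :: s).length : ℕ) = k + k * s.length := by
      rw [List.length_cons]
      push_cast
      ring
    rw [e]
    exact h

theorem prC_dd (k : ℤ) (a : Coch Y) : prC (k + 1) (dd a) = dd (prC k a) := by
  funext l
  by_cases h : (l.length : ℤ) = k + 1 + 1
  · refine (if_pos h).trans (Finset.sum_congr rfl fun i hi => ?_)
    have h1 := Finset.mem_range.1 hi
    rw [prC, if_pos (by rw [List.length_eraseIdx_of_lt h1]; omega)]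
  · exact (if_neg h).trans ((HomC.prC k a).dd l h).symm

theorem prC_cup_right {m : ℤ} (k : ℤ) (a : Coch Y) {w : Coch Y} (hw : HomC m w) :
    prC (k + m) (cup a w) = cup (prC k a) w := by
  funext l
  by_cases h : (l.length : ℤ) = k + m + 1
  · refine (if_pos h).trans (Finset.sum_congr rfl fun i hi => ?_)
    have h1 := Finset.mem_range.1 hi
    by_cases h2 : (i : ℤ) = k
    · rw [prC, if_pos (by rw [List.length_take]; omega)]
    · rw [hw _ (by rw [List.length_drop]; omega), mul_zero, mul_zero]
  · exact (if_neg h).trans (((HomC.prC k a).cup hw) l h).symm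

theorem prC_pb (k : ℤ) (f : Y' → Y) (a : Coch Y) : prC k (pb f a) = pb f (prC k a) := by
  funext l
  simp only [prC, pb, List.length_map]

theorem Bdd.sum_prC {a : Coch Y} (ha : Bdd a) :
    ∃ N : ℕ, ∀ M : ℕ, N ≤ M → a = ∑ k ∈ Finset.range M, Pool.Agent.HK.prC (k : ℤ) a := by
  obtain ⟨a0, N, hN⟩ := ha
  refine ⟨N, fun M hM => funext fun l => ?_⟩
  rw [Finset.sum_apply]
  by_cases h : a l = 0
  · rw [h]
    exact (Finset.sum_eq_zero fun k _ => by simp [Pool.Agent.HK.prC, h]).symm
  · have h1 : l.length ≠ 0 := fun e => h (by rw [List.length_eq_zero_iff.1 e, a0])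
    have h2 : l.length ≤ N := not_lt.1 fun e => h (hN l e)
    refine Eq.symm ((Finset.sum_eq_single (l.length - 1) (fun k _ hk => ?_) fun hk => ?_).trans ?_)
    · exact if_neg (by omega)
    · exact absurd (Finset.mem_range.2 (by omega)) hk
    · exact if_pos (by omega)

end Pool.Agent.HK
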