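import Pool.Agent.P.MP_1206ce_ag.AS.Tw

/-! Commutativity of the cup product with classes of even degree, with control of supports.
Proof: the cup-one product, defined by recursion on the list. -/

open scoped Topology
open Filter Set

noncomputable section

namespace Pool.Agent.HK

section alg

variable {Y : Type}

/-- The cone on a point. -/
def Comm_sh (x : Y) (a : Coch Y) : Coch Y := fun l => a (x :: l)

/-- The cochain living on the empty list. -/
def Comm_del : Coch Y := fun l => if l.length = 0 then 1 else 0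

/-- The cup-one product of `a` with `w`; `s` is a sign. -/
def Comm_K (s : ℂ) (w : Coch Y) : List Y → Coch Y → ℂ
  | [], _ => 0
  | x :: l, a => s * Comm_K s w l (Comm_sh x a) - cup (Comm_sh x w) (Comm_sh x a) l

theorem Comm_dd_nil (a : Coch Y) : dd a [] = 0 := by simp [dd]

theorem Comm_dd_cons (a : Coch Y) (x : Y) (l : List Y) :
    dd a (x :: l) = a l - dd (Comm_sh x a) l := by
  simp only [dd, List.length_cons, Finset.sum_range_succ', List.eraseIdx_cons_succ,
    List.eraseIdx_cons_zero, pow_zero, one_mul, Comm_sh, pow_succ, mul_neg, mul_one, neg_mul,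
    Finset.sum_neg_distrib]
  ring

theorem Comm_cup_cons (a b : Coch Y) (x : Y) (l : List Y) :
    cup a b (x :: l) = a [x] * b (x :: l) + cup (Comm_sh x a) b l := by
  simp only [cup, List.length_cons, Finset.sum_range_succ', List.take_succ_cons,
    List.drop_succ_cons, List.take_zero, List.drop_zero, Comm_sh]
  ring

theorem Comm_sh_dd (x : Y) (a : Coch Y) : Comm_sh x (dd a) = a - dd (Comm_sh x a) :=
  funext fun l => Comm_dd_cons a x l

theorem Comm_dd_del : dd (Comm_del : Coch Y) = one := by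
  funext l
  match l with
  | [] => simp [dd, one]
  | [x] => simp [dd, one, Comm_del]
  | x :: y :: l =>
    simp only [dd, one, List.length_cons]
    rw [if_neg (by omega)]
    refine Finset.sum_eq_zero fun i hi => ?_
    have h1 := Finset.mem_range.1 hi
    have h2 : ((x :: y :: l).eraseIdx i).length = l.length + 1 := by
      rw [List.length_eraseIdx_of_lt (by simpa using h1)]
      simp
    rw [Comm_del, h2, if_neg (by omega), mul_zero]

theorem Comm_del_cup (b : Coch Y) : cup Comm_del b = 0 := by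
  funext l
  refine Finset.sum_eq_zero fun i hi => ?_
  have h1 := Finset.mem_range.1 hi
  rw [Comm_del, List.length_take, if_neg (by omega), zero_mul]

theorem Comm_cup_del (a : Coch Y) : cup a Comm_del = 0 := by
  funext l
  refine Finset.sum_eq_zero fun i hi => ?_
  have h1 := Finset.mem_range.1 hi
  rw [Comm_del, List.length_drop, if_neg (by omega), mul_zero]

theorem Comm_red_nil (a : Coch Y) : (a - a [] • Comm_del : Coch Y) [] = 0 := by
  simp [Comm_del]

theorem Comm_red_cup (a b : Coch Y) : cup (a - a [] • Comm_del) b = cup a b := by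
  rw [sub_cup, smul_cup, Comm_del_cup, smul_zero, sub_zero]

theorem Comm_cup_red (a b : Coch Y) : cup a (b - b [] • Comm_del) = cup a b := by
  rw [cup_sub, cup_smul, Comm_cup_del, smul_zero, sub_zero]

theorem Comm_sgC_sgC (a : Coch Y) : sgC (sgC a) = a := by
  funext l
  rw [sgC, sgC, ← mul_assoc, ← mul_pow]
  simp

theorem Comm_dd_sgC (a : Coch Y) : dd (sgC a) = (-1 : ℂ) • sgC (dd a) := by
  funext l
  simp only [dd, sgC, Pi.smul_apply, smul_eq_mul, Finset.mul_sum]
  refine Finset.sum_congr rfl fun i hi => ?_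
  have h1 := Finset.mem_range.1 hi
  have h2 : (l.eraseIdx i).length + 1 = l.length := by
    rw [List.length_eraseIdx_of_lt h1]
    omega
  rw [h2, pow_succ]
  ring

/-- The Leibniz rule for an odd left factor, with components on the empty list. -/
theorem Comm_dd_cup_odd {u : Coch Y} (hu : sgC u = (-1 : ℂ) • u) (b : Coch Y) :
    dd (cup u b) = cup (dd u) b - u [] • b - cup u (dd b) + b [] • u := by
  have h1 : sgC (u - u [] • Comm_del) = (-1 : ℂ) • (u - u [] • Comm_del) := by
    funext l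
    have h2 := congrFun hu l
    simp only [sgC, Pi.smul_apply, smul_eq_mul, Pi.sub_apply, Comm_del] at h2 ⊢
    rw [mul_sub, h2]
    by_cases h : l.length = 0
    · simp [h]
      ring
    · simp [h]
  have h3 := dd_cup (Comm_red_nil u) (Comm_red_nil b)
  rw [Comm_red_cup, Comm_cup_red, h1, smul_cup, dd_sub, dd_sub, dd_smul, dd_smul, Comm_dd_del,
    sub_cup, smul_cup, one_cup (Comm_red_nil b), Comm_cup_red, cup_sub, cup_smul,
    cup_one (Comm_red_nil u), Comm_red_cup] at h3
  rw [h3]
  funext l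
  simp only [Pi.add_apply, Pi.sub_apply, Pi.smul_apply, smul_eq_mul]
  ring

theorem Comm_K_sub (s : ℂ) (w : Coch Y) (l : List Y) (a b : Coch Y) :
    Comm_K s w l (a - b) = Comm_K s w l a - Comm_K s w l b := by
  induction l generalizing a b with
  | nil => simp [Comm_K]
  | cons x l ih =>
    have h : Comm_sh x (a - b) = Comm_sh x a - Comm_sh x b := rfl
    simp only [Comm_K]
    rw [h, ih, cup_sub, Pi.sub_apply]
    ring

/-- The homotopy formula. -/
theorem Comm_homotopy {w : Coch Y} (hw : sgC w = w) (l : List Y) (a : Coch Y) :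
    dd (fun l' => Comm_K (-1) w l' a) l + Comm_K (-1) w l (dd a) =
      cup a w l - cup w a l + Comm_K 1 (dd w) l a := by
  induction l generalizing a with
  | nil => simp [Comm_K, Comm_dd_nil, cup_nil]
  | cons x l ih =>
    have hu : sgC (Comm_sh x w) = (-1 : ℂ) • Comm_sh x w := by
      funext l'
      have h2 := congrFun hw (x :: l')
      simp only [sgC, List.length_cons, Pi.smul_apply, smul_eq_mul, Comm_sh] at h2 ⊢
      rw [pow_succ] at h2
      linear_combination -h2
    have h1 : Comm_sh x (fun l' => Comm_K (-1) w l' a) =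
        (-1 : ℂ) • (fun l' => Comm_K (-1) w l' (Comm_sh x a)) -
          cup (Comm_sh x w) (Comm_sh x a) := rfl
    have h2 := congrFun (Comm_dd_cup_odd hu (Comm_sh x a)) l
    have h3 : dd (Comm_sh x w) = w - Comm_sh x (dd w) := by
      rw [Comm_sh_dd]
      abel
    rw [h3, sub_cup] at h2
    have h4 := ih (Comm_sh x a)
    rw [Comm_dd_cons, h1, dd_sub, dd_smul, Comm_cup_cons, Comm_cup_cons]
    simp only [Comm_K]
    rw [Comm_sh_dd x a, Comm_K_sub, cup_sub]
    simp only [Pi.add_apply, Pi.sub_apply, Pi.smul_apply, smul_eq_mul] at h2 ⊢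
    have h5 : Comm_sh x w [] = w [x] := rfl
    have h6 : Comm_sh x a [] = a [x] := rfl
    have h7 : Comm_sh x w l = w (x :: l) := rfl
    have h8 : Comm_sh x a l = a (x :: l) := rfl
    rw [h5, h6, h7, h8] at h2
    linear_combination h4 + h2

theorem Comm_K_left {P : Y → Prop} (s : ℂ) (w : Coch Y) (l : List Y) (a : Coch Y)
    (ha : ∀ l' : List Y, (∀ z ∈ l', P z) → a l' = 0) (hl : ∀ z ∈ l, P z) :
    Comm_K s w l a = 0 := by
  induction l generalizing a with
  | nil => rfl
  | cons x l ih =>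
    have hx : P x := hl x List.mem_cons_self
    have hl' : ∀ z ∈ l, P z := fun z hz => hl z (List.mem_cons_of_mem _ hz)
    have hs : ∀ l' : List Y, (∀ z ∈ l', P z) → Comm_sh x a l' = 0 :=
      fun l' h => ha _ (List.forall_mem_cons.2 ⟨hx, h⟩)
    have h1 : cup (Comm_sh x w) (Comm_sh x a) l = 0 :=
      Finset.sum_eq_zero fun i _ => by
        rw [hs _ fun z hz => hl' z (List.mem_of_mem_drop hz), mul_zero]
    simp only [Comm_K]
    rw [ih _ hs hl', h1, mul_zero, sub_zero]

theorem Comm_K_right {P : Y → Prop} (s : ℂ) (w : Coch Y) (l : List Y) (a : Coch Y)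
    (hw : ∀ l' : List Y, (∀ z ∈ l', P z) → w l' = 0) (hl : ∀ z ∈ l, P z) :
    Comm_K s w l a = 0 := by
  induction l generalizing a with
  | nil => rfl
  | cons x l ih =>
    have hx : P x := hl x List.mem_cons_self
    have hl' : ∀ z ∈ l, P z := fun z hz => hl z (List.mem_cons_of_mem _ hz)
    have hs : ∀ l' : List Y, (∀ z ∈ l', P z) → Comm_sh x w l' = 0 :=
      fun l' h => hw _ (List.forall_mem_cons.2 ⟨hx, h⟩)
    have h1 : cup (Comm_sh x w) (Comm_sh x a) l = 0 :=
      Finset.sum_eq_zero fun i _ => by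
        rw [hs _ fun z hz => hl' z (List.mem_of_mem_take hz), zero_mul]
    simp only [Comm_K]
    rw [ih _ hl', h1, mul_zero, sub_zero]

theorem Comm_K_long (s : ℂ) {w : Coch Y} {M : ℕ} (hw : ∀ l' : List Y, M ≤ l'.length → w l' = 0)
    (l : List Y) (a : Coch Y) (N : ℕ) (ha : ∀ l' : List Y, N ≤ l'.length → a l' = 0)
    (hl : N + M ≤ l.length) : Comm_K s w l a = 0 := by
  induction l generalizing a N with
  | nil => rfl
  | cons x l ih =>
    cases N with
    | zero =>
      exact Comm_K_left (P := fun _ => True) s w _ a (fun l' _ => ha l' (Nat.zero_le _))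
        fun _ _ => trivial
    | succ N =>
      rw [List.length_cons] at hl
      have hs : ∀ l' : List Y, N ≤ l'.length → Comm_sh x a l' = 0 :=
        fun l' h => ha _ (by rw [List.length_cons]; omega)
      have h1 : cup (Comm_sh x w) (Comm_sh x a) l = 0 := by
        refine Finset.sum_eq_zero fun i hi => ?_
        have h2 := Finset.mem_range.1 hi
        rcases le_or_gt M i with h3 | h3
        · have h4 : Comm_sh x w (l.take (i + 1)) = 0 :=
            hw _ (by rw [List.length_cons, List.length_take]; omega)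
          rw [h4, zero_mul]
        · rw [hs _ (by rw [List.length_drop]; omega), mul_zero]
      simp only [Comm_K]
      rw [ih _ N hs (by omega), h1, mul_zero, sub_zero]

theorem Comm_K_bdd (s : ℂ) {w a : Coch Y} (hw : Bdd w) (ha : Bdd a) :
    Bdd fun l => Comm_K s w l a := by
  obtain ⟨-, M, hM⟩ := hw
  obtain ⟨-, N, hN⟩ := ha
  exact ⟨rfl, N + 1 + (M + 1), fun l hl =>
    Comm_K_long s (M := M + 1) (fun l' h => hM l' h) l a (N + 1) (fun l' h => hN l' h) hl.le⟩

end alg

variable {Y Y' : Type} [TopologicalSpace Y] [TopologicalSpace Y']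

theorem Comm_supp_K (A : Set Y) (s : ℂ) (w a : Coch Y) :
    supp A (fun l => Comm_K s w l a) ⊆ supp A a ∩ supp A w := by
  intro y hy
  have hA : y ∈ A := supp_subset _ _ hy
  constructor
  · by_contra h
    obtain ⟨U, hU, h0⟩ := (not_mem_supp hA).1 h
    exact (not_mem_supp hA).2 ⟨U, hU, fun l hl => Comm_K_left s w l a h0 hl⟩ hy
  · by_contra h
    obtain ⟨U, hU, h0⟩ := (not_mem_supp hA).1 h
    exact (not_mem_supp hA).2 ⟨U, hU, fun l hl => Comm_K_right s w l a h0 hl⟩ hy

theorem Comm_N0_of {A : Set Y} {a b : Coch Y} (h : supp A a ⊆ supp A b) (hb : b ∈ N0 A) :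
    a ∈ N0 A := mem_N0.2 (subset_eq_empty h (mem_N0.1 hb))

theorem Comm_N0_cup_left {A : Set Y} {a : Coch Y} (ha : a ∈ N0 A) (b : Coch Y) :
    cup a b ∈ N0 A := Comm_N0_of ((supp_cup A a b).trans inter_subset_left) ha

theorem Comm_N0_cup_right {A : Set Y} (a : Coch Y) {b : Coch Y} (hb : b ∈ N0 A) :
    cup a b ∈ N0 A := Comm_N0_of ((supp_cup A a b).trans inter_subset_right) hb

theorem Comm_BB_cc {A C : Set Y} {c e : Coch Y} (hC : IsCompact C) (hCA : C ⊆ A) (he : Bdd e)
    (hs : supp A e ⊆ C) (h : c - dd e ∈ N0 A) : c ∈ BB (cc A) A :=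
  mem_BB.2 ⟨e, mem_CC_cc.2 ⟨he, (supp_closedIn A e).isCompact hC hCA hs⟩, h⟩

theorem cup_comm_even {A : Set Y} {a w : Coch Y} (ha : a ∈ ZZ ⊥ A) (hw : w ∈ ZZ ⊥ A) {m : ℤ}
    (hm : HomC m w) (he : Even m) :
    ∃ e, Bdd e ∧ supp A e ⊆ supp A a ∩ supp A w ∧ cup a w - cup w a - dd e ∈ N0 A := by
  refine ⟨fun l => Comm_K (-1) w l a, Comm_K_bdd _ hw.1.1 ha.1.1, Comm_supp_K A _ w a, ?_⟩
  have h1 : cup a w - cup w a - dd (fun l => Comm_K (-1) w l a) =
      (fun l => Comm_K (-1) w l (dd a)) - fun l => Comm_K 1 (dd w) l a := by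
    funext l
    have h2 := Comm_homotopy (hm.sgC_even he) l a
    simp only [Pi.sub_apply]
    linear_combination -h2
  rw [h1]
  exact (N0 A).sub_mem (Comm_N0_of ((Comm_supp_K A _ _ _).trans inter_subset_left) ha.2)
    (Comm_N0_of ((Comm_supp_K A _ _ _).trans inter_subset_right) hw.2)

theorem cup_comm_BB {A : Set Y} {a w : Coch Y} (ha : a ∈ ZZ ⊥ A) (hw : w ∈ ZZ ⊥ A) {m : ℤ}
    (hm : HomC m w) (he : Even m) : cup a w - cup w a ∈ BB ⊥ A := by
  obtain ⟨e, h1, -, h2⟩ := cup_comm_even ha hw hm he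
  exact mem_BB.2 ⟨e, mem_CC_bot.2 h1, h2⟩

theorem cup_comm_BB_cc {A : Set Y} {a w : Coch Y} (ha : a ∈ ZZ ⊥ A) (hw : w ∈ ZZ ⊥ A) {m : ℤ}
    (hm : HomC m w) (he : Even m) (hc : IsCompact (supp A a ∩ supp A w)) :
    cup a w - cup w a ∈ BB (cc A) A := by
  obtain ⟨e, h1, h2, h3⟩ := cup_comm_even ha hw hm he
  exact Comm_BB_cc hc (inter_subset_left.trans (supp_subset A a)) h1 h2 h3

/-- A cocycle all of whose odd components are coboundaries commutes with everything. -/
theorem cup_comm_BB_of_even {A : Set Y} {a w : Coch Y} (ha : a ∈ ZZ (cc A) A) (hw : w ∈ ZZ ⊥ A)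
    (he : ∀ k : ℤ, Odd k → prC k w ∈ BB ⊥ A) : cup a w - cup w a ∈ BB (cc A) A := by
  obtain ⟨hb, hc⟩ := mem_CC_cc.1 ha.1
  obtain ⟨N, hN⟩ := Bdd.sum_prC hw.1.1
  rw [hN N le_rfl, cup_sum, sum_cup, ← Finset.sum_sub_distrib]
  refine (BB (cc A) A).sum_mem fun k _ => ?_
  rcases Int.even_or_odd (k : ℤ) with hk | hk
  · obtain ⟨e, h1, h2, h3⟩ := cup_comm_even (ZZ_cc_le_bot A ha) (prC_mem_ZZ (k : ℤ) hw)
      (HomC.prC _ w) hk
    exact Comm_BB_cc hc (supp_subset A a) h1 (h2.trans inter_subset_left) h3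
  · obtain ⟨e, h1, h2⟩ := mem_BB.1 (he k hk)
    have hbe : Bdd e := mem_CC_bot.1 h1
    refine (BB (cc A) A).sub_mem ?_ ?_
    · refine Comm_BB_cc hc (supp_subset A a) (hb.sgC.cup hbe)
        ((supp_cup A _ _).trans (inter_subset_left.trans (supp_sgC A a).subset)) ?_
      have h3 : cup a (prC k w) - dd (cup (sgC a) e) =
          cup a (prC k w - dd e) - cup (dd (sgC a)) e := by
        rw [dd_cup hb.sgC.1 hbe.1, Comm_sgC_sgC, cup_sub]
        abel
      rw [h3]
      refine (N0 A).sub_mem (Comm_N0_cup_right _ h2) (Comm_N0_cup_left ?_ _)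
      rw [Comm_dd_sgC]
      exact (N0 A).smul_mem _ (Comm_N0_of (supp_sgC A _).subset ha.2)
    · refine Comm_BB_cc hc (supp_subset A a) (hbe.cup hb)
        ((supp_cup A _ _).trans inter_subset_right) ?_
      have h3 : cup (prC k w) a - dd (cup e a) =
          cup (prC k w - dd e) a - cup (sgC e) (dd a) := by
        rw [dd_cup hbe.1 hb.1, sub_cup]
        abel
      rw [h3]
      exact (N0 A).sub_mem (Comm_N0_cup_left h2 _) (Comm_N0_cup_right _ ha.2)

theorem tw_cup_comm {A : Set Y} {A' : Set Y'} {π : Y' → Y} {v w : Coch Y'} (h : TwOK A A' π w)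
    (hv : v ∈ ZZ ⊥ A') {m : ℤ} (hm : HomC m v) (he : Even m) :
    tw A A' π (cup v w) = tw A A' π (cup w v) := by
  obtain ⟨e, h1, h2, h3⟩ := cup_comm_even h.2.2.1 hv hm he
  refine (tw_congr (h.cup_right hv) (h.cup_left hv) h1 (fun C hC hCA => ?_) h3).symm
  obtain ⟨C', hC', hA', hs⟩ := h.2.2.2 C hC hCA
  exact ⟨C', hC', hA', (inter_subset_inter_left _ (h2.trans inter_subset_left)).trans hs⟩

/-- Multiplication by an even class commutes with twisted pull-back. -/
theorem tw_mul_comm {A : Set Y} {A' : Set Y'} {π : Y' → Y} {w : Coch Y'} (h : TwOK A A' π w)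
    {v : Coch Y} (hv : v ∈ ZZ ⊥ A) {m : ℤ} (hm : HomC m v) (he : Even m) :
    tw A A' π w ∘ₗ tw A A id v = tw A' A' id (pb π v) ∘ₗ tw A A' π w := by
  have hv' : pb π v ∈ ZZ ⊥ A' := pb_mem_ZZ h.1 h.2.1 hv
  rw [tw_comp ((ClosedIn.refl A).properOn.twOK hv) h,
    tw_comp h ((ClosedIn.refl A').properOn.twOK hv'), pb_id]
  exact tw_cup_comm h hv' (hm.pb π) he

theorem Comm_supp_cupL (A : Set Y) {L : List (Coch Y)} {w : Coch Y} (hw : w ∈ L) :
    supp A (cupL L) ⊆ supp A w := by
  induction L with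
  | nil => cases hw
  | cons x L ih =>
    refine (supp_cup A x (cupL L)).trans ?_
    rcases List.mem_cons.1 hw with rfl | hw
    · exact inter_subset_left
    · exact inter_subset_right.trans (ih hw)

/-- Reordering a product of even cocycles, with control of supports. -/
theorem cupL_perm {A : Set Y} {L L' : List (Coch Y)} (hp : L.Perm L')
    (hL : ∀ w ∈ L, w ∈ ZZ ⊥ A ∧ ∃ m, HomC m w ∧ Even m) :
    ∃ e, Bdd e ∧ (∀ w ∈ L, supp A e ⊆ supp A w) ∧ cupL L - cupL L' - dd e ∈ N0 A := by
  induction hp with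
  | nil =>
    refine ⟨0, Bdd.zero, fun w hw => (by cases hw), ?_⟩
    rw [dd_zero, sub_self, sub_zero]
    exact (N0 A).zero_mem
  | @cons x L L' _ ih =>
    obtain ⟨e, h1, h2, h3⟩ := ih fun w hw => hL w (List.mem_cons_of_mem _ hw)
    obtain ⟨hx, m, hm, he⟩ := hL x List.mem_cons_self
    refine ⟨cup x e, Bdd.cup hx.1.1 h1, fun w hw => (supp_cup A x e).trans ?_, ?_⟩
    · rcases List.mem_cons.1 hw with rfl | hw
      · exact inter_subset_left
      · exact inter_subset_right.trans (h2 w hw)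
    · have h4 : cupL (x :: L) - cupL (x :: L') - dd (cup x e) =
          cup x (cupL L - cupL L' - dd e) - cup (dd x) e := by
        rw [dd_cup hx.1.1.1 h1.1, hm.sgC_even he, cup_sub, cup_sub]
        show cup x (cupL L) - cup x (cupL L') - _ = _
        abel
      rw [h4]
      exact (N0 A).sub_mem (Comm_N0_cup_right _ h3) (Comm_N0_cup_left hx.2 _)
  | swap x y L =>
    obtain ⟨hy, -⟩ := hL y List.mem_cons_self
    obtain ⟨hx, m, hm, he⟩ := hL x (List.mem_cons_of_mem _ List.mem_cons_self)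
    have hR : cupL L ∈ ZZ ⊥ A := cupL_mem_ZZ fun w hw =>
      (hL w (List.mem_cons_of_mem _ (List.mem_cons_of_mem _ hw))).1
    obtain ⟨e, h1, h2, h3⟩ := cup_comm_even hy hx hm he
    refine ⟨cup e (cupL L), Bdd.cup h1 hR.1.1, fun w hw => (supp_cup A e _).trans ?_, ?_⟩
    · rcases List.mem_cons.1 hw with rfl | hw
      · exact inter_subset_left.trans (h2.trans inter_subset_left)
      · rcases List.mem_cons.1 hw with rfl | hw
        · exact inter_subset_left.trans (h2.trans inter_subset_right)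
        · exact inter_subset_right.trans (Comm_supp_cupL A hw)
    · have h4 : cupL (y :: x :: L) - cupL (x :: y :: L) - dd (cup e (cupL L)) =
          cup (cup y x - cup x y - dd e) (cupL L) - cup (sgC e) (dd (cupL L)) := by
        rw [dd_cup h1.1 hR.1.1.1, sub_cup, sub_cup, cup_assoc, cup_assoc]
        show cup y (cup x (cupL L)) - cup x (cup y (cupL L)) - _ = _
        abel
      rw [h4]
      exact (N0 A).sub_mem (Comm_N0_cup_left h3 _) (Comm_N0_cup_right _ hR.2)
  | @trans L₁ L₂ L₃ hp₁ _ ih₁ ih₂ =>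
    obtain ⟨e, h1, h2, h3⟩ := ih₁ hL
    obtain ⟨e', h1', h2', h3'⟩ := ih₂ fun w hw => hL w (hp₁.mem_iff.2 hw)
    refine ⟨e + e', h1.add h1', fun w hw => (supp_add A e e').trans
      (union_subset (h2 w hw) (h2' w (hp₁.mem_iff.1 hw))), ?_⟩
    have h4 : cupL L₁ - cupL L₃ - dd (e + e') =
        (cupL L₁ - cupL L₂ - dd e) + (cupL L₂ - cupL L₃ - dd e') := by
      rw [dd_add]
      abel
    rw [h4]
    exact (N0 A).add_mem h3 h3'

end Pool.Agent.HK
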