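import Pool.Agent.P.MP_1206ce_ag.AS.Chart
import Pool.Agent.P.MP_1206ce_ag.AS.Comm

/-! Duals of compactly supported cohomology (Borel-Moore classes) and their exact sequences. -/

open scoped Topology
open Filter Set

noncomputable section

namespace Pool.Agent.HK

variable {Y Y' : Type} [TopologicalSpace Y] [TopologicalSpace Y']

/-- Borel-Moore classes. -/
abbrev EE (A : Set Y) : Type := Hc A →ₗ[ℂ] ℂ

/-- Homogeneous of degree `j`. -/
def EDeg (A : Set Y) (j : ℤ) (φ : EE A) : Prop := φ ∘ₗ prH _ A j = φ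

/-- Locally nonzero. -/
def LN (A : Set Y) (φ : EE A) : Prop := ∀ O, OpenIn O A → O.Nonempty → φ ∘ₗ ext O A ≠ 0

theorem Dual_apply {A : Set Y} {j : ℤ} {φ : EE A} (h : EDeg A j φ) (x : Hc A) :
    φ (prH _ A j x) = φ x := LinearMap.congr_fun h x

theorem Dual_factor {V W : Type} [AddCommGroup V] [Module ℂ V] [AddCommGroup W] [Module ℂ W]
    (f : V →ₗ[ℂ] W) (φ : V →ₗ[ℂ] ℂ) (h : ∀ x, f x = 0 → φ x = 0) :
    ∃ ψ : W →ₗ[ℂ] ℂ, ψ ∘ₗ f = φ := by
  have h1 : φ ∈ (LinearMap.ker f).dualAnnihilator :=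
    (Submodule.mem_dualAnnihilator φ).2 fun x hx => h x hx
  rw [← LinearMap.range_dualMap_eq_dualAnnihilator_ker] at h1
  exact h1

theorem EDeg.zero (A : Set Y) (j : ℤ) : EDeg A j 0 := LinearMap.zero_comp _
theorem EDeg.add {A : Set Y} {j : ℤ} {φ ψ : EE A} (h : EDeg A j φ) (h' : EDeg A j ψ) :
    EDeg A j (φ + ψ) := by
  unfold EDeg at *
  rw [LinearMap.add_comp, h, h']
theorem EDeg.sub {A : Set Y} {j : ℤ} {φ ψ : EE A} (h : EDeg A j φ) (h' : EDeg A j ψ) :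
    EDeg A j (φ - ψ) := by
  unfold EDeg at *
  rw [LinearMap.sub_comp, h, h']
theorem EDeg.smul {A : Set Y} {j : ℤ} (z : ℂ) {φ : EE A} (h : EDeg A j φ) : EDeg A j (z • φ) := by
  unfold EDeg at *
  rw [LinearMap.smul_comp, h]
theorem EDeg.comp_prH (A : Set Y) (j : ℤ) (φ : EE A) : EDeg A j (φ ∘ₗ prH _ A j) := by
  refine LinearMap.ext fun x => ?_
  simp only [LinearMap.comp_apply, prH_prH, if_true]
theorem EDeg.eq_zero {A : Set Y} {j : ℤ} {φ : EE A} (h : EDeg A j φ)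
    (h0 : prH _ A j = (0 : Hc A →ₗ[ℂ] Hc A)) : φ = 0 := by
  unfold EDeg at h
  rw [← h, h0, LinearMap.comp_zero]
theorem EDeg.tw {A : Set Y} {A' : Set Y'} {π : Y' → Y} {w : Coch Y'} (h : TwOK A A' π w) {m j : ℤ}
    (hm : HomC m w) {φ : EE A'} (hφ : EDeg A' j φ) : EDeg A (j - m) (φ ∘ₗ tw A A' π w) := by
  refine LinearMap.ext fun x => ?_
  simp only [LinearMap.comp_apply]
  rw [← tw_prH h hm, sub_add_cancel, Dual_apply hφ]
theorem EDeg.of_tw {A : Set Y} {A' : Set Y'} {π : Y' → Y} {w : Coch Y'} (h : TwOK A A' π w)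
    {m j : ℤ} (hm : HomC m w) (hb : Function.Surjective (Pool.Agent.HK.tw A A' π w)) {φ : EE A'}
    (hφ : EDeg A j (φ ∘ₗ Pool.Agent.HK.tw A A' π w)) : EDeg A' (j + m) φ := by
  refine LinearMap.ext fun x' => ?_
  obtain ⟨x, rfl⟩ := hb x'
  rw [LinearMap.comp_apply, tw_prH h hm]
  exact Dual_apply hφ x
theorem EDeg.ext [Nice Y] {U A : Set Y} (h : OpenIn U A) {j : ℤ} {φ : EE A} (hφ : EDeg A j φ) :
    EDeg U j (φ ∘ₗ ext U A) := by
  refine LinearMap.ext fun x => ?_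
  simp only [LinearMap.comp_apply]
  rw [← ext_prH h, Dual_apply hφ]
/-- Duals of bijections and injections. -/
theorem exists_unique_comp {A : Set Y} {A' : Set Y'} {L : Hc A →ₗ[ℂ] Hc A'}
    (hL : Function.Bijective L) (φ : EE A) : ∃! ψ : EE A', ψ ∘ₗ L = φ := by
  obtain ⟨ψ, hψ⟩ := Dual_factor L φ fun x hx => by
    rw [hL.1 (hx.trans L.map_zero.symm), map_zero]
  refine ⟨ψ, hψ, fun ψ' hψ' => LinearMap.ext fun y => ?_⟩
  obtain ⟨x, rfl⟩ := hL.2 y
  exact (LinearMap.congr_fun hψ' x).trans (LinearMap.congr_fun hψ x).symm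
theorem exists_comp_of_injective {A : Set Y} {A' : Set Y'} {L : Hc A →ₗ[ℂ] Hc A'}
    (hL : Function.Injective L) (φ : EE A) : ∃ ψ : EE A', ψ ∘ₗ L = φ :=
  Dual_factor L φ fun x hx => by rw [hL (hx.trans L.map_zero.symm), map_zero]

section nice
variable [Nice Y]

theorem E_exact_mid {A A' U : Set Y} (hA : LC A) (h : ClosedIn A' A) (hU : U = A \ A') {j : ℤ}
    {φ : EE A} (hφ : EDeg A j φ) (h0 : φ ∘ₗ ext U A = 0) :
    ∃ ψ : EE A', EDeg A' j ψ ∧ φ = ψ ∘ₗ res A A' := by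
  obtain ⟨δ, h1, -⟩ := les hA h hU
  obtain ⟨ψ, hψ⟩ := Dual_factor (res A A') φ fun x hx => by
    obtain ⟨y, rfl⟩ := (h1 x).1 hx
    exact LinearMap.congr_fun h0 y
  refine ⟨ψ ∘ₗ prH _ A' j, EDeg.comp_prH A' j ψ, LinearMap.ext fun x => ?_⟩
  have h2 := tw_prH (h.properOn.twOK (one_mem_ZZ A')) HomC.one j x
  rw [add_zero] at h2
  simp only [LinearMap.comp_apply]
  rw [h2, ← Dual_apply hφ x]
  exact (LinearMap.congr_fun hψ _).symm
theorem E_push_restrict {A A' U : Set Y} (h : ClosedIn A' A) (hU : U = A \ A') (ψ : EE A') :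
    (ψ ∘ₗ res A A') ∘ₗ ext U A = 0 := by
  have h1 : (∅ : Set Y) = A' ∩ id ⁻¹' U := by
    subst hU
    ext y
    simp only [mem_empty_iff_false, mem_inter_iff, mem_preimage, id, Set.mem_sdiff, false_iff]
    exact fun hy => hy.2.2 hy.1
  have h2 := tw_ext (h.properOn.twOK (one_mem_ZZ A')) (hU ▸ h.diff : OpenIn U A) h1
  rw [LinearMap.comp_assoc, h2]
  refine LinearMap.ext fun x => ?_
  simp only [LinearMap.comp_apply]
  rw [Subsingleton.elim (tw U ∅ id one x) 0, map_zero, map_zero, LinearMap.zero_apply]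
/-- If push-forward from the closed part is injective in degree `j - 1`, restriction to the open
part is onto in degree `j`. -/
theorem E_surj_of_inj {A A' U : Set Y} (hA : LC A) (h : ClosedIn A' A) (hU : U = A \ A') {j : ℤ}
    (hinj : ∀ ψ : EE A', EDeg A' (j - 1) ψ → ψ ∘ₗ res A A' = 0 → ψ = 0) (χ : EE U)
    (hχ : EDeg U j χ) : ∃ φ : EE A, EDeg A j φ ∧ φ ∘ₗ ext U A = χ := by
  obtain ⟨δ, -, h2, h3, h4, -⟩ := les hA h hU
  have h5 : χ ∘ₗ δ = 0 := by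
    refine hinj _ (LinearMap.ext fun x => ?_) (LinearMap.ext fun x => ?_)
    · simp only [LinearMap.comp_apply]
      rw [← h4, sub_add_cancel, Dual_apply hχ]
    · simp only [LinearMap.comp_apply]
      rw [h2.apply_apply_eq_zero, map_zero, LinearMap.zero_apply]
  obtain ⟨φ, hφ⟩ := Dual_factor (ext U A) χ fun x hx => by
    obtain ⟨y, rfl⟩ := (h3 x).1 hx
    exact LinearMap.congr_fun h5 y
  refine ⟨φ ∘ₗ prH _ A j, EDeg.comp_prH A j φ, LinearMap.ext fun x => ?_⟩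
  simp only [LinearMap.comp_apply]
  rw [ext_prH (hU ▸ h.diff : OpenIn U A), ← Dual_apply hχ x]
  exact LinearMap.congr_fun hφ _

theorem LN.ext {A U : Set Y} (hU : OpenIn U A) {φ : EE A} (h : LN A φ) :
    LN U (φ ∘ₗ ext U A) := by
  intro O hO hne
  rw [LinearMap.comp_assoc, ext_comp hO hU]
  exact h O (hO.trans hU) hne
theorem ln_of_charts {A : Set Y} {φ : EE A}
    (h : ∀ y ∈ A, ∃ D O, OpenIn O A ∧ y ∈ O ∧ ConvChart D O ∧ φ ∘ₗ ext O A ≠ 0) : LN A φ := by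
  rintro O' hO' ⟨y, hy⟩ h0
  obtain ⟨D, O, hO, hyO, hc, hne⟩ := h y (hO'.subset hy)
  have h1 : OpenIn (O' ∩ O) O := by
    have := hO'.inter_right O
    rwa [inter_eq_self_of_subset_right hO.subset] at this
  obtain ⟨O'', h2, -, h3, -, h4⟩ := hc.exists_small h1 ⟨hy, hyO⟩
  have h5 : OpenIn O'' O' :=
    (h2.trans hO).of_subset (h3.trans inter_subset_left) hO'.subset
  refine hne (LinearMap.ext fun x => ?_)
  obtain ⟨x', rfl⟩ := (h4 inferInstance).2 x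
  have h6 := LinearMap.congr_fun ((ext_comp h2 hO).trans (ext_comp h5 hO').symm) x'
  simp only [LinearMap.comp_apply] at h6 ⊢
  rw [h6]
  exact LinearMap.congr_fun h0 _
theorem LN.smul {A : Set Y} {φ : EE A} (h : LN A φ) {z : ℂ} (hz : z ≠ 0) : LN A (z • φ) := by
  intro O hO hne h0
  rw [LinearMap.smul_comp, smul_eq_zero] at h0
  exact h0.elim hz (h O hO hne)
theorem LN.homeoOn [Nice Y'] {A : Set Y} {A' : Set Y'} {f : Y' → Y} {g : Y → Y'}
    (hf : HomeoOn f g A' A) {φ : EE A'} : LN A' φ ↔ LN A (φ ∘ₗ tw A A' f one) := by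
  have hT : TwOK A A' f one := hf.properOn.twOK (one_mem_ZZ A')
  constructor
  · rintro h O hO ⟨y, hy⟩ h0
    have hyA := hO.subset hy
    refine h (A' ∩ f ⁻¹' O) (hO.preimage hf.1 hf.2.2.1)
      ⟨g y, hf.2.2.2.1 hyA, by rw [mem_preimage, hf.2.2.2.2.2 y hyA]; exact hy⟩
      (LinearMap.ext fun x' => ?_)
    obtain ⟨x, rfl⟩ := (hf.restrict hO.subset).tw_bijective.2 x'
    rw [LinearMap.comp_assoc, tw_ext hT hO rfl] at h0
    exact LinearMap.congr_fun h0 x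
  · rintro h O' hO' ⟨y, hy⟩ h0
    have hyA := hO'.subset hy
    have hO : OpenIn (A ∩ g ⁻¹' O') A := hO'.preimage hf.2.1 hf.2.2.2.1
    have he : O' = A' ∩ f ⁻¹' (A ∩ g ⁻¹' O') := by
      ext z
      constructor
      · intro hz
        have hzA := hO'.subset hz
        exact ⟨hzA, hf.2.2.1 hzA, by rw [mem_preimage, hf.2.2.2.2.1 z hzA]; exact hz⟩
      · rintro ⟨hzA, -, hz⟩
        rwa [mem_preimage, hf.2.2.2.2.1 z hzA] at hz
    refine h _ hO ⟨f y, hf.2.2.1 hyA, by rw [mem_preimage, hf.2.2.2.2.1 y hyA]; exact hy⟩ ?_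
    rw [LinearMap.comp_assoc, tw_ext hT hO he, ← LinearMap.comp_assoc, h0, LinearMap.zero_comp]
/-- If `φ` composed with some twisted pull-back is computed on a locally nonzero `ψ` upstairs. -/
theorem LN.of_lh [Nice Y'] {ι : Type} [Fintype ι] {A : Set Y} {A' : Set Y'} {π : Y' → Y}
    {w : ι → Coch Y'} (hw : ∀ i, TwOK A A' π (w i)) (hs : SurjOn π A' A)
    (hlh : ∀ O, OpenIn O A → Function.Surjective (lhMap O (A' ∩ π ⁻¹' O) π w)) {ψ : EE A'}
    (hψ : LN A' ψ) (i₀ : ι) (h0 : ∀ i, i ≠ i₀ → ψ ∘ₗ tw A A' π (w i) = 0) :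
    LN A (ψ ∘ₗ tw A A' π (w i₀)) := by
  rintro O hO ⟨y, hy⟩ h1
  obtain ⟨y', hy', rfl⟩ := hs (hO.subset hy)
  refine hψ (A' ∩ π ⁻¹' O) (hO.preimage (hw i₀).1 (hw i₀).2.1) ⟨y', hy', hy⟩
    (LinearMap.ext fun x' => ?_)
  obtain ⟨x, rfl⟩ := hlh O hO x'
  rw [lhMap_apply, map_sum, LinearMap.zero_apply]
  refine Finset.sum_eq_zero fun i _ => ?_
  have h2 := LinearMap.congr_fun (tw_ext (hw i) hO rfl) (x i)
  simp only [LinearMap.comp_apply] at h2 ⊢
  rw [← h2]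
  by_cases hi : i = i₀
  · subst hi
    exact LinearMap.congr_fun h1 (x i)
  · exact LinearMap.congr_fun (h0 i hi) _

end nice

end Pool.Agent.HK
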