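import Pool.Agent.P.MP_1206ce_ag.AS.VB

/-! Euclidean spaces: rays, half-spaces, convex sets, spheres, dimension bound. -/

open scoped Topology
open Filter Set

noncomputable section

namespace Pool.Agent.HK

variable {Y : Type} [TopologicalSpace Y]
variable {F : Type} [NormedAddCommGroup F] [NormedSpace ℝ F] [FiniteDimensional ℝ F]

/-! ### Spaces with one-dimensional compactly supported cohomology -/

/-- `Hc S` is a line concentrated in degree `k`. -/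
def Euclid_Gen (k : ℤ) (S : Set Y) : Prop :=
  ∃ x : Hc S, prH _ S k x = x ∧ x ≠ 0 ∧ ∀ y : Hc S, ∃ z : ℂ, y = z • x

theorem Euclid_gen_of {k : ℤ} {S : Set Y} {w : Coch Y} (hw : HomC k w) (h : IsGenOn S w) :
    Euclid_Gen k S :=
  ⟨clc S w, by rw [prH_cls k h.1, hw.prC_self], h.2.1, h.2.2⟩

theorem Euclid_gen_exists {k : ℤ} {S : Set Y} (h : Euclid_Gen k S) :
    ∃ w : Coch Y, HomC k w ∧ IsGenOn S w := by
  obtain ⟨x, h1, h2, h3⟩ := h
  obtain ⟨c, hc, hk, rfl⟩ := exists_homC_of_prH h1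
  exact ⟨c, hk, hc, h2, h3⟩

theorem Euclid_gen_map {Y' : Type} [TopologicalSpace Y'] {A : Set Y} {A' : Set Y'} {k k' : ℤ}
    (L : Hc A →ₗ[ℂ] Hc A') (hL : Function.Bijective L)
    (hk : ∀ x, prH _ A' k' (L x) = L (prH _ A k x)) (h : Euclid_Gen k A) : Euclid_Gen k' A' := by
  obtain ⟨x, h1, h2, h3⟩ := h
  refine ⟨L x, by rw [hk, h1], fun h0 => h2 (hL.1 (by rw [h0, map_zero])), fun y => ?_⟩
  obtain ⟨y, rfl⟩ := hL.2 y
  obtain ⟨z, rfl⟩ := h3 y
  exact ⟨z, map_smul L z x⟩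

theorem Euclid_gen_comap {Y' : Type} [TopologicalSpace Y'] {A : Set Y} {A' : Set Y'} {k k' : ℤ}
    (L : Hc A →ₗ[ℂ] Hc A') (hL : Function.Bijective L)
    (hk : ∀ x, prH _ A' k' (L x) = L (prH _ A k x)) (h : Euclid_Gen k' A') : Euclid_Gen k A := by
  obtain ⟨x, h1, h2, h3⟩ := h
  obtain ⟨x, rfl⟩ := hL.2 x
  refine ⟨x, hL.1 (by rw [← hk, h1]), fun h0 => h2 (by rw [h0, map_zero]), fun y => ?_⟩
  obtain ⟨z, hz⟩ := h3 (L y)
  exact ⟨z, hL.1 (by rw [hz, map_smul])⟩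

theorem Euclid_gen_homeo {Y' : Type} [TopologicalSpace Y'] {A : Set Y} {A' : Set Y'} {k : ℤ}
    {f : Y' → Y} {g : Y → Y'} (hf : HomeoOn f g A' A) (h : Euclid_Gen k A) : Euclid_Gen k A' := by
  refine Euclid_gen_map (tw A A' f one) hf.tw_bijective (fun x => ?_) h
  have h1 := tw_prH (hf.properOn.twOK (one_mem_ZZ A')) HomC.one k x
  rwa [add_zero] at h1

theorem Euclid_gen_point (y : Y) [Nice Y] : Euclid_Gen 0 ({y} : Set Y) :=
  Euclid_gen_of HomC.one (isGenOn_point y)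

/-- A compact acyclic set has the cohomology of a point. -/
theorem Euclid_gen_one {K : Set Y} (hK : IsCompact K) (h : ∀ c, AcycBelow c K) :
    IsGenOn K one := by
  have h1 : (one : Coch Y) ∈ ZZ (cc K) K := by rw [ZZ_cc_eq_bot hK]; exact one_mem_ZZ K
  refine ⟨h1, fun h0 => ?_, fun x => ?_⟩
  · obtain ⟨y, hy⟩ := (h 0).1
    have h2 := deg_zero_of_mem_BB ((cls_eq_zero_iff h1).1 h0) y hy
    simp [one] at h2
  · have key : ∀ k : ℤ, prH _ K k x ∈ Submodule.span ℂ {clc K one} := by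
      intro k
      have h2 : prH _ K k (prH _ K k x) = prH _ K k x := by rw [prH_prH, if_pos rfl]
      obtain ⟨c, hc, hk, hcx⟩ := exists_homC_of_prH h2
      obtain ⟨z, hz⟩ := (h (k + 1)).2 k (by omega) c (by rwa [ZZ_cc_eq_bot hK] at hc) hk
      rw [← BB_cc_eq_bot hK, ← cls_eq_iff hc (Submodule.smul_mem _ z h1), cls_smul z h1] at hz
      rw [← hcx, hz]
      exact Submodule.smul_mem _ z (Submodule.mem_span_singleton_self _)
    obtain ⟨N, hN⟩ := sum_prH x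
    have h3 : x ∈ Submodule.span ℂ {clc K one} := by
      rw [hN N le_rfl]
      exact Submodule.sum_mem _ fun k _ => key k
    obtain ⟨z, hz⟩ := Submodule.mem_span_singleton.1 h3
    exact ⟨z, hz.symm⟩

theorem Euclid_res_one {A A' : Set Y} (h : ClosedIn A' A) (h1 : (one : Coch Y) ∈ ZZ (cc A) A) :
    res A A' (clc A one) = clc A' one := by
  rw [tw_cls (h.properOn.twOK (one_mem_ZZ A')) h1, pb_id, cup_one (Bdd.one).1]

section nice
variable [Nice Y]

theorem Euclid_sub_of_res {A A' U : Set Y} (hA : LC A) (h : ClosedIn A' A) (hU : U = A \ A')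
    (h1 : IsGenOn A one) (h2 : IsGenOn A' one) : Subsingleton (Hc U) := by
  obtain ⟨δ, e1, e2, e3, -, -⟩ := les hA h hU
  have hr := Euclid_res_one h h1.1
  refine subsingleton_of_forall_eq 0 fun x => ?_
  have h3 : ext U A x = 0 := by
    obtain ⟨z, hz⟩ := h1.2.2 (ext U A x)
    have h4 : res A A' (ext U A x) = 0 := (e1 _).2 ⟨x, rfl⟩
    rw [hz, map_smul, hr] at h4
    rcases smul_eq_zero.1 h4 with h5 | h5
    · rw [hz, h5, zero_smul]
    · exact absurd h5 h2.2.1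
  obtain ⟨y, rfl⟩ := (e3 x).1 h3
  obtain ⟨z, rfl⟩ := h2.2.2 y
  exact (e2 _).2 ⟨z • clc A one, by rw [map_smul, hr]⟩

theorem Euclid_gen_delta {A A' U : Set Y} (hA : LC A) (h : ClosedIn A' A) (hU : U = A \ A')
    (h1 : Subsingleton (Hc A)) {k : ℤ} (h2 : Euclid_Gen k A') : Euclid_Gen (k + 1) U := by
  obtain ⟨δ, -, e2, e3, e4, -⟩ := les hA h hU
  refine Euclid_gen_map δ ⟨(injective_iff_map_eq_zero δ).2 fun x hx => ?_, fun y => ?_⟩ (e4 k) h2
  · obtain ⟨y, rfl⟩ := (e2 x).1 hx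
    rw [Subsingleton.elim y 0, map_zero]
  · exact (e3 y).1 (Subsingleton.elim _ _)

theorem Euclid_sub_directed {ι : Type} [Nonempty ι] {A : Set Y} (U : ι → Set Y)
    (hU : ∀ i, OpenIn (U i) A) (hd : Directed (· ⊆ ·) U) (hc : A ⊆ ⋃ i, U i)
    (h : ∀ i, Subsingleton (Hc (U i))) : Subsingleton (Hc A) := by
  refine subsingleton_of_forall_eq 0 fun x => ?_
  obtain ⟨i, y, rfl⟩ := exists_ext_of_directed U hU hd hc x
  rw [(h i).elim y 0, map_zero]

/-- A generator supported in an open subset. -/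
theorem Euclid_gen_ext {U A : Set Y} (h : OpenIn U A) (hb : Function.Bijective (ext U A)) {k : ℤ}
    (hU : Euclid_Gen k U) : ∃ w : Coch Y, HomC k w ∧ IsGenOn A w ∧ supp A w ⊆ U := by
  obtain ⟨c, hk, hc, h1, h2⟩ := Euclid_gen_exists hU
  obtain ⟨a, ha, s1, s2, s3, s4⟩ := exists_ext_rep h hc.1
  have haZ : a ∈ ZZ (cc A) A := ⟨ha, s2.trans hc.2⟩
  have hs : supp A a ⊆ U := by rw [s1]; exact supp_subset U c
  obtain ⟨h3, h4⟩ := ext_cls_of_supp h haZ hs
  have h5 : clc U a = clc U c := (cls_eq_iff h3 hc).2 (N0_le_BB _ _ s3)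
  rw [h5] at h4
  refine ⟨a, s4 k hk, ⟨haZ, fun h0 => h1 (hb.1 (by rw [h4, h0, map_zero])), fun y => ?_⟩, hs⟩
  obtain ⟨y, rfl⟩ := hb.2 y
  obtain ⟨z, rfl⟩ := h2 y
  exact ⟨z, by rw [map_smul, h4]⟩

end nice

theorem Euclid_acyc_convex (c : ℤ) {C : Set F} (hC : Convex ℝ C) (hLC : LC C)
    (hne : C.Nonempty) : AcycBelow c C := by
  have := Nice.normed F
  refine ⟨hne, fun k _ w hw _ => ?_⟩
  obtain ⟨x₀, hx₀⟩ := hne
  have h1 := homotopy_BB (A := C) hLC (h := fun p : F × ℝ => (1 - p.2) • p.1 + p.2 • x₀)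
    (by fun_prop) (fun p hp => hC hp.1 hx₀ (sub_nonneg.2 hp.2.2) hp.2.1 (by ring)) hw
  have e0 : (fun y : F => (1 - (0 : ℝ)) • y + (0 : ℝ) • x₀) = id := by
    funext y; simp
  have e1 : (fun y : F => (1 - (1 : ℝ)) • y + (1 : ℝ) • x₀) = fun _ => x₀ := by
    funext y; simp
  simp only [e0, e1, pb_id] at h1
  have h2 : w ∈ ZZ ⊥ ({x₀} : Set F) := by
    have h3 := pb_mem_ZZ (A := C) (A' := {x₀}) (f := id) continuousOn_id
      (fun y hy => by rw [mem_singleton_iff.1 hy]; exact hx₀) hw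
    rwa [pb_id] at h3
  have h4 := pb_mem_BB (A := {x₀}) (A' := C) (f := fun _ => x₀) continuousOn_const
    (fun _ _ => rfl) (point_ZZ h2)
  rw [pb_sub, pb_smul, pb_one] at h4
  refine ⟨w [x₀], ?_⟩
  have h5 := Submodule.add_mem _ h1 h4
  rwa [sub_add_sub_cancel] at h5

theorem Euclid_gen_one_convex {C : Set F} (hC : Convex ℝ C) (hK : IsCompact C)
    (hne : C.Nonempty) : IsGenOn C one :=
  Euclid_gen_one hK fun c => Euclid_acyc_convex c hC (LC.of_isCompact hK) hne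

theorem Euclid_sub_Ico {a b : ℝ} : Subsingleton (Hc (Ico a b)) := by
  rcases le_or_gt b a with h | h
  · rw [Ico_eq_empty (not_lt.2 h)]; infer_instance
  · refine Euclid_sub_of_res (A := Icc a b) (A' := {b}) (LC.of_isCompact isCompact_Icc)
      ⟨{b}, isClosed_singleton, ?_⟩ Icc_sdiff_right.symm
      (Euclid_gen_one_convex (convex_Icc a b) isCompact_Icc (nonempty_Icc.2 h.le))
      (isGenOn_point b)
    rw [inter_eq_right.2 (singleton_subset_iff.2 (right_mem_Icc.2 h.le))]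

/-- A half-open interval cut out of an open interval. -/
theorem Euclid_sub_interval {O : Set ℝ} (hc : Convex ℝ O) (ho : IsOpen O) {a : ℝ} (ha : a ∈ O) :
    Subsingleton (Hc (O ∩ Ici a)) := by
  have : Nonempty O := ⟨⟨a, ha⟩⟩
  refine Euclid_sub_directed (fun b : O => Ico a b.1) (fun b => ⟨Iio b.1, isOpen_Iio, ?_⟩)
    (fun b b' => ?_) (fun t ht => ?_) fun _ => Euclid_sub_Ico
  · ext t
    exact ⟨fun ht => ⟨⟨hc.ordConnected.out ha b.2 ⟨ht.1, ht.2.le⟩, ht.1⟩, ht.2⟩,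
      fun ht => ⟨ht.1.2, ht.2⟩⟩
  · rcases le_total b.1 b'.1 with h | h
    · exact ⟨b', Ico_subset_Ico_right h, Subset.rfl⟩
    · exact ⟨b, Subset.rfl, Ico_subset_Ico_right h⟩
  · obtain ⟨ε, hε, hb⟩ := Metric.isOpen_iff.1 ho t ht.1
    have h1 : t + ε / 2 ∈ O := hb (by
      rw [Metric.mem_ball, Real.dist_eq, add_sub_cancel_left, abs_of_pos (half_pos hε)]
      exact half_lt_self hε)
    exact mem_iUnion.2 ⟨⟨_, h1⟩, ht.2, by simp only; linarith⟩

theorem subsingleton_Ici (a : ℝ) : Subsingleton (Hc (Ici a)) := by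
  have h := Euclid_sub_interval convex_univ isOpen_univ (mem_univ a)
  rwa [univ_inter] at h
theorem subsingleton_Ico {a b : ℝ} : Subsingleton (Hc (Ico a b)) := Euclid_sub_Ico

/-- The part of a ray between two open intervals around the origin. -/
theorem Euclid_sub_ray {O O' : Set ℝ} (hc : Convex ℝ O) (ho : IsOpen O) (hc' : Convex ℝ O')
    (ho' : IsOpen O') (h0 : (0 : ℝ) ∈ O) (h0' : (0 : ℝ) ∈ O') :
    Subsingleton (Hc ((O \ O') ∩ Ici 0)) := by
  rcases ((O \ O') ∩ Ici 0).eq_empty_or_nonempty with h | ⟨t, ht⟩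
  · rw [h]; infer_instance
  have hP : IsClosed (Ici (0 : ℝ) \ O') := isClosed_Ici.sdiff ho'
  have hb : BddBelow (Ici (0 : ℝ) \ O') := ⟨0, fun s hs => hs.1⟩
  have hT := hP.csInf_mem ⟨t, ht.2, ht.1.2⟩ hb
  have hle : ∀ s ∈ (O \ O') ∩ Ici 0, sInf (Ici (0 : ℝ) \ O') ≤ s :=
    fun s hs => csInf_le hb ⟨hs.2, hs.1.2⟩
  generalize sInf (Ici (0 : ℝ) \ O') = T at hT hle
  have e : (O \ O') ∩ Ici 0 = O ∩ Ici T := by
    ext s
    exact ⟨fun hs => ⟨hs.1.1, hle s hs⟩, fun hs => ⟨⟨hs.1, fun h1 =>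
      hT.2 (hc'.ordConnected.out h0' h1 ⟨hT.1, hs.2⟩)⟩, le_trans (mem_Ici.1 hT.1) (mem_Ici.1 hs.2)⟩⟩
  rw [e]
  exact Euclid_sub_interval hc ho (hc.ordConnected.out h0 ht.1.1 ⟨hT.1, hle t ht⟩)

theorem Euclid_lc_open {C : Set F} (ho : IsOpen C) : LC C := by
  have := FiniteDimensional.proper_real F
  exact LC.univ.openIn ⟨C, ho, (univ_inter C).symm⟩

/-- The difference of two nested open convex sets is fibred by half-open intervals. -/
theorem Euclid_sub_diff {C C' : Set F} (hC : Convex ℝ C) (ho : IsOpen C) (hC' : Convex ℝ C')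
    (ho' : IsOpen C') (hne : C'.Nonempty) (h : C' ⊆ C) : Subsingleton (Hc (C \ C')) := by
  have := Nice.normed F
  obtain ⟨x₁, hx₁⟩ := hne
  have hn : ∀ x ∈ C \ C', ‖x - x₁‖ ≠ 0 := fun x hx h0 =>
    hx.2 (by rw [sub_eq_zero.1 (norm_eq_zero.1 h0)]; exact hx₁)
  refine vanish (f := fun x => ‖x - x₁‖⁻¹ • (x - x₁))
    ((Euclid_lc_open ho).closedIn ⟨C'ᶜ, ho'.isClosed_compl, rfl⟩)
    (ContinuousOn.smul (ContinuousOn.inv₀ (by fun_prop) hn) (by fun_prop)) fun u => ?_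
  rcases ((C \ C') ∩ (fun x => ‖x - x₁‖⁻¹ • (x - x₁)) ⁻¹' {u}).eq_empty_or_nonempty with
    he | ⟨x, hx, hxu⟩
  · rw [he]; infer_instance
  have hu : ‖u‖ = 1 := by
    have h1 : ‖x - x₁‖⁻¹ • (x - x₁) = u := hxu
    rw [← h1, norm_smul, norm_inv, norm_norm, inv_mul_cancel₀ (hn x hx)]
  have hconv : ∀ {D : Set F}, Convex ℝ D → Convex ℝ ((fun t : ℝ => x₁ + t • u) ⁻¹' D) := by
    intro D hD s hs t ht a b ha hb hab
    have h1 := hD hs ht ha hb hab
    have h2 : a • (x₁ + s • u) + b • (x₁ + t • u) = x₁ + (a • s + b • t) • u := by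
      rw [smul_add, smul_add, add_add_add_comm, ← add_smul, hab, one_smul, smul_smul, smul_smul,
        ← add_smul, smul_eq_mul, smul_eq_mul]
    rw [h2] at h1
    exact h1
  have hcont : Continuous fun t : ℝ => x₁ + t • u := by fun_prop
  have hinv : ∀ y ∈ (C \ C') ∩ (fun x => ‖x - x₁‖⁻¹ • (x - x₁)) ⁻¹' {u},
      x₁ + ‖y - x₁‖ • u = y := by
    intro y hy
    have h1 : ‖y - x₁‖⁻¹ • (y - x₁) = u := hy.2
    rw [← h1, smul_smul, mul_inv_cancel₀ (hn y hy.1), one_smul, add_sub_cancel]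
  have hnorm : ∀ t : ℝ, 0 ≤ t → ‖x₁ + t • u - x₁‖ = t := by
    intro t ht
    rw [add_sub_cancel_left, norm_smul, hu, mul_one, Real.norm_of_nonneg ht]
  refine HomeoOn.subsingleton (f := fun y => ‖y - x₁‖) (g := fun t : ℝ => x₁ + t • u)
    ⟨by fun_prop, hcont.continuousOn, fun y hy => ?_, fun t ht => ?_, hinv,
      fun t ht => hnorm t ht.2⟩
    (Euclid_sub_ray (hconv hC) (ho.preimage hcont) (hconv hC') (ho'.preimage hcont)
      (by simpa using h hx₁) (by simpa using hx₁))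
  · refine ⟨?_, norm_nonneg _⟩
    change x₁ + ‖y - x₁‖ • u ∈ C \ C'
    rw [hinv y hy]; exact hy.1
  · have h1 : x₁ + t • u ∈ C \ C' := ht.1
    refine ⟨h1, ?_⟩
    have h2 := hn _ h1
    change ‖x₁ + t • u - x₁‖⁻¹ • (x₁ + t • u - x₁) = u
    rw [hnorm t ht.2] at h2 ⊢
    rw [add_sub_cancel_left, smul_smul, inv_mul_cancel₀ h2, one_smul]

theorem Euclid_ext_convex {C C' : Set F} (hC : Convex ℝ C) (ho : IsOpen C) (hC' : Convex ℝ C')
    (ho' : IsOpen C') (hne : C'.Nonempty) (h : C' ⊆ C) : Function.Bijective (ext C' C) := by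
  have := Nice.normed F
  exact ext_bijective (A' := C \ C') (Euclid_lc_open ho) ⟨C'ᶜ, ho'.isClosed_compl, rfl⟩
    (sdiff_sdiff_cancel_left h).symm (Euclid_sub_diff hC ho hC' ho' hne h)

/-- A generator of `Hc ℝ` in degree one supported in a prescribed interval. -/
theorem exists_gen_real {a b : ℝ} (hab : a < b) :
    ∃ ω : Coch ℝ, HomC 1 ω ∧ IsGenOn univ ω ∧ supp univ ω ⊆ Ioo a b := by
  have h1 : Euclid_Gen (0 + 1) (Ioo a b) := by
    refine Euclid_gen_delta (A := Ico a b) (A' := {a}) ?_ ⟨{a}, isClosed_singleton, ?_⟩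
      Ico_sdiff_left.symm subsingleton_Ico (Euclid_gen_point a)
    · exact (LC.of_isClosed isClosed_Ici).openIn ⟨Iio b, isOpen_Iio, Ici_inter_Iio.symm⟩
    · rw [inter_eq_right.2 (singleton_subset_iff.2 (left_mem_Ico.2 hab))]
  rw [zero_add] at h1
  exact Euclid_gen_ext ⟨Ioo a b, isOpen_Ioo, (univ_inter _).symm⟩
    (Euclid_ext_convex convex_univ isOpen_univ (convex_Ioo a b) isOpen_Ioo (nonempty_Ioo.2 hab)
      (subset_univ _)) h1
theorem exists_gen_Ioi : ∃ ω : Coch ℝ, HomC 1 ω ∧ IsGenOn (Ioi 0) ω := by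
  have h1 : Euclid_Gen (0 + 1) (Ioi (0 : ℝ)) := by
    refine Euclid_gen_delta (A := Ici 0) (A' := {0}) (LC.of_isClosed isClosed_Ici)
      ⟨{0}, isClosed_singleton, ?_⟩ Ici_sdiff_left.symm (subsingleton_Ici 0) (Euclid_gen_point 0)
    rw [inter_eq_right.2 (singleton_subset_iff.2 self_mem_Ici)]
  rw [zero_add] at h1
  exact Euclid_gen_exists h1

/-- An open convex set cut by a closed half-space whose boundary it meets. -/
theorem subsingleton_halfConvex {C : Set F} (hC : Convex ℝ C) (ho : IsOpen C) (ℓ : F →ₗ[ℝ] ℝ)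
    (hℓ : ℓ ≠ 0) (c : ℝ) (hx : ∃ x ∈ C, ℓ x + c = 0) :
    Subsingleton (Hc (C ∩ {x | 0 ≤ ℓ x + c})) := by
  obtain ⟨x₀, hx₀, h0⟩ := hx
  have hcont : Continuous ℓ := ℓ.continuous_of_finiteDimensional
  have e : C ∩ {x | 0 ≤ ℓ x + c} = C \ (C ∩ {x | ℓ x < -c}) := by
    ext x
    constructor
    · rintro ⟨h1, h2⟩
      refine ⟨h1, fun h3 => ?_⟩
      have h4 : 0 ≤ ℓ x + c := h2
      have h5 : ℓ x < -c := h3.2
      linarith
    · rintro ⟨h1, h2⟩
      refine ⟨h1, ?_⟩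
      have h3 : ¬ ℓ x < -c := fun h4 => h2 ⟨h1, h4⟩
      change 0 ≤ ℓ x + c
      linarith [not_lt.1 h3]
  rw [e]
  refine Euclid_sub_diff hC ho (hC.inter (convex_halfSpace_lt ℓ.isLinear (-c)))
    (ho.inter (isOpen_lt hcont continuous_const)) ?_ inter_subset_left
  obtain ⟨v, hv⟩ : ∃ v, ℓ v < 0 := by
    obtain ⟨v, hv⟩ : ∃ v, ℓ v ≠ 0 := by
      by_contra hn
      exact hℓ (LinearMap.ext fun v => not_not.1 fun hv => hn ⟨v, hv⟩)
    rcases lt_or_gt_of_ne hv with h1 | h1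
    · exact ⟨v, h1⟩
    · exact ⟨-v, by rw [map_neg]; linarith⟩
  have h1 : IsOpen ((fun t : ℝ => x₀ + t • v) ⁻¹' C) := ho.preimage (by fun_prop)
  obtain ⟨ε, hε, hb⟩ := Metric.isOpen_iff.1 h1 0 (by simpa using hx₀)
  refine ⟨x₀ + (ε / 2) • v, hb ?_, ?_⟩
  · rw [Metric.mem_ball, Real.dist_eq, sub_zero, abs_of_pos (half_pos hε)]
    exact half_lt_self hε
  · change ℓ (x₀ + (ε / 2) • v) < -c
    rw [map_add, map_smul, smul_eq_mul]
    nlinarith [half_pos hε]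

/-- Half-space vanishing along the cosets of a subspace `Λ`. -/
theorem vanish_affine {B : Type} [TopologicalSpace B] [Nice B] (Λ : Submodule ℝ F)
    {D : Set (F × B)} {W : F × B → ℝ} (hD : ∀ p ∈ D, ∀ v ∈ Λ, (p.1 + v, p.2) ∈ D)
    (hW : ∀ p ∈ D, ∃ ℓ : Λ →ₗ[ℝ] ℝ, ℓ ≠ 0 ∧ ∀ v : Λ, W (p.1 + v, p.2) = W p + ℓ v)
    (hLC : LC (D ∩ {p | 0 ≤ W p})) : Subsingleton (Hc (D ∩ {p | 0 ≤ W p})) := by
  have := Nice.normed F
  obtain ⟨r, hr⟩ := LinearMap.exists_leftInverse_of_injective Λ.subtype Λ.ker_subtype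
  have hr' : ∀ v : Λ, r v = v := fun v => LinearMap.congr_fun hr v
  have hc : Continuous r := r.continuous_of_finiteDimensional
  refine vanish (f := fun p : F × B => (p.1 - (r p.1 : F), p.2)) hLC (by fun_prop) fun q => ?_
  rcases ((D ∩ {p | 0 ≤ W p}) ∩
      (fun p : F × B => (p.1 - (r p.1 : F), p.2)) ⁻¹' {q}).eq_empty_or_nonempty with
    he | ⟨p₀, hp₀, hq⟩
  · rw [he]; infer_instance
  have hq' : (p₀.1 - (r p₀.1 : F), p₀.2) = q := hq
  obtain ⟨ℓ, hℓ, hWℓ⟩ := hW p₀ hp₀.1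
  have hinv : ∀ p ∈ (D ∩ {p | 0 ≤ W p}) ∩
      (fun p : F × B => (p.1 - (r p.1 : F), p.2)) ⁻¹' {q},
      (p₀.1 + (r (p.1 - p₀.1) : F), p₀.2) = p := by
    intro p hp
    have h1 : (p.1 - (r p.1 : F), p.2) = q := hp.2
    obtain ⟨h2, h3⟩ := Prod.mk.inj (h1.trans hq'.symm)
    refine Prod.ext ?_ h3.symm
    change p₀.1 + (r (p.1 - p₀.1) : F) = p.1
    rw [map_sub, Submodule.coe_sub, ← add_sub_assoc, add_sub_right_comm, ← h2, sub_add_cancel]
  have hex : ∃ v ∈ (univ : Set Λ), ℓ v + W p₀ = 0 := by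
    obtain ⟨v, hv⟩ : ∃ v, ℓ v ≠ 0 := by
      by_contra hn
      exact hℓ (LinearMap.ext fun v => not_not.1 fun hv => hn ⟨v, hv⟩)
    refine ⟨(-W p₀ / ℓ v) • v, mem_univ _, ?_⟩
    rw [map_smul, smul_eq_mul, div_mul_cancel₀ _ hv, neg_add_cancel]
  refine HomeoOn.subsingleton (f := fun p : F × B => r (p.1 - p₀.1))
    (g := fun v : Λ => (p₀.1 + (v : F), p₀.2)) (A := univ ∩ {v : Λ | 0 ≤ ℓ v + W p₀})
    ⟨by fun_prop, by fun_prop, fun p hp => ⟨mem_univ _, ?_⟩, fun v hv => ⟨⟨?_, ?_⟩, ?_⟩, hinv,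
      fun v _ => ?_⟩
    (subsingleton_halfConvex convex_univ isOpen_univ ℓ hℓ (W p₀) hex)
  · change 0 ≤ ℓ (r (p.1 - p₀.1)) + W p₀
    rw [add_comm, ← hWℓ, hinv p hp]
    exact hp.1.2
  · exact hD p₀ hp₀.1 v v.2
  · change 0 ≤ W (p₀.1 + (v : F), p₀.2)
    rw [hWℓ, add_comm]
    exact hv.2
  · change (p₀.1 + (v : F) - (r (p₀.1 + (v : F)) : F), p₀.2) = q
    rw [← hq', map_add, hr', Submodule.coe_add, add_sub_add_right_eq_sub]
  · change r (p₀.1 + (v : F) - p₀.1) = v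
    rw [add_sub_cancel_left, hr']

/-- Suspension. -/
theorem Euclid_gen_prod [Nice Y] (hY : LC (univ : Set Y)) {k : ℤ}
    (h : Euclid_Gen k (univ : Set Y)) : Euclid_Gen (k + 1) (univ : Set (Y × ℝ)) := by
  obtain ⟨ω, h1, h2, -⟩ := exists_gen_real (zero_lt_one' ℝ)
  have hw : TwOK (univ : Set Y) (univ : Set (Y × ℝ)) Prod.fst (pb Prod.snd ω) := by
    refine ⟨continuous_fst.continuousOn, mapsTo_univ _ _,
      pb_mem_ZZ continuous_snd.continuousOn (mapsTo_univ _ _) (ZZ_cc_le_bot _ h2.1),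
      fun C hC _ => ⟨C ×ˢ supp univ ω, hC.prod (mem_CC_cc.1 h2.1.1).2, subset_univ _,
        fun p hp => ⟨hp.2, ?_⟩⟩⟩
    exact supp_pb continuous_snd.continuousOn (mapsTo_univ _ _) ω hp.1
  have hl : LC (univ : Set (Y × ℝ)) := by
    rw [← univ_prod_univ]; exact hY.prod LC.univ
  refine Euclid_gen_map _ (thom_iso hY hl hw (h1.pb _) fun y _ => ?_)
    (tw_prH hw (h1.pb _) k) h
  have hh : HomeoOn (Prod.snd : Y × ℝ → ℝ) (fun t => (y, t))
      (univ ∩ Prod.fst ⁻¹' {y}) univ :=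
    ⟨continuous_snd.continuousOn, by fun_prop, mapsTo_univ _ _, fun t _ => ⟨mem_univ _, rfl⟩,
      fun p hp => Prod.ext (mem_singleton_iff.1 hp.2).symm rfl, fun _ _ => rfl⟩
  exact IsGenOn.of_homeoOn hh h2 (pb_mem_ZZ_cc hh.properOn h2.1)
    (by rw [sub_self]; exact Submodule.zero_mem _)

theorem Euclid_gen_univ (n : ℕ) : ∀ (F : Type) [NormedAddCommGroup F] [NormedSpace ℝ F]
    [FiniteDimensional ℝ F], Module.finrank ℝ F = n → Euclid_Gen n (univ : Set F) := by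
  induction n with
  | zero =>
    intro F _ _ _ h
    have := Nice.normed F
    have : Subsingleton F := Module.finrank_zero_iff.1 h
    have e : (univ : Set F) = {0} := (eq_univ_of_forall fun x => Subsingleton.elim x 0).symm
    rw [e]
    exact Euclid_gen_point 0
  | succ n ih =>
    intro F _ _ _ h
    have h1 := Euclid_gen_prod LC.univ (ih (Fin n → ℝ) (Module.finrank_fin_fun ℝ))
    let e : F ≃L[ℝ] (Fin n → ℝ) × ℝ := ContinuousLinearEquiv.ofFinrankEq (by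
      rw [h, Module.finrank_prod, Module.finrank_fin_fun, Module.finrank_self])
    have hh : HomeoOn e e.symm univ univ :=
      ⟨e.continuous.continuousOn, e.symm.continuous.continuousOn, mapsTo_univ _ _,
        mapsTo_univ _ _, fun y _ => e.symm_apply_apply y, fun y _ => e.apply_symm_apply y⟩
    rw [Nat.cast_succ]
    exact Euclid_gen_homeo hh h1

theorem Euclid_gen_convex {C : Set F} (hC : Convex ℝ C) (ho : IsOpen C) (hne : C.Nonempty) :
    Euclid_Gen (Module.finrank ℝ F) C := by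
  have := Nice.normed F
  exact Euclid_gen_comap _ (Euclid_ext_convex convex_univ isOpen_univ hC ho hne (subset_univ _))
    (ext_prH ⟨C, ho, (univ_inter C).symm⟩ _) (Euclid_gen_univ _ F rfl)

theorem subsingleton_compl_convex {C : Set F} (hC : Convex ℝ C) (ho : IsOpen C)
    (hne : C.Nonempty) : Subsingleton (Hc (univ \ C)) :=
  Euclid_sub_diff convex_univ isOpen_univ hC ho hne (subset_univ _)
theorem exists_gen_convex {C : Set F} (hC : Convex ℝ C) (ho : IsOpen C) (hne : C.Nonempty) :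
    ∃ w : Coch F, HomC (Module.finrank ℝ F) w ∧ IsGenOn C w :=
  Euclid_gen_exists (Euclid_gen_convex hC ho hne)
theorem ext_convex_bijective {C C' : Set F} (hC : Convex ℝ C) (ho : IsOpen C) (hC' : Convex ℝ C')
    (ho' : IsOpen C') (hne : C'.Nonempty) (h : C' ⊆ C) : Function.Bijective (ext C' C) :=
  Euclid_ext_convex hC ho hC' ho' hne h
theorem acycBelow_convex (c : ℤ) {C : Set F} (hC : Convex ℝ C) (hLC : LC C) (hne : C.Nonempty) :
    AcycBelow c C := Euclid_acyc_convex c hC hLC hne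
theorem acycBelow_sphere :
    AcycBelow ((Module.finrank ℝ F : ℤ) - 1) (Metric.sphere (0 : F) 1) ∨
      Module.finrank ℝ F = 0 := by
  rcases Nat.eq_zero_or_pos (Module.finrank ℝ F) with h0 | h0
  · exact Or.inr h0
  left
  have := Nice.normed F
  have := FiniteDimensional.proper_real F
  have : Nontrivial F := Module.finrank_pos_iff.1 h0
  refine ⟨NormedSpace.sphere_nonempty.2 zero_le_one, fun k hk w hw hwk => ?_⟩
  have hS : IsCompact (Metric.sphere (0 : F) 1) := isCompact_sphere 0 1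
  have hA : IsCompact (Metric.closedBall (0 : F) 1) := isCompact_closedBall 0 1
  have hcl : ClosedIn (Metric.sphere (0 : F) 1) (Metric.closedBall 0 1) :=
    ⟨_, Metric.isClosed_sphere, (inter_eq_right.2 Metric.sphere_subset_closedBall).symm⟩
  obtain ⟨δ, -, e2, -, e4, -⟩ :=
    les (LC.of_isCompact hA) hcl Metric.closedBall_sdiff_sphere.symm
  obtain ⟨g, g1, -, g3⟩ := Euclid_gen_convex (convex_ball (0 : F) 1) Metric.isOpen_ball
    (Metric.nonempty_ball.2 zero_lt_one)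
  have hone := Euclid_gen_one_convex (convex_closedBall (0 : F) 1) hA
    (Metric.nonempty_closedBall.2 zero_le_one)
  rw [← ZZ_cc_eq_bot hS] at hw
  have h1 : δ (clc _ w) = 0 := by
    have h2 := e4 k (clc _ w)
    rw [prH_cls k hw, hwk.prC_self] at h2
    obtain ⟨z, hz⟩ := g3 (δ (clc _ w))
    rw [← h2, hz, map_smul, ← g1, prH_prH, if_neg (by omega), smul_zero]
  obtain ⟨y, hy⟩ := (e2 _).1 h1
  obtain ⟨z, rfl⟩ := hone.2.2 y
  have h3 : (one : Coch F) ∈ ZZ (cc (Metric.sphere (0 : F) 1)) (Metric.sphere 0 1) := by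
    rw [ZZ_cc_eq_bot hS]; exact one_mem_ZZ _
  rw [map_smul, Euclid_res_one hcl hone.1, ← cls_smul z h3] at hy
  refine ⟨z, ?_⟩
  rw [← BB_cc_eq_bot hS, ← cls_eq_iff hw (Submodule.smul_mem _ z h3)]
  exact hy.symm

end Pool.Agent.HK
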