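import Pool.Agent.P.MP_1206ce_ag.AS.Lawson

/-! The refined Gysin relation `IsGysin`: existence, uniqueness, naturality. -/

open scoped Topology
open Filter Set

noncomputable section

namespace Pool.Agent.HK

variable {Y Y' Z : Type} [TopologicalSpace Y] [TopologicalSpace Y'] [TopologicalSpace Z]

/-- Standing hypotheses on the data of a Gysin relation. -/
structure GysinData (A C : Set Y) (B : Set Z) (ball : ℝ → Set Z) (σ : Y → Z) (ν : Z → ℝ) :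
    Prop where
  lcA : LC A
  lcB : LC B
  cont : ContinuousOn σ A
  maps : MapsTo σ A B
  contν : ContinuousOn ν B
  nonneg : ∀ z ∈ B, 0 ≤ ν z
  ball_iff : ∀ ε, ∀ z ∈ B, z ∈ ball ε ↔ ν z < ε
  zero : C = A ∩ {y | ν (σ y) = 0}
  out : ∀ ε, 0 < ε → Subsingleton (Hc (B \ ball ε))

omit [TopologicalSpace Y] in
theorem Gysin_sg_sg (a : Coch Y) : sgC (sgC a) = a := by
  funext l
  simp only [sgC]
  rw [← mul_assoc, ← mul_pow]
  simp

omit [TopologicalSpace Y] in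
theorem Gysin_dd_sg (a : Coch Y) : dd (sgC a) = (-1 : ℂ) • sgC (dd a) := by
  funext l
  simp only [dd, sgC, Pi.smul_apply, smul_eq_mul, Finset.mul_sum]
  refine Finset.sum_congr rfl fun i hi => ?_
  have hi' : i < l.length := Finset.mem_range.1 hi
  have : (l.eraseIdx i).length + 1 = l.length := by
    rw [List.length_eraseIdx_of_lt hi']
    omega
  rw [this, pow_succ]
  ring

theorem Gysin_supp_dd_sg (A : Set Y) (a : Coch Y) : supp A (dd (sgC a)) ⊆ supp A (dd a) := by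
  rw [Gysin_dd_sg]
  exact (supp_smul A _ _).trans (supp_sgC A _).subset

omit [TopologicalSpace Y] in
theorem Gysin_bdd_sub {a b : Coch Y} (ha : Bdd a) (hb : Bdd b) : Bdd (a - b) := by
  have := ha.add (hb.smul (-1))
  rwa [neg_one_smul, ← sub_eq_add_neg] at this

theorem Gysin_N0_dd {A : Set Y} {a : Coch Y} (ha : a ∈ N0 A) : dd a ∈ N0 A :=
  mem_N0.2 (subset_eq_empty (supp_dd A a) (mem_N0.1 ha))

theorem Gysin_CC {A K : Set Y} {a : Coch Y} (ha : Bdd a) (hK : IsCompact K) (hKA : K ⊆ A)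
    (hs : supp A a ⊆ K) : a ∈ CC (cc A) A :=
  mem_CC_cc.2 ⟨ha, (supp_closedIn A a).isCompact hK hKA hs⟩

theorem Gysin_supp_cup {A : Set Y} {B : Set Z} {σ : Y → Z} (hc : ContinuousOn σ A)
    (hm : MapsTo σ A B) (a : Coch Y) (t : Coch Z) :
    supp A (cup a (pb σ t)) ⊆ supp A a ∩ σ ⁻¹' supp B t :=
  (supp_cup A _ _).trans (inter_subset_inter_right _ (supp_pb hc hm t))

theorem Gysin_cup_N0 {A : Set Y} {B : Set Z} {σ : Y → Z} (hc : ContinuousOn σ A)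
    (hm : MapsTo σ A B) {a : Coch Y} {t : Coch Z} (h : ∀ y ∈ supp A a, σ y ∉ supp B t) :
    cup a (pb σ t) ∈ N0 A :=
  mem_N0.2 (eq_empty_of_forall_notMem fun y hy =>
    h y (Gysin_supp_cup hc hm a t hy).1 (Gysin_supp_cup hc hm a t hy).2)

theorem Gysin_cup_N0' {A : Set Y} {B : Set Z} {σ : Y → Z} (hc : ContinuousOn σ A)
    (hm : MapsTo σ A B) (a : Coch Y) {t : Coch Z} (h : t ∈ N0 B) : cup a (pb σ t) ∈ N0 A :=
  Gysin_cup_N0 hc hm fun _ _ hy => by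
    rw [mem_N0.1 h] at hy
    exact hy

/-- The product with the pull-back of a coboundary. -/
theorem Gysin_right {A K : Set Y} {B : Set Z} {σ : Y → Z} (hc : ContinuousOn σ A)
    (hm : MapsTo σ A B) {a : Coch Y} (ha : Bdd a) {u e : Coch Z} (he : Bdd e)
    (hu : u - dd e ∈ N0 B) (h : ∀ y ∈ supp A (dd a), σ y ∉ supp B e) (hK : IsCompact K)
    (hKA : K ⊆ A) (hs : supp A a ∩ σ ⁻¹' supp B e ⊆ K) : cup a (pb σ u) ∈ BB (cc A) A := by
  refine mem_BB.2 ⟨cup (sgC a) (pb σ e), Gysin_CC (ha.sgC.cup (he.pb σ)) hK hKA ?_, ?_⟩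
  · refine (Gysin_supp_cup hc hm _ _).trans ?_
    rwa [supp_sgC]
  · have h1 : cup a (pb σ u) - dd (cup (sgC a) (pb σ e)) =
        cup a (pb σ (u - dd e)) - cup (dd (sgC a)) (pb σ e) := by
      rw [dd_cup ha.sgC.1 (he.pb σ).1, Gysin_sg_sg, pb_sub, cup_sub, pb_dd]
      abel
    rw [h1]
    exact (N0 A).sub_mem (Gysin_cup_N0' hc hm a hu)
      (Gysin_cup_N0 hc hm fun y hy => h y (Gysin_supp_dd_sg A a hy))

/-- The product of a coboundary with the pull-back of a cocycle. -/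
theorem Gysin_left {A : Set Y} {B : Set Z} {σ : Y → Z} (hc : ContinuousOn σ A)
    (hm : MapsTo σ A B) {e : Coch Y} (he : e ∈ CC (cc A) A) {t : Coch Z} (ht : Bdd t)
    (hd : dd t ∈ N0 B) : cup (dd e) (pb σ t) ∈ BB (cc A) A := by
  obtain ⟨he1, he2⟩ := mem_CC_cc.1 he
  refine mem_BB.2 ⟨cup e (pb σ t), Gysin_CC (he1.cup (ht.pb σ)) he2 (supp_subset A e)
    ((Gysin_supp_cup hc hm _ _).trans inter_subset_left), ?_⟩
  have h1 : cup (dd e) (pb σ t) - dd (cup e (pb σ t)) = -cup (sgC e) (pb σ (dd t)) := by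
    rw [dd_cup he1.1 (ht.pb σ).1, pb_dd]
    abel
  rw [h1]
  exact (N0 A).neg_mem (Gysin_cup_N0' hc hm _ hd)

theorem Gysin_cocycle {A K : Set Y} {B : Set Z} {σ : Y → Z} (hc : ContinuousOn σ A)
    (hm : MapsTo σ A B) {a : Coch Y} (ha : Bdd a) {t : Coch Z} (ht : Bdd t) (hd : dd t ∈ N0 B)
    (h : ∀ y ∈ supp A (dd a), σ y ∉ supp B t) (hK : IsCompact K) (hKA : K ⊆ A)
    (hs : supp A a ∩ σ ⁻¹' supp B t ⊆ K) : cup a (pb σ t) ∈ ZZ (cc A) A := by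
  refine mem_ZZ.2 ⟨Gysin_CC (ha.cup (ht.pb σ)) hK hKA ((Gysin_supp_cup hc hm _ _).trans hs), ?_⟩
  rw [dd_cup ha.1 (ht.pb σ).1, ← pb_dd]
  exact (N0 A).add_mem (Gysin_cup_N0 hc hm h) (Gysin_cup_N0' hc hm _ hd)

section data
variable {A C : Set Y} {B : Set Z} {ball : ℝ → Set Z} {σ : Y → Z} {ν : Z → ℝ}

theorem Gysin_contf (h : GysinData A C B ball σ ν) : ContinuousOn (fun y => ν (σ y)) A :=
  h.contν.comp h.cont h.maps

theorem Gysin_closedC (h : GysinData A C B ball σ ν) : ClosedIn C A := by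
  have h1 : ClosedIn ({0} : Set ℝ) univ := ⟨{0}, isClosed_singleton, (univ_inter _).symm⟩
  rw [h.zero]
  exact h1.preimage (Gysin_contf h) (mapsTo_univ _ _)

theorem Gysin_closed_out (h : GysinData A C B ball σ ν) (ε : ℝ) : ClosedIn (B \ ball ε) B := by
  have h1 : ClosedIn (Ici ε) univ := ⟨Ici ε, isClosed_Ici, (univ_inter _).symm⟩
  have h2 : B \ ball ε = B ∩ ν ⁻¹' Ici ε := by
    ext z
    refine and_congr_right fun hz => ?_
    rw [h.ball_iff ε z hz, not_lt]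
    rfl
  rw [h2]
  exact h1.preimage h.contν (mapsTo_univ _ _)

/-- A compact subset of `A` that misses `C` stays away from the zero section. -/
theorem Gysin_pos (h : GysinData A C B ball σ ν) {K : Set Y} (hK : IsCompact K) (hKA : K ⊆ A)
    (hd : ∀ y ∈ K, y ∉ C) : ∃ ε, 0 < ε ∧ ∀ y ∈ K, ε ≤ ν (σ y) := by
  rcases K.eq_empty_or_nonempty with rfl | hne
  · exact ⟨1, one_pos, fun _ hy => hy.elim⟩
  · obtain ⟨y0, hy0, hmin⟩ := hK.exists_isMinOn hne ((Gysin_contf h).mono hKA)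
    refine ⟨ν (σ y0), lt_of_le_of_ne (h.nonneg _ (h.maps (hKA hy0))) fun e => hd y0 hy0 ?_,
      fun y hy => hmin hy⟩
    rw [h.zero]
    exact ⟨hKA hy0, e.symm⟩

theorem Gysin_bound (h : GysinData A C B ball σ ν) {e : Coch Z} (he : e ∈ CC (cc B) B) :
    ∃ R, ∀ z ∈ supp B e, ν z ≤ R := by
  obtain ⟨R, hR⟩ := (mem_CC_cc.1 he).2.bddAbove_image (h.contν.mono (supp_subset B e))
  exact ⟨R, fun z hz => hR ⟨z, hz, rfl⟩⟩

theorem Gysin_not_supp (h : GysinData A C B ball σ ν) {ε : ℝ} {t : Coch Z}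
    (ht : supp B t ⊆ ball ε) {y : Y} (hy : ε ≤ ν (σ y)) : σ y ∉ supp B t := fun hz =>
  absurd ((h.ball_iff ε _ (supp_subset B t hz)).1 (ht hz)) (not_lt.2 hy)

theorem Gysin_ball_mono (h : GysinData A C B ball σ ν) {ε ε' : ℝ} (hε : ε ≤ ε') {t : Coch Z}
    (ht : supp B t ⊆ ball ε) : supp B t ⊆ ball ε' := fun z hz =>
  (h.ball_iff ε' z (supp_subset B t hz)).2
    (((h.ball_iff ε z (supp_subset B t hz)).1 (ht hz)).trans_le hε)

variable [Nice Z]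

/-- Every class has a representative supported in a small ball bundle. -/
theorem Gysin_shrink (h : GysinData A C B ball σ ν) {t₀ : Coch Z} (ht : t₀ ∈ ZZ (cc B) B)
    {ε : ℝ} (hε : 0 < ε) : ∃ t ∈ ZZ (cc B) B, t - t₀ ∈ BB (cc B) B ∧ supp B t ⊆ ball ε := by
  have hc := Gysin_closed_out h ε
  obtain ⟨x, hx⟩ := (ext_bijective h.lcB hc rfl (h.out ε hε)).2 (clc B t₀)
  obtain ⟨t, h1, h2, -, -, h3⟩ := exists_ext_cls hc.diff x
  refine ⟨t, h1, (cls_eq_iff h1 ht).1 (h3.symm.trans hx), fun z hz => ?_⟩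
  by_contra h4
  exact (h2 hz).2 ⟨(h2 hz).1, h4⟩

/-- A coboundary supported in a ball bundle has a primitive supported there. -/
theorem Gysin_prim (h : GysinData A C B ball σ ν) {t : Coch Z} (ht : t ∈ ZZ (cc B) B)
    (hb : t ∈ BB (cc B) B) {ε : ℝ} (hε : 0 < ε) (hs : supp B t ⊆ ball ε) :
    ∃ e ∈ CC (cc B) B, supp B e ⊆ ball ε ∧ t - dd e ∈ N0 B := by
  have hc := Gysin_closed_out h ε
  have hU := hc.diff
  have hs' : supp B t ⊆ B \ (B \ ball ε) := fun z hz => ⟨supp_subset B t hz, fun h1 => h1.2 (hs hz)⟩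
  obtain ⟨h1, h2⟩ := ext_cls_of_supp hU ht hs'
  have h3 : clc (B \ (B \ ball ε)) t = 0 := by
    apply (ext_bijective h.lcB hc rfl (h.out ε hε)).1
    rw [h2, map_zero]
    exact (cls_eq_zero_iff ht).2 hb
  obtain ⟨e0, he0, hn⟩ := mem_BB.1 ((cls_eq_zero_iff h1).1 h3)
  obtain ⟨e, he, h4, h5, h6, -⟩ := exists_ext_rep hU he0
  refine ⟨e, he, fun z hz => ?_, ?_⟩
  · rw [h4] at hz
    have h7 := supp_subset _ _ hz
    by_contra h8
    exact h7.2 ⟨h7.1, h8⟩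
  · have h7 : t - dd e ∈ N0 (B \ (B \ ball ε)) := by
      have h8 : t - dd e = (t - dd e0) - dd (e - e0) := by
        rw [dd_sub]
        abel
      rw [h8]
      exact (N0 _).sub_mem hn (Gysin_N0_dd h6)
    rw [mem_N0, supp_openIn hU] at h7
    refine mem_N0.2 (eq_empty_of_forall_notMem fun z hz => ?_)
    have h9 : z ∈ B \ (B \ ball ε) := by
      rcases supp_sub B _ _ hz with h10 | h10
      · exact hs' h10
      · rw [h5] at h10
        exact supp_subset _ _ h10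
    have : z ∈ (∅ : Set Z) := h7 ▸ ⟨h9, hz⟩
    exact this

/-- Changing the Thom cocycle. -/
theorem Gysin_stepA (h : GysinData A C B ball σ ν) {a : Coch Y} (ha : a ∈ CC (cc A) A) {ε : ℝ}
    (hε : 0 < ε) (hd : ∀ y ∈ supp A (dd a), σ y ∉ ball ε) {t t' : Coch Z} (ht : t ∈ ZZ (cc B) B)
    (ht' : t' ∈ ZZ (cc B) B) (hb : t - t' ∈ BB (cc B) B) (hs : supp B t ⊆ ball ε)
    (hs' : supp B t' ⊆ ball ε) : cup a (pb σ t) - cup a (pb σ t') ∈ BB (cc A) A := by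
  obtain ⟨e, he, h1, h2⟩ := Gysin_prim h ((ZZ _ _).sub_mem ht ht') hb hε
    ((supp_sub B t t').trans (union_subset hs hs'))
  rw [← cup_sub, ← pb_sub]
  exact Gysin_right h.cont h.maps (mem_CC_cc.1 ha).1 (mem_CC_cc.1 he).1 h2
    (fun y hy hz => hd y hy (h1 hz)) (mem_CC_cc.1 ha).2 (supp_subset A a) inter_subset_left

end data

section stepB
variable {A C : Set Y} {B : Set Z} {ball : ℝ → Set Z} {σ : Y → Z} {ν : Z → ℝ}

theorem Gysin_open_gt (h : GysinData A C B ball σ ν) (r : ℝ) :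
    ∃ O, IsOpen O ∧ ∀ y ∈ A, y ∈ O ↔ r < ν (σ y) := by
  have h1 : OpenIn (Ioi r) univ := ⟨Ioi r, isOpen_Ioi, (univ_inter _).symm⟩
  obtain ⟨O, hO, e⟩ := h1.preimage (Gysin_contf h) (mapsTo_univ _ _)
  refine ⟨O, hO, fun y hy => ⟨fun h2 => ?_, fun h2 => ?_⟩⟩
  · have : y ∈ A ∩ (fun y => ν (σ y)) ⁻¹' Ioi r := e ▸ ⟨hy, h2⟩
    exact this.2
  · have : y ∈ A ∩ O := e ▸ ⟨hy, h2⟩
    exact this.2

theorem Gysin_open_lt (h : GysinData A C B ball σ ν) (r : ℝ) :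
    ∃ O, IsOpen O ∧ ∀ y ∈ A, y ∈ O ↔ ν (σ y) < r := by
  have h1 : OpenIn (Iio r) univ := ⟨Iio r, isOpen_Iio, (univ_inter _).symm⟩
  obtain ⟨O, hO, e⟩ := h1.preimage (Gysin_contf h) (mapsTo_univ _ _)
  refine ⟨O, hO, fun y hy => ⟨fun h2 => ?_, fun h2 => ?_⟩⟩
  · have : y ∈ A ∩ (fun y => ν (σ y)) ⁻¹' Iio r := e ▸ ⟨hy, h2⟩
    exact this.2
  · have : y ∈ A ∩ O := e ▸ ⟨hy, h2⟩
    exact this.2

variable [Nice Y]

/-- A compactly supported cochain on a subset has a compactly supported extension. -/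
theorem Gysin_cut (hA : LC A) (hCA : C ⊆ A) {e : Coch Y} (he : e ∈ CC (cc C) C) :
    ∃ e' ∈ CC (cc A) A, e' - e ∈ N0 C := by
  obtain ⟨he1, he2⟩ := mem_CC_cc.1 he
  obtain ⟨W, K, hW, h1, hK, hKA, h2⟩ :=
    hA.exists_open_compact he2 ((supp_subset C e).trans hCA)
  obtain ⟨V, hV, h3, h4⟩ := he2.exists_isOpen_closure_subset (hW.mem_nhdsSet.2 h1)
  refine ⟨ext0 V e, Gysin_CC (he1.ext0 V) hK hKA fun y hy => ?_, mem_N0.2 ?_⟩
  · exact h2 ⟨supp_subset A _ hy, h4 (supp_ext0 A V he1.1 hy).2⟩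
  · exact eq_empty_of_forall_notMem fun y hy =>
      (supp_ext0_sub C hV e hy).2 (h3 (supp_ext0_sub C hV e hy).1)

/-- Changing the extension. -/
theorem Gysin_stepB (h : GysinData A C B ball σ ν) {c : Coch Y} (hc : c ∈ CC (cc A) A)
    (hb : c ∈ BB (cc C) C) {ε₀ : ℝ} (hε : 0 < ε₀) (hd : ∀ y ∈ supp A (dd c), ε₀ ≤ ν (σ y)) :
    ∃ ε, 0 < ε ∧ ε ≤ ε₀ ∧ ∀ t ∈ ZZ (cc B) B, supp B t ⊆ ball ε →
      cup c (pb σ t) ∈ BB (cc A) A := by
  have hCA := Gysin_closedC h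
  obtain ⟨e0, he0, hn⟩ := mem_BB.1 hb
  obtain ⟨e1, he1, h1⟩ := Gysin_cut h.lcA hCA.subset he0
  have he1' := mem_CC_cc.1 he1
  have hde1 : dd e1 ∈ CC (cc A) A := Gysin_CC he1'.1.dd he1'.2 (supp_subset A _) (supp_dd A e1)
  have hc1 := mem_CC_cc.1 ((CC _ _).sub_mem hc hde1)
  have h2 : c - dd e1 ∈ N0 C := by
    have h3 : c - dd e1 = (c - dd e0) - dd (e1 - e0) := by
      rw [dd_sub]
      abel
    rw [h3]
    exact (N0 _).sub_mem hn (Gysin_N0_dd h1)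
  obtain ⟨W, K, hW, h3, hK, hKA, h4⟩ := h.lcA.exists_open_compact hc1.2 (supp_subset A _)
  obtain ⟨O, hO, h5⟩ := Gysin_open_gt h (ε₀ / 2)
  have h6 : supp A (dd (c - dd e1)) ⊆ O := by
    rw [dd_sub, dd_dd, sub_zero]
    exact fun y hy => (h5 y (supp_subset A _ hy)).2 (lt_of_lt_of_le (half_lt_self hε) (hd y hy))
  obtain ⟨c', e, g, hc', he, hg, h7, h8, h9, -, h10, -⟩ := taut hCA hc1.1 h2 hW hO h3 h6
  have hc'K : supp A c' ⊆ K := fun y hy => h4 ⟨supp_subset A _ hy, (h8 hy).1⟩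
  obtain ⟨ε', hε', h11⟩ := Gysin_pos h ((supp_closedIn A c').isCompact hK hKA hc'K)
    (supp_subset A c') fun y hy => (h8 hy).2
  have heA : e ∈ CC (cc A) A := Gysin_CC he hK hKA fun y hy => h4 ⟨supp_subset A _ hy, h9 hy⟩
  refine ⟨min ε' (ε₀ / 2), lt_min hε' (half_pos hε),
    (min_le_right _ _).trans (half_le_self hε.le), fun t ht hs => ?_⟩
  have h12 : c = c' + g + dd (e + e1) := by
    rw [dd_add, ← sub_add_cancel c (dd e1), h7]
    abel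
  have htb : Bdd t := (mem_CC.1 (mem_ZZ.1 ht).1).1
  rw [h12, add_cup, add_cup]
  refine (BB _ _).add_mem ((BB _ _).add_mem (N0_le_BB _ _ ?_) (N0_le_BB _ _ ?_)) ?_
  · exact Gysin_cup_N0 h.cont h.maps fun y hy =>
      Gysin_not_supp h hs ((min_le_left _ _).trans (h11 y hy))
  · exact Gysin_cup_N0 h.cont h.maps fun y hy => Gysin_not_supp h hs
      ((min_le_right _ _).trans ((h5 y (supp_subset A _ hy)).1 (h10 hy).2).le)
  · exact Gysin_left h.cont h.maps ((CC _ _).add_mem heA he1) htb (mem_ZZ.1 ht).2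

end stepB

variable [Nice Y] [Nice Y'] [Nice Z]

theorem GysinData.exists {A C : Set Y} {B : Set Z} {ball : ℝ → Set Z} {σ : Y → Z} {ν : Z → ℝ}
    (h : GysinData A C B ball σ ν) {t₀ : Coch Z} (ht : t₀ ∈ ZZ (cc B) B) {β : Coch Y}
    (hβ : β ∈ ZZ (cc C) C) : ∃ ω ∈ ZZ (cc A) A, IsGysin A C B ball σ t₀ β ω := by
  obtain ⟨a, ha, h1, h2⟩ := exists_taut_rep h.lcA (Gysin_closedC h) hβ
  have ha' := mem_CC_cc.1 ha
  obtain ⟨ε, hε, h3⟩ := Gysin_pos h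
    ((supp_closedIn A (dd a)).isCompact ha'.2 (supp_subset A a) (supp_dd A a))
    (supp_subset A _) fun y hy => Set.disjoint_left.1 h1 hy
  obtain ⟨t, h4, h5, h6⟩ := Gysin_shrink h ht hε
  refine ⟨cup a (pb σ t), Gysin_cocycle h.cont h.maps ha'.1 (mem_CC.1 (mem_ZZ.1 h4).1).1
    (mem_ZZ.1 h4).2 (fun y hy => Gysin_not_supp h h6 (h3 y hy)) ha'.2 (supp_subset A a)
    inter_subset_left, ε, a, t, hε, adm_true.2 ha, cohom_true.2 h2, fun y hy hz => ?_,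
    cocycle_true.2 h4, cohom_true.2 h5, h6, cohom_true.2 ?_⟩
  · exact absurd ((h.ball_iff ε _ (h.maps (supp_subset A _ hy))).1 hz) (not_lt.2 (h3 y hy))
  · rw [sub_self]
    exact (BB _ _).zero_mem

theorem GysinData.unique {A C : Set Y} {B : Set Z} {ball : ℝ → Set Z} {σ : Y → Z} {ν : Z → ℝ}
    (h : GysinData A C B ball σ ν) {t₀ t₀' : Coch Z} (ht : t₀ - t₀' ∈ BB (cc B) B)
    {β β' ω ω' : Coch Y} (hβ : β - β' ∈ BB (cc C) C) (h1 : IsGysin A C B ball σ t₀ β ω)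
    (h2 : IsGysin A C B ball σ t₀' β' ω') : ω - ω' ∈ BB (cc A) A := by
  obtain ⟨ε₁, a₁, t₁, hε₁, ha₁, hb₁, hd₁, ht₁, hc₁, hs₁, hω₁⟩ := h1
  obtain ⟨ε₂, a₂, t₂, hε₂, ha₂, hb₂, hd₂, ht₂, hc₂, hs₂, hω₂⟩ := h2
  rw [adm_true] at ha₁ ha₂
  rw [cohom_true] at hb₁ hb₂ hc₁ hc₂ hω₁ hω₂
  rw [cocycle_true] at ht₁ ht₂
  have hb : a₁ - a₂ ∈ BB (cc C) C := by
    have e : a₁ - a₂ = (a₁ - β) + (β - β') - (a₂ - β') := by abel
    rw [e]
    exact (BB _ _).sub_mem ((BB _ _).add_mem hb₁ hβ) hb₂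
  have hd : ∀ y ∈ supp A (dd (a₁ - a₂)), min ε₁ ε₂ ≤ ν (σ y) := by
    intro y hy
    have hB := h.maps (supp_subset A _ hy)
    rw [dd_sub] at hy
    rcases supp_sub A _ _ hy with h3 | h3
    · exact (min_le_left _ _).trans (not_lt.1 fun h4 => hd₁ y h3 ((h.ball_iff _ _ hB).2 h4))
    · exact (min_le_right _ _).trans (not_lt.1 fun h4 => hd₂ y h3 ((h.ball_iff _ _ hB).2 h4))
  obtain ⟨ε, hε, hle, H⟩ := Gysin_stepB h ((CC _ _).sub_mem ha₁ ha₂) hb (lt_min hε₁ hε₂) hd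
  obtain ⟨t, h4, h5, h6⟩ := Gysin_shrink h ht₁ hε
  have h7 : t - t₂ ∈ BB (cc B) B := by
    have e : t - t₂ = (t - t₁) + (t₁ - t₀) + (t₀ - t₀') - (t₂ - t₀') := by abel
    rw [e]
    exact (BB _ _).sub_mem ((BB _ _).add_mem ((BB _ _).add_mem h5 hc₁) ht) hc₂
  have h8 := Gysin_stepA h ha₁ hε₁ hd₁ h4 ht₁ h5
    (Gysin_ball_mono h (hle.trans (min_le_left _ _)) h6) hs₁
  have h9 := Gysin_stepA h ha₂ hε₂ hd₂ h4 ht₂ h7
    (Gysin_ball_mono h (hle.trans (min_le_right _ _)) h6) hs₂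
  have h10 := H t h4 h6
  rw [sub_cup] at h10
  have e : ω - ω' = (ω - cup a₁ (pb σ t₁)) - (cup a₁ (pb σ t) - cup a₁ (pb σ t₁)) +
      (cup a₁ (pb σ t) - cup a₂ (pb σ t)) + (cup a₂ (pb σ t) - cup a₂ (pb σ t₂)) -
      (ω' - cup a₂ (pb σ t₂)) := by abel
  rw [e]
  exact (BB _ _).sub_mem ((BB _ _).add_mem ((BB _ _).add_mem ((BB _ _).sub_mem hω₁ h8) h10) h9) hω₂

omit [Nice Y] [Nice Y'] [Nice Z] in
theorem IsGysin.congr {A C : Set Y} {B : Set Z} {ball : ℝ → Set Z} {σ : Y → Z} {t₀ t₀' : Coch Z}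
    {β β' ω ω' : Coch Y} (h : IsGysin A C B ball σ t₀ β ω) (ht : t₀ - t₀' ∈ BB (cc B) B)
    (hβ : β - β' ∈ BB (cc C) C) (hω : ω - ω' ∈ BB (cc A) A) :
    IsGysin A C B ball σ t₀' β' ω' := by
  obtain ⟨ε, a, t, hε, ha, hb, hd, h1, hc, hs, h2⟩ := h
  rw [cohom_true] at hb hc h2
  refine ⟨ε, a, t, hε, ha, cohom_true.2 ?_, hd, h1, cohom_true.2 ?_, hs, cohom_true.2 ?_⟩
  · have e : a - β' = (a - β) + (β - β') := by abel
    rw [e]
    exact (BB _ _).add_mem hb hβ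
  · have e : t - t₀' = (t - t₀) + (t₀ - t₀') := by abel
    rw [e]
    exact (BB _ _).add_mem hc ht
  · have e : ω' - cup a (pb σ t) = (ω - cup a (pb σ t)) - (ω - ω') := by abel
    rw [e]
    exact (BB _ _).sub_mem h2 hω

omit [Nice Y] [Nice Y'] [Nice Z] in
/-- Pull-back along a proper map. -/
theorem IsGysin.pb {A C : Set Y} {A' C' : Set Y'} {B : Set Z} {ball : ℝ → Set Z} {σ : Y → Z}
    {t₀ : Coch Z} {β ω : Coch Y} (h : IsGysin A C B ball σ t₀ β ω) (hCA : C ⊆ A) {f : Y' → Y}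
    (hf : ProperOn f A' A) (hC : C' = A' ∩ f ⁻¹' C) :
    IsGysin A' C' B ball (σ ∘ f) t₀ (pb f β) (pb f ω) := by
  obtain ⟨ε, a, t, hε, ha, hb, hd, h1, hc, hs, h2⟩ := h
  rw [cohom_true] at hb h2
  have ha' := mem_CC_cc.1 (adm_true.1 ha)
  refine ⟨ε, Pool.Agent.HK.pb f a, t, hε, adm_true.2 ?_, cohom_true.2 ?_, fun y hy => ?_, h1, hc,
    hs, cohom_true.2 ?_⟩
  · exact Gysin_CC (ha'.1.pb f) (hf.2.2 _ ha'.2 (supp_subset A a)) inter_subset_left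
      fun y hy => ⟨supp_subset A' _ hy, supp_pb hf.1 hf.2.1 a hy⟩
  · rw [← pb_sub, hC]
    exact pb_mem_BB_cc (hf.restrict hCA) hb
  · rw [← pb_dd] at hy
    exact hd (f y) (supp_pb hf.1 hf.2.1 _ hy)
  · rw [← pb_pb, ← pb_cup, ← pb_sub]
    exact pb_mem_BB_cc hf h2

omit [Nice Y] [Nice Y'] [Nice Z] in
/-- Enlarging the bundle space to one in which it is closed. -/
theorem IsGysin.restrict_target {A C : Set Y} {B B' : Set Z} {ball : ℝ → Set Z} {σ : Y → Z}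
    {t₀ : Coch Z} {β ω : Coch Y} (h : IsGysin A C B' ball σ t₀ β ω) (hB : ClosedIn B B') :
    IsGysin A C B ball σ t₀ β ω := by
  obtain ⟨ε, a, t, hε, ha, hb, hd, h1, hc, hs, h2⟩ := h
  refine ⟨ε, a, t, hε, ha, hb, hd, cocycle_true.2 ?_, cohom_true.2 ?_,
    (supp_mono hB.subset t).trans hs, h2⟩
  · have := pb_mem_ZZ_cc hB.properOn (cocycle_true.1 h1)
    rwa [pb_id] at this
  · have := pb_mem_BB_cc hB.properOn (cohom_true.1 hc)
    rwa [pb_id] at this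

/-- If `β` extends to a cocycle `a` on `A` whose support meets every tube in a compact set, the
Gysin image is `a ∪ σ^* t₀`. -/
theorem GysinData.global {A C : Set Y} {B : Set Z} {ball : ℝ → Set Z} {σ : Y → Z} {ν : Z → ℝ}
    (h : GysinData A C B ball σ ν) {t₀ : Coch Z} (ht : t₀ ∈ ZZ (cc B) B) {a β : Coch Y}
    (ha : a ∈ ZZ ⊥ A) (hc : ∀ R : ℝ, IsCompact (supp A a ∩ {y | ν (σ y) ≤ R}))
    (hβ : a - β ∈ BB (cc C) C) :
    cup a (pb σ t₀) ∈ ZZ (cc A) A ∧ IsGysin A C B ball σ t₀ β (cup a (pb σ t₀)) := by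
  have hab : Bdd a := (mem_CC.1 (mem_ZZ.1 ha).1).1
  have hda : ∀ y, y ∉ supp A (dd a) := fun y hy => by
    rw [mem_N0.1 (mem_ZZ.1 ha).2] at hy
    exact hy
  have hKA : ∀ R : ℝ, supp A a ∩ {y | ν (σ y) ≤ R} ⊆ A :=
    fun R => inter_subset_left.trans (supp_subset A a)
  constructor
  · obtain ⟨R, hR⟩ := Gysin_bound h (mem_ZZ.1 ht).1
    exact Gysin_cocycle h.cont h.maps hab (mem_CC.1 (mem_ZZ.1 ht).1).1 (mem_ZZ.1 ht).2
      (fun y hy => (hda y hy).elim) (hc R) (hKA R) fun y hy => ⟨hy.1, hR _ hy.2⟩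
  obtain ⟨V, hV, h1⟩ := Gysin_open_lt h 2
  obtain ⟨t, h2, h3, h4⟩ := Gysin_shrink h ht one_pos
  have h5 : supp A (ext0 V a) ⊆ supp A a ∩ {y | ν (σ y) ≤ 2} := by
    intro y hy
    have h6 : supp A (ext0 V a - ext0 (A ∩ V) a) = ∅ := supp_congr fun l hl => by
      have : (∀ z ∈ l, z ∈ V) ↔ ∀ z ∈ l, z ∈ A ∩ V :=
        ⟨fun H z hz => ⟨hl z hz, H z hz⟩, fun H z hz => (H z hz).2⟩
      unfold ext0
      by_cases H : ∀ z ∈ l, z ∈ V
      · rw [if_pos H, if_pos (this.1 H)]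
      · rw [if_neg H, if_neg fun H' => H (this.2 H')]
    have h7 : y ∈ supp A (ext0 (A ∩ V) a) := by
      rw [← sub_add_cancel (ext0 V a) (ext0 (A ∩ V) a)] at hy
      rcases supp_add A _ _ hy with h8 | h8
      · rw [h6] at h8
        exact h8.elim
      · exact h8
    obtain ⟨h8, h9⟩ := supp_ext0 A (A ∩ V) hab.1 h7
    refine ⟨h8, ?_⟩
    have h10 : ContinuousWithinAt (fun y => ν (σ y)) (A ∩ V) y :=
      (Gysin_contf h y (supp_subset A a h8)).mono inter_subset_left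
    exact h10.closure_le h9 continuousWithinAt_const fun z hz => ((h1 z hz.1).1 hz.2).le
  have h6 : ∀ y ∈ A, y ∉ V → 1 ≤ ν (σ y) := fun y hy hv =>
    one_le_two.trans (not_lt.1 fun h7 => hv ((h1 y hy).2 h7))
  refine ⟨1, ext0 V a, t, one_pos, adm_true.2 (Gysin_CC (hab.ext0 V) (hc 2) (hKA 2) h5),
    cohom_true.2 ?_, fun y hy hz => ?_, cocycle_true.2 h2, cohom_true.2 h3, h4, cohom_true.2 ?_⟩
  · have e : ext0 V a - β = (ext0 V a - a) + (a - β) := by abel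
    rw [e]
    refine (BB _ _).add_mem (N0_le_BB _ _ (mem_N0.2 (eq_empty_of_forall_notMem fun y hy => ?_))) hβ
    obtain ⟨h7, h8⟩ := supp_ext0_sub C hV a hy
    have h9 := supp_subset C a h7
    rw [h.zero] at h9
    have h10 : ν (σ y) = 0 := h9.2
    exact h8 ((h1 y h9.1).2 (by rw [h10]; exact two_pos))
  · have hyA := supp_subset A _ hy
    rcases supp_dd_ext0 A hV hab.1 hy with h7 | h7
    · exact hda y h7.1
    · exact absurd ((h.ball_iff 1 _ (h.maps hyA)).1 hz) (not_lt.2 (h6 y hyA h7.2.2))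
  · obtain ⟨e, he, hn⟩ := mem_BB.1 h3
    obtain ⟨R, hR⟩ := Gysin_bound h he
    have h7 := Gysin_right h.cont h.maps hab (mem_CC.1 he).1 hn (fun y hy => (hda y hy).elim)
      (hc R) (hKA R) fun y hy => ⟨hy.1, hR _ hy.2⟩
    have h8 : cup (ext0 V a - a) (pb σ t) ∈ N0 A := Gysin_cup_N0 h.cont h.maps fun y hy =>
      Gysin_not_supp h h4 (h6 y (supp_subset A _ hy) (supp_ext0_sub A hV a hy).2)
    have e' : cup a (pb σ t₀) - cup (ext0 V a) (pb σ t) =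
        -cup a (pb σ (t - t₀)) - cup (ext0 V a - a) (pb σ t) := by
      rw [pb_sub, cup_sub, sub_cup]
      abel
    rw [e']
    exact (BB _ _).sub_mem ((BB _ _).neg_mem h7) (N0_le_BB _ _ h8)

end Pool.Agent.HK
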