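import Pool.Agent.P.MP_1206ce_ag.AS.Tw

/-! Tautness, the long exact sequence of a closed subset, continuity.
Key lemma `taut`: choose a (discontinuous) map `ρ : Y → Y` that sends points of `A` close to `A'`
to nearby points of `A'`, is the identity elsewhere and moves points by a small amount;
`ρ^*` is homotopic to the identity by the prism operator. -/

open scoped Topology
open Filter Set

noncomputable section

namespace Pool.Agent.HK

section prism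
variable {Y : Type}

theorem LES_dd_cons (c : Coch Y) (y : Y) (l : List Y) :
    dd c (y :: l) = c l - dd (fun m => c (y :: m)) l := by
  simp only [dd, List.length_cons, Finset.sum_range_succ', List.eraseIdx_cons_succ,
    List.eraseIdx_cons_zero, pow_zero, one_mul, pow_succ, mul_neg, mul_one, neg_mul,
    Finset.sum_neg_distrib]
  ring

/-- The prism operator. -/
def LES_P (ρ : Y → Y) : List Y → Coch Y → ℂ
  | [], _ => 0
  | y :: l, c => c (y :: ρ y :: l.map ρ) - LES_P ρ l fun m => c (y :: m)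

/-- The prism operator on cochains. -/
def LES_D (ρ : Y → Y) (c : Coch Y) : Coch Y := fun l => LES_P ρ l c

theorem LES_P_sub (ρ : Y → Y) (l : List Y) :
    ∀ a b : Coch Y, LES_P ρ l (a - b) = LES_P ρ l a - LES_P ρ l b := by
  induction l with
  | nil => intro a b; simp [LES_P]
  | cons y l ih =>
    intro a b
    have h := ih (fun m => a (y :: m)) fun m => b (y :: m)
    have e : (fun m => (a - b) (y :: m)) = (fun m => a (y :: m)) - fun m => b (y :: m) := rfl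
    simp only [LES_P]
    rw [e, h, Pi.sub_apply]
    ring

theorem LES_homotopy (ρ : Y → Y) (l : List Y) :
    ∀ c : Coch Y, dd (LES_D ρ c) l + LES_D ρ (dd c) l = c (l.map ρ) - c l := by
  induction l with
  | nil => intro c; simp [dd, LES_D, LES_P]
  | cons y m ih =>
    intro c
    have h := ih fun l => c (y :: l)
    have e1 : (fun l => LES_D ρ c (y :: l)) =
        pb ρ (fun l => c (y :: ρ y :: l)) - LES_D ρ fun l => c (y :: l) := rfl
    have e2 : (fun l => dd c (y :: l)) = c - dd fun l => c (y :: l) :=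
      funext fun l => LES_dd_cons c y l
    have e3 : LES_D ρ (dd c) (y :: m) =
        dd c (y :: ρ y :: m.map ρ) - LES_P ρ m fun l => dd c (y :: l) := rfl
    rw [LES_dd_cons, e1, dd_sub, ← pb_dd, e3, e2, LES_P_sub, LES_dd_cons, LES_dd_cons]
    simp only [LES_D, pb, Pi.sub_apply, List.map_cons] at h ⊢
    linear_combination h

theorem LES_P_zero (ρ : Y → Y) (P : Y → Prop) (l : List Y) :
    ∀ c : Coch Y, (∀ z ∈ l, P z ∧ P (ρ z)) →
      (∀ l' : List Y, (∀ z ∈ l', P z) → l'.length = l.length + 1 → c l' = 0) →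
      LES_P ρ l c = 0 := by
  induction l with
  | nil => intro c _ _; rfl
  | cons y m ih =>
    intro c h1 h2
    have hy := h1 y (by simp)
    have a1 : c (y :: ρ y :: m.map ρ) = 0 := by
      refine h2 _ (fun z hz => ?_) (by simp)
      simp only [List.mem_cons, List.mem_map] at hz
      rcases hz with rfl | rfl | ⟨w, hw, rfl⟩
      exacts [hy.1, hy.2, (h1 w (by simp [hw])).2]
    have a2 := ih (fun l => c (y :: l)) (fun z hz => h1 z (by simp [hz])) fun l' hl hn => by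
      refine h2 _ (fun z hz => ?_) (by simp [hn])
      rcases List.mem_cons.1 hz with rfl | hz
      exacts [hy.1, hl z hz]
    simp only [LES_P, a1, a2, sub_zero]

theorem LES_D_bdd (ρ : Y → Y) {c : Coch Y} (hc : Bdd c) : Bdd (LES_D ρ c) := by
  obtain ⟨-, N, hN⟩ := hc
  refine ⟨rfl, N, fun l hl => LES_P_zero ρ (fun _ => True) l c (fun _ _ => ⟨trivial, trivial⟩)
    fun l' _ hn => hN l' (by omega)⟩

/-- `c` vanishes on lists in `A ∩ V`. -/
def LES_Van (A V : Set Y) (c : Coch Y) : Prop := ∀ l : List Y, (∀ z ∈ l, z ∈ A ∧ z ∈ V) → c l = 0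

theorem LES_Van.mono {A V V' : Set Y} {c : Coch Y} (h : LES_Van A V c) (hV : V' ⊆ V) :
    LES_Van A V' c := fun l hl => h l fun z hz => ⟨(hl z hz).1, hV (hl z hz).2⟩

theorem LES_Van.dd {A V : Set Y} {c : Coch Y} (h : LES_Van A V c) : LES_Van A V (dd c) :=
  fun l hl => Finset.sum_eq_zero fun i _ => by
    rw [h _ fun z hz => hl z (List.mem_of_mem_eraseIdx hz), mul_zero]

theorem LES_Van.prism {A U V : Set Y} {c : Coch Y} {ρ : Y → Y} (h : LES_Van A V c)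
    (hρ : ∀ z ∈ A, z ∈ U → z ∈ V ∧ ρ z ∈ A ∧ ρ z ∈ V) : LES_Van A U (-LES_D ρ c) := by
  intro l hl
  rw [Pi.neg_apply, neg_eq_zero]
  refine LES_P_zero ρ (fun z => z ∈ A ∧ z ∈ V) l c (fun z hz => ?_) fun l' h1 _ => h l' h1
  have h1 := hρ z (hl z hz).1 (hl z hz).2
  exact ⟨⟨(hl z hz).1, h1.1⟩, h1.2⟩

theorem LES_Van.pb {A B U V : Set Y} {c : Coch Y} {ρ : Y → Y} (h : LES_Van B V c)
    (hρ : ∀ z ∈ A, z ∈ U → ρ z ∈ B ∧ ρ z ∈ V) : LES_Van A U (pb ρ c) := by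
  intro l hl
  refine h _ fun z hz => ?_
  obtain ⟨w, hw, rfl⟩ := List.mem_map.1 hz
  exact hρ w (hl w hw).1 (hl w hw).2

end prism

section retraction
variable {Y : Type} [MetricSpace Y]
open Metric

/-- Admissible radii. -/
def LES_Good (A W : Set Y) (c : Coch Y) (z : Y) (r : ℝ) : Prop :=
  ball z r ⊆ W ∨ LES_Van A (ball z r) c

theorem LES_Good.mono {A W : Set Y} {c : Coch Y} {y z : Y} {r s : ℝ} (h : LES_Good A W c y r)
    (hs : s + dist z y ≤ r) : LES_Good A W c z s :=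
  h.imp (ball_subset_ball' hs).trans fun h1 => h1.mono (ball_subset_ball' hs)

theorem LES_exists_good {A W : Set Y} {c : Coch Y} (hW : IsOpen W) (hs : supp A c ⊆ W) {y : Y}
    (hy : y ∈ A) : ∃ r, 0 < r ∧ LES_Good A W c y r := by
  by_cases h : y ∈ W
  · obtain ⟨r, h1, h2⟩ := Metric.isOpen_iff.1 hW y h
    exact ⟨r, h1, Or.inl h2⟩
  · obtain ⟨U, h1, h2⟩ := (not_mem_supp hy).1 fun h1 => h (hs h1)
    obtain ⟨r, h3, h4⟩ := Metric.mem_nhds_iff.1 h1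
    exact ⟨r, h3, Or.inr (LES_Van.mono h2 h4)⟩

theorem LES_ctrl {A W : Set Y} {c : Coch Y} (hs : supp A c ⊆ W) {y : Y} (hy : y ∈ A)
    (hyW : y ∉ W) : ∃ U ∈ 𝓝 y, ∃ V, LES_Van A V c ∧ U ⊆ V ∧
      ∀ z ∈ U, ∀ p r, r ≤ 1 → LES_Good A W c z r → 2 * dist z p < r → p ∈ V := by
  obtain ⟨U, h1, h2⟩ := (not_mem_supp hy).1 fun h1 => hyW (hs h1)
  obtain ⟨r₂, h3, h4⟩ := Metric.mem_nhds_iff.1 h1
  set R : Set ℝ := {r | r ≤ 1 ∧ LES_Van A (ball y r) c} with hR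
  have hb : BddAbove R := ⟨1, fun r hr => hr.1⟩
  have hm : min r₂ 1 ∈ R := ⟨min_le_right _ _,
    LES_Van.mono h2 ((ball_subset_ball (min_le_left _ _)).trans h4)⟩
  have h0 : 0 < sSup R := (lt_min h3 one_pos).trans_le (le_csSup hb hm)
  obtain ⟨r₁, h5, h6⟩ := exists_lt_of_lt_csSup ⟨_, hm⟩ (by linarith : 3 / 4 * sSup R < sSup R)
  refine ⟨ball y (sSup R / 8), ball_mem_nhds _ (by positivity), ball y r₁, h5.2,
    ball_subset_ball (by linarith), fun z hz p r hr hg hp => ?_⟩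
  rw [mem_ball] at hz ⊢
  have t1 := dist_triangle p z y
  rw [dist_comm p z] at t1
  rcases le_or_gt r (dist z y) with h7 | h7
  · linarith
  · have h8 : LES_Van A (ball z r) c :=
      hg.resolve_left fun h => hyW (h (by rwa [mem_ball, dist_comm]))
    have h9 : r - dist z y ∈ R := ⟨by linarith [dist_nonneg (x := z) (y := y)],
      h8.mono (ball_subset_ball' (by rw [dist_comm y z]; linarith))⟩
    have := le_csSup hb h9
    linarith

theorem LES_rho {A A' : Set Y} (h : ClosedIn A' A) {c c' : Coch Y} {W W' : Set Y}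
    (hW : IsOpen W) (hW' : IsOpen W') (hs : supp A c ⊆ W) (hs' : supp A c' ⊆ W') :
    ∃ ρ : Y → Y, (∀ z ∈ A', ρ z = z) ∧
      (∀ y ∈ A', ∀ V ∈ 𝓝 y, ∃ U ∈ 𝓝 y, ∀ z ∈ A, z ∈ U → ρ z ∈ A' ∧ ρ z ∈ V) ∧
      (∀ y ∈ A, y ∉ W → ∃ U ∈ 𝓝 y, ∃ V, LES_Van A V c ∧
        ∀ z ∈ A, z ∈ U → z ∈ V ∧ ρ z ∈ A ∧ ρ z ∈ V) ∧
      ∀ y ∈ A, y ∉ W' → ∃ U ∈ 𝓝 y, ∃ V, LES_Van A V c' ∧
        ∀ z ∈ A, z ∈ U → z ∈ V ∧ ρ z ∈ A ∧ ρ z ∈ V := by
  classical
  obtain ⟨P, hP⟩ : ∃ P : Y → Y → Prop, ∀ z p, P z p ↔ p ∈ A' ∧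
      (∀ q ∈ A', dist z p ≤ 2 * dist z q) ∧
      ∃ r, r ≤ 1 ∧ LES_Good A W c z r ∧ LES_Good A W' c' z r ∧ 2 * dist z p < r :=
    ⟨_, fun _ _ => Iff.rfl⟩
  obtain ⟨ρ, h1, h2⟩ : ∃ ρ : Y → Y, (∀ z, (∃ p, P z p) → P z (ρ z)) ∧
      ∀ z, P z (ρ z) ∨ ρ z = z := by
    refine ⟨fun z => if h : ∃ p, P z p then h.choose else z, fun z hz => ?_, fun z => ?_⟩
    · simp only [dif_pos hz]
      exact hz.choose_spec
    · by_cases hz : ∃ p, P z p
      · simp only [dif_pos hz]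
        exact Or.inl hz.choose_spec
      · exact Or.inr (dif_neg hz)
  have hA : ∀ z ∈ A, ρ z ∈ A := fun z hz => by
    rcases h2 z with h3 | h3
    · exact h.subset ((hP _ _).1 h3).1
    · rwa [h3]
  refine ⟨ρ, fun z hz => ?_, fun y hy V hV => ?_, fun y hy hyW => ?_, fun y hy hyW => ?_⟩
  · refine (h2 z).elim (fun h3 => ?_) id
    have h4 := ((hP _ _).1 h3).2.1 z hz
    rw [dist_self, mul_zero] at h4
    exact (dist_le_zero.1 h4).symm
  · obtain ⟨r₁, a1, a2⟩ := LES_exists_good hW hs (h.subset hy)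
    obtain ⟨r₂, b1, b2⟩ := LES_exists_good hW' hs' (h.subset hy)
    obtain ⟨r₃, c1, c2⟩ := Metric.mem_nhds_iff.1 hV
    obtain ⟨r, r0, r1, r2, r3, r4⟩ : ∃ r, 0 < r ∧ r ≤ r₁ ∧ r ≤ r₂ ∧ r ≤ r₃ ∧ r ≤ 1 :=
      ⟨min (min r₁ r₂) (min r₃ 1), by positivity, (min_le_left _ _).trans (min_le_left _ _),
        (min_le_left _ _).trans (min_le_right _ _), (min_le_right _ _).trans (min_le_left _ _),
        (min_le_right _ _).trans (min_le_right _ _)⟩
    refine ⟨ball y (r / 8), ball_mem_nhds _ (by positivity), fun z hz hzy => ?_⟩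
    rw [mem_ball] at hzy
    have hp : ∃ p ∈ A', ∀ q ∈ A', dist z p ≤ 2 * dist z q := by
      by_cases hz' : z ∈ A'
      · exact ⟨z, hz', fun q _ => by rw [dist_self]; positivity⟩
      · obtain ⟨F, hF, rfl⟩ := h
        have d1 : z ∉ closure (A ∩ F) := fun h3 =>
          hz' ⟨hz, closure_minimal inter_subset_right hF h3⟩
        have d2 := (infDist_pos_iff_notMem_closure ⟨y, hy⟩).1 d1
        obtain ⟨p, p1, p2⟩ := (infDist_lt_iff ⟨y, hy⟩).1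
          (by linarith : infDist z (A ∩ F) < 2 * infDist z (A ∩ F))
        exact ⟨p, p1, fun q hq => by linarith [infDist_le_dist_of_mem (x := z) hq]⟩
    obtain ⟨p, p1, p2⟩ := hp
    have p3 := p2 y hy
    obtain ⟨q1, q2, -⟩ := (hP _ _).1 (h1 z ⟨p, (hP _ _).2 ⟨p1, p2, r / 2, by linarith,
      a2.mono (by linarith), b2.mono (by linarith), by linarith⟩⟩)
    refine ⟨q1, c2 ?_⟩
    have t1 := dist_triangle (ρ z) z y
    rw [dist_comm (ρ z) z] at t1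
    rw [mem_ball]
    linarith [q2 y hy]
  · obtain ⟨U, a1, V, a2, a3, a4⟩ := LES_ctrl hs hy hyW
    refine ⟨U, a1, V, a2, fun z hz hzU => ⟨a3 hzU, hA z hz, ?_⟩⟩
    rcases h2 z with h3 | h3
    · obtain ⟨-, -, r, b1, b2, -, b3⟩ := (hP _ _).1 h3
      exact a4 z hzU _ r b1 b2 b3
    · exact h3.symm ▸ a3 hzU
  · obtain ⟨U, a1, V, a2, a3, a4⟩ := LES_ctrl hs' hy hyW
    refine ⟨U, a1, V, a2, fun z hz hzU => ⟨a3 hzU, hA z hz, ?_⟩⟩
    rcases h2 z with h3 | h3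
    · obtain ⟨-, -, r, b1, -, b2, b3⟩ := (hP _ _).1 h3
      exact a4 z hzU _ r b1 b2 b3
    · exact h3.symm ▸ a3 hzU

end retraction

variable {Y : Type} [TopologicalSpace Y] [Nice Y]

/-- A cochain `c` that is locally zero on the closed subset `A'` can be pushed off `A'`:
`c = c' + d e + f` where `c'` has support disjoint from `A'`, `e` is locally zero on `A'`,
`f` is supported near the support of `d c`; all supports stay in prescribed neighbourhoods. -/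
theorem taut {A A' : Set Y} (h : ClosedIn A' A) {c : Coch Y} (hc : Bdd c) (h0 : c ∈ N0 A')
    {W W' : Set Y} (hW : IsOpen W) (hW' : IsOpen W') (hs : supp A c ⊆ W)
    (hs' : supp A (dd c) ⊆ W') :
    ∃ c' e f : Coch Y, Bdd c' ∧ Bdd e ∧ Bdd f ∧ c = c' + dd e + f ∧ supp A c' ⊆ W \ A' ∧
      supp A e ⊆ W ∧ e ∈ N0 A' ∧ supp A f ⊆ W ∩ W' ∧ f ∈ N0 A' := by
  obtain ⟨ρ, r1, r2, r3, r4⟩ : ∃ ρ : Y → Y, (∀ z ∈ A', ρ z = z) ∧
      (∀ y ∈ A', ∀ V ∈ 𝓝 y, ∃ U ∈ 𝓝 y, ∀ z ∈ A, z ∈ U → ρ z ∈ A' ∧ ρ z ∈ V) ∧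
      (∀ y ∈ A, y ∉ W → ∃ U ∈ 𝓝 y, ∃ V, LES_Van A V c ∧
        ∀ z ∈ A, z ∈ U → z ∈ V ∧ ρ z ∈ A ∧ ρ z ∈ V) ∧
      ∀ y ∈ A, y ∉ W' → ∃ U ∈ 𝓝 y, ∃ V, LES_Van A V (dd c) ∧
        ∀ z ∈ A, z ∈ U → z ∈ V ∧ ρ z ∈ A ∧ ρ z ∈ V := by
    let _ := TopologicalSpace.metrizableSpaceMetric Y
    exact LES_rho h hW hW' hs hs'
  have neg : ∀ a : Coch Y, Bdd a → Bdd (-a) := fun a ha => by
    simpa using ha.smul (-1)
  have loc : ∀ y ∈ A', ∃ V ∈ 𝓝 y, LES_Van A' V c := fun y hy =>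
    (not_mem_supp hy).1 (by rw [mem_N0.1 h0]; exact notMem_empty y)
  have zero : ∀ a : Coch Y, (∀ y ∈ A', ∃ V ∈ 𝓝 y, LES_Van A' V a) → -LES_D ρ a ∈ N0 A' := by
    intro a ha
    refine mem_N0.2 (eq_empty_of_forall_notMem fun y hy => ?_)
    have hy' := supp_subset _ _ hy
    obtain ⟨V, h1, h2⟩ := ha y hy'
    refine (not_mem_supp hy').2 ⟨V, h1, h2.prism fun z hz hzV => ?_⟩ hy
    rw [r1 z hz]
    exact ⟨hzV, hz, hzV⟩
  refine ⟨pb ρ c, -LES_D ρ c, -LES_D ρ (dd c), hc.pb ρ, neg _ (LES_D_bdd ρ hc),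
    neg _ (LES_D_bdd ρ hc.dd), ?_, fun y hy => ⟨?_, fun hy' => ?_⟩, fun y hy => ?_, zero c loc,
    fun y hy => ⟨?_, ?_⟩, zero _ fun y hy => ?_⟩
  · have e : dd (-LES_D ρ c) = -dd (LES_D ρ c) := by simpa using dd_smul (-1) (LES_D ρ c)
    rw [e]
    funext l
    have := LES_homotopy ρ l c
    simp only [Pi.add_apply, Pi.neg_apply, pb]
    linear_combination this
  · by_contra hyW
    obtain ⟨U, h1, V, h2, h3⟩ := r3 y (supp_subset _ _ hy) hyW
    exact (not_mem_supp (supp_subset _ _ hy)).2 ⟨U, h1, h2.pb fun z hz hU => (h3 z hz hU).2⟩ hy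
  · obtain ⟨V, h1, h2⟩ := loc y hy'
    obtain ⟨U, h3, h4⟩ := r2 y hy' V h1
    exact (not_mem_supp (supp_subset _ _ hy)).2 ⟨U, h3, h2.pb h4⟩ hy
  · by_contra hyW
    obtain ⟨U, h1, V, h2, h3⟩ := r3 y (supp_subset _ _ hy) hyW
    exact (not_mem_supp (supp_subset _ _ hy)).2 ⟨U, h1, h2.prism h3⟩ hy
  · by_contra hyW
    obtain ⟨U, h1, V, h2, h3⟩ := r3 y (supp_subset _ _ hy) hyW
    exact (not_mem_supp (supp_subset _ _ hy)).2 ⟨U, h1, h2.dd.prism h3⟩ hy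
  · by_contra hyW
    obtain ⟨U, h1, V, h2, h3⟩ := r4 y (supp_subset _ _ hy) hyW
    exact (not_mem_supp (supp_subset _ _ hy)).2 ⟨U, h1, h2.prism h3⟩ hy
  · obtain ⟨V, h1, h2⟩ := loc y hy
    exact ⟨V, h1, h2.dd⟩

/-- A compact subset of a locally compact `A` has a relatively compact open neighbourhood. -/
theorem LC.exists_open_compact {A C : Set Y} (hA : LC A) (hC : IsCompact C) (hCA : C ⊆ A) :
    ∃ W C', IsOpen W ∧ C ⊆ W ∧ IsCompact C' ∧ C' ⊆ A ∧ A ∩ W ⊆ C' := by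
  refine hC.induction_on (p := fun S => ∃ W C', IsOpen W ∧ S ⊆ W ∧ IsCompact C' ∧ C' ⊆ A ∧
    A ∩ W ⊆ C') ⟨∅, ∅, isOpen_empty, Subset.rfl, isCompact_empty, empty_subset _, by simp⟩
    ?_ ?_ ?_
  · rintro s t hst ⟨W, C', h1, h2, h3⟩
    exact ⟨W, C', h1, hst.trans h2, h3⟩
  · rintro s t ⟨W, C', a1, a2, a3, a4, a5⟩ ⟨W₂, C₂, b1, b2, b3, b4, b5⟩
    refine ⟨W ∪ W₂, C' ∪ C₂, a1.union b1, union_subset_union a2 b2, a3.union b3,
      union_subset a4 b4, ?_⟩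
    rw [inter_union_distrib_left]
    exact union_subset_union a5 b5
  · intro y hy
    obtain ⟨C', h1, h2, h3⟩ := hA y (hCA hy)
    obtain ⟨W, h4, h5, h6⟩ := mem_nhdsWithin.1 h3
    exact ⟨W, mem_nhdsWithin_of_mem_nhds (h4.mem_nhds h5), W, C', h4, Subset.rfl, h1, h2,
      by rwa [inter_comm]⟩

omit [Nice Y] in
theorem LES_cc {A C : Set Y} {c : Coch Y} (hc : Bdd c) (hC : IsCompact C) (hCA : C ⊆ A)
    (hs : supp A c ⊆ C) : c ∈ CC (cc A) A :=
  mem_CC_cc.2 ⟨hc, (supp_closedIn A c).isCompact hC hCA hs⟩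

omit [Nice Y] in
theorem LES_cc_dd {A : Set Y} {c : Coch Y} (hc : c ∈ CC (cc A) A) : dd c ∈ CC (cc A) A :=
  LES_cc hc.1.dd (mem_CC_cc.1 hc).2 (supp_subset _ _) (supp_dd _ _)

omit [Nice Y] in
theorem LES_cc_res {A A' : Set Y} (h : ClosedIn A' A) {c : Coch Y} (hc : c ∈ CC (cc A) A) :
    c ∈ CC (cc A') A' :=
  mem_CC_cc.2 ⟨hc.1, ((supp_closedIn A' c).trans h).isCompact (mem_CC_cc.1 hc).2
    (supp_subset _ _) (supp_mono h.subset c)⟩

omit [Nice Y] in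
theorem LES_N0_dd {A : Set Y} {c : Coch Y} (hc : c ∈ N0 A) : dd c ∈ N0 A :=
  mem_N0.2 (subset_eq_empty (supp_dd _ _) hc)

omit [Nice Y] in
theorem LES_N0_mono {A A' : Set Y} (h : A' ⊆ A) {c : Coch Y} (hc : c ∈ N0 A) : c ∈ N0 A' :=
  mem_N0.2 (subset_eq_empty (supp_mono h c) hc)

omit [Nice Y] in
theorem LES_N0_of_disjoint {A A' : Set Y} (h : A' ⊆ A) {c : Coch Y}
    (hc : Disjoint (supp A c) A') : c ∈ N0 A' :=
  mem_N0.2 (eq_empty_of_forall_notMem fun _ hy =>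
    disjoint_left.1 hc (supp_mono h c hy) (supp_subset _ _ hy))

omit [Nice Y] in
theorem LES_sub_iff {A A' : Set Y} {c : Coch Y} :
    supp A c ⊆ A \ A' ↔ Disjoint (supp A c) A' :=
  ⟨fun h => disjoint_left.2 fun _ hy => (h hy).2,
    fun h _ hy => ⟨supp_subset _ _ hy, disjoint_left.1 h hy⟩⟩

omit [Nice Y] in
theorem LES_res {A A' : Set Y} (h : ClosedIn A' A) {a : Coch Y} (ha : a ∈ ZZ (cc A) A) :
    res A A' (clc A a) = clc A' a := by
  have h1 := tw_cls (h.properOn.twOK (one_mem_ZZ A')) ha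
  rwa [pb_id, cup_one ha.1.1.1] at h1

omit [Nice Y] in
theorem LES_taut_ZZ {A A' : Set Y} (h : ClosedIn A' A) {a : Coch Y} (ha : a ∈ CC (cc A) A)
    (hd : Disjoint (supp A (dd a)) A') : a ∈ ZZ (cc A') A' :=
  ⟨LES_cc_res h ha, LES_N0_of_disjoint h.subset hd⟩

omit [Nice Y] in
theorem LES_dd_ZZ {A : Set Y} {a : Coch Y} (ha : a ∈ CC (cc A) A) : dd a ∈ ZZ (cc A) A :=
  ⟨LES_cc_dd ha, by rw [dd_dd]; exact zero_mem _⟩

/-- Compactly supported cochains on a closed subset lift. -/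
theorem LES_lift {A A' : Set Y} (hA : LC A) (h : ClosedIn A' A) {b : Coch Y}
    (hb : b ∈ CC (cc A') A') : ∃ a ∈ CC (cc A) A, a - b ∈ N0 A' := by
  have hK := (mem_CC_cc.1 hb).2
  obtain ⟨W, C, h1, h2, h3, h4, h5⟩ :=
    hA.exists_open_compact hK ((supp_subset _ _).trans h.subset)
  obtain ⟨V, h6, h7, h8⟩ := normal_exists_closure_subset hK.isClosed h1 h2
  refine ⟨ext0 V b, LES_cc (hb.1.ext0 V) h3 h4 fun y hy => h5 ⟨supp_subset _ _ hy,
    h8 (supp_ext0 A V hb.1.1 hy).2⟩, mem_N0.2 (subset_eq_empty (supp_ext0_sub A' h6 b) ?_)⟩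
  exact sdiff_eq_empty.2 h7

/-- Compactly supported form of `taut`. -/
theorem LES_push {A A' : Set Y} (hA : LC A) (h : ClosedIn A' A) {c : Coch Y}
    (hc : c ∈ CC (cc A) A) (h0 : c ∈ N0 A') (hd : Disjoint (supp A (dd c)) A') :
    ∃ g ∈ CC (cc A) A, ∃ e ∈ CC (cc A) A, Disjoint (supp A g) A' ∧ e ∈ N0 A' ∧ c = g + dd e := by
  obtain ⟨W, C, h1, h2, h3, h4, h5⟩ :=
    hA.exists_open_compact (mem_CC_cc.1 hc).2 (supp_subset _ _)
  obtain ⟨F, hF, hA'⟩ := id h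
  obtain ⟨c', e, f, a1, a2, a3, a4, a5, a6, a7, a8, -⟩ := taut h hc.1 h0 h1 hF.isOpen_compl h2
    fun y hy hyF => disjoint_left.1 hd hy (hA' ▸ ⟨supp_subset _ _ hy, hyF⟩)
  refine ⟨c' + f, LES_cc (a1.add a3) h3 h4 fun y hy => h5 ⟨supp_subset _ _ hy, ?_⟩, e,
    LES_cc a2 h3 h4 fun y hy => h5 ⟨supp_subset _ _ hy, a6 hy⟩,
    disjoint_left.2 fun y hy hy' => ?_, a7, by rw [a4]; abel⟩
  · exact (supp_add _ _ _ hy).elim (fun h6 => (a5 h6).1) fun h6 => (a8 h6).1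
  · exact (supp_add _ _ _ hy).elim (fun h6 => (a5 h6).2 hy') fun h6 => (a8 h6).2 (hA' ▸ hy').2

theorem LES_push' {A A' : Set Y} (hA : LC A) (h : ClosedIn A' A) {a : Coch Y}
    (ha : a ∈ CC (cc A) A) (hd : Disjoint (supp A (dd a)) A') (hb : a ∈ BB (cc A') A') :
    ∃ g ∈ CC (cc A) A, ∃ e ∈ CC (cc A) A, Disjoint (supp A g) A' ∧ a = g + dd e := by
  obtain ⟨e₀, h1, h2⟩ := hb
  obtain ⟨e₁, h3, h4⟩ := LES_lift hA h h1
  have h5 : a - dd e₁ ∈ N0 A' := by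
    have := sub_mem h2 (LES_N0_dd h4)
    rwa [dd_sub, show a - dd e₀ - (dd e₁ - dd e₀) = a - dd e₁ by abel] at this
  obtain ⟨g, h6, e, h7, h8, -, h9⟩ := LES_push hA h (sub_mem ha (LES_cc_dd h3)) h5
    (by rwa [dd_sub, dd_dd, sub_zero])
  refine ⟨g, h6, e + e₁, add_mem h7 h3, h8, ?_⟩
  rw [dd_add, ← add_assoc, ← h9]
  abel

theorem LES_rep {A A' : Set Y} (hA : LC A) (h : ClosedIn A' A) {b : Coch Y}
    (hb : b ∈ ZZ (cc A') A') :
    ∃ a ∈ CC (cc A) A, Disjoint (supp A (dd a)) A' ∧ a - b ∈ N0 A' := by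
  obtain ⟨a, h1, h2⟩ := LES_lift hA h hb.1
  have h3 : dd a ∈ N0 A' := by
    have := add_mem (LES_N0_dd h2) hb.2
    rwa [dd_sub, sub_add_cancel] at this
  obtain ⟨g, -, e, h4, h5, h6, h7⟩ := LES_push hA h (LES_cc_dd h1) h3
    (by rw [dd_dd, supp_zero]; exact empty_disjoint _)
  refine ⟨a - e, sub_mem h1 h4, ?_, ?_⟩
  · rwa [dd_sub, h7, add_sub_cancel_right]
  · have := sub_mem h2 h6
    rwa [show a - b - e = a - e - b by abel] at this

theorem LES_rep_cls {A A' : Set Y} (hA : LC A) (h : ClosedIn A' A) (x : Hc A') :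
    ∃ a ∈ CC (cc A) A, Disjoint (supp A (dd a)) A' ∧ clc A' a = x := by
  obtain ⟨b, h1, rfl⟩ := cls_surj x
  obtain ⟨a, h2, h3, h4⟩ := LES_rep hA h h1
  exact ⟨a, h2, h3, (cls_eq_iff (LES_taut_ZZ h h2 h3) h1).2 (N0_le_BB _ _ h4)⟩

theorem LES_taut_dd {A A' : Set Y} (h : ClosedIn A' A) {a : Coch Y} (ha : a ∈ CC (cc A) A)
    (hd : Disjoint (supp A (dd a)) A') : dd a ∈ ZZ (cc (A \ A')) (A \ A') ∧
      ext (A \ A') A (clc (A \ A') (dd a)) = clc A (dd a) :=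
  ext_cls_of_supp h.diff (LES_dd_ZZ ha) (LES_sub_iff.2 hd)

theorem LES_key {A A' : Set Y} (hA : LC A) (h : ClosedIn A' A) {a a' : Coch Y}
    (ha : a ∈ CC (cc A) A) (hd : Disjoint (supp A (dd a)) A') (ha' : a' ∈ CC (cc A) A)
    (hd' : Disjoint (supp A (dd a')) A') (he : clc A' a = clc A' a') :
    clc (A \ A') (dd a) = clc (A \ A') (dd a') := by
  have h1 := (cls_eq_iff (LES_taut_ZZ h ha hd) (LES_taut_ZZ h ha' hd')).1 he
  obtain ⟨g, h2, e, -, h3, h4⟩ := LES_push' hA h (sub_mem ha ha')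
    (by rw [dd_sub]; exact (disjoint_union_left.2 ⟨hd, hd'⟩).mono_left (supp_sub _ _ _)) h1
  refine (cls_eq_iff (LES_taut_dd h ha hd).1 (LES_taut_dd h ha' hd').1).2 ⟨g, ?_, ?_⟩
  · refine mem_CC_cc.2 ⟨h2.1, ?_⟩
    rw [supp_openIn h.diff, inter_eq_right.2 (LES_sub_iff.2 h3)]
    exact (mem_CC_cc.1 h2).2
  · rw [← dd_sub, h4, dd_add, dd_dd, add_zero, sub_self]
    exact zero_mem _

theorem LES_delta {A A' : Set Y} (hA : LC A) (h : ClosedIn A' A) :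
    ∃ δ : Hc A' →ₗ[ℂ] Hc (A \ A'), ∀ a ∈ CC (cc A) A, Disjoint (supp A (dd a)) A' →
      δ (clc A' a) = clc (A \ A') (dd a) := by
  choose r r1 r2 r3 using LES_rep_cls hA h
  refine ⟨⟨⟨fun x => clc (A \ A') (dd (r x)), fun x y => ?_⟩, fun z x => ?_⟩, fun a h1 h2 =>
    LES_key hA h (r1 _) (r2 _) h1 h2 (r3 _)⟩
  · rw [← cls_add (LES_taut_dd h (r1 x) (r2 x)).1 (LES_taut_dd h (r1 y) (r2 y)).1, ← dd_add]
    refine LES_key hA h (r1 _) (r2 _) (add_mem (r1 x) (r1 y)) ?_ ?_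
    · rw [dd_add]
      exact (disjoint_union_left.2 ⟨r2 x, r2 y⟩).mono_left (supp_add _ _ _)
    · rw [r3, clc, cls_add (LES_taut_ZZ h (r1 x) (r2 x)) (LES_taut_ZZ h (r1 y) (r2 y))]
      exact congrArg₂ _ (r3 x).symm (r3 y).symm
  · rw [RingHom.id_apply, ← cls_smul z (LES_taut_dd h (r1 x) (r2 x)).1, ← dd_smul]
    refine LES_key hA h (r1 _) (r2 _) (Submodule.smul_mem _ z (r1 x)) ?_ ?_
    · rw [dd_smul]
      exact (r2 x).mono_left (supp_smul _ _ _)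
    · rw [r3, clc, cls_smul z (LES_taut_ZZ h (r1 x) (r2 x))]
      exact congrArg _ (r3 x).symm

/-- Long exact sequence. -/
theorem les {A A' U : Set Y} (hA : LC A) (h : ClosedIn A' A) (hU : U = A \ A') :
    ∃ δ : Hc A' →ₗ[ℂ] Hc U, Function.Exact (ext U A) (res A A') ∧
      Function.Exact (res A A') δ ∧ Function.Exact δ (ext U A) ∧
      (∀ k x, prH _ U (k + 1) (δ x) = δ (prH _ A' k x)) ∧
      ∀ a ∈ CC (cc A) A, Disjoint (supp A (dd a)) A' →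
        a ∈ ZZ (cc A') A' ∧ dd a ∈ ZZ (cc U) U ∧ δ (clc A' a) = clc U (dd a) := by
  subst hU
  obtain ⟨δ, hδ⟩ := LES_delta hA h
  have dj : ∀ a ∈ ZZ (cc A) A, Disjoint (supp A (dd a)) A' := fun a ha => by
    rw [mem_N0.1 ha.2]
    exact empty_disjoint _
  refine ⟨δ, fun x => ⟨fun hx => ?_, ?_⟩, fun x => ⟨fun hx => ?_, ?_⟩, fun x => ⟨fun hx => ?_, ?_⟩,
    fun k x => ?_, fun a h1 h2 => ⟨LES_taut_ZZ h h1 h2, (LES_taut_dd h h1 h2).1, hδ a h1 h2⟩⟩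
  · obtain ⟨a, h1, rfl⟩ := cls_surj x
    rw [LES_res h h1, cls_eq_zero_iff (LES_taut_ZZ h h1.1 (dj a h1))] at hx
    obtain ⟨g, h2, e, h3, h4, h5⟩ := LES_push' hA h h1.1 (dj a h1) hx
    have h6 : g ∈ ZZ (cc A) A := ⟨h2, by
      have := h1.2
      rwa [h5, dd_add, dd_dd, add_zero] at this⟩
    refine ⟨_, (ext_cls_of_supp h.diff h6 (LES_sub_iff.2 h4)).2.trans ?_⟩
    refine ((cls_eq_iff h1 h6).2 ⟨e, h3, ?_⟩).symm
    rw [h5, add_sub_cancel_left, sub_self]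
    exact zero_mem _
  · rintro ⟨y, rfl⟩
    obtain ⟨a, h1, h2, -, -, h3⟩ := exists_ext_cls h.diff y
    rw [h3, LES_res h h1, cls_eq_zero_iff (LES_taut_ZZ h h1.1 (dj a h1))]
    exact N0_le_BB _ _ (LES_N0_of_disjoint h.subset (LES_sub_iff.1 h2))
  · obtain ⟨a, h1, h2, rfl⟩ := LES_rep_cls hA h x
    rw [hδ a h1 h2, cls_eq_zero_iff (LES_taut_dd h h1 h2).1] at hx
    obtain ⟨e, h3, h4⟩ := hx
    obtain ⟨e', h5, h6, h7, h8, -⟩ := exists_ext_rep h.diff h3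
    have h9 : dd (a - e') ∈ N0 (A \ A') := by
      have := sub_mem h4 (LES_N0_dd h8)
      rwa [dd_sub, show dd a - dd e - (dd e' - dd e) = dd a - dd e' by abel, ← dd_sub] at this
    have h10 : supp A (dd (a - e')) ⊆ A \ A' := by
      rw [dd_sub]
      exact (supp_sub _ _ _).trans (union_subset (LES_sub_iff.2 h2) (h7 ▸ supp_subset _ _))
    have h11 : a - e' ∈ ZZ (cc A) A := ⟨sub_mem h1 h5, by
      rwa [mem_N0, supp_openIn h.diff, inter_eq_right.2 h10] at h9⟩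
    refine ⟨_, (LES_res h h11).trans ((cls_eq_iff (LES_taut_ZZ h h1 h2)
      (LES_taut_ZZ h h11.1 (dj _ h11))).2 (N0_le_BB _ _ ?_)).symm⟩
    rw [sub_sub_cancel]
    exact LES_N0_of_disjoint h.subset (LES_sub_iff.1 (h6 ▸ supp_subset _ _))
  · rintro ⟨y, rfl⟩
    obtain ⟨a, h1, rfl⟩ := cls_surj y
    rw [LES_res h h1, hδ a h1.1 (dj a h1), cls_eq_zero_iff (LES_taut_dd h h1.1 (dj a h1)).1]
    exact N0_le_BB _ _ (LES_N0_mono sdiff_subset h1.2)
  · obtain ⟨g, h1, h2, h3, rfl, h4⟩ := exists_ext_cls h.diff x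
    rw [h4, cls_eq_zero_iff h1] at hx
    obtain ⟨a, h5, h6⟩ := hx
    have h7 : Disjoint (supp A (dd a)) A' := by
      have := supp_sub A g (g - dd a)
      rw [sub_sub_cancel, mem_N0.1 h6, union_empty] at this
      exact (LES_sub_iff.1 h2).mono_left this
    exact ⟨_, (hδ a h5 h7).trans ((cls_eq_iff h3 (LES_taut_dd h h5 h7).1).2
      (N0_le_BB _ _ (LES_N0_mono sdiff_subset h6))).symm⟩
  · rintro ⟨y, rfl⟩
    obtain ⟨a, h1, h2, rfl⟩ := LES_rep_cls hA h y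
    rw [hδ a h1 h2, (LES_taut_dd h h1 h2).2, cls_eq_zero_iff (LES_dd_ZZ h1)]
    exact ⟨a, h1, by rw [sub_self]; exact zero_mem _⟩
  · obtain ⟨a, h1, h2, rfl⟩ := LES_rep_cls hA h x
    have h3 : prC k a ∈ CC (cc A) A :=
      LES_cc (h1.1.prC k) (mem_CC_cc.1 h1).2 (supp_subset _ _) (supp_prC _ _ _)
    have h4 : Disjoint (supp A (dd (prC k a))) A' := by
      rw [← prC_dd]
      exact h2.mono_left (supp_prC _ _ _)
    rw [hδ a h1 h2, prH_cls _ (LES_taut_dd h h1 h2).1, prH_cls _ (LES_taut_ZZ h h1 h2), prC_dd]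
    exact (hδ _ h3 h4).symm

/-- Every compactly supported class on `A'` has a representative on `A` whose coboundary is
supported away from `A'`. -/
theorem exists_taut_rep {A A' : Set Y} (hA : LC A) (h : ClosedIn A' A) {b : Coch Y}
    (hb : b ∈ ZZ (cc A') A') :
    ∃ a ∈ CC (cc A) A, Disjoint (supp A (dd a)) A' ∧ a - b ∈ BB (cc A') A' := by
  obtain ⟨a, h1, h2, h3⟩ := LES_rep hA h hb
  exact ⟨a, h1, h2, N0_le_BB _ _ h3⟩

theorem LES_mid {M N P : Type} [AddCommGroup M] [AddCommGroup N] [AddCommGroup P] [Module ℂ M]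
    [Module ℂ N] [Module ℂ P] {f : M →ₗ[ℂ] N} {g : N →ₗ[ℂ] P} (h : Function.Exact f g)
    (h1 : Subsingleton M) (h2 : Subsingleton P) : Subsingleton N := by
  refine subsingleton_of_forall_eq 0 fun x => ?_
  obtain ⟨y, rfl⟩ := (h x).1 (Subsingleton.elim _ _)
  rw [Subsingleton.elim y 0, map_zero]

theorem LES_bij {M N P Q : Type} [AddCommGroup M] [AddCommGroup N] [AddCommGroup P]
    [AddCommGroup Q] [Module ℂ M] [Module ℂ N] [Module ℂ P] [Module ℂ Q] {f : M →ₗ[ℂ] N}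
    {g : N →ₗ[ℂ] P} {k : P →ₗ[ℂ] Q} (h : Function.Exact f g) (h' : Function.Exact g k)
    (h1 : Subsingleton M) (h2 : Subsingleton Q) : Function.Bijective g := by
  refine ⟨(injective_iff_map_eq_zero g).2 fun x hx => ?_,
    fun x => (h' x).1 (Subsingleton.elim _ _)⟩
  obtain ⟨y, rfl⟩ := (h x).1 hx
  rw [Subsingleton.elim y 0, map_zero]

theorem subsingleton_total {A A' U : Set Y} (hA : LC A) (h : ClosedIn A' A) (hU : U = A \ A')
    (h1 : Subsingleton (Hc U)) (h2 : Subsingleton (Hc A')) : Subsingleton (Hc A) := by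
  obtain ⟨δ, e1, -⟩ := les hA h hU
  exact LES_mid e1 h1 h2
theorem subsingleton_open {A A' U : Set Y} (hA : LC A) (h : ClosedIn A' A) (hU : U = A \ A')
    (h1 : Subsingleton (Hc A)) (h2 : Subsingleton (Hc A')) : Subsingleton (Hc U) := by
  obtain ⟨δ, -, -, e3, -⟩ := les hA h hU
  exact LES_mid e3 h2 h1
theorem subsingleton_closed {A A' U : Set Y} (hA : LC A) (h : ClosedIn A' A) (hU : U = A \ A')
    (h1 : Subsingleton (Hc A)) (h2 : Subsingleton (Hc U)) : Subsingleton (Hc A') := by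
  obtain ⟨δ, -, e2, -⟩ := les hA h hU
  exact LES_mid e2 h1 h2
theorem res_bijective {A A' U : Set Y} (hA : LC A) (h : ClosedIn A' A) (hU : U = A \ A')
    (h1 : Subsingleton (Hc U)) : Function.Bijective (res A A') := by
  obtain ⟨δ, e1, e2, -⟩ := les hA h hU
  exact LES_bij e1 e2 h1 h1
theorem ext_bijective {A A' U : Set Y} (hA : LC A) (h : ClosedIn A' A) (hU : U = A \ A')
    (h1 : Subsingleton (Hc A')) : Function.Bijective (ext U A) := by
  obtain ⟨δ, e1, -, e3, -⟩ := les hA h hU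
  exact LES_bij e3 e1 h1 h1
/-- Vanishing in one degree. -/
theorem prH_eq_zero_total {A A' U : Set Y} (hA : LC A) (h : ClosedIn A' A) (hU : U = A \ A')
    {k : ℤ} (h1 : prH _ U k = (0 : Hc U →ₗ[ℂ] Hc U)) (h2 : prH _ A' k = (0 : Hc A' →ₗ[ℂ] Hc A')) :
    prH _ A k = (0 : Hc A →ₗ[ℂ] Hc A) := by
  obtain ⟨δ, e1, -⟩ := les hA h hU
  refine LinearMap.ext fun x => ?_
  have h3 := tw_prH (h.properOn.twOK (one_mem_ZZ A')) HomC.one k x
  rw [add_zero, h2, LinearMap.zero_apply] at h3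
  obtain ⟨z, hz⟩ := (e1 _).1 h3.symm
  have h4 := prH_prH k k x
  rw [if_pos rfl] at h4
  rw [← h4, ← hz, ext_prH (hU ▸ h.diff), h1, LinearMap.zero_apply, map_zero,
    LinearMap.zero_apply]

omit [Nice Y] in
theorem LES_closedIn_iInter {ι : Type} [Nonempty ι] {A : Set Y} {B : ι → Set Y}
    (hB : ∀ i, ClosedIn (B i) A) : ClosedIn (⋂ i, B i) A := by
  choose F hF hBF using hB
  refine ⟨⋂ i, F i, isClosed_iInter hF, ?_⟩
  rw [inter_iInter]
  exact iInter_congr hBF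

theorem LES_directed {ι : Type} [Nonempty ι] {A K : Set Y} {B : ι → Set Y}
    (hB : ∀ i, ClosedIn (B i) A) (hd : Directed (· ⊇ ·) B) (hK : IsCompact K) (hKA : K ⊆ A)
    (h : Disjoint K (⋂ i, B i)) : ∃ i, Disjoint K (B i) := by
  have h1 : ∀ i, IsClosed (K ∩ B i) := fun i => by
    obtain ⟨F, hF, e⟩ := hB i
    rw [e, ← inter_assoc, inter_eq_left.2 hKA]
    exact hK.isClosed.inter hF
  obtain ⟨i, hi⟩ := hK.elim_directed_family_closed (fun i => K ∩ B i) h1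
    (by
      refine eq_empty_of_forall_notMem fun y hy => disjoint_left.1 h hy.1 (mem_iInter.2 fun i => ?_)
      exact (mem_iInter.1 hy.2 i).2)
    (hd.mono_comp (g := fun S => K ∩ S) _ fun _ _ h' => inter_subset_inter_right _ h')
  refine ⟨i, disjoint_left.2 fun y h2 h3 => ?_⟩
  exact eq_empty_iff_forall_notMem.1 hi y ⟨h2, h2, h3⟩

/-- Continuity along a directed family of closed subsets. -/
theorem cont_inj {ι : Type} [Nonempty ι] {A A₀ : Set Y} (hA : LC A) (B : ι → Set Y)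
    (hB : ∀ i, ClosedIn (B i) A) (hd : Directed (· ⊇ ·) B) (h0 : A₀ = ⋂ i, B i) (x : Hc A)
    (hx : res A A₀ x = 0) : ∃ i, res A (B i) x = 0 := by
  subst h0
  have h := LES_closedIn_iInter hB
  obtain ⟨δ, e1, -⟩ := les hA h rfl
  obtain ⟨y, rfl⟩ := (e1 x).1 hx
  obtain ⟨a, h1, h2, -, -, h3⟩ := exists_ext_cls h.diff y
  obtain ⟨i, hi⟩ := LES_directed hB hd (mem_CC_cc.1 h1.1).2 (supp_subset _ _) (LES_sub_iff.1 h2)
  refine ⟨i, ?_⟩
  rw [h3, LES_res (hB i) h1,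
    cls_eq_zero_iff ⟨LES_cc_res (hB i) h1.1, LES_N0_mono (hB i).subset h1.2⟩]
  exact N0_le_BB _ _ (LES_N0_of_disjoint (hB i).subset hi)
theorem cont_surj {ι : Type} [Nonempty ι] {A A₀ : Set Y} (hA : LC A) (B : ι → Set Y)
    (hB : ∀ i, ClosedIn (B i) A) (hd : Directed (· ⊇ ·) B) (h0 : A₀ = ⋂ i, B i) (y : Hc A₀) :
    ∃ i, ∃ x : Hc (B i), res (B i) A₀ x = y := by
  subst h0
  have h := LES_closedIn_iInter hB
  obtain ⟨a, h1, h2, rfl⟩ := LES_rep_cls hA h y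
  obtain ⟨i, hi⟩ := LES_directed hB hd (mem_CC_cc.1 (LES_cc_dd h1)).2 (supp_subset _ _) h2
  exact ⟨i, _, LES_res (h.of_subset (iInter_subset _ i) (hB i).subset)
    (LES_taut_ZZ (hB i) h1 hi)⟩

end Pool.Agent.HK
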