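import Pool.Agent.P.MP_1206ce_ag.AS.LES

/-! Fibrewise comparison theorems for compact supports (minimal closed set + Mayer-Vietoris). -/

open scoped Topology
open Filter Set

noncomputable section

namespace Pool.Agent.HK

variable {Y Y' : Type} [TopologicalSpace Y] [TopologicalSpace Y'] [Nice Y] [Nice Y']

/-! ### The abstract comparison theorem -/

section abstract
variable {B : Type} [TopologicalSpace B]

theorem Lawson_closedIn_sInter {A : Set B} {c : Set (Set B)} (hc : c.Nonempty)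
    (h : ∀ F ∈ c, ClosedIn F A) : ClosedIn (⋂₀ c) A := by
  choose! K hK hK' using h
  refine ⟨⋂ F ∈ c, K F, isClosed_biInter hK, ?_⟩
  ext y
  simp only [mem_sInter, mem_inter_iff, mem_iInter]
  constructor
  · intro hy
    obtain ⟨F₀, hF₀⟩ := hc
    refine ⟨?_, fun F hF => ?_⟩
    · have := hy F₀ hF₀
      rw [hK' F₀ hF₀] at this
      exact this.1
    · have := hy F hF
      rw [hK' F hF] at this
      exact this.2
  · rintro ⟨h1, h2⟩ F hF
    rw [hK' F hF]
    exact ⟨h1, h2 F hF⟩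

theorem Lawson_closedIn_union {A F G : Set B} (hF : ClosedIn F A) (hG : ClosedIn G A) :
    ClosedIn (F ∪ G) A := by
  obtain ⟨K, hK, rfl⟩ := hF
  obtain ⟨L, hL, rfl⟩ := hG
  exact ⟨K ∪ L, hK.union hL, (inter_union_distrib_left _ _ _).symm⟩

theorem Lawson_closedIn_inter {A F G : Set B} (hF : ClosedIn F A) (hG : ClosedIn G A) :
    ClosedIn (F ∩ G) A := by
  obtain ⟨K, hK, rfl⟩ := hF
  obtain ⟨L, hL, rfl⟩ := hG
  refine ⟨K ∩ L, hK.inter hL, ?_⟩
  ext y
  simp only [mem_inter_iff]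
  tauto

/-- Induction over closed subsets: points, finite unions, and descent from chains. -/
theorem Lawson_induct [T2Space B] {A F₀ : Set B} (hF₀ : ClosedIn F₀ A) (good : Set B → Prop)
    (h0 : good ∅) (h1 : ∀ y ∈ F₀, good {y})
    (hU : ∀ F G, ClosedIn F A → ClosedIn G A → F ⊆ F₀ → G ⊆ F₀ → good F → good G → good (F ∪ G))
    (hC : ∀ c : Set (Set B), c.Nonempty → IsChain (· ⊆ ·) c →
      (∀ F ∈ c, ClosedIn F A ∧ F ⊆ F₀) → good (⋂₀ c) → ∃ F ∈ c, good F) : good F₀ := by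
  by_contra hbad
  obtain ⟨m, -, hm⟩ := zorn_superset_nonempty {F | ClosedIn F A ∧ F ⊆ F₀ ∧ ¬ good F}
    (fun c hc hch hne => by
      refine ⟨⋂₀ c, ⟨Lawson_closedIn_sInter hne fun F hF => (hc hF).1, ?_, fun hg => ?_⟩,
        fun s hs => sInter_subset_of_mem hs⟩
      · obtain ⟨F, hF⟩ := hne
        exact (sInter_subset_of_mem hF).trans (hc hF).2.1
      · obtain ⟨F, hF, hgF⟩ := hC c hne hch (fun F hF => ⟨(hc hF).1, (hc hF).2.1⟩) hg
        exact (hc hF).2.2 hgF) F₀ ⟨hF₀, Subset.rfl, hbad⟩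
  obtain ⟨hm1, hm2, hm3⟩ := hm.prop
  apply hm3
  by_cases hs : m.Subsingleton
  · rcases hs.eq_empty_or_singleton with h | ⟨y, h⟩
    · rw [h]; exact h0
    · rw [h]; exact h1 y (hm2 (by rw [h]; rfl))
  · rw [not_subsingleton_iff] at hs
    obtain ⟨a, ha, b, hb, hab⟩ := hs
    obtain ⟨O, O', hO, hO', haO, hbO, hd⟩ := t2_separation hab
    have key : ∀ (p : B) (V : Set B), p ∈ m → IsOpen V → p ∈ V →
        ClosedIn (m \ V) A ∧ m \ V ⊆ F₀ ∧ good (m \ V) := by
      intro p V hp hV hpV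
      have hcl : ClosedIn (m \ V) A := by
        obtain ⟨K, hK, hK'⟩ := hm1
        refine ⟨K ∩ Vᶜ, hK.inter hV.isClosed_compl, ?_⟩
        rw [hK', ← inter_assoc]
        rfl
      refine ⟨hcl, sdiff_subset.trans hm2, ?_⟩
      by_contra hg
      have := hm.le_of_le (y := m \ V) ⟨hcl, sdiff_subset.trans hm2, hg⟩ sdiff_subset
      exact (this hp).2 hpV
    obtain ⟨c1, s1, g1⟩ := key a O ha hO haO
    obtain ⟨c2, s2, g2⟩ := key b O' hb hO' hbO
    have : m = (m \ O) ∪ (m \ O') := by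
      ext y
      simp only [mem_union, Set.mem_sdiff]
      constructor
      · intro hy
        by_cases h : y ∈ O
        · exact Or.inr ⟨hy, fun h' => Set.disjoint_left.1 hd h h'⟩
        · exact Or.inl ⟨hy, h⟩
      · rintro (h | h) <;> exact h.1
    rw [this]
    exact hU _ _ c1 c2 s1 s2 g1 g2

/-- A graded cohomology theory with compact supports on the subsets of `A`. -/
structure Lawson_Thy (A : Set B) where
  M : Set B → Type
  grp : ∀ F, AddCommGroup (M F)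
  pr : ∀ F, ℤ → M F →+ M F
  r : ∀ F G, M F →+ M G
  e : ∀ U F, M U →+ M F
  d : ∀ (_ : Set B) (G U : Set B), M G →+ M U
  pr_pr : ∀ F k x, pr F k (pr F k x) = pr F k x
  low : ∃ k₀ : ℤ, ∀ k < k₀, ∀ F x, pr F k x = 0
  r_pr : ∀ F G, ClosedIn F A → ClosedIn G A → G ⊆ F → ∀ k x,
    pr G k (r F G x) = r F G (pr F k x)
  e_pr : ∀ F G U, ClosedIn F A → ClosedIn G A → G ⊆ F → U = F \ G → ∀ k x,
    pr F k (e U F x) = e U F (pr U k x)
  d_pr : ∀ F G U, ClosedIn F A → ClosedIn G A → G ⊆ F → U = F \ G → ∀ k x,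
    pr U (k + 1) (d F G U x) = d F G U (pr G k x)
  r_r : ∀ F G K, ClosedIn F A → ClosedIn G A → ClosedIn K A → G ⊆ F → K ⊆ G → ∀ x,
    r G K (r F G x) = r F K x
  r_self : ∀ F x, r F F x = x
  ex_r : ∀ F G U, ClosedIn F A → ClosedIn G A → G ⊆ F → U = F \ G →
    Function.Exact (e U F) (r F G)
  ex_d : ∀ F G U, ClosedIn F A → ClosedIn G A → G ⊆ F → U = F \ G →
    Function.Exact (r F G) (d F G U)
  ex_e : ∀ F G U, ClosedIn F A → ClosedIn G A → G ⊆ F → U = F \ G →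
    Function.Exact (d F G U) (e U F)
  r_e : ∀ F G U, ClosedIn F A → ClosedIn G A → U = (F ∪ G) \ F → ∀ u,
    r (F ∪ G) G (e U (F ∪ G) u) = e U G u
  d_r : ∀ F G U, ClosedIn F A → ClosedIn G A → U = (F ∪ G) \ F → ∀ b,
    d (F ∪ G) F U b = d G (F ∩ G) U (r F (F ∩ G) b)
  c_inj : ∀ (F F₀ : Set B) (c : Set (Set B)), ClosedIn F A → c.Nonempty → IsChain (· ⊆ ·) c →
    (∀ G ∈ c, ClosedIn G A ∧ G ⊆ F) → F₀ = ⋂₀ c → ∀ x, r F F₀ x = 0 → ∃ G ∈ c, r F G x = 0
  c_surj : ∀ (F F₀ : Set B) (c : Set (Set B)), ClosedIn F A → c.Nonempty → IsChain (· ⊆ ·) c →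
    (∀ G ∈ c, ClosedIn G A ∧ G ⊆ F) → F₀ = ⋂₀ c → ∀ y, ∃ G ∈ c, ∃ x, r G F₀ x = y
  empty : ∀ x : M ∅, x = 0

instance Lawson_Thy.instGrp {A : Set B} (T : Lawson_Thy A) (F : Set B) : AddCommGroup (T.M F) :=
  T.grp F

/-- A natural transformation of theories. -/
structure Lawson_Hom {A : Set B} (T T' : Lawson_Thy A) where
  f : ∀ F, T.M F →+ T'.M F
  f_pr : ∀ F, F ⊆ A → ∀ k x, T'.pr F k (f F x) = f F (T.pr F k x)
  f_r : ∀ F G, ClosedIn F A → ClosedIn G A → G ⊆ F → ∀ x, T'.r F G (f F x) = f G (T.r F G x)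
  f_e : ∀ F G U, ClosedIn F A → ClosedIn G A → G ⊆ F → U = F \ G → ∀ u,
    T'.e U F (f U u) = f F (T.e U F u)
  f_d : ∀ F G U, ClosedIn F A → ClosedIn G A → G ⊆ F → U = F \ G → ∀ b,
    T'.d F G U (f G b) = f U (T.d F G U b)

/-- Injectivity in degree `k`. -/
def Lawson_Hom.Inj {A : Set B} {T T' : Lawson_Thy A} (φ : Lawson_Hom T T') (F : Set B) (k : ℤ) :
    Prop := ∀ x, T.pr F k x = x → φ.f F x = 0 → x = 0

/-- Surjectivity in degree `k`. -/
def Lawson_Hom.Surj {A : Set B} {T T' : Lawson_Thy A} (φ : Lawson_Hom T T') (F : Set B) (k : ℤ) :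
    Prop := ∀ x', T'.pr F k x' = x' → ∃ x, T.pr F k x = x ∧ φ.f F x = x'

theorem Lawson_lift_e {A : Set B} (T : Lawson_Thy A) {F G U : Set B} (hF : ClosedIn F A)
    (hG : ClosedIn G A) (h : G ⊆ F) (hU : U = F \ G) {k : ℤ} {x : T.M F} (hx : T.pr F k x = x)
    (h0 : T.r F G x = 0) : ∃ u, T.pr U k u = u ∧ T.e U F u = x := by
  obtain ⟨u, hu⟩ := (T.ex_r F G U hF hG h hU x).1 h0
  exact ⟨T.pr U k u, T.pr_pr _ _ _, by rw [← T.e_pr F G U hF hG h hU, hu, hx]⟩

theorem Lawson_lift_d {A : Set B} (T : Lawson_Thy A) {F G U : Set B} (hF : ClosedIn F A)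
    (hG : ClosedIn G A) (h : G ⊆ F) (hU : U = F \ G) {k : ℤ} {u : T.M U}
    (hu : T.pr U (k + 1) u = u) (h0 : T.e U F u = 0) :
    ∃ z, T.pr G k z = z ∧ T.d F G U z = u := by
  obtain ⟨z, hz⟩ := (T.ex_e F G U hF hG h hU u).1 h0
  exact ⟨T.pr G k z, T.pr_pr _ _ _, by rw [← T.d_pr F G U hF hG h hU, hz, hu]⟩

theorem Lawson_lift_r {A : Set B} (T : Lawson_Thy A) {F G U : Set B} (hF : ClosedIn F A)
    (hG : ClosedIn G A) (h : G ⊆ F) (hU : U = F \ G) {k : ℤ} {z : T.M G}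
    (hz : T.pr G k z = z) (h0 : T.d F G U z = 0) :
    ∃ a, T.pr F k a = a ∧ T.r F G a = z := by
  obtain ⟨a, ha⟩ := (T.ex_d F G U hF hG h hU z).1 h0
  exact ⟨T.pr F k a, T.pr_pr _ _ _, by rw [← T.r_pr F G hF hG h, ha, hz]⟩

omit [TopologicalSpace B] in
theorem Lawson_diff_union (F G : Set B) : (F ∪ G) \ F = G \ (F ∩ G) := by
  ext y
  simp only [Set.mem_sdiff, mem_union, mem_inter_iff]
  tauto

/-- Mayer-Vietoris step for injectivity. -/
theorem Lawson_inj_union {A : Set B} {T T' : Lawson_Thy A} (φ : Lawson_Hom T T') {k : ℤ}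
    (hI : ∀ F, ClosedIn F A → φ.Inj F k) (hS : ∀ F, ClosedIn F A → φ.Surj F k) {F G : Set B}
    (hF : ClosedIn F A) (hG : ClosedIn G A) {x : T.M (F ∪ G)} (hx : T.pr _ (k + 1) x = x)
    (h0 : φ.f _ x = 0) (h1 : T.r _ F x = 0) (h2 : T.r _ G x = 0) : x = 0 := by
  have hFG := Lawson_closedIn_union hF hG
  have hI' := Lawson_closedIn_inter hF hG
  obtain ⟨U, hU⟩ : ∃ U, U = (F ∪ G) \ F := ⟨_, rfl⟩
  have hU2 : U = G \ (F ∩ G) := hU.trans (Lawson_diff_union F G)
  have hUA : U ⊆ A := by rw [hU]; exact sdiff_subset.trans hFG.subset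
  obtain ⟨u, hu, hux⟩ := Lawson_lift_e T hFG hF subset_union_left hU hx h1
  have hu' : T'.pr U (k + 1) (φ.f U u) = φ.f U u := by rw [φ.f_pr U hUA, hu]
  obtain ⟨a, ha, hau⟩ := Lawson_lift_d T' hFG hF subset_union_left hU hu'
    (by rw [φ.f_e _ F U hFG hF subset_union_left hU, hux, h0])
  obtain ⟨b, hb, rfl⟩ := hS F hF a ha
  rw [φ.f_d _ F U hFG hF subset_union_left hU] at hau
  have e1 : T.e U (F ∪ G) (u - T.d (F ∪ G) F U b) = x := by
    rw [map_sub, hux, (T.ex_e _ F U hFG hF subset_union_left hU).apply_apply_eq_zero, sub_zero]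
  have e2 : T.pr U (k + 1) (u - T.d (F ∪ G) F U b) = u - T.d (F ∪ G) F U b := by
    rw [map_sub, hu, T.d_pr _ F U hFG hF subset_union_left hU, hb]
  have e3 : φ.f U (u - T.d (F ∪ G) F U b) = 0 := by rw [map_sub, hau, sub_self]
  generalize u - T.d (F ∪ G) F U b = v at e1 e2 e3
  obtain ⟨z, hz, hzv⟩ := Lawson_lift_d T hG hI' inter_subset_right hU2 e2
    (by rw [← T.r_e F G U hF hG hU, e1, h2])
  have hz' : T'.pr _ k (φ.f _ z) = φ.f _ z := by rw [φ.f_pr _ hI'.subset, hz]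
  obtain ⟨a₂, ha₂, haz⟩ := Lawson_lift_r T' hG hI' inter_subset_right hU2 hz'
    (by rw [φ.f_d G _ U hG hI' inter_subset_right hU2, hzv, e3])
  obtain ⟨b₂, hb₂, rfl⟩ := hS G hG a₂ ha₂
  rw [φ.f_r G _ hG hI' inter_subset_right] at haz
  have e4 : z - T.r G (F ∩ G) b₂ = 0 := hI _ hI' _
    (by rw [map_sub, hz, T.r_pr G _ hG hI' inter_subset_right, hb₂])
    (by rw [map_sub, haz, sub_self])
  rw [sub_eq_zero] at e4
  rw [← e1, ← hzv, e4, (T.ex_d G _ U hG hI' inter_subset_right hU2).apply_apply_eq_zero, map_zero]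

/-- Mayer-Vietoris step for surjectivity. -/
theorem Lawson_surj_union {A : Set B} {T T' : Lawson_Thy A} (φ : Lawson_Hom T T') {k : ℤ}
    (hI : ∀ F, ClosedIn F A → φ.Inj F (k + 1)) (hS : ∀ F, ClosedIn F A → φ.Surj F k)
    {F G : Set B} (hF : ClosedIn F A) (hG : ClosedIn G A) {x : T'.M (F ∪ G)}
    (hx : T'.pr _ (k + 1) x = x) {b₁ : T.M F} (hb₁ : T.pr F (k + 1) b₁ = b₁)
    (h1 : φ.f F b₁ = T'.r _ F x) {b₂ : T.M G} (hb₂ : T.pr G (k + 1) b₂ = b₂)
    (h2 : φ.f G b₂ = T'.r _ G x) : ∃ b, T.pr _ (k + 1) b = b ∧ φ.f (F ∪ G) b = x := by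
  have hFG := Lawson_closedIn_union hF hG
  have hI' := Lawson_closedIn_inter hF hG
  obtain ⟨U, hU⟩ : ∃ U, U = (F ∪ G) \ F := ⟨_, rfl⟩
  have hU2 : U = G \ (F ∩ G) := hU.trans (Lawson_diff_union F G)
  have hUA : U ⊆ A := by rw [hU]; exact sdiff_subset.trans hFG.subset
  have e1 : T.r F (F ∩ G) b₁ - T.r G (F ∩ G) b₂ = 0 := hI _ hI' _
    (by rw [map_sub, T.r_pr F _ hF hI' inter_subset_left, T.r_pr G _ hG hI' inter_subset_right,
      hb₁, hb₂])
    (by rw [map_sub, ← φ.f_r F _ hF hI' inter_subset_left, ← φ.f_r G _ hG hI' inter_subset_right,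
      h1, h2, T'.r_r _ F _ hFG hF hI' subset_union_left inter_subset_left,
      T'.r_r _ G _ hFG hG hI' subset_union_right inter_subset_right, sub_self])
  rw [sub_eq_zero] at e1
  obtain ⟨b, hb, hbb⟩ := Lawson_lift_r T hFG hF subset_union_left hU hb₁
    (by rw [T.d_r F G U hF hG hU, e1,
      (T.ex_d G _ U hG hI' inter_subset_right hU2).apply_apply_eq_zero])
  obtain ⟨u', hu', hux⟩ := Lawson_lift_e T' hFG hF subset_union_left hU
    (k := k + 1) (x := x - φ.f _ b)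
    (by rw [map_sub, hx, φ.f_pr _ hFG.subset, hb])
    (by rw [map_sub, φ.f_r _ F hFG hF subset_union_left, hbb, h1, sub_self])
  obtain ⟨u, hu, hub⟩ := Lawson_lift_e T hG hI' inter_subset_right hU2
    (k := k + 1) (x := b₂ - T.r _ G b)
    (by rw [map_sub, hb₂, T.r_pr _ G hFG hG subset_union_right, hb])
    (by rw [map_sub, T.r_r _ G _ hFG hG hI' subset_union_right inter_subset_right,
      ← T.r_r _ F _ hFG hF hI' subset_union_left inter_subset_left, hbb, e1, sub_self])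
  obtain ⟨z', hz', hzu⟩ := Lawson_lift_d T' hG hI' inter_subset_right hU2
    (k := k) (u := u' - φ.f U u)
    (by rw [map_sub, hu', φ.f_pr U hUA, hu])
    (by rw [map_sub, φ.f_e G _ U hG hI' inter_subset_right hU2, hub, ← T'.r_e F G U hF hG hU, hux,
      map_sub, map_sub, h2, φ.f_r _ G hFG hG subset_union_right, sub_self])
  obtain ⟨z, hz, rfl⟩ := hS _ hI' z' hz'
  rw [φ.f_d G _ U hG hI' inter_subset_right hU2] at hzu
  refine ⟨b + T.e U _ (u + T.d G (F ∩ G) U z), ?_, ?_⟩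
  · rw [map_add, hb, T.e_pr _ F U hFG hF subset_union_left hU, map_add, hu,
      T.d_pr G _ U hG hI' inter_subset_right hU2, hz]
  · rw [map_add, ← φ.f_e _ F U hFG hF subset_union_left hU, map_add, hzu, add_sub_cancel, hux,
      add_sub_cancel]

theorem Lawson_closedIn_singleton [T2Space B] {A : Set B} {y : B} (hy : y ∈ A) :
    ClosedIn {y} A := ⟨{y}, isClosed_singleton, (inter_eq_right.2 (singleton_subset_iff.2 hy)).symm⟩

theorem Lawson_inj_step [T2Space B] {A : Set B} {T T' : Lawson_Thy A} (φ : Lawson_Hom T T')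
    {k : ℤ} (hI : ∀ F, ClosedIn F A → φ.Inj F k) (hS : ∀ F, ClosedIn F A → φ.Surj F k)
    (hpt : ∀ y ∈ A, φ.Inj {y} (k + 1)) (F₀ : Set B) (hF₀ : ClosedIn F₀ A) :
    φ.Inj F₀ (k + 1) := by
  intro x hx h0
  rw [← T.r_self F₀ x]
  refine Lawson_induct hF₀ (fun F => T.r F₀ F x = 0) (T.empty _) (fun y hy => ?_)
    (fun F G hF hG sF sG g1 g2 => ?_) (fun c hne hch hc hg => ?_)
  · have hy' := Lawson_closedIn_singleton (hF₀.subset hy)
    have sy : ({y} : Set B) ⊆ F₀ := singleton_subset_iff.2 hy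
    exact hpt y (hF₀.subset hy) _ (by rw [T.r_pr _ _ hF₀ hy' sy, hx])
      (by rw [← φ.f_r _ _ hF₀ hy' sy, h0, map_zero])
  · have hFG := Lawson_closedIn_union hF hG
    have sFG : F ∪ G ⊆ F₀ := union_subset sF sG
    exact Lawson_inj_union φ hI hS hF hG (by rw [T.r_pr _ _ hF₀ hFG sFG, hx])
      (by rw [← φ.f_r _ _ hF₀ hFG sFG, h0, map_zero])
      (by rw [T.r_r _ _ _ hF₀ hFG hF sFG subset_union_left, g1])
      (by rw [T.r_r _ _ _ hF₀ hFG hG sFG subset_union_right, g2])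
  · exact T.c_inj F₀ _ c hF₀ hne hch hc rfl x hg

theorem Lawson_surj_step [T2Space B] {A : Set B} {T T' : Lawson_Thy A} (φ : Lawson_Hom T T')
    {k : ℤ} (hI : ∀ F, ClosedIn F A → φ.Inj F (k + 1)) (hS : ∀ F, ClosedIn F A → φ.Surj F k)
    (hpt : ∀ y ∈ A, φ.Surj {y} (k + 1)) (F₀ : Set B) (hF₀ : ClosedIn F₀ A) :
    φ.Surj F₀ (k + 1) := by
  intro x hx
  rw [← T'.r_self F₀ x]
  refine Lawson_induct hF₀
    (fun F => ∃ b, T.pr F (k + 1) b = b ∧ φ.f F b = T'.r F₀ F x)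
    ⟨0, map_zero _, (T'.empty _).trans (T'.empty _).symm⟩ (fun y hy => ?_)
    (fun F G hF hG sF sG g1 g2 => ?_) (fun c hne hch hc hg => ?_)
  · have hy' := Lawson_closedIn_singleton (hF₀.subset hy)
    have sy : ({y} : Set B) ⊆ F₀ := singleton_subset_iff.2 hy
    exact hpt y (hF₀.subset hy) _ (by rw [T'.r_pr _ _ hF₀ hy' sy, hx])
  · have hFG := Lawson_closedIn_union hF hG
    have sFG : F ∪ G ⊆ F₀ := union_subset sF sG
    obtain ⟨b₁, hb₁, h1⟩ := g1
    obtain ⟨b₂, hb₂, h2⟩ := g2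
    exact Lawson_surj_union φ hI hS hF hG (by rw [T'.r_pr _ _ hF₀ hFG sFG, hx]) hb₁
      (by rw [T'.r_r _ _ _ hF₀ hFG hF sFG subset_union_left, h1]) hb₂
      (by rw [T'.r_r _ _ _ hF₀ hFG hG sFG subset_union_right, h2])
  · obtain ⟨b, hb, hbx⟩ := hg
    have hcl := Lawson_closedIn_sInter hne fun F hF => (hc F hF).1
    obtain ⟨G, hG, a, ha⟩ := T.c_surj F₀ _ c hF₀ hne hch hc rfl b
    have sG : ⋂₀ c ⊆ G := sInter_subset_of_mem hG
    have ha' : T.r G (⋂₀ c) (T.pr G (k + 1) a) = b := by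
      rw [← T.r_pr _ _ (hc G hG).1 hcl sG, ha, hb]
    have heq : ⋂₀ c = ⋂₀ {K | K ∈ c ∧ K ⊆ G} := by
      apply Subset.antisymm
      · exact sInter_subset_sInter fun K hK => hK.1
      · intro y hy K hK
        rcases hch.total hK hG with h | h
        · exact hy K ⟨hK, h⟩
        · exact h (hy G ⟨hG, Subset.rfl⟩)
    obtain ⟨K, hK, hK0⟩ := T'.c_inj G _ {K | K ∈ c ∧ K ⊆ G} (hc G hG).1 ⟨G, hG, Subset.rfl⟩
      (hch.mono fun K hK => hK.1) (fun K hK => ⟨(hc K hK.1).1, hK.2⟩) heq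
      (φ.f G (T.pr G (k + 1) a) - T'.r F₀ G x)
      (by rw [map_sub, φ.f_r _ _ (hc G hG).1 hcl sG, ha', hbx,
        T'.r_r _ _ _ hF₀ (hc G hG).1 hcl (hc G hG).2 sG, sub_self])
    refine ⟨K, hK.1, T.r G K (T.pr G (k + 1) a), ?_, ?_⟩
    · rw [T.r_pr _ _ (hc G hG).1 (hc K hK.1).1 hK.2, T.pr_pr]
    · rw [map_sub, φ.f_r _ _ (hc G hG).1 (hc K hK.1).1 hK.2,
        T'.r_r _ _ _ hF₀ (hc G hG).1 (hc K hK.1).1 (hc G hG).2 hK.2, sub_eq_zero] at hK0
      exact hK0

/-- The abstract comparison theorem. -/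
theorem Lawson_compare [T2Space B] {A : Set B} {T T' : Lawson_Thy A} (φ : Lawson_Hom T T') (c : ℤ)
    (hs : ∀ y ∈ A, ∀ k < c, φ.Surj {y} k) (hi : ∀ y ∈ A, ∀ k ≤ c, φ.Inj {y} k) (k : ℤ) :
    (k ≤ c → ∀ F, ClosedIn F A → φ.Inj F k) ∧ (k < c → ∀ F, ClosedIn F A → φ.Surj F k) := by
  obtain ⟨k₁, hk₁⟩ := T.low
  obtain ⟨k₂, hk₂⟩ := T'.low
  have base : ∀ k < min k₁ k₂,
      (k ≤ c → ∀ F, ClosedIn F A → φ.Inj F k) ∧ (k < c → ∀ F, ClosedIn F A → φ.Surj F k) := by
    intro k hk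
    refine ⟨fun _ F _ x hx _ => ?_, fun _ F _ x hx => ⟨0, map_zero _, ?_⟩⟩
    · rw [← hx, hk₁ k (lt_of_lt_of_le hk (min_le_left _ _))]
    · rw [← hx, hk₂ k (lt_of_lt_of_le hk (min_le_right _ _)), map_zero]
  by_cases hk : k < min k₁ k₂
  · exact base k hk
  · have hk' : min k₁ k₂ - 1 ≤ k := by omega
    induction k, hk' using Int.leInduction with
    | base => exact base _ (by omega)
    | succ k _ ih =>
      have ih' : (k ≤ c → ∀ F, ClosedIn F A → φ.Inj F k) ∧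
          (k < c → ∀ F, ClosedIn F A → φ.Surj F k) := by
        by_cases h : k < min k₁ k₂
        · exact base k h
        · exact ih h
      have hI : k + 1 ≤ c → ∀ F, ClosedIn F A → φ.Inj F (k + 1) := fun h =>
        Lawson_inj_step φ (ih'.1 (by omega)) (ih'.2 (by omega)) fun y hy => hi y hy _ h
      exact ⟨hI, fun h => Lawson_surj_step φ (hI h.le) (ih'.2 (by omega))
        fun y hy => hs y hy _ h⟩

end abstract

/-! ### The concrete theories -/

omit [Nice Y] in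
theorem Lawson_twOK_res {A A' : Set Y} (h : ClosedIn A' A) : TwOK A A' id one :=
  h.properOn.twOK (one_mem_ZZ _)

omit [Nice Y] [Nice Y'] in
theorem Lawson_twOK_nil {A : Set Y} {A' : Set Y'} {π : Y' → Y} {w : Coch Y'}
    (h : TwOK A A' π w) : w [] = 0 := h.2.2.1.1.1.1

omit [Nice Y] [Nice Y'] in
theorem Lawson_res_tw {A : Set Y} {A' G' : Set Y'} {π : Y' → Y} {w : Coch Y'}
    (h : TwOK A A' π w) (hG : ClosedIn G' A') (x : Hc A) :
    res A' G' (tw A A' π w x) = tw A G' π w x := by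
  have := LinearMap.congr_fun (tw_comp h (Lawson_twOK_res hG)) x
  rw [pb_id, cup_one (Lawson_twOK_nil h)] at this
  exact this

omit [Nice Y] [Nice Y'] in
theorem Lawson_tw_res {A G : Set Y} {G' : Set Y'} {π : Y' → Y} {w : Coch Y'}
    (hG : ClosedIn G A) (h : TwOK G G' π w) (x : Hc A) :
    tw G G' π w (res A G x) = tw A G' π w x := by
  have := LinearMap.congr_fun (tw_comp (Lawson_twOK_res hG) h) x
  rw [pb_one, one_cup (Lawson_twOK_nil h)] at this
  exact this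

open Classical in
/-- The connecting map. -/
def Lawson_del (A A' U : Set Y) : Hc A' →ₗ[ℂ] Hc U :=
  if h : LC A ∧ ClosedIn A' A ∧ U = A \ A' then Classical.choose (les h.1 h.2.1 h.2.2) else 0

theorem Lawson_del_spec {A A' U : Set Y} (hA : LC A) (h : ClosedIn A' A) (hU : U = A \ A') :
    Function.Exact (ext U A) (res A A') ∧
      Function.Exact (res A A') (Lawson_del A A' U) ∧
      Function.Exact (Lawson_del A A' U) (ext U A) ∧
      (∀ k x, prH _ U (k + 1) (Lawson_del A A' U x) = Lawson_del A A' U (prH _ A' k x)) ∧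
      ∀ a ∈ CC (cc A) A, Disjoint (supp A (dd a)) A' →
        a ∈ ZZ (cc A') A' ∧ dd a ∈ ZZ (cc U) U ∧
          Lawson_del A A' U (clc A' a) = clc U (dd a) := by
  have h' : LC A ∧ ClosedIn A' A ∧ U = A \ A' := ⟨hA, h, hU⟩
  rw [Lawson_del, dif_pos h']
  exact Classical.choose_spec (les h'.1 h'.2.1 h'.2.2)

/-- The connecting map commutes with twisted pull-backs. -/
theorem Lawson_del_tw {A G U : Set Y} {A' G' U' : Set Y'} {π : Y' → Y} {w : Coch Y'}
    (hA : LC A) (hA' : LC A') (h : TwOK A A' π w) (hG : ClosedIn G A) (hU : U = A \ G)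
    (hG' : G' = A' ∩ π ⁻¹' G) (hU' : U' = A' ∩ π ⁻¹' U) (x : Hc G) :
    Lawson_del A' G' U' (tw G G' π w x) = tw U U' π w (Lawson_del A G U x) := by
  have hcl : ClosedIn G' A' := hG' ▸ hG.preimage h.1 h.2.1
  have hU'' : U' = A' \ G' := by
    rw [hU', hG', hU]
    ext y
    simp only [mem_inter_iff, mem_preimage, Set.mem_sdiff]
    constructor
    · rintro ⟨h1, -, h3⟩
      exact ⟨h1, fun h => h3 h.2⟩
    · rintro ⟨h1, h2⟩
      exact ⟨h1, h.2.1 h1, fun h => h2 ⟨h1, h⟩⟩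
  have hTG : TwOK G G' π w := hG' ▸ h.restrict hG.subset
  have hTU : TwOK U U' π w := hU' ▸ h.restrict (hU ▸ sdiff_subset)
  obtain ⟨b, hb, rfl⟩ := cls_surj x
  obtain ⟨a, ha, hd, hab⟩ := exists_taut_rep hA hG hb
  obtain ⟨ha1, ha2, ha3⟩ := (Lawson_del_spec hA hG hU).2.2.2.2 a ha hd
  have hab' : cls (cc G) G b = clc G a := ((cls_eq_iff ha1 hb).2 hab).symm
  rw [hab', ha3, tw_cls hTG ha1, tw_cls hTU ha2]
  have hw0 : supp A' (dd w) = ∅ := h.2.2.1.2
  have hpa0 : pb π a [] = 0 := ha.1.1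
  have hdd : dd (cup (pb π a) w) = cup (pb π (dd a)) w + cup (sgC (pb π a)) (dd w) := by
    rw [dd_cup hpa0 (Lawson_twOK_nil h), pb_dd]
  have hN : cup (sgC (pb π a)) (dd w) ∈ N0 A' := by
    rw [mem_N0, ← subset_empty_iff, ← hw0]
    exact (supp_cup _ _ _).trans inter_subset_right
  have ha' : cup (pb π a) w ∈ CC (cc A') A' := by
    rw [mem_CC_cc]
    refine ⟨(ha.1.pb π).cup h.2.2.1.1.1, ?_⟩
    obtain ⟨C', hC1, hC2, hC3⟩ := h.2.2.2 (supp A a) (mem_CC_cc.1 ha).2 (supp_subset _ _)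
    refine (supp_closedIn _ _).isCompact hC1 hC2 fun y hy => hC3 ?_
    have := supp_cup _ _ _ hy
    exact ⟨this.2, supp_pb h.1 h.2.1 a this.1⟩
  have hd' : Disjoint (supp A' (dd (cup (pb π a) w))) G' := by
    rw [Set.disjoint_left]
    intro y hy hyG
    rw [hdd] at hy
    rcases supp_add _ _ _ hy with h1 | h1
    · have h2 := supp_pb h.1 h.2.1 (dd a) (supp_cup _ _ _ h1).1
      rw [hG'] at hyG
      exact Set.disjoint_left.1 hd h2 hyG.2
    · rw [mem_N0.1 hN] at h1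
      exact h1
  obtain ⟨-, hb2, hb3⟩ := (Lawson_del_spec hA' hcl hU'').2.2.2.2 _ ha' hd'
  rw [hb3]
  refine (cls_eq_iff hb2 (hTU.mem_ZZ ha2)).2 (N0_le_BB _ _ ?_)
  rw [hdd, add_sub_cancel_left, mem_N0, ← subset_empty_iff, ← mem_N0.1 hN]
  exact supp_mono (hU'' ▸ sdiff_subset) _

/-- A well behaved assignment of subsets of `Y` to subsets of the base. -/
structure Lawson_Sig {B : Type} [TopologicalSpace B] (A : Set B) (σ : Set B → Set Y) : Prop where
  lc : ∀ F, ClosedIn F A → LC (σ F)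
  cl : ∀ F G, ClosedIn F A → ClosedIn G A → G ⊆ F → ClosedIn (σ G) (σ F)
  diff : ∀ F G, σ (F \ G) = σ F \ σ G
  sInter : ∀ c : Set (Set B), c.Nonempty → σ (⋂₀ c) = ⋂ G : c, σ G

omit [Nice Y] in
theorem Lawson_Sig.inter {B : Type} [TopologicalSpace B] {A : Set B} {σ : Set B → Set Y}
    (h : Lawson_Sig A σ) (F G : Set B) : σ (F ∩ G) = σ F ∩ σ G := by
  rw [← sdiff_sdiff_right_self, h.diff, h.diff, sdiff_sdiff_right_self]

omit [Nice Y] in
theorem Lawson_Sig.mono {B : Type} [TopologicalSpace B] {A : Set B} {σ : Set B → Set Y}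
    (h : Lawson_Sig A σ) {F G : Set B} (hFG : G ⊆ F) : σ G ⊆ σ F := by
  rw [← inter_eq_right.2 hFG, h.inter]
  exact inter_subset_left

omit [Nice Y] in
theorem Lawson_Sig.empty {B : Type} [TopologicalSpace B] {A : Set B} {σ : Set B → Set Y}
    (h : Lawson_Sig A σ) : σ ∅ = ∅ := by
  have := h.diff ∅ ∅
  rwa [sdiff_self, sdiff_self] at this

omit [Nice Y] in
theorem Lawson_Sig.directed {B : Type} [TopologicalSpace B] {A : Set B} {σ : Set B → Set Y}
    (h : Lawson_Sig A σ) {c : Set (Set B)} (hch : IsChain (· ⊆ ·) c) :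
    Directed (· ⊇ ·) fun G : c => σ G := by
  intro G K
  rcases hch.total G.2 K.2 with h1 | h1
  · exact ⟨G, Subset.rfl, h.mono h1⟩
  · exact ⟨K, h.mono h1, Subset.rfl⟩

omit [Nice Y] in
theorem Lawson_sig_id {A : Set Y} (hA : LC A) : Lawson_Sig A (fun F => F) where
  lc _ hF := hA.closedIn hF
  cl _ _ hF hG h := hG.of_subset h hF.subset
  diff _ _ := rfl
  sInter _ _ := sInter_eq_iInter

omit [Nice Y] in
theorem Lawson_sig_pre {B : Type} [TopologicalSpace B] {A : Set B} {S : Set Y} (hS : LC S)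
    {f : Y → B} (hf : ContinuousOn f S) (hm : MapsTo f S A) :
    Lawson_Sig A (fun F => S ∩ f ⁻¹' F) where
  lc _ hF := hS.closedIn (hF.preimage hf hm)
  cl _ _ _ hG h := (hG.preimage hf hm).of_subset
    (inter_subset_inter_right _ (preimage_mono h)) inter_subset_left
  diff F G := by
    ext y
    simp only [mem_inter_iff, mem_preimage, Set.mem_sdiff]
    tauto
  sInter c hc := by
    ext y
    simp only [mem_inter_iff, mem_preimage, mem_sInter, mem_iInter, Subtype.forall]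
    obtain ⟨F, hF⟩ := hc
    exact ⟨fun h G hG => ⟨h.1, h.2 G hG⟩, fun h => ⟨(h F hF).1, fun G hG => (h G hG).2⟩⟩

/-- Compactly supported cohomology as a theory on the base. -/
def Lawson_thy {B : Type} [TopologicalSpace B] {A : Set B} {σ : Set B → Set Y}
    (h : Lawson_Sig A σ) : Lawson_Thy A where
  M F := Hc (σ F)
  grp _ := inferInstance
  pr F k := (prH _ (σ F) k).toAddMonoidHom
  r F G := (res (σ F) (σ G)).toAddMonoidHom
  e U F := (ext (σ U) (σ F)).toAddMonoidHom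
  d F G U := (Lawson_del (σ F) (σ G) (σ U)).toAddMonoidHom
  pr_pr F k x := by
    have := prH_prH k k x
    rw [if_pos rfl] at this
    exact this
  low := ⟨0, fun k hk F x => prH_neg hk x⟩
  r_pr F G hF hG hFG k x := by
    have := tw_prH (Lawson_twOK_res (h.cl F G hF hG hFG)) HomC.one k x
    rw [add_zero] at this
    exact this
  e_pr F G U hF hG hFG hU k x := by
    have hO : OpenIn (σ U) (σ F) := by
      rw [hU, h.diff]
      exact (h.cl F G hF hG hFG).diff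
    exact ext_prH hO k x
  d_pr F G U hF hG hFG hU k x :=
    (Lawson_del_spec (h.lc F hF) (h.cl F G hF hG hFG) (by rw [hU, h.diff])).2.2.2.1 k x
  r_r F G K hF hG hK h1 h2 x :=
    Lawson_res_tw (Lawson_twOK_res (h.cl F G hF hG h1)) (h.cl G K hG hK h2) x
  r_self F x := LinearMap.congr_fun (tw_id_one (σ F)) x
  ex_r F G U hF hG hFG hU :=
    (Lawson_del_spec (h.lc F hF) (h.cl F G hF hG hFG) (by rw [hU, h.diff])).1
  ex_d F G U hF hG hFG hU :=
    (Lawson_del_spec (h.lc F hF) (h.cl F G hF hG hFG) (by rw [hU, h.diff])).2.1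
  ex_e F G U hF hG hFG hU :=
    (Lawson_del_spec (h.lc F hF) (h.cl F G hF hG hFG) (by rw [hU, h.diff])).2.2.1
  r_e F G U hF hG hU u := by
    have hFG := Lawson_closedIn_union hF hG
    have hO : OpenIn (σ U) (σ (F ∪ G)) := by
      rw [hU, h.diff]
      exact (h.cl _ F hFG hF subset_union_left).diff
    have hUG : U ⊆ G := by
      rw [hU, Lawson_diff_union]
      exact sdiff_subset
    have := LinearMap.congr_fun (tw_ext (U' := σ U)
      (Lawson_twOK_res (h.cl _ G hFG hG subset_union_right)) hO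
      (inter_eq_right.2 (h.mono hUG)).symm) u
    rw [tw_id_one] at this
    exact this
  d_r F G U hF hG hU b := by
    have hFG := Lawson_closedIn_union hF hG
    have hUG : U ⊆ G := by
      rw [hU, Lawson_diff_union]
      exact sdiff_subset
    have := Lawson_del_tw (U := σ U) (G' := σ (F ∩ G)) (U' := σ U) (h.lc _ hFG) (h.lc G hG)
      (Lawson_twOK_res (h.cl _ G hFG hG subset_union_right)) (h.cl _ F hFG hF subset_union_left)
      (by rw [hU, h.diff]) (by rw [h.inter, inter_comm]; rfl)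
      (inter_eq_right.2 (h.mono hUG)).symm b
    rw [tw_id_one] at this
    exact this.symm
  c_inj F F₀ c hF hne hch hc h0 x hx := by
    have : Nonempty c := hne.to_subtype
    obtain ⟨G, hG⟩ := cont_inj (h.lc F hF) (fun G : c => σ G)
      (fun G => h.cl F G hF (hc G G.2).1 (hc G G.2).2) (h.directed hch)
      (by rw [h0, h.sInter c hne]) x hx
    exact ⟨G, G.2, hG⟩
  c_surj F F₀ c hF hne hch hc h0 y := by
    have : Nonempty c := hne.to_subtype
    obtain ⟨G, x, hG⟩ := cont_surj (A₀ := σ F₀) (h.lc F hF) (fun G : c => σ G)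
      (fun G => h.cl F G hF (hc G G.2).1 (hc G G.2).2) (h.directed hch)
      (by rw [h0, h.sInter c hne]) y
    exact ⟨G, G.2, x, hG⟩
  empty x := by
    have : Subsingleton (Hc (σ ∅)) := by
      rw [h.empty]
      infer_instance
    exact this.elim x 0

theorem Lawson_chain_lower {B ι : Type} [Finite ι] {c : Set (Set B)} (hne : c.Nonempty)
    (hch : IsChain (· ⊆ ·) c) (G : ι → Set B) (hG : ∀ i, G i ∈ c) : ∃ K ∈ c, ∀ i, K ⊆ G i := by
  have : Nonempty c := hne.to_subtype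
  have hd : Directed (· ⊇ ·) fun K : c => (K : Set B) := by
    intro G K
    rcases hch.total G.2 K.2 with h1 | h1
    · exact ⟨G, Subset.rfl, h1⟩
    · exact ⟨K, h1, Subset.rfl⟩
  have : IsTrans (Set B) (· ⊇ ·) := ⟨fun _ _ _ h1 h2 => Subset.trans h2 h1⟩
  obtain ⟨K, hK⟩ := hd.finite_le fun i => (⟨G i, hG i⟩ : c)
  exact ⟨K, K.2, hK⟩

theorem Lawson_exact_pi {ι M N P : Type} [AddCommGroup M] [AddCommGroup N] [AddCommGroup P]
    {f : M →+ N} {g : N →+ P} (h : Function.Exact f g) :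
    Function.Exact (f.compLeft ι) (g.compLeft ι) := by
  intro x
  constructor
  · intro hx
    have : ∀ i, ∃ u, f u = x i := fun i => (h (x i)).1 (congrFun hx i)
    choose u hu using this
    exact ⟨u, funext hu⟩
  · rintro ⟨u, rfl⟩
    funext i
    exact h.apply_apply_eq_zero (u i)

/-- A finite product of shifted copies of a theory. -/
def Lawson_Thy.pi {B : Type} [TopologicalSpace B] {A : Set B} (T : Lawson_Thy A) {ι : Type}
    [Finite ι] (m : ι → ℤ) : Lawson_Thy A where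
  M F := ι → T.M F
  grp _ := inferInstance
  pr F k := AddMonoidHom.pi fun i => (T.pr F (k - m i)).comp (Pi.evalAddMonoidHom _ i)
  r F G := (T.r F G).compLeft ι
  e U F := (T.e U F).compLeft ι
  d F G U := (T.d F G U).compLeft ι
  pr_pr F k x := funext fun i => T.pr_pr F _ (x i)
  low := by
    obtain ⟨k₀, hk₀⟩ := T.low
    obtain ⟨b, hb⟩ := (Set.finite_range m).bddBelow
    refine ⟨k₀ + b, fun k hk F x => funext fun i => hk₀ _ ?_ F (x i)⟩
    have := hb ⟨i, rfl⟩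
    omega
  r_pr F G hF hG hFG k x := funext fun i => T.r_pr F G hF hG hFG _ (x i)
  e_pr F G U hF hG hFG hU k x := funext fun i => T.e_pr F G U hF hG hFG hU _ (x i)
  d_pr F G U hF hG hFG hU k x := funext fun i => by
    have := T.d_pr F G U hF hG hFG hU (k - m i) (x i)
    rw [show k - m i + 1 = k + 1 - m i by ring] at this
    exact this
  r_r F G K hF hG hK h1 h2 x := funext fun i => T.r_r F G K hF hG hK h1 h2 (x i)
  r_self F x := funext fun i => T.r_self F (x i)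
  ex_r F G U hF hG hFG hU := Lawson_exact_pi (T.ex_r F G U hF hG hFG hU)
  ex_d F G U hF hG hFG hU := Lawson_exact_pi (T.ex_d F G U hF hG hFG hU)
  ex_e F G U hF hG hFG hU := Lawson_exact_pi (T.ex_e F G U hF hG hFG hU)
  r_e F G U hF hG hU u := funext fun i => T.r_e F G U hF hG hU (u i)
  d_r F G U hF hG hU b := funext fun i => T.d_r F G U hF hG hU (b i)
  c_inj F F₀ c hF hne hch hc h0 x hx := by
    have : ∀ i, ∃ G ∈ c, T.r F G (x i) = 0 := fun i =>
      T.c_inj F F₀ c hF hne hch hc h0 (x i) (congrFun hx i)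
    choose G hG hG0 using this
    obtain ⟨K, hK, hKG⟩ := Lawson_chain_lower hne hch G hG
    refine ⟨K, hK, funext fun i => ?_⟩
    change T.r F K (x i) = 0
    rw [← T.r_r F (G i) K hF (hc _ (hG i)).1 (hc K hK).1 (hc _ (hG i)).2 (hKG i), hG0, map_zero]
  c_surj F F₀ c hF hne hch hc h0 y := by
    have : ∀ i, ∃ G ∈ c, ∃ x, T.r G F₀ x = y i := fun i =>
      T.c_surj F F₀ c hF hne hch hc h0 (y i)
    choose G hG x hx using this
    obtain ⟨K, hK, hKG⟩ := Lawson_chain_lower hne hch G hG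
    refine ⟨K, hK, fun i => T.r (G i) K (x i), funext fun i => ?_⟩
    change T.r K F₀ (T.r (G i) K (x i)) = y i
    have hcl : ClosedIn F₀ A := h0 ▸ Lawson_closedIn_sInter hne fun G hG => (hc G hG).1
    rw [T.r_r (G i) K F₀ (hc _ (hG i)).1 (hc K hK).1 hcl (hKG i)
      (h0 ▸ sInter_subset_of_mem hK), hx]
  empty x := funext fun i => T.empty (x i)

/-! ### The comparison theorems -/

/-- If all fibres have no compactly supported cohomology, neither has the total space. -/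
theorem vanish {B : Type} [TopologicalSpace B] [T2Space B] {S : Set Y} (hS : LC S) {f : Y → B}
    (hf : ContinuousOn f S) (hfib : ∀ b, Subsingleton (Hc (S ∩ f ⁻¹' {b}))) :
    Subsingleton (Hc S) := by
  have hσ : Lawson_Sig (univ : Set B) (fun F => S ∩ f ⁻¹' F) :=
    Lawson_sig_pre hS hf (mapsTo_univ _ _)
  let φ : Lawson_Hom (Lawson_thy hσ) (Lawson_thy hσ) :=
    { f := fun _ => 0
      f_pr := fun _ _ _ _ => map_zero _
      f_r := fun _ _ _ _ _ _ => map_zero _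
      f_e := fun _ _ _ _ _ _ _ _ => map_zero _
      f_d := fun _ _ _ _ _ _ _ _ => map_zero _ }
  have key : ∀ (k : ℤ) (x : Hc (S ∩ f ⁻¹' univ)), prH _ _ k x = x → x = 0 := fun k x hx =>
    (Lawson_compare φ k (fun y _ j _ x' _ => ⟨0, map_zero _, (hfib y).elim _ _⟩)
      (fun y _ j _ x' _ _ => (hfib y).elim _ _) k).1 le_rfl univ (ClosedIn.refl _) x hx rfl
  rw [preimage_univ, inter_univ] at key
  refine ⟨fun x y => ?_⟩
  rw [← sub_eq_zero]
  refine eq_zero_of_prH fun k => key k _ ?_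
  rw [prH_prH, if_pos rfl]

/-- The comparison map of the Leray-Hirsch theorem. -/
def lhMap {ι : Type} [Fintype ι] (A : Set Y) (A' : Set Y') (π : Y' → Y) (w : ι → Coch Y') :
    (ι → Hc A) →ₗ[ℂ] Hc A' := ∑ i, tw A A' π (w i) ∘ₗ LinearMap.proj i

theorem lhMap_apply {ι : Type} [Fintype ι] (A : Set Y) (A' : Set Y') (π : Y' → Y)
    (w : ι → Coch Y') (x : ι → Hc A) : lhMap A A' π w x = ∑ i, tw A A' π (w i) (x i) := by
  rw [lhMap, LinearMap.sum_apply]
  rfl

/-- The classes `w i` restrict to a basis of the compactly supported cohomology of `S`. -/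
def IsBasisOn {ι : Type} [Fintype ι] (S : Set Y') (w : ι → Coch Y') : Prop :=
  (∀ i, w i ∈ ZZ (cc S) S) ∧ Function.Bijective fun z : ι → ℂ => ∑ i, z i • clc S (w i)

omit [Nice Y] in
theorem Lawson_one_mem_pt (y : Y) : (one : Coch Y) ∈ ZZ (cc ({y} : Set Y)) {y} := by
  rw [ZZ_cc_eq_bot isCompact_singleton]
  exact one_mem_ZZ _

omit [Nice Y] in
theorem Lawson_pt_gen (y : Y) (x : Hc ({y} : Set Y)) : ∃ z : ℂ, x = z • clc {y} one := by
  obtain ⟨c, hc, rfl⟩ := cls_surj x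
  refine ⟨c [y], ?_⟩
  rw [← cls_smul _ (Lawson_one_mem_pt y), cls_eq_iff hc (Submodule.smul_mem _ _
    (Lawson_one_mem_pt y)), BB_cc_eq_bot isCompact_singleton]
  exact point_ZZ hc

omit [Nice Y] [Nice Y'] in
theorem Lawson_tw_pt {y : Y} {S : Set Y'} {π : Y' → Y} {w : Coch Y'} (h : TwOK {y} S π w) :
    w ∈ ZZ (cc S) S ∧ tw {y} S π w (clc {y} one) = clc S w := by
  have h1 := h.mem_ZZ (Lawson_one_mem_pt y)
  have h2 := tw_cls h (Lawson_one_mem_pt y)
  rw [pb_one, one_cup (Lawson_twOK_nil h)] at h1 h2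
  exact ⟨h1, h2⟩

omit [Nice Y] in
theorem Lawson_prH_hom {S : Set Y} {w : Coch Y} (hw : w ∈ ZZ (cc S) S) {m : ℤ} (hm : HomC m w)
    (k : ℤ) : prH _ S k (clc S w) = if m = k then clc S w else 0 := by
  rw [prH_cls k hw]
  split_ifs with h
  · rw [← h, hm.prC_self]
  · rw [hm.prC_ne (Ne.symm h), cls_eq_zero_iff (Submodule.zero_mem _)]
    exact Submodule.zero_mem _

/-- The Leray-Hirsch map as a transformation of theories. -/
def Lawson_lhHom {ι : Type} [Fintype ι] {A : Set Y} {A' : Set Y'} (hA : LC A)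
    {π : Y' → Y} (hσ : Lawson_Sig A (fun F => A' ∩ π ⁻¹' F)) {w : ι → Coch Y'}
    (hw : ∀ i, TwOK A A' π (w i)) {m : ι → ℤ} (hm : ∀ i, HomC (m i) (w i)) :
    Lawson_Hom ((Lawson_thy (Lawson_sig_id hA)).pi m) (Lawson_thy hσ) where
  f F := (lhMap F (A' ∩ π ⁻¹' F) π w).toAddMonoidHom
  f_pr F hF k := fun (x : ι → Hc F) => by
    change prH _ _ k (lhMap F (A' ∩ π ⁻¹' F) π w x) =
      lhMap F (A' ∩ π ⁻¹' F) π w fun i => prH _ _ (k - m i) (x i)
    rw [lhMap_apply, lhMap_apply, map_sum]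
    refine Finset.sum_congr rfl fun i _ => ?_
    rw [← tw_prH ((hw i).restrict hF) (hm i), sub_add_cancel]
  f_r F G hF hG hFG := fun (x : ι → Hc F) => by
    change res _ _ (lhMap F (A' ∩ π ⁻¹' F) π w x) =
      lhMap G (A' ∩ π ⁻¹' G) π w fun i => res F G (x i)
    rw [lhMap_apply, lhMap_apply, map_sum]
    refine Finset.sum_congr rfl fun i _ => ?_
    rw [Lawson_res_tw ((hw i).restrict hF.subset) (hσ.cl F G hF hG hFG),
      Lawson_tw_res (hG.of_subset hFG hF.subset) ((hw i).restrict hG.subset)]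
  f_e F G U hF hG hFG hU := fun (u : ι → Hc U) => by
    change ext _ _ (lhMap U (A' ∩ π ⁻¹' U) π w u) =
      lhMap F (A' ∩ π ⁻¹' F) π w fun i => ext U F (u i)
    rw [lhMap_apply, lhMap_apply, map_sum]
    refine Finset.sum_congr rfl fun i _ => ?_
    have hO : OpenIn U F := hU ▸ (hG.of_subset hFG hF.subset).diff
    refine (LinearMap.congr_fun (tw_ext ((hw i).restrict hF.subset) hO ?_) (u i)).symm
    rw [inter_assoc, ← preimage_inter, inter_eq_right.2 hO.subset]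
  f_d F G U hF hG hFG hU := fun (b : ι → Hc G) => by
    change Lawson_del (A' ∩ π ⁻¹' F) _ _ (lhMap G (A' ∩ π ⁻¹' G) π w b) =
      lhMap U (A' ∩ π ⁻¹' U) π w fun i => Lawson_del F G U (b i)
    rw [lhMap_apply, lhMap_apply, map_sum]
    refine Finset.sum_congr rfl fun i _ => ?_
    have hUF : U ⊆ F := hU ▸ sdiff_subset
    refine Lawson_del_tw (hA.closedIn hF) (hσ.lc F hF) ((hw i).restrict hF.subset)
      (hG.of_subset hFG hF.subset) hU ?_ ?_ (b i)
    · rw [inter_assoc, ← preimage_inter, inter_eq_right.2 hFG]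
    · rw [inter_assoc, ← preimage_inter, inter_eq_right.2 hUF]

/-- Comparison in a range: bijective below `c`, injective in degree `c`. Degrees are total degrees
in `A'`. -/
theorem lh_range {ι : Type} [Fintype ι] [Nonempty ι] {A : Set Y} {A' : Set Y'} (hA : LC A)
    (hA' : LC A')
    {π : Y' → Y} {w : ι → Coch Y'} (hw : ∀ i, TwOK A A' π (w i)) {m : ι → ℤ}
    (hm : ∀ i, HomC (m i) (w i)) (c : ℤ)
    (hsurj : ∀ y ∈ A, ∀ k < c, ∀ x : Hc (A' ∩ π ⁻¹' {y}), prH _ _ k x = x →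
      ∃ z : ι → ℂ, x = ∑ i, z i • clc _ (w i))
    (hinj : ∀ y ∈ A, ∀ z : ι → ℂ, (∀ i, c < m i → z i = 0) →
      ∑ i, z i • clc (A' ∩ π ⁻¹' {y}) (w i) = 0 → z = 0) :
    (∀ k < c, ∀ x' : Hc A', prH _ _ k x' = x' →
      ∃ x : ι → Hc A, (∀ i, prH _ _ (k - m i) (x i) = x i) ∧ lhMap A A' π w x = x') ∧
    ∀ k ≤ c, ∀ x : ι → Hc A, (∀ i, prH _ _ (k - m i) (x i) = x i) → lhMap A A' π w x = 0 →
      x = 0 := by
  obtain ⟨i₀⟩ := ‹Nonempty ι›
  have hσ : Lawson_Sig A (fun F => A' ∩ π ⁻¹' F) := Lawson_sig_pre hA' (hw i₀).1 (hw i₀).2.1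
  have hpt : ∀ y ∈ A, ∀ i, w i ∈ ZZ (cc (A' ∩ π ⁻¹' {y})) (A' ∩ π ⁻¹' {y}) ∧
      tw {y} (A' ∩ π ⁻¹' {y}) π (w i) (clc {y} one) = clc _ (w i) := fun y hy i =>
    Lawson_tw_pt ((hw i).restrict (singleton_subset_iff.2 hy))
  have key := Lawson_compare (Lawson_lhHom hA hσ hw hm) c
    (fun y hy k hk (x' : Hc (A' ∩ π ⁻¹' {y})) (hx' : prH _ _ k x' = x') => by
      obtain ⟨z, hz⟩ := hsurj y hy k hk x' hx'
      refine ⟨fun i => (if m i = k then z i else 0) • clc {y} one, funext fun i => ?_, ?_⟩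
      · change prH _ _ (k - m i) ((if m i = k then z i else 0) • clc {y} one) =
          (if m i = k then z i else 0) • clc {y} one
        rw [map_smul, Lawson_prH_hom (Lawson_one_mem_pt y) HomC.one]
        by_cases h : m i = k
        · rw [if_pos h, if_pos (by omega)]
        · rw [if_neg h, zero_smul, zero_smul]
      · change lhMap {y} (A' ∩ π ⁻¹' {y}) π w
          (fun i => (if m i = k then z i else 0) • clc {y} one) = x'
        rw [lhMap_apply, ← hx', hz, map_sum]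
        refine Finset.sum_congr rfl fun i _ => ?_
        rw [map_smul, map_smul, (hpt y hy i).2, Lawson_prH_hom (hpt y hy i).1 (hm i)]
        by_cases h : m i = k
        · rw [if_pos h, if_pos h]
        · rw [if_neg h, if_neg h, zero_smul, smul_zero])
    (fun y hy k hk (x : ι → Hc ({y} : Set Y)) hx
        (h0 : lhMap {y} (A' ∩ π ⁻¹' {y}) π w x = 0) => by
      have hx' : ∀ i, prH _ _ (k - m i) (x i) = x i := fun i => congrFun hx i
      have hz : ∀ i, ∃ z : ℂ, (c < m i → z = 0) ∧ x i = z • clc {y} one := by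
        intro i
        obtain ⟨z, hz⟩ := Lawson_pt_gen y (x i)
        by_cases h : m i = k
        · exact ⟨z, fun h' => by omega, hz⟩
        · refine ⟨0, fun _ => rfl, ?_⟩
          rw [← hx' i, hz, map_smul, Lawson_prH_hom (Lawson_one_mem_pt y) HomC.one,
            if_neg (by omega), zero_smul, smul_zero]
      choose z hz1 hz2 using hz
      have : z = 0 := hinj y hy z hz1 (by
        rw [← h0, lhMap_apply]
        refine Finset.sum_congr rfl fun i _ => ?_
        rw [hz2 i, map_smul, (hpt y hy i).2])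
      funext i
      change x i = 0
      rw [hz2 i, this, Pi.zero_apply, zero_smul])
  have hAA : A' ∩ π ⁻¹' A = A' := inter_eq_left.2 (hw i₀).2.1
  have k1 : ∀ k < c, ∀ x' : Hc (A' ∩ π ⁻¹' A), prH _ _ k x' = x' →
      ∃ x : ι → Hc A, (∀ i, prH _ _ (k - m i) (x i) = x i) ∧
        lhMap A (A' ∩ π ⁻¹' A) π w x = x' := by
    intro k hk x' hx'
    obtain ⟨x, h1, h2⟩ := (key k).2 hk A (ClosedIn.refl _) x' hx'
    exact ⟨x, fun i => congrFun h1 i, h2⟩
  have k2 : ∀ k ≤ c, ∀ x : ι → Hc A, (∀ i, prH _ _ (k - m i) (x i) = x i) →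
      lhMap A (A' ∩ π ⁻¹' A) π w x = 0 → x = 0 := fun k hk x h1 h2 =>
    (key k).1 hk A (ClosedIn.refl _) x (funext h1) h2
  rw [hAA] at k1 k2
  exact ⟨k1, k2⟩

/-- Leray-Hirsch / Thom isomorphism / suspension. -/
theorem leray_hirsch {ι : Type} [Fintype ι] [Nonempty ι] {A : Set Y} {A' : Set Y'} (hA : LC A)
    (hA' : LC A')
    {π : Y' → Y} {w : ι → Coch Y'} (hw : ∀ i, TwOK A A' π (w i)) (hm : ∀ i, ∃ m, HomC m (w i))
    (hfib : ∀ y ∈ A, IsBasisOn (A' ∩ π ⁻¹' {y}) w) : Function.Bijective (lhMap A A' π w) := by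
  choose m hm using hm
  have key := fun c => lh_range hA hA' hw hm c
    (fun y hy k _ x _ => by
      obtain ⟨z, hz⟩ := (hfib y hy).2.2 x
      exact ⟨z, hz.symm⟩)
    (fun y hy z _ h0 => (hfib y hy).2.1 (by
      change ∑ i, z i • clc (A' ∩ π ⁻¹' {y}) (w i) = ∑ i, (0 : ι → ℂ) i • clc _ (w i)
      rw [h0]
      simp))
  constructor
  · rw [injective_iff_map_eq_zero]
    intro x hx
    funext i
    refine eq_zero_of_prH fun j => ?_
    have := (key (j + m i)).2 (j + m i) le_rfl (fun l => prH _ _ (j + m i - m l) (x l))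
      (fun l => by rw [prH_prH, if_pos rfl]) (by
        have h := congrArg (prH _ _ (j + m i)) hx
        rw [lhMap_apply, map_sum, map_zero] at h
        rw [lhMap_apply, ← h]
        refine Finset.sum_congr rfl fun l _ => ?_
        rw [← tw_prH (hw l) (hm l), sub_add_cancel])
    have h2 := congrFun this i
    rw [add_sub_cancel_right] at h2
    exact h2
  · intro x'
    obtain ⟨N, hN⟩ := sum_prH x'
    have : ∀ k : ℕ, ∃ x, lhMap A A' π w x = prH _ _ (k : ℤ) x' := fun k => by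
      obtain ⟨x, -, hx⟩ := (key (k + 1)).1 k (by omega) (prH _ _ (k : ℤ) x')
        (by rw [prH_prH, if_pos rfl])
      exact ⟨x, hx⟩
    choose x hx using this
    refine ⟨∑ k ∈ Finset.range N, x k, ?_⟩
    rw [map_sum]
    exact (Finset.sum_congr rfl fun k _ => hx k).trans (hN N le_rfl).symm

/-- The class `w` generates the one-dimensional space `Hc S`. -/
def IsGenOn (S : Set Y') (w : Coch Y') : Prop :=
  w ∈ ZZ (cc S) S ∧ clc S w ≠ 0 ∧ ∀ x : Hc S, ∃ z : ℂ, x = z • clc S w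

theorem thom_iso {A : Set Y} {A' : Set Y'} (hA : LC A) (hA' : LC A') {π : Y' → Y} {w : Coch Y'}
    (hw : TwOK A A' π w) {m : ℤ} (hm : HomC m w)
    (hfib : ∀ y ∈ A, IsGenOn (A' ∩ π ⁻¹' {y}) w) : Function.Bijective (tw A A' π w) := by
  have key := leray_hirsch (ι := Unit) hA hA' (w := fun _ => w) (fun _ => hw) (fun _ => ⟨m, hm⟩)
    (fun y hy => ⟨fun _ => (hfib y hy).1, by
      constructor
      · intro z z' h
        simp only [Finset.univ_unique, Finset.sum_singleton] at h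
        funext u
        exact smul_left_injective ℂ (hfib y hy).2.1 h
      · intro x
        obtain ⟨z, hz⟩ := (hfib y hy).2.2 x
        refine ⟨fun _ => z, ?_⟩
        simp only [Finset.univ_unique, Finset.sum_singleton]
        exact hz.symm⟩)
  have e : ∀ x : Unit → Hc A, lhMap A A' π (fun _ : Unit => w) x = tw A A' π w (x ()) := by
    intro x
    rw [lhMap_apply]
    simp only [Finset.univ_unique, Finset.sum_singleton]
  constructor
  · intro x x' h
    have := key.1 (a₁ := fun _ => x) (a₂ := fun _ => x') (by rw [e, e]; exact h)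
    exact congrFun this ()
  · intro x'
    obtain ⟨x, hx⟩ := key.2 x'
    exact ⟨x (), by rw [← e, hx]⟩

omit [Nice Y] [Nice Y'] in
theorem Lawson_tw_homeo {S : Set Y} {S' : Set Y'} {f : Y' → Y} {g : Y → Y'}
    (h : HomeoOn f g S' S) {w : Coch Y} (hw : w ∈ ZZ (cc S) S) {w' : Coch Y'}
    (hZ : w' ∈ ZZ (cc S') S') (hw' : w' - pb f w ∈ BB (cc S') S') :
    tw S S' f one (clc S w) = clc S' w' := by
  have h0 : pb f w [] = 0 := hw.1.1.1
  rw [tw_cls (h.properOn.twOK (one_mem_ZZ _)) hw, cup_one h0]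
  exact ((cls_eq_iff hZ (pb_mem_ZZ_cc h.properOn hw)).2 hw').symm

omit [Nice Y] [Nice Y'] in
theorem IsBasisOn.of_homeoOn {ι : Type} [Fintype ι] {S : Set Y} {S' : Set Y'} {f : Y' → Y}
    {g : Y → Y'} (h : HomeoOn f g S' S) {w : ι → Coch Y} (hw : IsBasisOn S w) {w' : ι → Coch Y'}
    (hZ : ∀ i, w' i ∈ ZZ (cc S') S') (hw' : ∀ i, w' i - pb f (w i) ∈ BB (cc S') S') :
    IsBasisOn S' w' := by
  refine ⟨hZ, ?_⟩
  have : (fun z : ι → ℂ => ∑ i, z i • clc S' (w' i)) =
      tw S S' f one ∘ fun z : ι → ℂ => ∑ i, z i • clc S (w i) := by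
    funext z
    rw [Function.comp_apply, map_sum]
    refine Finset.sum_congr rfl fun i _ => ?_
    rw [map_smul, Lawson_tw_homeo h (hw.1 i) (hZ i) (hw' i)]
  rw [this]
  exact h.tw_bijective.comp hw.2

omit [Nice Y] [Nice Y'] in
theorem Lawson_gen_map {S : Set Y} {S' : Set Y'} {L : Hc S →ₗ[ℂ] Hc S'}
    (hb : Function.Bijective L) {w : Coch Y} (hw : IsGenOn S w) {w' : Coch Y'}
    (hZ : w' ∈ ZZ (cc S') S') (h : L (clc S w) = clc S' w') : IsGenOn S' w' := by
  refine ⟨hZ, fun h0 => hw.2.1 (hb.1 ?_), fun x' => ?_⟩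
  · rw [h, h0, map_zero]
  · obtain ⟨x, rfl⟩ := hb.2 x'
    obtain ⟨z, rfl⟩ := hw.2.2 x
    exact ⟨z, by rw [map_smul, h]⟩

omit [Nice Y] [Nice Y'] in
theorem IsGenOn.of_homeoOn {S : Set Y} {S' : Set Y'} {f : Y' → Y} {g : Y → Y'}
    (h : HomeoOn f g S' S) {w : Coch Y} (hw : IsGenOn S w) {w' : Coch Y'}
    (hZ : w' ∈ ZZ (cc S') S') (hw' : w' - pb f w ∈ BB (cc S') S') : IsGenOn S' w' :=
  Lawson_gen_map h.tw_bijective hw hZ (Lawson_tw_homeo h hw.1 hZ hw')

omit [Nice Y] in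
theorem isGenOn_point (y : Y) : IsGenOn ({y} : Set Y) one := by
  refine ⟨Lawson_one_mem_pt y, fun h => ?_, Lawson_pt_gen y⟩
  rw [cls_eq_zero_iff (Lawson_one_mem_pt y)] at h
  have := deg_zero_of_mem_BB h y rfl
  simp [one] at this

/-- The image of a generator under a Thom isomorphism is a generator. -/
theorem IsGenOn.tw {A : Set Y} {A' : Set Y'} {π : Y' → Y} {w : Coch Y'} (hw : TwOK A A' π w)
    (hb : Function.Bijective (tw A A' π w)) {a : Coch Y} (ha : IsGenOn A a) :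
    IsGenOn A' (cup (pb π a) w) :=
  Lawson_gen_map hb ha (hw.mem_ZZ ha.1) (tw_cls hw ha.1)

/-- A proper bijection induces an isomorphism. -/
theorem ProperOn.tw_bijective {A : Set Y} {A' : Set Y'} (hA : LC A) {π : Y' → Y}
    (h : ProperOn π A' A) (hb : BijOn π A' A) : Function.Bijective (tw A A' π one) := by
  rcases isEmpty_or_nonempty Y' with hY | hY
  · have h1 : A' = ∅ := eq_empty_of_isEmpty _
    have h2 : A = ∅ := by rw [← hb.image_eq, h1, image_empty]
    subst h1 h2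
    exact ⟨fun _ _ _ => Subsingleton.elim _ _, fun x => ⟨0, Subsingleton.elim _ _⟩⟩
  · obtain ⟨g, hg⟩ := h.exists_homeoOn hA hb
    exact hg.tw_bijective

end Pool.Agent.HK
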