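import Pool.Agent.P.MP_1206ce_ag.AS.PD_Cone

/-! Poincare duality for locally Euclidean spaces with a locally nonzero functional.
The mapping cone of the duality map is exact over convex charts, hence over every open subset. -/

open scoped Topology
open Filter Set

noncomputable section

namespace Pool.Agent.HK

variable {Y : Type} [TopologicalSpace Y] [Nice Y]

/-- A generator of the compactly supported cohomology of a chart, seen in `A`. -/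
theorem PD_gen {A O : Set Y} {φ : EE A} (hln : LN A φ) (hO : OpenIn O A) {D' : ℕ}
    (hc : ConvChart D' O) (hne : O.Nonempty) :
    ∃ a₀ ∈ ZZ (cc A) A, supp A a₀ ⊆ O ∧ φ (clc A a₀) ≠ 0 ∧ ∀ a ∈ PD_Cc A O, dd a ∈ N0 A →
      ∃ t : ℂ, ∃ e ∈ PD_Cc A O, a - t • a₀ - dd e ∈ N0 A := by
  obtain ⟨w, -, -, -, h1⟩ := hc.exists_gen hne
  obtain ⟨a₀, h2, h3, h4, h5, h6⟩ := exists_ext_cls hO (clc O w)
  refine ⟨a₀, h2, h3, fun h0 => hln O hO hne (LinearMap.ext fun x => ?_), fun a ha hd => ?_⟩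
  · obtain ⟨z, rfl⟩ := h1 x
    rw [map_smul, LinearMap.comp_apply, h6, h0, smul_zero, LinearMap.zero_apply]
  have h7 : a ∈ ZZ (cc O) O := Tw_ZZ_of_supp hO ⟨ha.1, hd⟩ ha.2
  obtain ⟨t, ht⟩ := h1 (clc O a)
  rw [h5, clc, clc, ← cls_smul t h4, cls_eq_iff h7 (Submodule.smul_mem _ t h4)] at ht
  obtain ⟨e, k1, k2⟩ := ht
  obtain ⟨e', k3, k4, -, k5, -⟩ := exists_ext_rep hO k1
  have k6 : e' ∈ PD_Cc A O := ⟨k3, k4 ▸ supp_subset O e⟩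
  refine ⟨t, e', k6, PD_N0_of hO ?_ ?_⟩
  · have k7 := sub_mem k2 (Tw_dd_N0 k5)
    rwa [dd_sub, sub_sub, add_sub_cancel] at k7
  · exact (sub_mem (sub_mem ha (Submodule.smul_mem _ t (⟨h2.1, h3⟩ : a₀ ∈ PD_Cc A O)))
      (PD_Cc_of k6 k3.1.dd (supp_dd A e'))).2

omit [TopologicalSpace Y] [Nice Y] in
theorem PD_prC_one_dd (k : ℤ) : dd (prC k (one : Coch Y)) = 0 := by
  rw [← prC_dd, dd_one, (HomC.zero _).prC_self]

omit [Nice Y] in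
theorem PD_one_val {A : Set Y} {D k : ℤ} {Φ : Coch Y →ₗ[ℂ] ℂ} (hF : PD_F A D Φ) {a : Coch Y}
    (ha : a [] = 0) : Φ (cup a (prC k one)) = Φ (prC (D - k) a) := by
  by_cases hk : k = 0
  · rw [hk, HomC.one.prC_self, cup_one ha, sub_zero, hF.2]
  · rw [HomC.one.prC_ne hk, cup_zero, ← hF.2 (prC (D - k) a),
      (HomC.prC (D - k) a).prC_ne (by omega)]

omit [Nice Y] in
/-- First step on a chart: the cochain component is exact. -/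
theorem PD_local_w {A O : Set Y} {D k : ℤ} {Φ : Coch Y →ₗ[ℂ] ℂ} (hF : PD_F A D Φ)
    (hd : ∀ a ∈ CC (cc A) A, Φ (dd a) = 0) (hO : OpenIn O A) (hac : AcycBelow (k + 2) O)
    {a₀ : Coch Y} (h1 : a₀ ∈ ZZ (cc A) A) (h2 : supp A a₀ ⊆ O) (h3 : Φ a₀ ≠ 0) {m : PD_G Y}
    (hm : m ∈ PD_M A D (k + 1)) (hdm : PD_d Φ m ∈ PD_N A O) :
    ∃ e : Coch Y, HomC k e ∧ e [] = 0 ∧ m.1 - dd e ∈ N0 O := by
  obtain ⟨z, e, k1, k2⟩ := hac.2 (k + 1) (by omega) m.1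
    ⟨mem_CC_bot.2 (PD_bdd hm.1 hm.2.1), hdm.1⟩ hm.1
  have k3 : m.1 - z • prC (k + 1) one - dd (prC k e) ∈ N0 O := by
    have k4 := Basic_prC_mem_N0 (k + 1) k2
    have k5 : prC (k + 1) (z • (one : Coch Y)) = z • prC (k + 1) one :=
      (Basic_prL Y (k + 1)).map_smul z one
    rwa [Basic_prC_sub, Basic_prC_sub, hm.1.prC_self, prC_dd, k5] at k4
  refine ⟨prC k e, HomC.prC k e, (k1.1.prC k).1, ?_⟩
  by_cases hk : k + 1 = 0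
  · have k4 : PD_S Y a₀ ∈ N0 A := PD_S_N0.2 h1.2
    have k5 := hdm.2 a₀ ⟨h1.1, h2⟩
    rw [PD_d_snd, hm.2.2.1 _ k4, add_zero] at k5
    have k6 := PD_leib hd h1.1 (k1.1.prC k)
    rw [hF.1 _ (Tw_cup_N0_left k4 _), add_zero] at k6
    have k7 := hF.1 _ (PD_cup_N0 hO h2 k3)
    rw [cup_sub, cup_sub, cup_smul, map_sub, map_sub, map_smul, k5, k6, hk, HomC.one.prC_self,
      cup_one h1.1.1.1, zero_sub, sub_zero, neg_eq_zero, smul_eq_zero] at k7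
    rwa [k7.resolve_right h3, zero_smul, sub_zero] at k3
  · rwa [HomC.one.prC_ne hk, smul_zero, sub_zero] at k3

theorem PD_local {A : Set Y} {φ : EE A} {D : ℤ} (hln : LN A φ) {Φ : Coch Y →ₗ[ℂ] ℂ}
    (hF : PD_F A D Φ) (hΦ : ∀ a ∈ ZZ (cc A) A, Φ a = φ (clc A a)) (D' : ℕ) (O : Set Y)
    (hO : OpenIn O A) (hc : ConvChart D' O) : (PD_sys hF (PD_lift_dd hΦ)).Acyc O := by
  rcases O.eq_empty_or_nonempty with rfl | hne
  · exact PD_acyc_empty _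
  have hd := PD_lift_dd hΦ
  obtain ⟨a₀, h1, h2, h3, h4⟩ := PD_gen hln hO hc hne
  rw [← hΦ _ h1] at h3
  intro k m hm hdm
  have hac : AcycBelow (k + 2) O := by
    obtain ⟨C, f, g, k1, k2, k3⟩ := hc
    obtain ⟨y, hy⟩ := hne
    exact (acycBelow_convex _ k1 (Chart_lc_open k2) ⟨f y, k3.2.2.1 hy⟩).of_homeoOn k3
  obtain ⟨e, e1, e2, e3⟩ := PD_local_w hF hd hO hac h1 h2 h3 hm hdm
  have hj : D - (k + 1) + 1 = D - k := by ring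
  have k1 : PD_F A (D - k) (m.2 - PD_T Φ e) := by
    rw [sub_eq_add_neg]
    exact (hj ▸ hm.2.2).add (hF.T e1).neg
  have k2 : ∀ a ∈ PD_Cc A O, (m.2 - PD_T Φ e) (dd a) = 0 := by
    intro a ha
    have ha' := PD_Cc_sg ha
    have k3 := hdm.2 _ ha'
    have k4 := PD_leib hd ha'.1 (PD_bdd e1 e2)
    have k5 := hF.1 _ (PD_cup_N0 hO ha'.2 e3)
    change Φ (cup (sgC a) m.1) + m.2 (PD_S Y (sgC a)) = 0 at k3
    rw [PD_S_sg] at k3 k4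
    rw [cup_sub, map_sub] at k5
    rw [LinearMap.sub_apply, PD_T_apply]
    linear_combination k3 - k4 - k5
  obtain ⟨c, hc⟩ : ∃ c : ℂ, (m.2 - PD_T Φ e) a₀ = c * Φ a₀ :=
    ⟨_, (div_mul_cancel₀ _ h3).symm⟩
  have k3 : ∀ a ∈ PD_Cc A O, dd a ∈ N0 A → (m.2 - PD_T Φ e) a = c * Φ a := by
    intro a ha hda
    obtain ⟨t, b, hb, k4⟩ := h4 a ha hda
    have k5 := k1.1 _ k4
    have k6 := hF.1 _ k4
    rw [map_sub, map_sub, map_smul, k2 b hb, hc, smul_eq_mul] at k5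
    rw [map_sub, map_sub, map_smul, hd b hb.1, smul_eq_mul] at k6
    linear_combination k5 - c * k6
  have u1 : HomC k (c • prC k (one : Coch Y)) := (HomC.prC k one).smul c
  have k4 : PD_F A (D - k) (m.2 - PD_T Φ e - PD_T Φ (c • prC k one)) := by
    rw [sub_eq_add_neg]
    exact k1.add (hF.T u1).neg
  obtain ⟨Θ, k5, k6⟩ := PD_prim (A := A) (O := O) k4.2 fun a ha hda => by
    have k7 := k3 _ (PD_Cc_prC (D - k) ha) (by rw [← prC_dd]; exact Basic_prC_mem_N0 _ hda)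
    rw [k1.2] at k7
    rw [LinearMap.sub_apply, k7, PD_T_apply, cup_smul, map_smul, PD_one_val hF ha.1.1.1,
      smul_eq_mul, sub_self]
  refine ⟨(e + c • prC k one, Θ), ⟨e1.add u1, ?_, k5⟩, ?_, fun a ha => ?_⟩
  · change e [] + (c • prC k (one : Coch Y)) [] = 0
    rw [e2, ((Bdd.one.prC k).smul c).1, add_zero]
  · change m.1 - dd (e + c • prC k one) ∈ N0 O
    rwa [dd_add, dd_smul, PD_prC_one_dd, smul_zero, add_zero]
  · change m.2 a - (Φ (cup a (e + c • prC k one)) + Θ (PD_S Y a)) = 0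
    rw [k6 a ha, cup_add, map_add, LinearMap.sub_apply, LinearMap.sub_apply, PD_T_apply,
      PD_T_apply]
    ring

theorem PD_main {A : Set Y} (hE : LocEuc A) {φ : EE A} {D : ℤ} (hln : LN A φ)
    {Φ : Coch Y →ₗ[ℂ] ℂ} (hF : PD_F A D Φ) (hΦ : ∀ a ∈ ZZ (cc A) A, Φ a = φ (clc A a)) (k : ℤ)
    {w : Coch Y} {Ψ : Coch Y →ₗ[ℂ] ℂ} (h1 : HomC (k + 1) w) (h2 : w [] = 0)
    (h3 : PD_F A (D - k) Ψ) (h4 : dd w ∈ N0 A)
    (h5 : ∀ a ∈ PD_Cc A A, Φ (cup a w) + Ψ (PD_S Y a) = 0) :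
    ∃ (e : Coch Y) (Θ : Coch Y →ₗ[ℂ] ℂ), HomC k e ∧ e [] = 0 ∧ (∀ a ∈ N0 A, Θ a = 0) ∧
      w - dd e ∈ N0 A ∧ ∀ a ∈ PD_Cc A A, Ψ a = Φ (cup a e) + Θ (PD_S Y a) := by
  have hj : D - k = D - (k + 1) + 1 := by ring
  obtain ⟨e, k1, k2⟩ := PD_acyc_all _ hE (PD_local hln hF hΦ) k (w, Ψ) ⟨h1, h2, hj ▸ h3⟩ ⟨h4, h5⟩
  exact ⟨e.1, e.2, k1.1, k1.2.1, k1.2.2.1, k2.1, fun a ha => sub_eq_zero.1 (k2.2 a ha)⟩

omit [Nice Y] in
theorem PD_tw {A : Set Y} {φ : EE A} {Φ : Coch Y →ₗ[ℂ] ℂ}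
    (hΦ : ∀ a ∈ ZZ (cc A) A, Φ a = φ (clc A a)) {w a : Coch Y} (hw : w ∈ ZZ ⊥ A)
    (ha : a ∈ ZZ (cc A) A) : (φ ∘ₗ tw A A id w) (clc A a) = Φ (cup a w) := by
  have h1 := (ClosedIn.refl A).properOn.twOK hw
  have h2 := h1.mem_ZZ ha
  rw [LinearMap.comp_apply, tw_cls h1 ha, ← hΦ _ h2, pb_id]

theorem pd_surj {A : Set Y} (hE : LocEuc A) {φ : EE A} {D : ℤ} (hφ : EDeg A D φ) (hln : LN A φ)
    {j : ℤ} {ψ : EE A} (hψ : EDeg A j ψ) :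
    ∃ w ∈ ZZ ⊥ A, HomC (D - j) w ∧ ψ = φ ∘ₗ tw A A id w := by
  obtain ⟨Φ, hF, hΦ⟩ := PD_lift hφ
  obtain ⟨Ψ, hG, hΨ⟩ := PD_lift hψ
  obtain ⟨e, Θ, h1, h2, h3, h4, h5⟩ := PD_main hE hln hF hΦ (D - j) (w := 0) (Ψ := Ψ)
    (HomC.zero _) rfl (by rwa [sub_sub_cancel]) (by rw [dd_zero]; exact zero_mem _) fun a ha => by
      rw [cup_zero, map_zero, zero_add]
      exact PD_lift_dd hΨ _ (PD_Cc_sg ha).1
  rw [zero_sub, neg_mem_iff] at h4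
  have h6 : e ∈ ZZ ⊥ A := ⟨mem_CC_bot.2 (PD_bdd h1 h2), h4⟩
  refine ⟨e, h6, h1, Tw_ext fun a ha => ?_⟩
  rw [PD_tw hΦ h6 ha, ← hΨ a ha, h5 a ⟨ha.1, supp_subset A a⟩, h3 _ (PD_S_N0.2 ha.2), add_zero]

theorem pd_inj {A : Set Y} (hE : LocEuc A) {φ : EE A} {D : ℤ} (hφ : EDeg A D φ) (hln : LN A φ)
    {w : Coch Y} (hw : w ∈ ZZ ⊥ A) (h0 : φ ∘ₗ tw A A id w = 0) : w ∈ BB ⊥ A := by
  obtain ⟨Φ, hF, hΦ⟩ := PD_lift hφ
  obtain ⟨N, hN⟩ := hw.1.1.sum_prC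
  rw [hN N le_rfl]
  refine Submodule.sum_mem _ fun k _ => ?_
  have h1 := prC_mem_ZZ (k : ℤ) hw
  have h2 := (hF.T (HomC.prC k w)).neg
  obtain ⟨Ψ, k1, k2⟩ := PD_prim (A := A) (O := A) h2.2 fun a ha hda => by
    have k3 := PD_tw hΦ hw (prC_mem_ZZ (D - k) ⟨ha.1, hda⟩)
    rw [h0, LinearMap.zero_apply, ← hF.2, ← sub_add_cancel D k, add_sub_cancel_right,
      PD_prC_cup_left _ _ (HomC.prC _ a)] at k3
    rw [← h2.2, LinearMap.neg_apply, PD_T_apply, ← k3, neg_zero]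
  obtain ⟨e, Θ, k3, k4, -, k5, -⟩ := PD_main hE hln hF hΦ (k - 1) (w := prC k w) (Ψ := Ψ)
    (by rw [sub_add_cancel]; exact HomC.prC k w) h1.1.1.1
    (by rwa [show D - (k - 1) = D - k + 1 by ring]) h1.2 fun a ha => by
      rw [k2 a ha, LinearMap.neg_apply, PD_T_apply, add_neg_cancel]
  exact ⟨e, mem_CC_bot.2 (PD_bdd k3 k4), k5⟩

theorem pd_top {A : Set Y} (hE : LocEuc A) {φ : EE A} {D : ℤ} (hφ : EDeg A D φ) (hln : LN A φ)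
    {k : ℤ} (hk : D < k) : prH _ A k = (0 : Hc A →ₗ[ℂ] Hc A) := by
  have h1 : ∀ (D' : ℕ) O, OpenIn O A → O.Nonempty → ConvChart D' O → (D' : ℤ) = D := by
    intro D' O hO hne hc
    obtain ⟨w, k1, k2, -, k3⟩ := hc.exists_gen hne
    by_contra hn
    refine hln O hO hne (LinearMap.ext fun x => ?_)
    obtain ⟨z, rfl⟩ := k3 x
    rw [map_smul, ← Dual_apply (hφ.ext hO), prH_cls D k2, k1.prC_ne (Ne.symm hn), Basic_cls_zero,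
      map_zero, smul_zero, LinearMap.zero_apply]
  rcases A.eq_empty_or_nonempty with rfl | ⟨y, hy⟩
  · exact LinearMap.ext fun x => Subsingleton.elim _ _
  obtain ⟨D₀, O, k1, k2, k3⟩ := hE y hy
  have h2 := h1 D₀ O k1 ⟨y, k2⟩ k3
  refine LocEucLE.prH_eq_zero (D := D₀) (fun y' hy' => ?_) (h2 ▸ hk)
  obtain ⟨D', O', l1, l2, l3⟩ := hE y' hy'
  have h3 := h1 D' O' l1 ⟨y', l2⟩ l3
  exact ⟨D', by omega, O', l1, l2, l3⟩

end Pool.Agent.HK
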