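import Pool.Agent.P.MP_1206ce_ag.AS.Dual

/-! Bootstrap over open subsets for an abstract complex of flabby sheaves. -/

open scoped Topology
open Filter Set

noncomputable section

namespace Pool.Agent.HK

variable {Y : Type} [TopologicalSpace Y]

/-- A complex of global elements with the subgroups of elements vanishing on open subsets. -/
structure PD_Sys (A : Set Y) (G : Type) [AddCommGroup G] where
  M : ℤ → AddSubgroup G
  N : Set Y → AddSubgroup G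
  d : G →+ G
  d_M : ∀ k, ∀ m ∈ M k, d m ∈ M (k + 1)
  d_N : ∀ O, OpenIn O A → ∀ m ∈ N O, d m ∈ N O
  dd_N : ∀ k O, ∀ m ∈ M k, d (d m) ∈ N O
  anti : ∀ O O', O ⊆ O' → ∀ m ∈ N O', m ∈ N O
  emp : ∀ k, ∀ m ∈ M k, m ∈ N ∅
  loc2 : ∀ U V, OpenIn U A → OpenIn V A → ∀ m, m ∈ N U → m ∈ N V → m ∈ N (U ∪ V)
  split2 : ∀ k U V, OpenIn U A → OpenIn V A → ∀ m ∈ M k, m ∈ N (U ∩ V) →
    ∃ n ∈ M k, n ∈ N U ∧ m - n ∈ N V
  locw : ∀ O : ℕ → Set Y, (∀ n, OpenIn (O n) A) → Monotone O → ∀ m, (∀ n, m ∈ N (O n)) →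
    m ∈ N (⋃ n, O n)
  gluew : ∀ k (O : ℕ → Set Y), (∀ n, OpenIn (O n) A) → Monotone O → ∀ m : ℕ → G,
    (∀ n, m n ∈ M k) → (∀ n, m (n + 1) - m n ∈ N (O n)) → ∃ e ∈ M k, ∀ n, e - m n ∈ N (O n)

variable {A : Set Y} {G : Type} [AddCommGroup G]

/-- Exactness over `O`. -/
def PD_Sys.Acyc (S : PD_Sys A G) (O : Set Y) : Prop :=
  ∀ k, ∀ m ∈ S.M (k + 1), S.d m ∈ S.N O → ∃ e ∈ S.M k, m - S.d e ∈ S.N O

theorem PD_acyc_empty (S : PD_Sys A G) : S.Acyc ∅ := fun k m hm _ =>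
  ⟨0, zero_mem _, by rw [map_zero, sub_zero]; exact S.emp _ m hm⟩

theorem PD_acyc_step (S : PD_Sys A G) {W V : Set Y} (hWV : W ⊆ V) (hW : S.Acyc W) {k : ℤ}
    {m e e' : G} (he : e ∈ S.M k) (he' : e' ∈ S.M k) (h : m - S.d e ∈ S.N W)
    (h' : m - S.d e' ∈ S.N V) : ∃ e'' ∈ S.M k, m - S.d e'' ∈ S.N V ∧ e'' - e ∈ S.N W := by
  have h1 : S.d (e' - e) ∈ S.N W := by
    have h2 := sub_mem h (S.anti _ _ hWV _ h')
    rw [map_sub]
    convert h2 using 1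
    abel
  have h3 : e' - e ∈ S.M (k - 1 + 1) := by rw [sub_add_cancel]; exact sub_mem he' he
  obtain ⟨g, hg, h4⟩ := hW (k - 1) _ h3 h1
  have h5 : S.d g ∈ S.M k := by simpa using S.d_M _ g hg
  refine ⟨e' - S.d g, sub_mem he' h5, ?_, ?_⟩
  · have h6 := add_mem h' (S.dd_N _ V g hg)
    rw [map_sub]
    convert h6 using 1
    abel
  · convert h4 using 1
    abel

theorem PD_acyc_union (S : PD_Sys A G) {U V : Set Y} (hU : OpenIn U A) (hV : OpenIn V A)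
    (h1 : S.Acyc U) (h2 : S.Acyc V) (h3 : S.Acyc (U ∩ V)) : S.Acyc (U ∪ V) := by
  intro k m hm hd
  obtain ⟨e, he, k1⟩ := h1 k m hm (S.anti _ _ subset_union_left _ hd)
  obtain ⟨e', he', k2⟩ := h2 k m hm (S.anti _ _ subset_union_right _ hd)
  obtain ⟨e'', he'', k3, k4⟩ := PD_acyc_step S inter_subset_right h3 he he'
    (S.anti _ _ inter_subset_left _ k1) k2
  obtain ⟨n, hn, k5, k6⟩ := S.split2 k U V hU hV _ (sub_mem he'' he) k4
  refine ⟨e + n, add_mem he hn, S.loc2 U V hU hV _ ?_ ?_⟩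
  · have h6 := sub_mem k1 (S.d_N U hU _ k5)
    rw [map_add]
    convert h6 using 1
    abel
  · have h6 := add_mem k3 (S.d_N V hV _ k6)
    rw [map_sub, map_sub] at h6
    rw [map_add]
    convert h6 using 1
    abel

theorem PD_acyc_seq (S : PD_Sys A G) (O : ℕ → Set Y) (hO : ∀ n, OpenIn (O n) A)
    (hm : Monotone O) (h : ∀ n, S.Acyc (O n)) : S.Acyc (⋃ n, O n) := by
  intro k m hk hd
  have h1 : ∀ n, ∃ e ∈ S.M k, m - S.d e ∈ S.N (O n) := fun n =>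
    h n k m hk (S.anti _ _ (subset_iUnion O n) _ hd)
  have h2 : ∀ n (e : {e // e ∈ S.M k ∧ m - S.d e ∈ S.N (O n)}),
      ∃ e' : {e // e ∈ S.M k ∧ m - S.d e ∈ S.N (O (n + 1))}, e'.1 - e.1 ∈ S.N (O n) := by
    intro n e
    obtain ⟨e', he', k1⟩ := h1 (n + 1)
    obtain ⟨e'', k2, k3, k4⟩ := PD_acyc_step S (hm (Nat.le_succ n)) (h n) e.2.1 he' e.2.2 k1
    exact ⟨⟨e'', k2, k3⟩, k4⟩
  choose f hf using h2
  obtain ⟨e0, k0, k0'⟩ := h1 0
  let s : ∀ n, {e // e ∈ S.M k ∧ m - S.d e ∈ S.N (O n)} := fun n =>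
    Nat.rec (motive := fun n => {e // e ∈ S.M k ∧ m - S.d e ∈ S.N (O n)}) ⟨e0, k0, k0'⟩
      (fun n e => f n e) n
  obtain ⟨e, he, k1⟩ := S.gluew k O hO hm (fun n => (s n).1) (fun n => (s n).2.1)
    fun n => hf n (s n)
  refine ⟨e, he, S.locw O hO hm _ fun n => ?_⟩
  have h6 := sub_mem (s n).2.2 (S.d_N _ (hO n) _ (k1 n))
  rw [map_sub] at h6
  convert h6 using 1
  abel

theorem PD_openIn_iUnion {ι : Sort*} {O : ι → Set Y} (hO : ∀ i, OpenIn (O i) A) :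
    OpenIn (⋃ i, O i) A := by
  choose V hV hOV using hO
  refine ⟨⋃ i, V i, isOpen_iUnion hV, ?_⟩
  rw [inter_iUnion]
  exact iUnion_congr hOV

theorem PD_openIn_nhds {O : Set Y} (hO : OpenIn O A) {y : Y} (hy : y ∈ O) : O ∈ 𝓝[A] y := by
  obtain ⟨V, hV, rfl⟩ := hO
  exact inter_mem_nhdsWithin A (hV.mem_nhds hy.2)

theorem PD_acyc_fin (S : PD_Sys A G) (T : Set (Set Y)) (hT : ∀ B ∈ T, ∀ B' ∈ T, B ∩ B' ∈ T)
    (ho : ∀ B ∈ T, OpenIn B A) (hv : ∀ B ∈ T, S.Acyc B) (n : ℕ) :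
    ∀ B : ℕ → Set Y, (∀ i, B i ∈ T) → S.Acyc (⋃ i < n, B i) := by
  induction n with
  | zero =>
    intro B _
    have h1 : ⋃ i < 0, B i = ∅ := by simp
    rw [h1]
    exact PD_acyc_empty S
  | succ n ih =>
    intro B hB
    rw [biUnion_lt_succ]
    refine PD_acyc_union S (PD_openIn_iUnion fun i => PD_openIn_iUnion fun _ => ho _ (hB i))
      (ho _ (hB n)) (ih B hB) (hv _ (hB n)) ?_
    rw [iUnion₂_inter]
    exact ih (fun i => B i ∩ B n) fun i => hT _ (hB i) _ (hB n)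

theorem PD_acyc_cover [Nice Y] (S : PD_Sys A G) (T : Set (Set Y))
    (hT : ∀ B ∈ T, ∀ B' ∈ T, B ∩ B' ∈ T) (ho : ∀ B ∈ T, OpenIn B A) (hv : ∀ B ∈ T, S.Acyc B)
    {O : Set Y} (hOA : O ⊆ A) (hs : ∀ B ∈ T, B ⊆ O) (hc : ∀ y ∈ O, ∃ B ∈ T, y ∈ B) :
    S.Acyc O := by
  rcases O.eq_empty_or_nonempty with rfl | ⟨y0, hy0⟩
  · exact PD_acyc_empty S
  have h1 : ∀ y, ∃ B ∈ T, y ∈ O → y ∈ B := fun y => by
    by_cases hy : y ∈ O
    · obtain ⟨B, h1, h2⟩ := hc y hy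
      exact ⟨B, h1, fun _ => h2⟩
    · obtain ⟨B, h1, -⟩ := hc y0 hy0
      exact ⟨B, h1, fun h => (hy h).elim⟩
  choose f hf hf' using h1
  obtain ⟨t, -, htc, ht⟩ := TopologicalSpace.countable_cover_nhdsWithin (f := f) (s := O)
    fun y hy => nhdsWithin_mono y hOA (PD_openIn_nhds (ho _ (hf y)) (hf' y hy))
  obtain ⟨g, hg⟩ := (htc.insert y0).exists_eq_range (insert_nonempty _ _)
  have h2 : O = ⋃ n : ℕ, ⋃ i < n, f (g i) := by
    refine Subset.antisymm (fun y hy => ?_) (iUnion_subset fun n => iUnion₂_subset fun i _ =>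
      hs _ (hf _))
    obtain ⟨x, hx, hyx⟩ := mem_iUnion₂.1 (ht hy)
    obtain ⟨i, rfl⟩ : x ∈ range g := hg ▸ mem_insert_of_mem _ hx
    exact mem_iUnion.2 ⟨i + 1, mem_iUnion₂.2 ⟨i, Nat.lt_succ_self i, hyx⟩⟩
  rw [h2]
  refine PD_acyc_seq S _ (fun n => PD_openIn_iUnion fun i => PD_openIn_iUnion fun _ =>
    ho _ (hf _)) (fun n n' hn => biUnion_subset_biUnion_left fun i hi => lt_of_lt_of_le hi hn)
    fun n => PD_acyc_fin S T hT ho hv n _ fun i => hf _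

theorem PD_acyc_all [Nice Y] (S : PD_Sys A G) (hE : LocEuc A)
    (h : ∀ D O, OpenIn O A → ConvChart D O → S.Acyc O) : S.Acyc A := by
  refine PD_acyc_cover S {O' | ∃ D O, OpenIn O A ∧ ConvChart D O ∧ OpenIn O' O} ?_ ?_ ?_
    Subset.rfl ?_ ?_
  · rintro B ⟨D, O, h1, h2, h3⟩ B' ⟨D', O', k1, -, k3⟩
    refine ⟨D, O, h1, h2, ?_⟩
    exact (Chart_openIn_inter (h3.trans h1) (k3.trans k1)).of_subset
      (inter_subset_left.trans h3.subset) h1.subset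
  · rintro B ⟨D, O, h1, -, h3⟩
    exact h3.trans h1
  · rintro O' ⟨D, O, h1, ⟨C, f, g, -, ho, hh⟩, h3⟩
    have h4 : ∀ B, IsOpen B → B ⊆ C → OpenIn (O ∩ f ⁻¹' B) A := fun B hB hBC =>
      ((Chart_openIn_of_isOpen hB hBC).preimage hh.1 hh.2.2.1).trans h1
    refine PD_acyc_cover S {W | W ⊆ O' ∧ ∃ B, Convex ℝ B ∧ IsOpen B ∧ B ⊆ C ∧ W = O ∩ f ⁻¹' B}
      ?_ ?_ ?_ (h3.trans h1).subset (fun B hB => hB.1) ?_
    · rintro _ ⟨k0, B, k1, k2, k3, rfl⟩ _ ⟨-, B', l1, l2, -, rfl⟩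
      refine ⟨inter_subset_left.trans k0, B ∩ B', k1.inter l1, k2.inter l2,
        inter_subset_left.trans k3, ?_⟩
      rw [preimage_inter, ← inter_inter_distrib_left]
    · rintro _ ⟨-, B, -, k2, k3, rfl⟩
      exact h4 B k2 k3
    · rintro _ ⟨-, B, k1, k2, k3, rfl⟩
      exact h D _ (h4 B k2 k3) ⟨B, f, g, k1, k2, hh.restrict k3⟩
    · intro y hy
      obtain ⟨V, hV, rfl⟩ := h3
      obtain ⟨B, k1, k2, k3, k4, k5⟩ := Chart_small ho hh hV hy.1 hy.2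
      exact ⟨_, ⟨subset_inter inter_subset_left k5, B, k1, k2, k3, rfl⟩, hy.1, k4⟩
  · rintro B ⟨D, O, h1, -, h3⟩
    exact (h3.trans h1).subset
  · intro y hy
    obtain ⟨D, O, h1, h2, h3⟩ := hE y hy
    exact ⟨O, ⟨D, O, h1, h3, OpenIn.refl O⟩, h2⟩

/-- Separation of the two differences of open subsets. -/
theorem PD_sep [Nice Y] {U V : Set Y} (hU : OpenIn U A) (hV : OpenIn V A) :
    ∃ W, IsOpen W ∧ U \ V ⊆ W ∧ ∀ y ∈ closure W, y ∈ V → y ∈ U := by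
  obtain ⟨U', hU', rfl⟩ := hU
  obtain ⟨V', hV', rfl⟩ := hV
  have h1 : ∀ {P Q : Set Y}, IsOpen Q →
      Disjoint (closure ((A ∩ P) \ (A ∩ Q))) ((A ∩ Q) \ (A ∩ P)) := by
    intro P Q hQ
    have h2 : closure ((A ∩ P) \ (A ∩ Q)) ⊆ Qᶜ :=
      closure_minimal (fun y hy hq => hy.2 ⟨hy.1.1, hq⟩) hQ.isClosed_compl
    exact disjoint_left.2 fun y hy hy' => h2 hy hy'.1.2
  obtain ⟨W, W', k1, k2, k3, k4, k5⟩ :=
    separatedNhds_iff_disjoint.2 (completely_normal (h1 hV') (h1 hU').symm)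
  refine ⟨W, k1, k3, fun y hy hyV => by_contra fun hn => ?_⟩
  exact disjoint_left.1 (k5.closure_left k2) hy (k4 ⟨hyV, hn⟩)

/-- A selector for an increasing sequence of open subsets. -/
theorem PD_sel [Nice Y] (O : ℕ → Set Y) (hO : ∀ n, OpenIn (O n) A) (hm : Monotone O) :
    ∃ σ : Y → ℕ, ∀ y ∈ ⋃ n, O n, ∃ p, ∀ᶠ z in 𝓝 y, σ z ≤ p ∧ y ∈ O (σ z) := by
  classical
  let := TopologicalSpace.metrizableSpaceMetric Y
  let F : ℕ → Set Y := fun n => {y | Metric.ball y (1 / ((n : ℝ) + 1)) ∩ A ⊆ O n}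
  have hF : ∀ n, IsClosed (F n) := fun n => by
    rw [← closure_subset_iff_isClosed]
    intro y hy z hz
    have h1 : 0 < 1 / ((n : ℝ) + 1) - dist z y := sub_pos.2 hz.1
    obtain ⟨y', h2, h3⟩ := Metric.mem_closure_iff.1 hy _ h1
    refine h2 ⟨?_, hz.2⟩
    have h4 := dist_triangle z y y'
    rw [Metric.mem_ball]
    linarith
  refine ⟨fun z => if h : ∃ n, z ∈ F n then Nat.find h else 0, fun y hy => ?_⟩
  obtain ⟨m, hym⟩ := mem_iUnion.1 hy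
  have hyA : y ∈ A := (hO m).subset hym
  obtain ⟨ε, hε, h1⟩ := Metric.mem_nhdsWithin_iff.1 (PD_openIn_nhds (hO m) hym)
  obtain ⟨q, hq⟩ := exists_nat_one_div_lt (half_pos hε)
  have h2 : ∀ᶠ z in 𝓝 y, z ∈ F (max m q) := by
    filter_upwards [Metric.ball_mem_nhds y (half_pos hε)] with z hz x hx
    refine hm (le_max_left m q) (h1 ⟨?_, hx.2⟩)
    have h3 : 1 / (((max m q : ℕ) : ℝ) + 1) ≤ 1 / ((q : ℝ) + 1) := by
      refine one_div_le_one_div_of_le (by positivity) ?_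
      have : (q : ℝ) ≤ ((max m q : ℕ) : ℝ) := by exact_mod_cast le_max_right m q
      linarith
    have h4 := dist_triangle x z y
    have h5 := Metric.mem_ball.1 hx.1
    have h6 := Metric.mem_ball.1 hz
    rw [Metric.mem_ball]
    linarith
  have h3 : ∀ᶠ z in 𝓝 y, ∀ n ∈ Finset.range (max m q + 1), z ∈ F n → y ∈ F n := by
    rw [eventually_all_finset]
    intro n _
    by_cases hn : y ∈ F n
    · exact Eventually.of_forall fun _ _ => hn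
    · filter_upwards [(hF n).isOpen_compl.mem_nhds hn] with z hz hz'
      exact (hz hz').elim
  refine ⟨max m q, ?_⟩
  filter_upwards [h2, h3] with z hz hz'
  have h4 : ∃ n, z ∈ F n := ⟨_, hz⟩
  have h5 : Nat.find h4 ≤ max m q := Nat.find_min' h4 hz
  rw [dif_pos h4]
  exact ⟨h5, hz' _ (Finset.mem_range.2 (Nat.lt_succ_of_le h5)) (Nat.find_spec h4)
    ⟨Metric.mem_ball_self (by positivity), hyA⟩⟩

end Pool.Agent.HK
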