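import Pool.Agent.P.MP_1206ce_ag.AS.PD_Abs

/-! The mapping cone of the duality map as a complex of flabby sheaves. -/

open scoped Topology
open Filter Set

noncomputable section

namespace Pool.Agent.HK

variable {Y : Type}

theorem PD_prC_sg (k : ℤ) (a : Coch Y) : prC k (sgC a) = sgC (prC k a) := by
  funext l
  simp only [prC, sgC]
  split_ifs <;> simp

theorem PD_prC_ext0 (k : ℤ) (W : Set Y) (a : Coch Y) : prC k (ext0 W a) = ext0 W (prC k a) := by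
  funext l
  simp only [prC, ext0]
  split_ifs <;> simp

theorem PD_prC_prC (k : ℤ) (a : Coch Y) : prC k (prC k a) = prC k a := (HomC.prC k a).prC_self

theorem PD_prC_cup_left {m : ℤ} (k : ℤ) {a : Coch Y} (w : Coch Y) (ha : HomC m a) :
    prC (m + k) (cup a w) = cup a (prC k w) := by
  funext l
  by_cases h : (l.length : ℤ) = m + k + 1
  · refine (if_pos h).trans (Finset.sum_congr rfl fun i hi => ?_)
    have h1 := Finset.mem_range.1 hi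
    by_cases h2 : (i : ℤ) = m
    · rw [prC, if_pos (by rw [List.length_drop]; omega)]
    · rw [ha _ (by rw [List.length_take]; omega), zero_mul, zero_mul]
  · exact (if_neg h).trans ((ha.cup (HomC.prC k w)) l h).symm

theorem PD_bdd {k : ℤ} {w : Coch Y} (hw : HomC k w) (h0 : w [] = 0) : Bdd w :=
  ⟨h0, (k + 1).toNat, fun l h => hw l (by omega)⟩

/-- The twisted differential. -/
def PD_S (Y : Type) : Coch Y →ₗ[ℂ] Coch Y where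
  toFun a := dd (sgC a)
  map_add' a b := by
    rw [← dd_add]
    congr 1
    funext l
    simp only [sgC, Pi.add_apply, mul_add]
  map_smul' z a := by
    rw [RingHom.id_apply, ← dd_smul]
    congr 1
    funext l
    simp only [sgC, Pi.smul_apply, smul_eq_mul, mul_left_comm]

/-- Extension by zero as a linear map. -/
def PD_E (W : Set Y) : Coch Y →ₗ[ℂ] Coch Y where
  toFun := ext0 W
  map_add' a b := by
    funext l
    simp only [ext0, Pi.add_apply]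
    split_ifs <;> simp
  map_smul' z a := by
    funext l
    simp only [ext0, Pi.smul_apply, RingHom.id_apply]
    split_ifs <;> simp

/-- The functional `a ↦ Φ (a ∪ w)`. -/
def PD_T (Φ : Coch Y →ₗ[ℂ] ℂ) (w : Coch Y) : Coch Y →ₗ[ℂ] ℂ where
  toFun a := Φ (cup a w)
  map_add' a b := by rw [add_cup, map_add]
  map_smul' z a := by rw [smul_cup, map_smul, RingHom.id_apply]

theorem PD_S_apply (a : Coch Y) : PD_S Y a = dd (sgC a) := rfl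
theorem PD_T_apply (Φ : Coch Y →ₗ[ℂ] ℂ) (w a : Coch Y) : PD_T Φ w a = Φ (cup a w) := rfl

theorem PD_prC_S (k : ℤ) (a : Coch Y) : prC (k + 1) (PD_S Y a) = PD_S Y (prC k a) := by
  rw [PD_S_apply, PD_S_apply, prC_dd, PD_prC_sg]

variable [TopologicalSpace Y]

omit [TopologicalSpace Y] in
theorem PD_S_S (a : Coch Y) : PD_S Y (PD_S Y a) = 0 := by
  rw [PD_S_apply, PD_S_apply, Basic_dd_sgC (dd (sgC a)), dd_dd]
  funext l
  simp [sgC]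

omit [TopologicalSpace Y] in
theorem PD_S_sg (a : Coch Y) : PD_S Y (sgC a) = dd a := by rw [PD_S_apply, Basic_sgC_sgC]

theorem PD_supp_S (A : Set Y) (a : Coch Y) : supp A (PD_S Y a) = supp A (dd a) := by
  rw [PD_S_apply, Basic_dd_sgC, ← supp_sgC A (dd a)]
  refine Subset.antisymm (Supp_one fun l h => ?_) (Supp_one fun l h => ?_)
  · rw [Pi.neg_apply, h l fun _ hz => hz, neg_zero]
  · exact neg_eq_zero.1 (h l fun _ hz => hz)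

theorem PD_S_N0 {A : Set Y} {a : Coch Y} : PD_S Y a ∈ N0 A ↔ dd a ∈ N0 A := by
  rw [mem_N0, mem_N0, PD_supp_S]

theorem PD_supp_ext0 (A W : Set Y) (a : Coch Y) : supp A (ext0 W a) ⊆ supp A a :=
  Supp_one fun l h => by simp [ext0, h l (fun _ hz => hz)]

theorem PD_supp_sub_ext0 (A : Set Y) {W : Set Y} (hW : IsOpen W) (a : Coch Y) :
    supp A (a - ext0 W a) ⊆ supp A a \ W := by
  refine Subset.trans (Supp_one fun l h => ?_) (supp_ext0_sub A hW a)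
  have h1 := h l fun _ hz => hz
  rw [Pi.sub_apply, sub_eq_zero] at h1 ⊢
  exact h1.symm

/-- Cochains with compact support inside `O`. -/
def PD_Cc (A O : Set Y) : Submodule ℂ (Coch Y) where
  carrier := {a | a ∈ CC (cc A) A ∧ supp A a ⊆ O}
  add_mem' := fun ha hb => ⟨add_mem ha.1 hb.1, (supp_add A _ _).trans (union_subset ha.2 hb.2)⟩
  zero_mem' := ⟨zero_mem _, by rw [supp_zero]; exact empty_subset _⟩
  smul_mem' := fun z _ ha => ⟨Submodule.smul_mem _ z ha.1, (supp_smul A z _).trans ha.2⟩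

theorem PD_CC_of {A : Set Y} {a b : Coch Y} (ha : a ∈ CC (cc A) A) (hb : Bdd b)
    (h : supp A b ⊆ supp A a) : b ∈ CC (cc A) A :=
  ⟨hb, mem_of_superset ha.2 (compl_subset_compl.2 h)⟩

theorem PD_Cc_of {A O : Set Y} {a b : Coch Y} (ha : a ∈ PD_Cc A O) (hb : Bdd b)
    (h : supp A b ⊆ supp A a) : b ∈ PD_Cc A O :=
  ⟨PD_CC_of ha.1 hb h, h.trans ha.2⟩

theorem PD_Cc_prC {A O : Set Y} (k : ℤ) {a : Coch Y} (ha : a ∈ PD_Cc A O) :
    prC k a ∈ PD_Cc A O := PD_Cc_of ha (ha.1.1.prC k) (supp_prC A k a)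

theorem PD_Cc_sg {A O : Set Y} {a : Coch Y} (ha : a ∈ PD_Cc A O) : sgC a ∈ PD_Cc A O :=
  PD_Cc_of ha ha.1.1.sgC (supp_sgC A a).subset

theorem PD_Cc_S {A O : Set Y} {a : Coch Y} (ha : a ∈ PD_Cc A O) : PD_S Y a ∈ PD_Cc A O :=
  PD_Cc_of ha ha.1.1.sgC.dd ((PD_supp_S A a).subset.trans (supp_dd A a))

theorem PD_N0_of {A O : Set Y} (hO : OpenIn O A) {a : Coch Y} (ha : a ∈ N0 O)
    (hs : supp A a ⊆ O) : a ∈ N0 A := by
  rw [mem_N0, supp_openIn hO, inter_eq_right.2 hs] at ha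
  exact ha

theorem PD_cup_N0 {A O : Set Y} (hO : OpenIn O A) {a w : Coch Y} (ha : supp A a ⊆ O)
    (hw : w ∈ N0 O) : cup a w ∈ N0 A :=
  PD_N0_of hO (Tw_cup_N0_right a hw) ((supp_cup A a w).trans (inter_subset_left.trans ha))

theorem PD_N0_cover {A O : Set Y} {w : Coch Y} (hO : O ⊆ A)
    (h : ∀ y ∈ O, ∃ U, OpenIn U A ∧ U ⊆ O ∧ y ∈ U ∧ w ∈ N0 U) : w ∈ N0 O := by
  refine eq_empty_of_forall_notMem fun y hy => ?_
  obtain ⟨U, h1, h2, h3, h4⟩ := h y hy.1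
  have h5 : y ∈ supp U w := by
    rw [supp_openIn (h1.of_subset h2 hO)]
    exact ⟨h3, hy⟩
  rw [mem_N0.1 h4] at h5
  exact h5

/-- Functionals of degree `j` on cochains of `A`. -/
def PD_F (A : Set Y) (j : ℤ) (Ψ : Coch Y →ₗ[ℂ] ℂ) : Prop :=
  (∀ a ∈ N0 A, Ψ a = 0) ∧ ∀ a, Ψ (prC j a) = Ψ a

theorem PD_F.zero (A : Set Y) (j : ℤ) : PD_F A j 0 := ⟨fun _ _ => rfl, fun _ => rfl⟩

theorem PD_F.add {A : Set Y} {j : ℤ} {Ψ Ψ' : Coch Y →ₗ[ℂ] ℂ} (h : PD_F A j Ψ) (h' : PD_F A j Ψ') :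
    PD_F A j (Ψ + Ψ') :=
  ⟨fun a ha => by rw [LinearMap.add_apply, h.1 a ha, h'.1 a ha, add_zero],
    fun a => by rw [LinearMap.add_apply, LinearMap.add_apply, h.2, h'.2]⟩

theorem PD_F.neg {A : Set Y} {j : ℤ} {Ψ : Coch Y →ₗ[ℂ] ℂ} (h : PD_F A j Ψ) : PD_F A j (-Ψ) :=
  ⟨fun a ha => by rw [LinearMap.neg_apply, h.1 a ha, neg_zero],
    fun a => by rw [LinearMap.neg_apply, LinearMap.neg_apply, h.2]⟩

theorem PD_F.T {A : Set Y} {D k : ℤ} {Φ : Coch Y →ₗ[ℂ] ℂ} (h : PD_F A D Φ) {w : Coch Y}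
    (hw : HomC k w) : PD_F A (D - k) (PD_T Φ w) := by
  refine ⟨fun a ha => h.1 _ (Tw_cup_N0_left ha w), fun a => ?_⟩
  rw [PD_T_apply, PD_T_apply, ← prC_cup_right _ a hw, sub_add_cancel, h.2]

theorem PD_F.S {A : Set Y} {j : ℤ} {Ψ : Coch Y →ₗ[ℂ] ℂ} (h : PD_F A (j + 1) Ψ) :
    PD_F A j (Ψ ∘ₗ PD_S Y) := by
  refine ⟨fun a ha => h.1 _ (PD_S_N0.2 (Tw_dd_N0 ha)), fun a => ?_⟩
  rw [LinearMap.comp_apply, LinearMap.comp_apply, ← PD_prC_S, h.2]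

/-- Extension of functionals. -/
theorem PD_ext (A : Set Y) {P : Type} [AddCommGroup P] [Module ℂ P] (L : P →ₗ[ℂ] Coch Y)
    (f : P →ₗ[ℂ] ℂ) (h : ∀ p, L p ∈ N0 A → f p = 0) (j : ℤ) :
    ∃ G, PD_F A j G ∧ ∀ a p, prC j a = L p → G a = f p := by
  obtain ⟨G, hG⟩ := Dual_factor ((N0 A).mkQ ∘ₗ L) f fun p hp =>
    h p ((Submodule.Quotient.mk_eq_zero _).1 hp)
  refine ⟨G ∘ₗ (N0 A).mkQ ∘ₗ Basic_prL Y j, ⟨fun a ha => ?_, fun a => ?_⟩, fun a p hp => ?_⟩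
  · have h1 : (N0 A).mkQ (prC j a) = 0 :=
      (Submodule.Quotient.mk_eq_zero _).2 (Basic_prC_mem_N0 j ha)
    change G ((N0 A).mkQ (prC j a)) = 0
    rw [h1, map_zero]
  · change G ((N0 A).mkQ (prC j (prC j a))) = G ((N0 A).mkQ (prC j a))
    rw [PD_prC_prC]
  · change G ((N0 A).mkQ (prC j a)) = f p
    rw [hp]
    exact LinearMap.congr_fun hG p

theorem PD_lift {A : Set Y} {j : ℤ} {φ : EE A} (hφ : EDeg A j φ) :
    ∃ Φ, PD_F A j Φ ∧ ∀ a ∈ ZZ (cc A) A, Φ a = φ (clc A a) := by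
  let f : ZZ (cc A) A →ₗ[ℂ] ℂ :=
    { toFun := fun a => φ (clc A a)
      map_add' := fun a b => by rw [Submodule.coe_add, clc, cls_add a.2 b.2, map_add]
      map_smul' := fun z a => by
        rw [Submodule.coe_smul, clc, cls_smul z a.2, map_smul, RingHom.id_apply] }
  obtain ⟨Φ, h1, h2⟩ := PD_ext A (ZZ (cc A) A).subtype f (fun p hp => by
    change φ (clc A p) = 0
    rw [clc, (cls_eq_zero_iff p.2).2 (N0_le_BB _ _ hp), map_zero]) j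
  refine ⟨Φ, h1, fun a ha => ?_⟩
  rw [h2 a ⟨_, prC_mem_ZZ j ha⟩ rfl, ← Dual_apply hφ, prH_cls j ha]
  rfl

theorem PD_lift_dd {A : Set Y} {φ : EE A} {Φ : Coch Y →ₗ[ℂ] ℂ}
    (h : ∀ a ∈ ZZ (cc A) A, Φ a = φ (clc A a)) : ∀ a ∈ CC (cc A) A, Φ (dd a) = 0 := by
  intro a ha
  have h1 : dd a ∈ ZZ (cc A) A :=
    ⟨PD_CC_of ha ha.1.dd (supp_dd A a), by rw [dd_dd]; exact zero_mem _⟩
  rw [h _ h1, clc, (cls_eq_zero_iff h1).2 ⟨a, ha, by rw [sub_self]; exact zero_mem _⟩, map_zero]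

/-- A functional that kills the cocycles is a coboundary. -/
theorem PD_prim {A O : Set Y} {j : ℤ} {Ψ : Coch Y →ₗ[ℂ] ℂ} (h : ∀ a, Ψ (prC j a) = Ψ a)
    (h0 : ∀ a ∈ PD_Cc A O, dd a ∈ N0 A → Ψ a = 0) :
    ∃ Θ, PD_F A (j + 1) Θ ∧ ∀ a ∈ PD_Cc A O, Θ (PD_S Y a) = Ψ a := by
  obtain ⟨Θ, h1, h2⟩ := PD_ext A (PD_S Y ∘ₗ (PD_Cc A O).subtype) (Ψ ∘ₗ (PD_Cc A O).subtype)
    (fun p hp => h0 p p.2 (PD_S_N0.1 hp)) (j + 1)
  refine ⟨Θ, h1, fun a ha => ?_⟩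
  rw [h2 _ ⟨_, PD_Cc_prC j ha⟩ (PD_prC_S j a)]
  exact h a

theorem PD_leib {A : Set Y} {Φ : Coch Y →ₗ[ℂ] ℂ} (hd : ∀ a ∈ CC (cc A) A, Φ (dd a) = 0)
    {a w : Coch Y} (ha : a ∈ CC (cc A) A) (hw : Bdd w) :
    Φ (cup a (dd w)) + Φ (cup (PD_S Y a) w) = 0 := by
  have h1 : cup (sgC a) w ∈ CC (cc A) A := PD_CC_of ha (ha.1.sgC.cup hw)
    ((supp_cup A _ _).trans (inter_subset_left.trans (supp_sgC A a).subset))
  have h2 := hd _ h1
  rwa [dd_cup ha.1.sgC.1 hw.1, Basic_sgC_sgC, map_add, add_comm] at h2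

/-- Elements of the cone. -/
abbrev PD_G (Y : Type) : Type := Coch Y × (Coch Y →ₗ[ℂ] ℂ)

/-- Global elements of degree `k`. -/
def PD_M (A : Set Y) (D k : ℤ) : AddSubgroup (PD_G Y) where
  carrier := {m | HomC k m.1 ∧ m.1 [] = 0 ∧ PD_F A (D - k + 1) m.2}
  add_mem' := fun ha hb => ⟨ha.1.add hb.1, by
    rw [Prod.fst_add, Pi.add_apply, ha.2.1, hb.2.1, add_zero], ha.2.2.add hb.2.2⟩
  zero_mem' := ⟨HomC.zero k, rfl, PD_F.zero A _⟩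
  neg_mem' := fun ha => ⟨fun l hl => by rw [Prod.fst_neg, Pi.neg_apply, ha.1 l hl, neg_zero], by
    rw [Prod.fst_neg, Pi.neg_apply, ha.2.1, neg_zero], ha.2.2.neg⟩

/-- Elements that vanish over `O`. -/
def PD_N (A O : Set Y) : AddSubgroup (PD_G Y) where
  carrier := {m | m.1 ∈ N0 O ∧ ∀ a ∈ PD_Cc A O, m.2 a = 0}
  add_mem' := fun ha hb => ⟨add_mem ha.1 hb.1, fun a h => by
    rw [Prod.snd_add, LinearMap.add_apply, ha.2 a h, hb.2 a h, add_zero]⟩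
  zero_mem' := ⟨zero_mem _, fun _ _ => rfl⟩
  neg_mem' := fun ha => ⟨neg_mem ha.1, fun a h => by
    rw [Prod.snd_neg, LinearMap.neg_apply, ha.2 a h, neg_zero]⟩

/-- The differential of the cone. -/
def PD_d (Φ : Coch Y →ₗ[ℂ] ℂ) : PD_G Y →+ PD_G Y :=
  AddMonoidHom.mk' (fun m => (dd m.1, PD_T Φ m.1 + m.2 ∘ₗ PD_S Y)) fun m m' => by
    refine Prod.ext (dd_add _ _) (LinearMap.ext fun a => ?_)
    simp only [Prod.fst_add, Prod.snd_add, LinearMap.add_apply, LinearMap.comp_apply, PD_T_apply,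
      cup_add, map_add]
    abel

omit [TopologicalSpace Y] in
theorem PD_d_fst (Φ : Coch Y →ₗ[ℂ] ℂ) (m : PD_G Y) : (PD_d Φ m).1 = dd m.1 := rfl
omit [TopologicalSpace Y] in
theorem PD_d_snd (Φ : Coch Y →ₗ[ℂ] ℂ) (m : PD_G Y) (a : Coch Y) :
    (PD_d Φ m).2 a = Φ (cup a m.1) + m.2 (PD_S Y a) := rfl

variable {A : Set Y} {D : ℤ} {Φ : Coch Y →ₗ[ℂ] ℂ}

theorem PD_d_M (hF : PD_F A D Φ) (k : ℤ) (m : PD_G Y) (hm : m ∈ PD_M A D k) :
    PD_d Φ m ∈ PD_M A D (k + 1) := by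
  refine ⟨hm.1.dd, rfl, ?_⟩
  have h1 : D - (k + 1) + 1 = D - k := by ring
  rw [h1]
  exact (hF.T hm.1).add hm.2.2.S

theorem PD_d_N (hF : PD_F A D Φ) (O : Set Y) (hO : OpenIn O A) (m : PD_G Y) (hm : m ∈ PD_N A O) :
    PD_d Φ m ∈ PD_N A O := by
  refine ⟨Tw_dd_N0 hm.1, fun a ha => ?_⟩
  rw [PD_d_snd, hF.1 _ (PD_cup_N0 hO ha.2 hm.1), hm.2 _ (PD_Cc_S ha), add_zero]

theorem PD_dd_N (hd : ∀ a ∈ CC (cc A) A, Φ (dd a) = 0) (k : ℤ) (O : Set Y) (m : PD_G Y)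
    (hm : m ∈ PD_M A D k) : PD_d Φ (PD_d Φ m) ∈ PD_N A O := by
  refine ⟨by rw [PD_d_fst, PD_d_fst, dd_dd]; exact zero_mem _, fun a ha => ?_⟩
  rw [PD_d_snd, PD_d_snd, PD_d_fst, PD_S_S, map_zero, add_zero]
  exact PD_leib hd ha.1 (PD_bdd hm.1 hm.2.1)

theorem PD_anti (O O' : Set Y) (h : O ⊆ O') (m : PD_G Y) (hm : m ∈ PD_N A O') : m ∈ PD_N A O :=
  ⟨Tw_N0_mono h hm.1, fun a ha => hm.2 a ⟨ha.1, ha.2.trans h⟩⟩

theorem PD_emp (k : ℤ) (m : PD_G Y) (hm : m ∈ PD_M A D k) : m ∈ PD_N A ∅ :=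
  ⟨subset_empty_iff.1 (supp_subset _ _), fun a ha => hm.2.2.1 a (subset_empty_iff.1 ha.2)⟩

theorem PD_bdd_sub {a b : Coch Y} (ha : Bdd a) (hb : Bdd b) : Bdd (a - b) :=
  mem_CC_bot.1 (sub_mem (mem_CC_bot.2 ha : a ∈ CC ⊥ (∅ : Set Y)) (mem_CC_bot.2 hb))

theorem PD_loc2 [Nice Y] (U V : Set Y) (hU : OpenIn U A) (hV : OpenIn V A) (m : PD_G Y)
    (h1 : m ∈ PD_N A U) (h2 : m ∈ PD_N A V) : m ∈ PD_N A (U ∪ V) := by
  refine ⟨PD_N0_cover (union_subset hU.subset hV.subset) ?_, fun a ha => ?_⟩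
  · rintro y (hy | hy)
    · exact ⟨U, hU, subset_union_left, hy, h1.1⟩
    · exact ⟨V, hV, subset_union_right, hy, h2.1⟩
  obtain ⟨W, k1, k2, k3⟩ := PD_sep hU hV
  have k4 : ext0 W a ∈ PD_Cc A U := by
    refine ⟨PD_CC_of ha.1 (ha.1.1.ext0 W) (PD_supp_ext0 A W a), fun y hy => ?_⟩
    have k5 := supp_ext0 A W ha.1.1.1 hy
    exact (ha.2 k5.1).elim id (k3 y k5.2)
  have k5 : a - ext0 W a ∈ PD_Cc A V := by
    refine ⟨sub_mem ha.1 k4.1, fun y hy => ?_⟩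
    have k6 := PD_supp_sub_ext0 A k1 a hy
    by_contra hn
    exact k6.2 (k2 ⟨(ha.2 k6.1).resolve_right hn, hn⟩)
  have k6 := h2.2 _ k5
  rwa [map_sub, h1.2 _ k4, sub_zero] at k6

theorem PD_split2 [Nice Y] (k : ℤ) (U V : Set Y) (hU : OpenIn U A) (hV : OpenIn V A) (m : PD_G Y)
    (hm : m ∈ PD_M A D k) (h : m ∈ PD_N A (U ∩ V)) :
    ∃ n ∈ PD_M A D k, n ∈ PD_N A U ∧ m - n ∈ PD_N A V := by
  obtain ⟨W, k1, k2, k3⟩ := PD_sep hU hV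
  have hUV := Chart_openIn_inter hU hV
  have k4 : ∀ {P : Set Y}, P ⊆ A → U ∩ V ⊆ P → ∀ y ∈ supp P m.1, y ∉ U ∩ V := by
    intro P hP hP' y hy hy'
    have k5 : y ∈ supp (U ∩ V) m.1 := by
      rw [supp_openIn (hUV.of_subset hP' hP)]
      exact ⟨hy', hy⟩
    rw [mem_N0.1 h.1] at k5
    exact k5
  have hn : ((ext0 W m.1, m.2 ∘ₗ PD_E W) : PD_G Y) ∈ PD_M A D k := by
    refine ⟨hm.1.ext0 W, by simp [ext0, hm.2.1], fun a ha => ?_, fun a => ?_⟩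
    · exact hm.2.2.1 _ (subset_eq_empty (PD_supp_ext0 A W a) ha)
    · change m.2 (ext0 W (prC _ a)) = m.2 (ext0 W a)
      rw [← PD_prC_ext0, hm.2.2.2]
  refine ⟨m - (ext0 W m.1, m.2 ∘ₗ PD_E W), sub_mem hm hn, ⟨?_, fun a ha => ?_⟩, ?_⟩
  · refine eq_empty_of_forall_notMem fun y hy => ?_
    have k5 := PD_supp_sub_ext0 U k1 m.1 hy
    have k6 := supp_subset U _ k5.1
    exact k5.2 (k2 ⟨k6, fun hv => k4 hU.subset inter_subset_left y k5.1 ⟨k6, hv⟩⟩)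
  · change m.2 a - m.2 (ext0 W a) = 0
    rw [← map_sub]
    refine h.2 _ ⟨sub_mem ha.1 (PD_CC_of ha.1 (ha.1.1.ext0 W) (PD_supp_ext0 A W a)),
      fun y hy => ?_⟩
    have k5 := PD_supp_sub_ext0 A k1 a hy
    exact ⟨ha.2 k5.1, by_contra fun hv => k5.2 (k2 ⟨ha.2 k5.1, hv⟩)⟩
  · rw [sub_sub_cancel]
    refine ⟨eq_empty_of_forall_notMem fun y hy => ?_, fun a ha => ?_⟩
    · have k5 := supp_ext0 V W hm.2.1 hy
      have k6 := supp_subset V _ k5.1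
      exact k4 hV.subset inter_subset_right y k5.1 ⟨k3 y k5.2 k6, k6⟩
    · refine h.2 _ ⟨PD_CC_of ha.1 (ha.1.1.ext0 W) (PD_supp_ext0 A W a), fun y hy => ?_⟩
      have k5 := supp_ext0 A W ha.1.1.1 hy
      exact ⟨k3 y k5.2 (ha.2 k5.1), ha.2 k5.1⟩

theorem PD_Cc_seq (O : ℕ → Set Y) (hO : ∀ n, OpenIn (O n) A) (hm : Monotone O) {a : Coch Y}
    (ha : a ∈ PD_Cc A (⋃ n, O n)) : ∃ n, a ∈ PD_Cc A (O n) := by
  obtain ⟨n, hn⟩ := Tw_compact_directed (A := ⋃ n, O n) O (fun n => (hO n).of_subset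
    (subset_iUnion O n) (iUnion_subset fun n => (hO n).subset)) hm.directed_le Subset.rfl
    (mem_CC_cc.1 ha.1).2 ha.2
  exact ⟨n, ha.1, hn⟩

theorem PD_locw (O : ℕ → Set Y) (hO : ∀ n, OpenIn (O n) A) (hm : Monotone O) (m : PD_G Y)
    (h : ∀ n, m ∈ PD_N A (O n)) : m ∈ PD_N A (⋃ n, O n) := by
  refine ⟨PD_N0_cover (iUnion_subset fun n => (hO n).subset) fun y hy => ?_, fun a ha => ?_⟩
  · obtain ⟨n, hn⟩ := mem_iUnion.1 hy
    exact ⟨O n, hO n, subset_iUnion O n, hn, (h n).1⟩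
  · obtain ⟨n, hn⟩ := PD_Cc_seq O hO hm ha
    exact (h n).2 a hn

theorem PD_chain (O : ℕ → Set Y) (hm : Monotone O) (m : ℕ → PD_G Y)
    (h : ∀ n, m (n + 1) - m n ∈ PD_N A (O n)) (n n' : ℕ) : m n - m n' ∈ PD_N A (O n ∩ O n') := by
  have h1 : ∀ p q, p ≤ q → m q - m p ∈ PD_N A (O p) := by
    intro p q hpq
    induction q, hpq using Nat.le_induction with
    | base => rw [sub_self]; exact zero_mem _
    | succ q hq ih =>
      have h2 := add_mem (PD_anti _ _ (hm hq) _ (h q)) ih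
      rwa [sub_add_sub_cancel] at h2
  rcases le_total n n' with hn | hn
  · have h2 := neg_mem (PD_anti _ _ (inter_subset_left (t := O n')) _ (h1 n n' hn))
    rwa [neg_sub] at h2
  · exact PD_anti _ _ inter_subset_right _ (h1 n' n hn)

theorem PD_glue_w [Nice Y] (O : ℕ → Set Y) (hO : ∀ n, OpenIn (O n) A) (hm : Monotone O)
    (w : ℕ → Coch Y) (h0 : ∀ n, w n [] = 0) (h : ∀ n n', w n - w n' ∈ N0 (O n ∩ O n')) :
    ∃ σ : List Y → ℕ, ∀ n, (fun l => w (σ l) l) - w n ∈ N0 (O n) := by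
  obtain ⟨σ, hσ⟩ := PD_sel O hO hm
  refine ⟨fun l => (l.head?.map σ).getD 0, fun n => eq_empty_of_forall_notMem fun y hy => ?_⟩
  have hyn : y ∈ O n := hy.1
  refine (not_mem_supp hyn).2 ?_ hy
  obtain ⟨p, hp⟩ := hσ y (mem_iUnion.2 ⟨n, hyn⟩)
  have h1 : ∀ q, ∃ U ∈ 𝓝 y, y ∈ O q → ∀ l : List Y, (∀ z ∈ l, z ∈ O n ∧ z ∈ U) →
      (w q - w n) l = 0 := by
    intro q
    by_cases hq : y ∈ O q
    · obtain ⟨U, k1, k2⟩ := Basic_N0_apply (h q n) ⟨hq, hyn⟩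
      obtain ⟨V, k3, k4⟩ := hO q
      refine ⟨U ∩ V, inter_mem k1 (k3.mem_nhds (k4 ▸ hq).2), fun _ l hl => k2 l fun z hz => ?_⟩
      obtain ⟨k5, k6, k7⟩ := hl z hz
      exact ⟨⟨k4 ▸ ⟨(hO n).subset k5, k7⟩, k5⟩, k6⟩
    · exact ⟨univ, univ_mem, fun h => (hq h).elim⟩
  choose U hU hU' using h1
  refine ⟨_, inter_mem hp ((biInter_finset_mem (Finset.range (p + 1))).2 fun q _ => hU q),
    fun l hl => ?_⟩
  cases l with
  | nil => rw [Pi.sub_apply, h0, h0, sub_zero]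
  | cons z l =>
    obtain ⟨-, ⟨k1, k2⟩, -⟩ := hl z List.mem_cons_self
    exact hU' (σ z) k2 (z :: l) fun x hx => ⟨(hl x hx).1,
      mem_iInter₂.1 (hl x hx).2.2 _ (Finset.mem_range.2 (Nat.lt_succ_of_le k1))⟩

theorem PD_glue_F (O : ℕ → Set Y) (hO : ∀ n, OpenIn (O n) A) (hm : Monotone O) {j : ℤ}
    (Ψ : ℕ → Coch Y →ₗ[ℂ] ℂ) (h0 : ∀ n, PD_F A j (Ψ n))
    (h : ∀ n n', ∀ a ∈ PD_Cc A (O n ∩ O n'), Ψ n a = Ψ n' a) :
    ∃ Θ, PD_F A j Θ ∧ ∀ n, ∀ a ∈ PD_Cc A (O n), Θ a = Ψ n a := by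
  choose ν hν using fun a : PD_Cc A (⋃ n, O n) => PD_Cc_seq O hO hm a.2
  have h1 : ∀ (a : PD_Cc A (⋃ n, O n)) n, a.1 ∈ PD_Cc A (O n) → Ψ (ν a) a = Ψ n a :=
    fun a n ha => h _ _ _ ⟨ha.1, subset_inter (hν a).2 ha.2⟩
  have h2 : ∀ {a : Coch Y} {n n' : ℕ}, n ≤ n' → a ∈ PD_Cc A (O n) → a ∈ PD_Cc A (O n') :=
    fun hn ha => ⟨ha.1, ha.2.trans (hm hn)⟩
  let f : PD_Cc A (⋃ n, O n) →ₗ[ℂ] ℂ :=
    { toFun := fun a => Ψ (ν a) a
      map_add' := fun a b => by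
        have k1 := h2 (le_max_left (ν a) (ν b)) (hν a)
        have k2 := h2 (le_max_right (ν a) (ν b)) (hν b)
        rw [h1 a _ k1, h1 b _ k2, h1 (a + b) _ (add_mem k1 k2), Submodule.coe_add, map_add]
      map_smul' := fun z a => by
        rw [h1 (z • a) _ (Submodule.smul_mem _ z (hν a)), Submodule.coe_smul, map_smul,
          RingHom.id_apply] }
  obtain ⟨Θ, k1, k2⟩ := PD_ext A (PD_Cc A (⋃ n, O n)).subtype f (fun p hp => (h0 _).1 _ hp) j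
  refine ⟨Θ, k1, fun n a ha => ?_⟩
  have k3 := PD_Cc_prC j ha
  rw [k2 a ⟨_, k3.1, k3.2.trans (subset_iUnion O n)⟩ rfl, ← (h0 n).2 a]
  exact h1 _ n k3

theorem PD_gluew [Nice Y] (k : ℤ) (O : ℕ → Set Y) (hO : ∀ n, OpenIn (O n) A) (hm : Monotone O)
    (m : ℕ → PD_G Y) (h0 : ∀ n, m n ∈ PD_M A D k) (h : ∀ n, m (n + 1) - m n ∈ PD_N A (O n)) :
    ∃ e ∈ PD_M A D k, ∀ n, e - m n ∈ PD_N A (O n) := by
  have h1 := PD_chain O hm m h
  obtain ⟨σ, k1⟩ := PD_glue_w O hO hm (fun n => (m n).1) (fun n => (h0 n).2.1)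
    fun n n' => (h1 n n').1
  obtain ⟨Θ, k2, k3⟩ := PD_glue_F O hO hm (fun n => (m n).2) (fun n => (h0 n).2.2)
    fun n n' a ha => sub_eq_zero.1 ((h1 n n').2 a ha)
  exact ⟨(fun l => (m (σ l)).1 l, Θ), ⟨fun l hl => (h0 _).1 l hl, (h0 _).2.1, k2⟩,
    fun n => ⟨k1 n, fun a ha => sub_eq_zero.2 (k3 n a ha)⟩⟩

/-- The cone as an abstract system. -/
def PD_sys [Nice Y] (hF : PD_F A D Φ) (hd : ∀ a ∈ CC (cc A) A, Φ (dd a) = 0) :
    PD_Sys A (PD_G Y) where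
  M := PD_M A D
  N := PD_N A
  d := PD_d Φ
  d_M := PD_d_M hF
  d_N := PD_d_N hF
  dd_N := PD_dd_N hd
  anti := PD_anti
  emp := PD_emp
  loc2 := PD_loc2
  split2 := PD_split2
  locw := PD_locw
  gluew := PD_gluew

end Pool.Agent.HK
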