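import Pool.Agent.P.MP_1206ce_ag.AS.Coch

/-! Supports, locally closed subsets, proper maps, nice ambient spaces. -/

open scoped Topology
open Filter Set

noncomputable section

namespace Pool.Agent.HK

variable {Y Y' Y'' : Type}

section supports
variable [TopologicalSpace Y] [TopologicalSpace Y']

/-- `A'` is closed in `A`. -/
def ClosedIn (A' A : Set Y) : Prop := ∃ F, IsClosed F ∧ A' = A ∩ F
/-- `U` is open in `A`. -/
def OpenIn (U A : Set Y) : Prop := ∃ O, IsOpen O ∧ U = A ∩ O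
/-- `A` is locally compact in the subspace topology. -/
def LC (A : Set Y) : Prop := ∀ y ∈ A, ∃ C, IsCompact C ∧ C ⊆ A ∧ C ∈ 𝓝[A] y
/-- Proper map from `A'` to `A`. -/
def ProperOn (f : Y' → Y) (A' : Set Y') (A : Set Y) : Prop :=
  ContinuousOn f A' ∧ MapsTo f A' A ∧ ∀ C, IsCompact C → C ⊆ A → IsCompact (A' ∩ f ⁻¹' C)
/-- `f` and `g` are mutually inverse homeomorphisms between `A'` and `A`. -/
def HomeoOn (f : Y' → Y) (g : Y → Y') (A' : Set Y') (A : Set Y) : Prop :=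
  ContinuousOn f A' ∧ ContinuousOn g A ∧ MapsTo f A' A ∧ MapsTo g A A' ∧
    (∀ y ∈ A', g (f y) = y) ∧ ∀ y ∈ A, f (g y) = y

theorem not_mem_supp {A : Set Y} {c : Coch Y} {y : Y} (hy : y ∈ A) :
    y ∉ supp A c ↔ ∃ U ∈ 𝓝 y, ∀ l : List Y, (∀ z ∈ l, z ∈ A ∧ z ∈ U) → c l = 0 := by
  constructor
  · intro h
    by_contra hn
    refine h ⟨hy, fun U hU => ?_⟩
    by_contra hn2
    exact hn ⟨U, hU, fun l hl => by
      by_contra hc
      exact hn2 ⟨l, hl, hc⟩⟩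
  · rintro ⟨U, hU, h⟩ ⟨-, h2⟩
    obtain ⟨l, hl, hc⟩ := h2 U hU
    exact hc (h l hl)

theorem supp_subset (A : Set Y) (c : Coch Y) : supp A c ⊆ A := fun _ h => h.1

theorem supp_closedIn (A : Set Y) (c : Coch Y) : ClosedIn (supp A c) A := by
  refine ⟨{y | ∀ U ∈ 𝓝 y, ∃ l : List Y, (∀ z ∈ l, z ∈ A ∧ z ∈ U) ∧ c l ≠ 0}, ?_, rfl⟩
  rw [← closure_subset_iff_isClosed]
  intro y hy U hU
  obtain ⟨x, hx1, hx2⟩ := mem_closure_iff_nhds.1 hy (interior U) (interior_mem_nhds.2 hU)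
  exact hx2 U (mem_interior_iff_mem_nhds.1 hx1)

theorem supp_mono {A A' : Set Y} (h : A' ⊆ A) (c : Coch Y) : supp A' c ⊆ supp A c := by
  rintro y ⟨hy, h2⟩
  refine ⟨h hy, fun U hU => ?_⟩
  obtain ⟨l, hl, hc⟩ := h2 U hU
  exact ⟨l, fun z hz => ⟨h (hl z hz).1, (hl z hz).2⟩, hc⟩

theorem supp_openIn {A U : Set Y} (h : OpenIn U A) (c : Coch Y) : supp U c = U ∩ supp A c := by
  obtain ⟨O, hO, rfl⟩ := h
  refine Subset.antisymm (subset_inter (supp_subset _ _) (supp_mono inter_subset_left c)) ?_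
  rintro y ⟨hy, -, h2⟩
  refine ⟨hy, fun W hW => ?_⟩
  obtain ⟨l, hl, hc⟩ := h2 (W ∩ O) (inter_mem hW (hO.mem_nhds hy.2))
  exact ⟨l, fun z hz => ⟨⟨(hl z hz).1, (hl z hz).2.2⟩, (hl z hz).2.1⟩, hc⟩

theorem supp_zero (A : Set Y) : supp A (0 : Coch Y) = ∅ := by
  refine eq_empty_of_forall_notMem fun y hy => ?_
  obtain ⟨l, -, hc⟩ := hy.2 univ univ_mem
  exact hc rfl

theorem Supp_one {A : Set Y} {a b : Coch Y}
    (h : ∀ l : List Y, (∀ l' : List Y, (∀ z ∈ l', z ∈ l) → b l' = 0) → a l = 0) :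
    supp A a ⊆ supp A b := by
  intro y hy
  by_contra hn
  obtain ⟨U, hU, h1⟩ := (not_mem_supp hy.1).1 hn
  obtain ⟨l, hl, hc⟩ := hy.2 U hU
  exact hc (h l fun l' hl' => h1 l' fun z hz => hl z (hl' z hz))

theorem Supp_two {A : Set Y} {a b c : Coch Y}
    (h : ∀ l : List Y, a l = 0 → b l = 0 → c l = 0) : supp A c ⊆ supp A a ∪ supp A b := by
  intro y hy
  by_contra hn
  rw [mem_union, not_or] at hn
  obtain ⟨U, hU, h1⟩ := (not_mem_supp hy.1).1 hn.1
  obtain ⟨W, hW, h2⟩ := (not_mem_supp hy.1).1 hn.2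
  obtain ⟨l, hl, hc⟩ := hy.2 (U ∩ W) (inter_mem hU hW)
  exact hc (h l (h1 l fun z hz => ⟨(hl z hz).1, (hl z hz).2.1⟩)
    (h2 l fun z hz => ⟨(hl z hz).1, (hl z hz).2.2⟩))

theorem supp_add (A : Set Y) (a b : Coch Y) : supp A (a + b) ⊆ supp A a ∪ supp A b :=
  Supp_two fun l ha hb => by simp [ha, hb]

theorem supp_sub (A : Set Y) (a b : Coch Y) : supp A (a - b) ⊆ supp A a ∪ supp A b :=
  Supp_two fun l ha hb => by simp [ha, hb]

theorem supp_smul (A : Set Y) (z : ℂ) (a : Coch Y) : supp A (z • a) ⊆ supp A a :=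
  Supp_one fun l h => by simp [h l (fun _ hz => hz)]

theorem supp_dd (A : Set Y) (a : Coch Y) : supp A (dd a) ⊆ supp A a :=
  Supp_one fun l h => Finset.sum_eq_zero fun i _ => by
    rw [h _ (fun _ hz => List.mem_of_mem_eraseIdx hz), mul_zero]

theorem supp_cup (A : Set Y) (a b : Coch Y) : supp A (cup a b) ⊆ supp A a ∩ supp A b :=
  subset_inter
    (Supp_one fun l h => Finset.sum_eq_zero fun i _ => by
      rw [h _ (fun _ hz => List.mem_of_mem_take hz), zero_mul])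
    (Supp_one fun l h => Finset.sum_eq_zero fun i _ => by
      rw [h _ (fun _ hz => List.mem_of_mem_drop hz), mul_zero])

theorem supp_prC (A : Set Y) (k : ℤ) (a : Coch Y) : supp A (prC k a) ⊆ supp A a :=
  Supp_one fun l h => by simp [prC, h l (fun _ hz => hz)]

theorem supp_sgC (A : Set Y) (a : Coch Y) : supp A (sgC a) = supp A a := by
  refine Subset.antisymm (Supp_one fun l h => by simp [sgC, h l (fun _ hz => hz)])
    (Supp_one fun l h => ?_)
  have h1 := h l (fun _ hz => hz)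
  simpa [sgC] using h1

theorem supp_pb {A : Set Y} {A' : Set Y'} {f : Y' → Y} (hf : ContinuousOn f A')
    (hm : MapsTo f A' A) (a : Coch Y) : supp A' (pb f a) ⊆ f ⁻¹' supp A a := by
  rintro y ⟨hy, h2⟩
  refine ⟨hm hy, fun U hU => ?_⟩
  obtain ⟨W, hW, hWU⟩ := mem_nhdsWithin_iff_exists_mem_nhds_inter.1 (hf y hy hU)
  obtain ⟨l, hl, hc⟩ := h2 W hW
  refine ⟨l.map f, fun z hz => ?_, hc⟩
  obtain ⟨x, hx, rfl⟩ := List.mem_map.1 hz
  exact ⟨hm (hl x hx).1, hWU ⟨(hl x hx).2, (hl x hx).1⟩⟩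

theorem supp_congr {A : Set Y} {a b : Coch Y} (h : ∀ l : List Y, (∀ z ∈ l, z ∈ A) → a l = b l) :
    supp A (a - b) = ∅ := by
  refine eq_empty_of_forall_notMem fun y hy => ?_
  obtain ⟨l, hl, hc⟩ := hy.2 univ univ_mem
  exact hc (by simp [h l (fun z hz => (hl z hz).1)])

theorem supp_pb_congr {A' : Set Y'} {f g : Y' → Y} (h : EqOn f g A') (a : Coch Y) :
    supp A' (pb f a - pb g a) = ∅ := by
  refine supp_congr fun l hl => ?_
  have h1 : l.map f = l.map g := List.map_congr_left fun z hz => h (hl z hz)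
  simp only [pb, h1]


theorem supp_ext0 (A V : Set Y) {a : Coch Y} (ha : a [] = 0) :
    supp A (ext0 V a) ⊆ supp A a ∩ closure V := by
  refine subset_inter (Supp_one fun l h => by simp [ext0, h l (fun _ hz => hz)]) ?_
  intro y hy
  refine mem_closure_iff_nhds.2 fun U hU => ?_
  obtain ⟨l, hl, hc⟩ := hy.2 U hU
  by_cases hV : ∀ z ∈ l, z ∈ V
  · cases l with
    | nil => exact absurd (by simp [ext0, ha]) hc
    | cons x l => exact ⟨x, (hl x (by simp)).2, hV x (by simp)⟩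
  · exact absurd (by simp only [ext0, if_neg hV]) hc

theorem supp_ext0_sub (A : Set Y) {V : Set Y} (hV : IsOpen V) (a : Coch Y) :
    supp A (ext0 V a - a) ⊆ supp A a \ V := by
  intro y hy
  refine ⟨Supp_one (b := a) (fun l h => by simp [ext0, h l (fun _ hz => hz)]) hy, fun hyV => ?_⟩
  obtain ⟨l, hl, hc⟩ := hy.2 V (hV.mem_nhds hyV)
  have h1 : ∀ z ∈ l, z ∈ V := fun z hz => (hl z hz).2
  exact hc (by simp only [Pi.sub_apply, ext0, if_pos h1, sub_self])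

theorem supp_dd_ext0 (A : Set Y) {V : Set Y} (hV : IsOpen V) {a : Coch Y} (ha : a [] = 0) :
    supp A (dd (ext0 V a)) ⊆ (supp A (dd a) ∩ V) ∪ (supp A a ∩ (closure V \ V)) := by
  intro y hy
  have h0 := supp_ext0 A V ha (supp_dd A _ hy)
  by_cases hyV : y ∈ V
  · refine Or.inl ⟨⟨hy.1, fun U hU => ?_⟩, hyV⟩
    obtain ⟨l, hl, hc⟩ := hy.2 (U ∩ V) (inter_mem hU (hV.mem_nhds hyV))
    refine ⟨l, fun z hz => ⟨(hl z hz).1, (hl z hz).2.1⟩, fun h => hc ?_⟩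
    rw [← h]
    refine Finset.sum_congr rfl fun i _ => ?_
    have h1 : ∀ z ∈ l.eraseIdx i, z ∈ V := fun z hz => (hl z (List.mem_of_mem_eraseIdx hz)).2.2
    simp only [ext0, if_pos h1]
  · exact Or.inr ⟨h0.1, h0.2, hyV⟩


theorem ClosedIn.subset {A' A : Set Y} (h : ClosedIn A' A) : A' ⊆ A := by
  obtain ⟨F, -, rfl⟩ := h
  exact inter_subset_left

theorem OpenIn.subset {U A : Set Y} (h : OpenIn U A) : U ⊆ A := by
  obtain ⟨F, -, rfl⟩ := h
  exact inter_subset_left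

theorem ClosedIn.refl (A : Set Y) : ClosedIn A A := ⟨univ, isClosed_univ, (inter_univ A).symm⟩

theorem OpenIn.refl (A : Set Y) : OpenIn A A := ⟨univ, isOpen_univ, (inter_univ A).symm⟩

theorem ClosedIn.trans {A'' A' A : Set Y} (h : ClosedIn A'' A') (h' : ClosedIn A' A) :
    ClosedIn A'' A := by
  obtain ⟨F', hF', rfl⟩ := h'
  obtain ⟨F, hF, rfl⟩ := h
  exact ⟨F' ∩ F, hF'.inter hF, inter_assoc _ _ _⟩

theorem OpenIn.trans {A'' A' A : Set Y} (h : OpenIn A'' A') (h' : OpenIn A' A) :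
    OpenIn A'' A := by
  obtain ⟨F', hF', rfl⟩ := h'
  obtain ⟨F, hF, rfl⟩ := h
  exact ⟨F' ∩ F, hF'.inter hF, inter_assoc _ _ _⟩

theorem ClosedIn.diff {A' A : Set Y} (h : ClosedIn A' A) : OpenIn (A \ A') A := by
  obtain ⟨F, hF, rfl⟩ := h
  refine ⟨Fᶜ, hF.isOpen_compl, ?_⟩
  ext y
  simp only [Set.mem_sdiff, mem_inter_iff, mem_compl_iff]
  tauto

theorem OpenIn.diff {U A : Set Y} (h : OpenIn U A) : ClosedIn (A \ U) A := by
  obtain ⟨F, hF, rfl⟩ := h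
  refine ⟨Fᶜ, hF.isClosed_compl, ?_⟩
  ext y
  simp only [Set.mem_sdiff, mem_inter_iff, mem_compl_iff]
  tauto

theorem ClosedIn.inter_right {A' A : Set Y} (h : ClosedIn A' A) (B : Set Y) :
    ClosedIn (A' ∩ B) (A ∩ B) := by
  obtain ⟨F, hF, rfl⟩ := h
  exact ⟨F, hF, inter_right_comm _ _ _⟩

theorem OpenIn.inter_right {U A : Set Y} (h : OpenIn U A) (B : Set Y) :
    OpenIn (U ∩ B) (A ∩ B) := by
  obtain ⟨F, hF, rfl⟩ := h
  exact ⟨F, hF, inter_right_comm _ _ _⟩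

theorem ClosedIn.of_subset {A'' A' A : Set Y} (h : ClosedIn A'' A) (h1 : A'' ⊆ A') (h2 : A' ⊆ A) :
    ClosedIn A'' A' := by
  obtain ⟨F, hF, rfl⟩ := h
  exact ⟨F, hF, Subset.antisymm (subset_inter h1 inter_subset_right)
    (inter_subset_inter_left _ h2)⟩

theorem OpenIn.of_subset {A'' A' A : Set Y} (h : OpenIn A'' A) (h1 : A'' ⊆ A') (h2 : A' ⊆ A) :
    OpenIn A'' A' := by
  obtain ⟨F, hF, rfl⟩ := h
  exact ⟨F, hF, Subset.antisymm (subset_inter h1 inter_subset_right)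
    (inter_subset_inter_left _ h2)⟩

theorem ClosedIn.preimage {A' A : Set Y} {B : Set Y'} {f : Y' → Y} (h : ClosedIn A' A)
    (hf : ContinuousOn f B) (hm : MapsTo f B A) : ClosedIn (B ∩ f ⁻¹' A') B := by
  obtain ⟨F, hF, rfl⟩ := h
  obtain ⟨u, hu, h1⟩ := continuousOn_iff_isClosed.1 hf F hF
  refine ⟨u, hu, ?_⟩
  rw [inter_comm B u, ← h1]
  ext y
  exact ⟨fun hy => ⟨hy.2.2, hy.1⟩, fun hy => ⟨hy.2, hm hy.2, hy.1⟩⟩

theorem OpenIn.preimage {U A : Set Y} {B : Set Y'} {f : Y' → Y} (h : OpenIn U A)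
    (hf : ContinuousOn f B) (hm : MapsTo f B A) : OpenIn (B ∩ f ⁻¹' U) B := by
  obtain ⟨F, hF, rfl⟩ := h
  obtain ⟨u, hu, h1⟩ := continuousOn_iff'.1 hf F hF
  refine ⟨u, hu, ?_⟩
  rw [inter_comm B u, ← h1]
  ext y
  exact ⟨fun hy => ⟨hy.2.2, hy.1⟩, fun hy => ⟨hy.2, hm hy.2, hy.1⟩⟩

theorem ClosedIn.isCompact {S C A : Set Y} (h : ClosedIn S A) (hC : IsCompact C) (hCA : C ⊆ A)
    (hS : S ⊆ C) : IsCompact S := by
  obtain ⟨F, hF, rfl⟩ := h
  have h1 : A ∩ F = C ∩ F :=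
    Subset.antisymm (subset_inter hS inter_subset_right) (inter_subset_inter_left _ hCA)
  rw [h1]
  exact hC.inter_right hF

theorem LC.closedIn {A' A : Set Y} (hA : LC A) (h : ClosedIn A' A) : LC A' := by
  obtain ⟨F, hF, rfl⟩ := h
  intro y hy
  obtain ⟨C, hC, hCA, hCy⟩ := hA y hy.1
  exact ⟨C ∩ F, hC.inter_right hF, inter_subset_inter_left _ hCA,
    inter_mem (nhdsWithin_mono y inter_subset_left hCy)
      (mem_of_superset self_mem_nhdsWithin inter_subset_right)⟩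

theorem LC.openIn [T2Space Y] {U A : Set Y} (hA : LC A) (h : OpenIn U A) : LC U := by
  obtain ⟨O, hO, rfl⟩ := h
  intro y hy
  obtain ⟨C, hC, hCA, hCy⟩ := hA y hy.1
  obtain ⟨W2, W1, hW2, hW1, h2, h1, hd⟩ :=
    (hC.diff hO).separation_of_notMem (x := y) (fun h => h.2 hy.2)
  refine ⟨C \ W2, hC.diff hW2, fun z hz => ⟨hCA hz.1, ?_⟩, ?_⟩
  · by_contra hz2
    exact hz.2 (h2 ⟨hz.1, hz2⟩)
  · refine mem_of_superset (inter_mem (nhdsWithin_mono y inter_subset_left hCy)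
      (mem_nhdsWithin_of_mem_nhds (hW1.mem_nhds h1))) fun z hz => ⟨hz.1, fun h => ?_⟩
    exact Set.disjoint_left.1 hd h hz.2

theorem LC.inter [T2Space Y] {A B : Set Y} (hA : LC A) (hB : LC B) : LC (A ∩ B) := by
  intro y hy
  obtain ⟨C, hC, hCA, hCy⟩ := hA y hy.1
  obtain ⟨D, hD, hDB, hDy⟩ := hB y hy.2
  exact ⟨C ∩ D, hC.inter hD, inter_subset_inter hCA hDB,
    inter_mem (nhdsWithin_mono y inter_subset_left hCy) (nhdsWithin_mono y inter_subset_right hDy)⟩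

theorem LC.of_isClosed [LocallyCompactSpace Y] {A : Set Y} (hA : IsClosed A) : LC A := by
  intro y _
  obtain ⟨C, hC, hCy⟩ := exists_compact_mem_nhds y
  exact ⟨C ∩ A, hC.inter_right hA, inter_subset_right,
    inter_mem (mem_nhdsWithin_of_mem_nhds hCy) self_mem_nhdsWithin⟩

theorem LC.prod {A : Set Y} {A' : Set Y'} (hA : LC A) (hA' : LC A') : LC (A ×ˢ A') := by
  intro y hy
  obtain ⟨C, hC, hCA, hCy⟩ := hA y.1 hy.1
  obtain ⟨D, hD, hDB, hDy⟩ := hA' y.2 hy.2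
  exact ⟨C ×ˢ D, hC.prod hD, prod_mono hCA hDB, nhdsWithin_prod hCy hDy⟩

theorem LC.of_isCompact {A : Set Y} (hA : IsCompact A) : LC A :=
  fun _ _ => ⟨A, hA, Subset.rfl, self_mem_nhdsWithin⟩

theorem LC.univ [LocallyCompactSpace Y] : LC (univ : Set Y) := LC.of_isClosed isClosed_univ

theorem LC.of_homeoOn {A : Set Y} {A' : Set Y'} {f : Y' → Y} {g : Y → Y'} (h : HomeoOn f g A' A)
    (hA : LC A) : LC A' := by
  obtain ⟨hf, hg, mf, mg, gf, -⟩ := h
  intro y hy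
  obtain ⟨C, hC, hCA, hCy⟩ := hA (f y) (mf hy)
  refine ⟨g '' C, hC.image_of_continuousOn (hg.mono hCA), ?_, ?_⟩
  · rintro _ ⟨x, hx, rfl⟩
    exact mg (hCA hx)
  · have h1 : f ⁻¹' C ∈ 𝓝[A'] y := (hf y hy).tendsto_nhdsWithin mf hCy
    exact mem_of_superset (inter_mem h1 self_mem_nhdsWithin)
      fun z hz => ⟨f z, hz.1, gf z hz.2⟩

theorem HomeoOn.symm {A : Set Y} {A' : Set Y'} {f : Y' → Y} {g : Y → Y'} (h : HomeoOn f g A' A) :
    HomeoOn g f A A' :=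
  ⟨h.2.1, h.1, h.2.2.2.1, h.2.2.1, h.2.2.2.2.2, h.2.2.2.2.1⟩

theorem HomeoOn.properOn {A : Set Y} {A' : Set Y'} {f : Y' → Y} {g : Y → Y'}
    (h : HomeoOn f g A' A) : ProperOn f A' A := by
  obtain ⟨hf, hg, mf, mg, gf, fg⟩ := h
  refine ⟨hf, mf, fun C hC hCA => ?_⟩
  have h1 : A' ∩ f ⁻¹' C = g '' C := by
    ext y
    constructor
    · intro hy
      exact ⟨f y, hy.2, gf y hy.1⟩
    · rintro ⟨x, hx, rfl⟩
      refine ⟨mg (hCA hx), ?_⟩
      rw [mem_preimage, fg x (hCA hx)]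
      exact hx
  rw [h1]
  exact hC.image_of_continuousOn (hg.mono hCA)

theorem HomeoOn.restrict {A B : Set Y} {A' : Set Y'} {f : Y' → Y} {g : Y → Y'}
    (h : HomeoOn f g A' A) (hB : B ⊆ A) : HomeoOn f g (A' ∩ f ⁻¹' B) B := by
  obtain ⟨hf, hg, -, mg, gf, fg⟩ := h
  refine ⟨hf.mono inter_subset_left, hg.mono hB, fun y hy => hy.2, fun y hy => ⟨mg (hB hy), ?_⟩,
    fun y hy => gf y hy.1, fun y hy => fg y (hB hy)⟩
  rw [mem_preimage, fg y (hB hy)]
  exact hy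

theorem ClosedIn.properOn {A' A : Set Y} (h : ClosedIn A' A) : ProperOn id A' A := by
  refine ⟨continuousOn_id, h.subset, fun C hC hCA => ?_⟩
  have h1 : ClosedIn (A' ∩ C) (A ∩ C) := h.inter_right C
  rw [inter_eq_right.2 hCA] at h1
  exact h1.isCompact hC Subset.rfl inter_subset_right

theorem ProperOn.comp [TopologicalSpace Y''] {A : Set Y} {A' : Set Y'} {A'' : Set Y''}
    {f : Y' → Y} {g : Y'' → Y'} (hf : ProperOn f A' A) (hg : ProperOn g A'' A') :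
    ProperOn (f ∘ g) A'' A := by
  refine ⟨hf.1.comp hg.1 hg.2.1, hf.2.1.comp hg.2.1, fun C hC hCA => ?_⟩
  have h1 : A'' ∩ (f ∘ g) ⁻¹' C = A'' ∩ g ⁻¹' (A' ∩ f ⁻¹' C) := by
    ext y
    exact ⟨fun hy => ⟨hy.1, hg.2.1 hy.1, hy.2⟩, fun hy => ⟨hy.1, hy.2.2⟩⟩
  rw [h1]
  exact hg.2.2 _ (hf.2.2 C hC hCA) inter_subset_left

theorem ProperOn.restrict {A B : Set Y} {A' : Set Y'} {f : Y' → Y} (hf : ProperOn f A' A)
    (hB : B ⊆ A) : ProperOn f (A' ∩ f ⁻¹' B) B := by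
  refine ⟨hf.1.mono inter_subset_left, fun y hy => hy.2, fun C hC hCB => ?_⟩
  have h1 : A' ∩ f ⁻¹' B ∩ f ⁻¹' C = A' ∩ f ⁻¹' C := by
    ext y
    exact ⟨fun hy => ⟨hy.1.1, hy.2⟩, fun hy => ⟨⟨hy.1, hCB hy.2⟩, hy.2⟩⟩
  rw [h1]
  exact hf.2.2 C hC (hCB.trans hB)

theorem Supp_image_closedIn [T2Space Y] {A : Set Y} {A' S : Set Y'} {f : Y' → Y}
    (hf : ProperOn f A' A) (hA : LC A) (hS : ClosedIn S A') : ClosedIn (f '' S) A := by
  have hSA : f '' S ⊆ A := by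
    rintro _ ⟨x, hx, rfl⟩
    exact hf.2.1 (hS.subset hx)
  refine ⟨closure (f '' S), isClosed_closure,
    Subset.antisymm (subset_inter hSA subset_closure) ?_⟩
  rintro y ⟨hyA, hy⟩
  obtain ⟨C, hC, hCA, hCy⟩ := hA y hyA
  have hK : IsCompact (S ∩ f ⁻¹' C) :=
    (hS.inter_right (f ⁻¹' C)).isCompact (hf.2.2 C hC hCA) Subset.rfl
      (inter_subset_inter_left _ hS.subset)
  have hK2 : IsClosed (f '' (S ∩ f ⁻¹' C)) :=
    (hK.image_of_continuousOn (hf.1.mono (inter_subset_left.trans hS.subset))).isClosed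
  obtain ⟨O, hO, hOC⟩ := mem_nhdsWithin_iff_exists_mem_nhds_inter.1 hCy
  have h1 : y ∈ closure (f '' (S ∩ f ⁻¹' C)) := by
    refine mem_closure_iff_nhds.2 fun W hW => ?_
    obtain ⟨_, hz, x, hx, rfl⟩ := mem_closure_iff_nhds.1 hy (W ∩ O) (inter_mem hW hO)
    exact ⟨f x, hz.1, x, ⟨hx, hOC ⟨hz.2, hf.2.1 (hS.subset hx)⟩⟩, rfl⟩
  rw [hK2.closure_eq] at h1
  exact image_mono inter_subset_left h1

theorem ProperOn.of_isCompact [T2Space Y] {A : Set Y} {A' : Set Y'} {f : Y' → Y}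
    (hA' : IsCompact A') (hf : ContinuousOn f A') (hm : MapsTo f A' A) : ProperOn f A' A := by
  refine ⟨hf, hm, fun C hC _ => ?_⟩
  obtain ⟨u, hu, h1⟩ := continuousOn_iff_isClosed.1 hf C hC.isClosed
  rw [inter_comm, h1]
  exact hA'.inter_left hu

/-- A proper bijection onto a locally compact set is a homeomorphism. -/
theorem ProperOn.exists_homeoOn [T2Space Y] [Nonempty Y'] {A : Set Y} {A' : Set Y'} {f : Y' → Y}
    (hf : ProperOn f A' A) (hA : LC A) (hb : BijOn f A' A) : ∃ g, HomeoOn f g A' A := by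
  have hi := hb.invOn_invFunOn
  have mg : MapsTo (Function.invFunOn f A') A A' := hb.surjOn.mapsTo_invFunOn
  refine ⟨Function.invFunOn f A', hf.1, ?_, hf.2.1, mg, fun y hy => hi.1 hy, fun y hy => hi.2 hy⟩
  refine continuousOn_iff_isClosed.2 fun t ht => ?_
  obtain ⟨F, hF, h1⟩ := Supp_image_closedIn hf hA (S := A' ∩ t) ⟨t, ht, rfl⟩
  refine ⟨F, hF, ?_⟩
  rw [inter_comm F A, ← h1]
  ext y
  constructor
  · intro hy
    exact ⟨_, ⟨mg hy.2, hy.1⟩, hi.2 hy.2⟩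
  · rintro ⟨x, hx, rfl⟩
    refine ⟨?_, hf.2.1 hx.1⟩
    rw [mem_preimage, hi.1 hx.1]
    exact hx.2

/-- The image of a closed set under a proper map is closed. -/
theorem ProperOn.image_closedIn [T2Space Y] {A : Set Y} {A' S : Set Y'} {f : Y' → Y}
    (hf : ProperOn f A' A) (hA : LC A) (hS : ClosedIn S A') : ClosedIn (f '' S) A :=
  Supp_image_closedIn hf hA hS


end supports

/-- Ambient spaces: metrizable and second countable. -/
class Nice (Y : Type) [TopologicalSpace Y] : Prop where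
  metr : TopologicalSpace.MetrizableSpace Y
  sc : SecondCountableTopology Y

instance Nice.toMetr [TopologicalSpace Y] [h : Nice Y] : TopologicalSpace.MetrizableSpace Y :=
  h.metr
instance Nice.toSc [TopologicalSpace Y] [h : Nice Y] : SecondCountableTopology Y := h.sc
instance Nice.prod [TopologicalSpace Y] [TopologicalSpace Y'] [Nice Y] [Nice Y'] :
    Nice (Y × Y') := ⟨inferInstance, inferInstance⟩
instance Nice.pi {ι : Type} [Countable ι] {Z : ι → Type} [∀ i, TopologicalSpace (Z i)]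
    [∀ i, Nice (Z i)] : Nice (∀ i, Z i) :=
  ⟨TopologicalSpace.metrizableSpace_of_t3_secondCountable _, inferInstance⟩

instance Nice.matrix {ι κ : Type} [Finite ι] [Finite κ] : Nice (Matrix ι κ ℂ) := by
  have h1 : Nice ℂ := ⟨inferInstance, inferInstance⟩
  exact inferInstanceAs (Nice (ι → κ → ℂ))

instance Nice.complex : Nice ℂ := ⟨inferInstance, inferInstance⟩
instance Nice.real : Nice ℝ := ⟨inferInstance, inferInstance⟩
instance Nice.unit : Nice Unit := ⟨inferInstance, inferInstance⟩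
instance Nice.subtype [TopologicalSpace Y] [Nice Y] (A : Set Y) : Nice A :=
  ⟨inferInstance, inferInstance⟩
theorem Nice.normed (F : Type) [NormedAddCommGroup F] [NormedSpace ℝ F] [FiniteDimensional ℝ F] :
    Nice F := by
  have h1 : ProperSpace F := FiniteDimensional.proper ℝ F
  exact ⟨inferInstance, inferInstance⟩


end Pool.Agent.HK
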