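import Pool.Agent.P.MP_1206ce_ag.AS.Basic

/-! Functoriality of twisted pull-back and extension by zero. -/

open scoped Topology
open Filter Set

noncomputable section

namespace Pool.Agent.HK

variable {Y Y' Y'' : Type} [TopologicalSpace Y] [TopologicalSpace Y'] [TopologicalSpace Y'']

theorem Tw_cup_N0_left {A : Set Y} {a : Coch Y} (ha : a ∈ N0 A) (b : Coch Y) : cup a b ∈ N0 A :=
  subset_eq_empty ((supp_cup A a b).trans inter_subset_left) ha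

theorem Tw_cup_N0_right {A : Set Y} (a : Coch Y) {b : Coch Y} (hb : b ∈ N0 A) : cup a b ∈ N0 A :=
  subset_eq_empty ((supp_cup A a b).trans inter_subset_right) hb

theorem Tw_pb_N0 {A : Set Y} {A' : Set Y'} {π : Y' → Y} (hc : ContinuousOn π A')
    (hm : MapsTo π A' A) {a : Coch Y} (ha : a ∈ N0 A) : pb π a ∈ N0 A' := by
  refine subset_eq_empty (supp_pb hc hm a) ?_
  rw [mem_N0.1 ha, preimage_empty]

theorem Tw_N0_mono {A B : Set Y} (h : B ⊆ A) {a : Coch Y} (ha : a ∈ N0 A) : a ∈ N0 B :=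
  subset_eq_empty (supp_mono h a) ha

theorem Tw_dd_N0 {A : Set Y} {a : Coch Y} (ha : a ∈ N0 A) : dd a ∈ N0 A :=
  subset_eq_empty (supp_dd A a) ha

omit [TopologicalSpace Y] in
theorem Tw_sgC_sgC (a : Coch Y) : sgC (sgC a) = a := by
  funext l
  simp only [sgC]
  rw [← mul_assoc, ← mul_pow]
  simp

omit [TopologicalSpace Y] in
theorem Tw_dd_sgC (a : Coch Y) : dd (sgC a) = -sgC (dd a) := by
  funext l
  simp only [dd, sgC, Pi.neg_apply, Finset.mul_sum, ← Finset.sum_neg_distrib]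
  refine Finset.sum_congr rfl fun i hi => ?_
  rw [Finset.mem_range] at hi
  rw [List.length_eraseIdx_of_lt hi, Nat.sub_add_cancel (by omega), pow_succ]
  ring

omit [TopologicalSpace Y] [TopologicalSpace Y'] in
theorem Tw_pb_sgC (π : Y' → Y) (a : Coch Y) : pb π (sgC a) = sgC (pb π a) := by
  funext l
  simp [pb, sgC]

theorem Tw_CC {A : Set Y} {A' : Set Y'} {π : Y' → Y} {w : Coch Y'} (hc : ContinuousOn π A')
    (hm : MapsTo π A' A) (hw : Bdd w) (hp : PropOver A A' π w) {a : Coch Y}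
    (ha : a ∈ CC (cc A) A) : cup (pb π a) w ∈ CC (cc A') A' := by
  rw [mem_CC_cc] at ha ⊢
  refine ⟨(ha.1.pb π).cup hw, ?_⟩
  obtain ⟨C', h1, h2, h3⟩ := hp _ ha.2 (supp_subset A a)
  refine (supp_closedIn A' _).isCompact h1 h2 fun y hy => h3 ?_
  have := supp_cup A' _ _ hy
  exact ⟨this.2, supp_pb hc hm a this.1⟩

theorem Tw_PropOver_mono {A : Set Y} {A' : Set Y'} {π : Y' → Y} {w w' : Coch Y'}
    (h : PropOver A A' π w) (hs : supp A' w' ⊆ supp A' w) : PropOver A A' π w' := by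
  intro C hC hCA
  obtain ⟨C', h1, h2, h3⟩ := h C hC hCA
  exact ⟨C', h1, h2, (inter_subset_inter_left _ hs).trans h3⟩

theorem Tw_PropOver_of_proper {A : Set Y} {A' : Set Y'} {π : Y' → Y} (h : ProperOn π A' A)
    (w : Coch Y') : PropOver A A' π w := fun C hC hCA =>
  ⟨A' ∩ π ⁻¹' C, h.2.2 C hC hCA, inter_subset_left, inter_subset_inter_left _ (supp_subset A' w)⟩

theorem Tw_induced {F : Filter Y} {A : Set Y} {F' : Filter Y'} {A' : Set Y'}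
    {T : Coch Y → Coch Y'}
    (h : ∃ L : H F A →ₗ[ℂ] H F' A', ∀ c ∈ ZZ F A, L (cls F A c) = cls F' A' (T c))
    {c : Coch Y} (hc : c ∈ ZZ F A) : induced F A F' A' T (cls F A c) = cls F' A' (T c) := by
  rw [induced, dif_pos h]
  exact Classical.choose_spec h c hc

theorem Tw_ext {F : Filter Y} {A : Set Y} {M : Type} [AddCommGroup M] [Module ℂ M]
    {L L' : H F A →ₗ[ℂ] M} (h : ∀ c ∈ ZZ F A, L (cls F A c) = L' (cls F A c)) : L = L' := by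
  refine LinearMap.ext fun x => ?_
  obtain ⟨c, hc, rfl⟩ := cls_surj x
  exact h c hc

theorem Tw_mem_BB {A : Set Y} {A' : Set Y'} {π : Y' → Y} {w : Coch Y'} (h : TwOK A A' π w)
    {a : Coch Y} (ha : a ∈ BB (cc A) A) : cup (pb π a) w ∈ BB (cc A') A' := by
  obtain ⟨e, he, hae⟩ := ha
  refine ⟨cup (pb π e) w, Tw_CC h.1 h.2.1 h.2.2.1.1.1 h.2.2.2 he, ?_⟩
  rw [dd_cup (he.1.pb π).1 h.2.2.1.1.1.1, ← pb_dd, ← sub_sub, ← sub_cup, ← pb_sub]
  exact (N0 A').sub_mem (Tw_cup_N0_left (Tw_pb_N0 h.1 h.2.1 hae) _) (Tw_cup_N0_right _ h.2.2.1.2)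

theorem TwOK.mem_ZZ {A : Set Y} {A' : Set Y'} {π : Y' → Y} {w : Coch Y'} (h : TwOK A A' π w)
    {a : Coch Y} (ha : a ∈ ZZ (cc A) A) : cup (pb π a) w ∈ ZZ (cc A') A' := by
  refine ⟨Tw_CC h.1 h.2.1 h.2.2.1.1.1 h.2.2.2 ha.1, ?_⟩
  rw [dd_cup (ha.1.1.pb π).1 h.2.2.1.1.1.1, ← pb_dd]
  exact (N0 A').add_mem (Tw_cup_N0_left (Tw_pb_N0 h.1 h.2.1 ha.2) _) (Tw_cup_N0_right _ h.2.2.1.2)

theorem tw_cls {A : Set Y} {A' : Set Y'} {π : Y' → Y} {w : Coch Y'} (h : TwOK A A' π w)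
    {a : Coch Y} (ha : a ∈ ZZ (cc A) A) :
    tw A A' π w (clc A a) = clc A' (cup (pb π a) w) := by
  let T : Coch Y →ₗ[ℂ] Coch Y' :=
    { toFun := fun a => cup (pb π a) w
      map_add' := fun a b => by rw [pb_add, add_cup]
      map_smul' := fun z a => by rw [pb_smul, smul_cup]; rfl }
  exact Tw_induced (T := fun a => cup (pb π a) w)
    (exists_induced T (fun c hc => h.mem_ZZ hc) fun c _ hc => Tw_mem_BB h hc) ha

theorem ProperOn.twOK {A : Set Y} {A' : Set Y'} {π : Y' → Y} (h : ProperOn π A' A) {w : Coch Y'}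
    (hw : w ∈ ZZ ⊥ A') : TwOK A A' π w :=
  ⟨h.1, h.2.1, hw, Tw_PropOver_of_proper h w⟩

theorem TwOK.cup_left {A : Set Y} {A' : Set Y'} {π : Y' → Y} {w : Coch Y'} (h : TwOK A A' π w)
    {v : Coch Y'} (hv : v ∈ ZZ ⊥ A') : TwOK A A' π (cup v w) :=
  ⟨h.1, h.2.1, cup_mem_ZZ hv h.2.2.1,
    Tw_PropOver_mono h.2.2.2 ((supp_cup A' v w).trans inter_subset_right)⟩

theorem TwOK.cup_right {A : Set Y} {A' : Set Y'} {π : Y' → Y} {w : Coch Y'} (h : TwOK A A' π w)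
    {v : Coch Y'} (hv : v ∈ ZZ ⊥ A') : TwOK A A' π (cup w v) :=
  ⟨h.1, h.2.1, cup_mem_ZZ h.2.2.1 hv,
    Tw_PropOver_mono h.2.2.2 ((supp_cup A' w v).trans inter_subset_left)⟩

theorem TwOK.comp {A : Set Y} {A' : Set Y'} {A'' : Set Y''} {π : Y' → Y} {w : Coch Y'}
    {π' : Y'' → Y'} {w' : Coch Y''} (h : TwOK A A' π w) (h' : TwOK A' A'' π' w') :
    TwOK A A'' (π ∘ π') (cup (pb π' w) w') := by
  refine ⟨h.1.comp h'.1 h'.2.1, h.2.1.comp h'.2.1,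
    cup_mem_ZZ (pb_mem_ZZ h'.1 h'.2.1 h.2.2.1) h'.2.2.1, fun C hC hCA => ?_⟩
  obtain ⟨C', h1, h2, h3⟩ := h.2.2.2 C hC hCA
  obtain ⟨C'', h4, h5, h6⟩ := h'.2.2.2 C' h1 h2
  refine ⟨C'', h4, h5, fun y hy => h6 ?_⟩
  have := supp_cup A'' _ _ hy.1
  exact ⟨this.2, h3 ⟨supp_pb h'.1 h'.2.1 w this.1, hy.2⟩⟩

theorem TwOK.restrict [T2Space Y] {A B : Set Y} {A' : Set Y'} {π : Y' → Y} {w : Coch Y'} (h : TwOK A A' π w)
    (hB : B ⊆ A) : TwOK B (A' ∩ π ⁻¹' B) π w := by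
  refine ⟨h.1.mono inter_subset_left, fun y hy => hy.2,
    ⟨mem_CC_bot.2 h.2.2.1.1.1, Tw_N0_mono inter_subset_left h.2.2.1.2⟩, fun C hC hCB => ?_⟩
  obtain ⟨C', h1, h2, h3⟩ := h.2.2.2 C hC (hCB.trans hB)
  have h4 : ClosedIn C A := ⟨C, hC.isClosed, (inter_eq_right.2 (hCB.trans hB)).symm⟩
  refine ⟨C' ∩ π ⁻¹' C, (h4.preimage (h.1.mono h2) (h.2.1.mono_left h2)).isCompact h1 subset_rfl
    inter_subset_left, fun y hy => ⟨h2 hy.1, hCB hy.2⟩, fun y hy => ⟨h3 ⟨?_, hy.2⟩, hy.2⟩⟩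
  exact supp_mono inter_subset_left w hy.1

theorem tw_comp {A : Set Y} {A' : Set Y'} {A'' : Set Y''} {π : Y' → Y} {w : Coch Y'}
    {π' : Y'' → Y'} {w' : Coch Y''} (h : TwOK A A' π w) (h' : TwOK A' A'' π' w') :
    tw A' A'' π' w' ∘ₗ tw A A' π w = tw A A'' (π ∘ π') (cup (pb π' w) w') := by
  refine Tw_ext fun a ha => ?_
  rw [LinearMap.comp_apply, tw_cls h ha, tw_cls h' (h.mem_ZZ ha), tw_cls (h.comp h') ha, pb_cup,
    pb_pb, cup_assoc]

theorem tw_id_one (A : Set Y) : tw A A id one = LinearMap.id := by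
  refine Tw_ext fun a ha => ?_
  rw [tw_cls ((ClosedIn.refl A).properOn.twOK (one_mem_ZZ A)) ha, pb_id, cup_one ha.1.1.1]
  rfl

theorem tw_congr_map {A : Set Y} {A' : Set Y'} {π π' : Y' → Y} {w : Coch Y'} (h : TwOK A A' π w)
    (hπ : EqOn π π' A') : TwOK A A' π' w ∧ tw A A' π w = tw A A' π' w := by
  have h' : TwOK A A' π' w := by
    refine ⟨h.1.congr hπ.symm, h.2.1.congr hπ, h.2.2.1, fun C hC hCA => ?_⟩
    obtain ⟨C', h1, h2, h3⟩ := h.2.2.2 C hC hCA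
    refine ⟨C', h1, h2, fun y hy => h3 ⟨hy.1, ?_⟩⟩
    rw [mem_preimage, hπ (supp_subset A' w hy.1)]
    exact hy.2
  refine ⟨h', Tw_ext fun a ha => ?_⟩
  rw [tw_cls h ha, tw_cls h' ha, cls_eq_iff (h.mem_ZZ ha) (h'.mem_ZZ ha), ← sub_cup]
  exact N0_le_BB _ _ (Tw_cup_N0_left (supp_pb_congr hπ a) w)

theorem tw_congr {A : Set Y} {A' : Set Y'} {π : Y' → Y} {w w' e : Coch Y'} (h : TwOK A A' π w)
    (h' : TwOK A A' π w') (he : Bdd e) (hp : PropOver A A' π e) (hw : w - w' - dd e ∈ N0 A') :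
    tw A A' π w = tw A A' π w' := by
  refine Tw_ext fun a ha => ?_
  rw [tw_cls h ha, tw_cls h' ha, cls_eq_iff (h.mem_ZZ ha) (h'.mem_ZZ ha), ← cup_sub]
  have hs : sgC a ∈ CC (cc A) A := ⟨ha.1.1.sgC, by rw [supp_sgC]; exact ha.1.2⟩
  refine ⟨cup (pb π (sgC a)) e, Tw_CC h.1 h.2.1 he hp hs, ?_⟩
  rw [dd_cup (hs.1.pb π).1 he.1, ← pb_dd, ← Tw_pb_sgC, Tw_sgC_sgC, add_comm, ← sub_sub, ← cup_sub]
  refine (N0 A').sub_mem (Tw_cup_N0_right _ hw) (Tw_cup_N0_left (Tw_pb_N0 h.1 h.2.1 ?_) _)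
  rw [Tw_dd_sgC]
  refine (N0 A).neg_mem ?_
  rw [mem_N0, supp_sgC]
  exact ha.2

theorem tw_congr_proper {A : Set Y} {A' : Set Y'} {π : Y' → Y} {w w' : Coch Y'}
    (h : ProperOn π A' A) (hw : w ∈ ZZ ⊥ A') (hw' : w' ∈ ZZ ⊥ A') (hb : w - w' ∈ BB ⊥ A') :
    tw A A' π w = tw A A' π w' := by
  obtain ⟨e, he, hb⟩ := hb
  exact tw_congr (h.twOK hw) (h.twOK hw') he.1 (Tw_PropOver_of_proper h e) hb

/-- Changing the ordinary factor `v` of a twisting cocycle `v ∪ w` within its class. -/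
theorem tw_congr_left {A : Set Y} {A' : Set Y'} {π : Y' → Y} {w v v' : Coch Y'}
    (h : TwOK A A' π w) (hv : v ∈ ZZ ⊥ A') (hv' : v' ∈ ZZ ⊥ A') (hb : v - v' ∈ BB ⊥ A') :
    tw A A' π (cup v w) = tw A A' π (cup v' w) := by
  obtain ⟨e, he, hb⟩ := hb
  refine tw_congr (h.cup_left hv) (h.cup_left hv') (he.1.cup h.2.2.1.1.1)
    (Tw_PropOver_mono h.2.2.2 ((supp_cup A' e w).trans inter_subset_right)) ?_
  rw [dd_cup he.1.1 h.2.2.1.1.1.1, ← sub_sub, ← sub_cup, ← sub_cup]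
  exact (N0 A').sub_mem (Tw_cup_N0_left hb _) (Tw_cup_N0_right _ h.2.2.1.2)

theorem tw_add {A : Set Y} {A' : Set Y'} {π : Y' → Y} {w w' : Coch Y'} (h : TwOK A A' π w)
    (h' : TwOK A A' π w') : TwOK A A' π (w + w') ∧
      tw A A' π (w + w') = tw A A' π w + tw A A' π w' := by
  have h'' : TwOK A A' π (w + w') := by
    refine ⟨h.1, h.2.1, (ZZ ⊥ A').add_mem h.2.2.1 h'.2.2.1, fun C hC hCA => ?_⟩
    obtain ⟨C', h1, h2, h3⟩ := h.2.2.2 C hC hCA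
    obtain ⟨C'', h4, h5, h6⟩ := h'.2.2.2 C hC hCA
    refine ⟨C' ∪ C'', h1.union h4, union_subset h2 h5, fun y hy => ?_⟩
    exact (supp_add A' w w' hy.1).imp (fun hy' => h3 ⟨hy', hy.2⟩) fun hy' => h6 ⟨hy', hy.2⟩
  refine ⟨h'', Tw_ext fun a ha => ?_⟩
  rw [LinearMap.add_apply, tw_cls h ha, tw_cls h' ha, tw_cls h'' ha, cup_add]
  exact cls_add (h.mem_ZZ ha) (h'.mem_ZZ ha)

theorem tw_smul {A : Set Y} {A' : Set Y'} {π : Y' → Y} {w : Coch Y'} (h : TwOK A A' π w) (z : ℂ) :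
    TwOK A A' π (z • w) ∧ tw A A' π (z • w) = z • tw A A' π w := by
  have h'' : TwOK A A' π (z • w) :=
    ⟨h.1, h.2.1, (ZZ ⊥ A').smul_mem z h.2.2.1, Tw_PropOver_mono h.2.2.2 (supp_smul A' z w)⟩
  refine ⟨h'', Tw_ext fun a ha => ?_⟩
  rw [LinearMap.smul_apply, tw_cls h ha, tw_cls h'' ha, cup_smul]
  exact cls_smul z (h.mem_ZZ ha)

theorem tw_prH {A : Set Y} {A' : Set Y'} {π : Y' → Y} {w : Coch Y'} (h : TwOK A A' π w) {m : ℤ}
    (hm : HomC m w) (k : ℤ) (x : Hc A) :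
    prH _ A' (k + m) (tw A A' π w x) = tw A A' π w (prH _ A k x) := by
  obtain ⟨a, ha, rfl⟩ := cls_surj x
  rw [tw_cls h ha, prH_cls _ (h.mem_ZZ ha), prH_cls _ ha, tw_cls h (prC_mem_ZZ k ha),
    prC_cup_right k _ hm, prC_pb]

theorem Tw_homeo_comp {A : Set Y} {A' : Set Y'} {f : Y' → Y} {g : Y → Y'}
    (h : HomeoOn f g A' A) : tw A' A g one ∘ₗ tw A A' f one = LinearMap.id := by
  have h1 := h.properOn.twOK (one_mem_ZZ A')
  have h2 := h.symm.properOn.twOK (one_mem_ZZ A)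
  have h3 := h1.comp h2
  rw [tw_comp h1 h2]
  rw [pb_one, one_cup Bdd.one.1] at h3 ⊢
  rw [(tw_congr_map h3 (π' := id) fun y hy => h.2.2.2.2.2 y hy).2, tw_id_one]

theorem HomeoOn.tw_bijective {A : Set Y} {A' : Set Y'} {f : Y' → Y} {g : Y → Y'}
    (h : HomeoOn f g A' A) : Function.Bijective (tw A A' f one) := by
  refine Function.bijective_iff_has_inverse.2 ⟨tw A' A g one, fun x => ?_, fun x => ?_⟩
  · exact LinearMap.congr_fun (Tw_homeo_comp h) x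
  · exact LinearMap.congr_fun (Tw_homeo_comp h.symm) x

theorem HomeoOn.subsingleton {A : Set Y} {A' : Set Y'} {f : Y' → Y} {g : Y → Y'}
    (h : HomeoOn f g A' A) (hA : Subsingleton (Hc A)) : Subsingleton (Hc A') :=
  h.tw_bijective.2.subsingleton

section ext
variable [Nice Y] [Nice Y']

omit [Nice Y] in
theorem Tw_supp_eq {U A : Set Y} (h : OpenIn U A) {a : Coch Y} (hs : supp A a ⊆ U) :
    supp U a = supp A a := by
  rw [supp_openIn h, inter_eq_right.2 hs]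

omit [Nice Y] in
theorem Tw_CC_of_supp {U A : Set Y} (h : OpenIn U A) {a : Coch Y} (ha : a ∈ CC (cc A) A)
    (hs : supp A a ⊆ U) : a ∈ CC (cc U) U := by
  rw [mem_CC_cc] at ha ⊢
  rw [Tw_supp_eq h hs]
  exact ha

omit [Nice Y] in
theorem Tw_ZZ_of_supp {U A : Set Y} (h : OpenIn U A) {a : Coch Y} (ha : a ∈ ZZ (cc A) A)
    (hs : supp A a ⊆ U) : a ∈ ZZ (cc U) U :=
  ⟨Tw_CC_of_supp h ha.1 hs, Tw_N0_mono h.subset ha.2⟩

omit [Nice Y] in
theorem Tw_compact_directed {ι : Type} [Nonempty ι] {A : Set Y} (U : ι → Set Y)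
    (hU : ∀ i, OpenIn (U i) A) (hd : Directed (· ⊆ ·) U) (hc : A ⊆ ⋃ i, U i) {K : Set Y}
    (hK : IsCompact K) (hKA : K ⊆ A) : ∃ j, K ⊆ U j := by
  choose O hO hUO using hU
  obtain ⟨t, ht⟩ := hK.elim_finite_subcover O hO fun y hy => by
    obtain ⟨i, hi⟩ := mem_iUnion.1 (hc (hKA hy))
    rw [hUO i] at hi
    exact mem_iUnion.2 ⟨i, hi.2⟩
  obtain ⟨j, hj⟩ := hd.finset_le t
  refine ⟨j, fun y hy => ?_⟩
  obtain ⟨i, hi, hyi⟩ := mem_iUnion₂.1 (ht hy)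
  refine hj i hi ?_
  rw [hUO i]
  exact ⟨hKA hy, hyi⟩

/-- Representatives of extensions by zero: `ext0 V a` for an open `V` between the support and `U`
whose closure meets `A` inside `U`. -/
theorem exists_ext_rep {U A : Set Y} (h : OpenIn U A) {a : Coch Y} (ha : a ∈ CC (cc U) U) :
    ∃ a' ∈ CC (cc A) A, supp A a' = supp U a ∧ supp A (dd a') = supp U (dd a) ∧ a' - a ∈ N0 U ∧
      ∀ k, HomC k a → HomC k a' := by
  have h' := h
  obtain ⟨O, hO, hUO⟩ := h'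
  rw [mem_CC_cc] at ha
  have hKO : supp U a ⊆ O := fun y hy => by
    have := supp_subset U a hy
    rw [hUO] at this
    exact this.2
  obtain ⟨V, hV, hKV, hVO⟩ := normal_exists_closure_subset ha.2.isClosed hO hKO
  have key : ∀ c : Coch Y, supp A c ∩ closure V ⊆ supp U c := fun c y hy => by
    rw [supp_openIn h, hUO]
    exact ⟨⟨supp_subset A c hy.1, hVO hy.2⟩, hy.1⟩
  have hsub := supp_ext0_sub A hV a
  have e1 : supp A (ext0 V a) = supp U a := by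
    refine subset_antisymm ((supp_ext0 A V ha.1.1).trans (key a)) fun y hy => ?_
    have h1 : y ∈ supp A (ext0 V a - (ext0 V a - a)) := by
      rw [sub_sub_cancel]; exact supp_mono h.subset a hy
    exact (supp_sub A _ _ h1).resolve_right fun h2 => (hsub h2).2 (hKV hy)
  refine ⟨ext0 V a, mem_CC_cc.2 ⟨ha.1.ext0 V, e1 ▸ ha.2⟩, e1, ?_, ?_, fun k hk => hk.ext0 V⟩
  · refine subset_antisymm (fun y hy => ?_) fun y hy => ?_
    · rcases supp_dd_ext0 A hV ha.1.1 hy with h1 | h1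
      · exact key _ ⟨h1.1, subset_closure h1.2⟩
      · exact absurd (hKV (key a ⟨h1.1, h1.2.1⟩)) h1.2.2
    · have h1 : y ∈ supp A (dd (ext0 V a) - dd (ext0 V a - a)) := by
        rw [← dd_sub, sub_sub_cancel]; exact supp_mono h.subset _ hy
      exact (supp_sub A _ _ h1).resolve_right fun h2 =>
        (hsub (supp_dd A _ h2)).2 (hKV (supp_dd U a hy))
  · exact subset_eq_empty (supp_ext0_sub U hV a) (sdiff_eq_empty.2 hKV)

theorem Tw_exists_rep {U A : Set Y} (h : OpenIn U A) (x : Hc U) :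
    ∃ a ∈ ZZ (cc A) A, supp A a ⊆ U ∧ x = clc U a := by
  obtain ⟨a, ha, rfl⟩ := cls_surj x
  obtain ⟨a', h1, h2, h3, h4, -⟩ := exists_ext_rep h ha.1
  have h5 : a' ∈ ZZ (cc A) A := ⟨h1, h3.trans ha.2⟩
  have h6 : supp A a' ⊆ U := h2 ▸ supp_subset U a
  exact ⟨a', h5, h6, ((cls_eq_iff (Tw_ZZ_of_supp h h5 h6) ha).2 (N0_le_BB _ _ h4)).symm⟩

theorem Tw_BB_of_supp {U A : Set Y} (h : OpenIn U A) {a : Coch Y} (hs : supp A a ⊆ U)
    (ha : a ∈ BB (cc U) U) : a ∈ BB (cc A) A := by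
  obtain ⟨e, he, hae⟩ := ha
  obtain ⟨e', h1, h2, -, h4, -⟩ := exists_ext_rep h he
  refine ⟨e', h1, ?_⟩
  have h5 : supp A (a - dd e') ⊆ U := (supp_sub A _ _).trans
    (union_subset hs ((supp_dd A e').trans (h2 ▸ supp_subset U e)))
  rw [mem_N0, ← Tw_supp_eq h h5, ← mem_N0]
  have h6 := (N0 U).sub_mem hae (Tw_dd_N0 h4)
  rwa [dd_sub, sub_sub, add_sub_cancel] at h6

theorem Tw_exists_ext {U A : Set Y} (h : OpenIn U A) :
    ∃ L : Hc U →ₗ[ℂ] Hc A, ∀ a ∈ ZZ (cc A) A, supp A a ⊆ U → L (clc U a) = clc A a := by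
  let Z : Submodule ℂ (Coch Y) :=
    { carrier := {a | a ∈ ZZ (cc A) A ∧ supp A a ⊆ U}
      add_mem' := fun ha hb => ⟨(ZZ _ A).add_mem ha.1 hb.1,
        (supp_add A _ _).trans (union_subset ha.2 hb.2)⟩
      zero_mem' := ⟨(ZZ _ A).zero_mem, by rw [supp_zero]; exact empty_subset _⟩
      smul_mem' := fun z a ha => ⟨(ZZ _ A).smul_mem z ha.1, (supp_smul A z a).trans ha.2⟩ }
  let p : Z →ₗ[ℂ] Hc U :=
    { toFun := fun a => clc U a.1
      map_add' := fun a b => cls_add (Tw_ZZ_of_supp h a.2.1 a.2.2) (Tw_ZZ_of_supp h b.2.1 b.2.2)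
      map_smul' := fun z a => cls_smul z (Tw_ZZ_of_supp h a.2.1 a.2.2) }
  let q : Z →ₗ[ℂ] Hc A :=
    { toFun := fun a => clc A a.1
      map_add' := fun a b => cls_add a.2.1 b.2.1
      map_smul' := fun z a => cls_smul z a.2.1 }
  have hp : LinearMap.range p = ⊤ := LinearMap.range_eq_top.2 fun x => by
    obtain ⟨a, h1, h2, h3⟩ := Tw_exists_rep h x
    exact ⟨⟨a, h1, h2⟩, h3.symm⟩
  obtain ⟨s, hs⟩ := p.exists_rightInverse_of_surjective hp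
  refine ⟨q ∘ₗ s, fun a ha hsU => ?_⟩
  set b := s (clc U a)
  have h1 : clc U b.1 = clc U a := LinearMap.congr_fun hs (clc U a)
  have h2 := (cls_eq_iff (Tw_ZZ_of_supp h b.2.1 b.2.2) (Tw_ZZ_of_supp h ha hsU)).1 h1
  exact (cls_eq_iff b.2.1 ha).2
    (Tw_BB_of_supp h ((supp_sub A _ _).trans (union_subset b.2.2 hsU)) h2)

theorem Tw_ext_cls {U A : Set Y} (h : OpenIn U A) {a : Coch Y} (ha : a ∈ ZZ (cc A) A)
    (hs : supp A a ⊆ U) : ext U A (clc U a) = clc A a := by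
  rw [ext, dif_pos (Tw_exists_ext h)]
  exact Classical.choose_spec (Tw_exists_ext h) a ha hs

theorem exists_ext_cls {U A : Set Y} (h : OpenIn U A) (x : Hc U) :
    ∃ a ∈ ZZ (cc A) A, supp A a ⊆ U ∧ a ∈ ZZ (cc U) U ∧ x = clc U a ∧ ext U A x = clc A a := by
  obtain ⟨a, h1, h2, rfl⟩ := Tw_exists_rep h x
  exact ⟨a, h1, h2, Tw_ZZ_of_supp h h1 h2, rfl, Tw_ext_cls h h1 h2⟩

/-- A compactly supported cocycle on `A` with support in `U` is its own extension by zero. -/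
theorem ext_cls_of_supp {U A : Set Y} (h : OpenIn U A) {a : Coch Y} (ha : a ∈ ZZ (cc A) A)
    (hs : supp A a ⊆ U) : a ∈ ZZ (cc U) U ∧ ext U A (clc U a) = clc A a :=
  ⟨Tw_ZZ_of_supp h ha hs, Tw_ext_cls h ha hs⟩

theorem ext_self (A : Set Y) : ext A A = LinearMap.id :=
  Tw_ext fun a ha => Tw_ext_cls (OpenIn.refl A) ha (supp_subset A a)

theorem ext_comp {U' U A : Set Y} (h' : OpenIn U' U) (h : OpenIn U A) :
    ext U A ∘ₗ ext U' U = ext U' A := by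
  refine LinearMap.ext fun x => ?_
  obtain ⟨a, h1, h2, rfl⟩ := Tw_exists_rep (h'.trans h) x
  have h3 := h2.trans h'.subset
  rw [LinearMap.comp_apply, Tw_ext_cls (h'.trans h) h1 h2,
    Tw_ext_cls h' (Tw_ZZ_of_supp h h1 h3) ((supp_mono h.subset a).trans h2), Tw_ext_cls h h1 h3]

theorem ext_prH {U A : Set Y} (h : OpenIn U A) (k : ℤ) (x : Hc U) :
    prH _ A k (ext U A x) = ext U A (prH _ U k x) := by
  obtain ⟨a, h1, h2, rfl⟩ := Tw_exists_rep h x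
  rw [Tw_ext_cls h h1 h2, prH_cls k h1, prH_cls k (Tw_ZZ_of_supp h h1 h2),
    Tw_ext_cls h (prC_mem_ZZ k h1) ((supp_prC A k a).trans h2)]

/-- Base change. -/
theorem tw_ext {U A : Set Y} {U' A' : Set Y'} {π : Y' → Y} {w : Coch Y'} (h : TwOK A A' π w)
    (hU : OpenIn U A) (hU' : U' = A' ∩ π ⁻¹' U) :
    tw A A' π w ∘ₗ ext U A = ext U' A' ∘ₗ tw U U' π w := by
  subst hU'
  refine LinearMap.ext fun x => ?_
  obtain ⟨a, h1, h2, rfl⟩ := Tw_exists_rep hU x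
  rw [LinearMap.comp_apply, LinearMap.comp_apply, Tw_ext_cls hU h1 h2, tw_cls h h1,
    tw_cls (h.restrict hU.subset) (Tw_ZZ_of_supp hU h1 h2),
    Tw_ext_cls (hU.preimage h.1 h.2.1) (h.mem_ZZ h1)]
  exact fun y hy => ⟨supp_subset A' _ hy, h2 (supp_pb h.1 h.2.1 a (supp_cup A' _ _ hy).1)⟩

/-- Every class comes from a relatively compact open subset. -/
theorem exists_ext_of_directed {ι : Type} [Nonempty ι] {A : Set Y} (U : ι → Set Y)
    (hU : ∀ i, OpenIn (U i) A) (hd : Directed (· ⊆ ·) U) (hc : A ⊆ ⋃ i, U i) (x : Hc A) :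
    ∃ i, ∃ y : Hc (U i), ext (U i) A y = x := by
  obtain ⟨a, ha, rfl⟩ := cls_surj x
  obtain ⟨j, hj⟩ := Tw_compact_directed U hU hd hc (mem_CC_cc.1 ha.1).2 (supp_subset A a)
  exact ⟨j, clc (U j) a, Tw_ext_cls (hU j) ha hj⟩

theorem ext_eq_zero_of_directed {ι : Type} [Nonempty ι] {A : Set Y} (U : ι → Set Y)
    (hU : ∀ i, OpenIn (U i) A) (hd : Directed (· ⊆ ·) U) (hc : A ⊆ ⋃ i, U i) (i : ι)
    (y : Hc (U i)) (hy : ext (U i) A y = 0) : ∃ j, U i ⊆ U j ∧ ext (U i) (U j) y = 0 := by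
  obtain ⟨a, h1, h2, rfl⟩ := Tw_exists_rep (hU i) y
  rw [Tw_ext_cls (hU i) h1 h2, cls_eq_zero_iff h1] at hy
  obtain ⟨e, he, hae⟩ := hy
  obtain ⟨j0, hj0⟩ := Tw_compact_directed U hU hd hc (mem_CC_cc.1 he).2 (supp_subset A e)
  obtain ⟨j, hij, hj⟩ := hd i j0
  have h3 := Tw_ZZ_of_supp (hU j) h1 (h2.trans hij)
  refine ⟨j, hij, ?_⟩
  rw [Tw_ext_cls ((hU i).of_subset hij (hU j).subset) h3 ((supp_mono (hU j).subset a).trans h2),
    cls_eq_zero_iff h3]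
  exact ⟨e, Tw_CC_of_supp (hU j) he (hj0.trans hj), Tw_N0_mono (hU j).subset hae⟩

end ext

end Pool.Agent.HK
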