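import Pool.Agent.P.MP_1206ce_ag.AS.Lawson

/-! Vietoris-Begle theorem in a range and homotopy invariance for ordinary cohomology.
Compact base: `lh_range`. General base: exhaustion by compact sets and the Mittag-Leffler
argument for the mapping cone. -/

open scoped Topology
open Filter Set

noncomputable section

namespace Pool.Agent.HK

variable {Y Y' : Type} [TopologicalSpace Y] [TopologicalSpace Y']

omit [TopologicalSpace Y] in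
theorem VB_bdd {k : ℤ} {c : Coch Y} (h : HomC k c) (h0 : c [] = 0) : Bdd c :=
  ⟨h0, (k + 1).toNat, fun l hl => h l (by omega)⟩

omit [TopologicalSpace Y] in
theorem VB_hom_sub {k : ℤ} {a b : Coch Y} (ha : HomC k a) (hb : HomC k b) : HomC k (a - b) :=
  fun l h => by rw [Pi.sub_apply, ha l h, hb l h, sub_zero]

omit [TopologicalSpace Y] in
theorem VB_bdd_sub {a b : Coch Y} (ha : Bdd a) (hb : Bdd b) : Bdd (a - b) := by
  rw [sub_eq_add_neg, ← neg_one_smul ℂ b]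
  exact ha.add (hb.smul _)

omit [TopologicalSpace Y] in
theorem VB_hom_dd {k : ℤ} {a : Coch Y} (ha : HomC (k - 1) a) : HomC k (dd a) := by
  have h := ha.dd
  rwa [sub_add_cancel] at h

theorem VB_BB_mono {A B : Set Y} (h : B ⊆ A) {a : Coch Y} (ha : a ∈ BB ⊥ A) : a ∈ BB ⊥ B := by
  obtain ⟨e, he, h1⟩ := ha
  exact ⟨e, mem_CC_bot.2 he.1, LES_N0_mono h h1⟩

/-- A homogeneous coboundary is the coboundary of a homogeneous cochain. -/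
theorem VB_BB_hom {A : Set Y} {k : ℤ} {a : Coch Y} (hk : HomC k a) (ha : a ∈ BB ⊥ A) :
    ∃ e, Bdd e ∧ HomC (k - 1) e ∧ a - dd e ∈ N0 A := by
  obtain ⟨e, he, h1⟩ := ha
  refine ⟨prC (k - 1) e, he.1.prC _, HomC.prC _ _, ?_⟩
  have h2 := Basic_prC_mem_N0 k h1
  have h3 := prC_dd (k - 1) e
  rw [sub_add_cancel] at h3
  rwa [Basic_prC_sub, hk.prC_self, h3] at h2

theorem VB_pb_inv {A : Set Y} {f : Y → Y} (h : ∀ y ∈ A, f y = y) (w : Coch Y) :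
    pb f w - w ∈ N0 A := by
  have h1 := supp_pb_congr (f := f) (g := id) (A' := A) (fun y hy => h y hy) w
  rwa [pb_id] at h1

/-- `S` has the cohomology of a point in degrees below `c`. -/
def AcycBelow (c : ℤ) (S : Set Y) : Prop :=
  S.Nonempty ∧ ∀ k < c, ∀ w ∈ ZZ ⊥ S, HomC k w → ∃ z : ℂ, w - z • one ∈ BB ⊥ S

theorem AcycBelow.mono {c c' : ℤ} {S : Set Y} (h : AcycBelow c S) (hc : c' ≤ c) :
    AcycBelow c' S := ⟨h.1, fun k hk => h.2 k (hk.trans_le hc)⟩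
theorem AcycBelow.of_homeoOn {c : ℤ} {S : Set Y} {S' : Set Y'} {f : Y' → Y} {g : Y → Y'}
    (h : HomeoOn f g S' S) (hS : AcycBelow c S) : AcycBelow c S' := by
  obtain ⟨hf, hg, mf, mg, gf, -⟩ := h
  obtain ⟨y, hy⟩ := hS.1
  refine ⟨⟨g y, mg hy⟩, fun k hk w hw hom => ?_⟩
  obtain ⟨z, hz⟩ := hS.2 k hk (pb g w) (pb_mem_ZZ hg mg hw) (hom.pb g)
  have h1 := pb_mem_BB hf mf hz
  rw [pb_sub, pb_smul, pb_one, pb_pb] at h1
  have h2 := sub_mem h1 (N0_le_BB ⊥ S' (VB_pb_inv (f := g ∘ f) gf w))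
  exact ⟨z, by rwa [show pb (g ∘ f) w - z • one - (pb (g ∘ f) w - w) = w - z • one by abel] at h2⟩
theorem acycBelow_point (c : ℤ) (y : Y) : AcycBelow c ({y} : Set Y) :=
  ⟨singleton_nonempty y, fun _ _ w hw _ => ⟨w [y], point_ZZ hw⟩⟩

/-- Vietoris-Begle for compact supports, on cochains. -/
theorem VB_cc [Nice Y] [Nice Y'] {A : Set Y} {A' : Set Y'} (hA : LC A) (hA' : LC A') {π : Y' → Y}
    (hπ : ProperOn π A' A) {c : ℤ} (hfib : ∀ y ∈ A, AcycBelow c (A' ∩ π ⁻¹' {y})) :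
    (∀ k < c, ∀ w ∈ ZZ (cc A') A', HomC k w →
      ∃ w₀ ∈ ZZ (cc A) A, HomC k w₀ ∧ w - pb π w₀ ∈ BB (cc A') A') ∧
    ∀ k ≤ c, ∀ w₀ ∈ ZZ (cc A) A, HomC k w₀ → pb π w₀ ∈ BB (cc A') A' → w₀ ∈ BB (cc A) A := by
  have hT : TwOK A A' π one := hπ.twOK (one_mem_ZZ A')
  have hcp : ∀ y ∈ A, IsCompact (A' ∩ π ⁻¹' {y}) := fun y hy =>
    hπ.2.2 _ isCompact_singleton (singleton_subset_iff.2 hy)
  have h1 : ∀ y ∈ A, (one : Coch Y') ∈ ZZ (cc (A' ∩ π ⁻¹' {y})) (A' ∩ π ⁻¹' {y}) := fun y hy => by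
    rw [ZZ_cc_eq_bot (hcp y hy)]
    exact one_mem_ZZ _
  obtain ⟨hs, hi⟩ := lh_range (ι := Unit) hA hA' (w := fun _ => one) (fun _ => hT)
    (m := fun _ => 0) (fun _ => HomC.one) c
    (fun y hy k hk x hx => by
      obtain ⟨a, ha, hom, rfl⟩ := exists_homC_of_prH hx
      obtain ⟨z, hz⟩ := (hfib y hy).2 k hk a (ZZ_cc_le_bot _ ha) hom
      refine ⟨fun _ => z, ?_⟩
      rw [Fintype.sum_unique, ← cls_smul z (h1 y hy),
        cls_eq_iff ha (Submodule.smul_mem _ z (h1 y hy)), BB_cc_eq_bot (hcp y hy)]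
      exact hz)
    (fun y hy z _ hz => by
      rw [Fintype.sum_unique, ← cls_smul _ (h1 y hy),
        cls_eq_zero_iff (Submodule.smul_mem _ _ (h1 y hy))] at hz
      obtain ⟨p, hp⟩ := (hfib y hy).1
      have h2 := deg_zero_of_mem_BB hz p hp
      funext i
      simpa [one] using h2)
  have key : ∀ a ∈ ZZ (cc A) A,
      lhMap A A' π (fun _ : Unit => one) (fun _ => clc A a) = clc A' (pb π a) := fun a ha => by
    rw [lhMap_apply, Fintype.sum_unique, tw_cls hT ha, cup_one (ha.1.1.pb π).1]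
  refine ⟨fun k hk w hw hom => ?_, fun k hk w hw hom hb => ?_⟩
  · obtain ⟨x, hx, hx'⟩ := hs k hk (clc A' w) (by rw [prH_cls k hw, hom.prC_self])
    have h3 := hx ()
    rw [sub_zero] at h3
    obtain ⟨a, ha, hom', ha'⟩ := exists_homC_of_prH h3
    have h4 : x = fun _ => clc A a := funext fun _ => ha'.symm
    rw [h4, key a ha] at hx'
    exact ⟨a, ha, hom', (cls_eq_iff hw (pb_mem_ZZ_cc hπ ha)).1 hx'.symm⟩
  · have h3 := hi k hk (fun _ => clc A w) (fun _ => by rw [sub_zero, prH_cls k hw, hom.prC_self])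
      (by rw [key w hw]; exact (cls_eq_zero_iff (pb_mem_ZZ_cc hπ hw)).2 hb)
    exact (cls_eq_zero_iff hw).1 (congrFun h3 ())

/-- A primitive of the cone cochain `(a, b)`. -/
def VB_Prim (π : Y' → Y) (B : Set Y) (B' : Set Y') (k : ℤ) (a : Coch Y) (b : Coch Y')
    (p : Coch Y × Coch Y') : Prop :=
  Bdd p.1 ∧ Bdd p.2 ∧ HomC (k - 1) p.1 ∧ HomC (k - 1 - 1) p.2 ∧ a - dd p.1 ∈ N0 B ∧
    b - pb π p.1 - dd p.2 ∈ N0 B'

/-- The mapping cone has no cohomology in degree `k`. -/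
def VB_Van (π : Y' → Y) (B : Set Y) (B' : Set Y') (k : ℤ) : Prop :=
  ∀ (a : Coch Y) (b : Coch Y'), Bdd a → Bdd b → HomC k a → HomC (k - 1) b → dd a ∈ N0 B →
    pb π a - dd b ∈ N0 B' → ∃ p, VB_Prim π B B' k a b p

theorem VB_van_of {π : Y' → Y} {B : Set Y} {B' : Set Y'} {k : ℤ} (hc : ContinuousOn π B')
    (hm : MapsTo π B' B)
    (hs : ∀ w ∈ ZZ ⊥ B', HomC (k - 1) w →
      ∃ w₀ ∈ ZZ ⊥ B, HomC (k - 1) w₀ ∧ w - pb π w₀ ∈ BB ⊥ B')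
    (hi : ∀ w₀ ∈ ZZ ⊥ B, HomC k w₀ → pb π w₀ ∈ BB ⊥ B' → w₀ ∈ BB ⊥ B) : VB_Van π B B' k := by
  intro a b ha hb ka kb da db
  obtain ⟨e, e1, e2, e3⟩ := VB_BB_hom ka (hi a ⟨mem_CC_bot.2 ha, da⟩ ka ⟨b, mem_CC_bot.2 hb, db⟩)
  have h1 : b - pb π e ∈ ZZ ⊥ B' := by
    refine ⟨mem_CC_bot.2 (VB_bdd_sub hb (e1.pb π)), ?_⟩
    have h2 := sub_mem (Basic_pb_mem_N0 hc hm e3) db
    rwa [pb_sub, pb_dd, show pb π a - dd (pb π e) - (pb π a - dd b) = dd b - dd (pb π e) by abel,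
      ← dd_sub] at h2
  obtain ⟨w, w1, w2, w3⟩ := hs _ h1 (VB_hom_sub kb (e2.pb π))
  obtain ⟨f, f1, f2, f3⟩ := VB_BB_hom (VB_hom_sub (VB_hom_sub kb (e2.pb π)) (w2.pb π)) w3
  refine ⟨(e + w, f), e1.add w1.1.1, f1, e2.add w2, f2, ?_, ?_⟩
  · show a - dd (e + w) ∈ N0 B
    rw [dd_add, ← sub_sub]
    exact sub_mem e3 w1.2
  · show b - pb π (e + w) - dd f ∈ N0 B'
    rwa [pb_add, ← sub_sub]

theorem VB_Van.inj {π : Y' → Y} {B : Set Y} {B' : Set Y'} {k : ℤ} (h : VB_Van π B B' k)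
    {w : Coch Y} (hw : w ∈ ZZ ⊥ B) (hk : HomC k w) (hb : pb π w ∈ BB ⊥ B') : w ∈ BB ⊥ B := by
  obtain ⟨e, e1, e2, e3⟩ := VB_BB_hom (hk.pb π) hb
  obtain ⟨p, h1, -, -, -, h2, -⟩ := h w e hw.1.1 e1 hk e2 hw.2 e3
  exact ⟨p.1, mem_CC_bot.2 h1, h2⟩

theorem VB_Van.surj {π : Y' → Y} {B : Set Y} {B' : Set Y'} {k : ℤ} (h : VB_Van π B B' (k + 1))
    {w : Coch Y'} (hw : w ∈ ZZ ⊥ B') (hk : HomC k w) :
    ∃ w₀ ∈ ZZ ⊥ B, HomC k w₀ ∧ w - pb π w₀ ∈ BB ⊥ B' := by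
  obtain ⟨p, h1, h2, h3, -, h4, h5⟩ := h 0 w Bdd.zero hw.1.1 (HomC.zero _)
    (by rwa [add_sub_cancel_right]) (by rw [dd_zero]; exact zero_mem _)
    (by rw [pb_zero, zero_sub]; exact neg_mem hw.2)
  rw [add_sub_cancel_right] at h3
  rw [zero_sub] at h4
  exact ⟨p.1, ⟨mem_CC_bot.2 h1, neg_mem_iff.1 h4⟩, h3, p.2, mem_CC_bot.2 h2, h5⟩

/-- Correcting a primitive on a larger set so that it extends a given one. -/
theorem VB_step {π : Y' → Y} {B C : Set Y} {B' C' : Set Y'} (hB : B ⊆ C) (hB' : B' ⊆ C') {k : ℤ}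
    (h : VB_Van π B B' (k - 1)) {a : Coch Y} {b : Coch Y'} {p q : Coch Y × Coch Y'}
    (hp : VB_Prim π B B' k a b p) (hq : VB_Prim π C C' k a b q) :
    ∃ r, VB_Prim π C C' k a b r ∧ r.1 - p.1 ∈ N0 B ∧ r.2 - p.2 ∈ N0 B' := by
  obtain ⟨p1, p2, p3, p4, p5, p6⟩ := hp
  obtain ⟨q1, q2, q3, q4, q5, q6⟩ := hq
  obtain ⟨s, s1, s2, s3, s4, s5, s6⟩ := h (q.1 - p.1) (p.2 - q.2) (VB_bdd_sub q1 p1)
    (VB_bdd_sub p2 q2) (VB_hom_sub q3 p3) (VB_hom_sub p4 q4)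
    (by
      have h1 := sub_mem p5 (LES_N0_mono hB q5)
      rwa [show a - dd p.1 - (a - dd q.1) = dd q.1 - dd p.1 by abel, ← dd_sub] at h1)
    (by
      have h1 := sub_mem p6 (LES_N0_mono hB' q6)
      rwa [show b - pb π p.1 - dd p.2 - (b - pb π q.1 - dd q.2) =
        pb π q.1 - pb π p.1 - (dd p.2 - dd q.2) by abel, ← dd_sub, ← pb_sub] at h1)
  refine ⟨(q.1 - dd s.1, q.2 + pb π s.1 + dd s.2), ⟨VB_bdd_sub q1 s1.dd,
    (q2.add (s1.pb π)).add s2.dd, VB_hom_sub q3 (VB_hom_dd s3),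
    (q4.add (s3.pb π)).add (VB_hom_dd s4), ?_, ?_⟩, ?_, ?_⟩
  · show a - dd (q.1 - dd s.1) ∈ N0 C
    rwa [dd_sub, dd_dd, sub_zero]
  · show b - pb π (q.1 - dd s.1) - dd (q.2 + pb π s.1 + dd s.2) ∈ N0 C'
    rwa [dd_add, dd_add, dd_dd, add_zero, pb_sub, pb_dd,
      show b - (pb π q.1 - dd (pb π s.1)) - (dd q.2 + dd (pb π s.1)) = b - pb π q.1 - dd q.2 by
        abel]
  · show q.1 - dd s.1 - p.1 ∈ N0 B
    rwa [sub_right_comm]
  · show q.2 + pb π s.1 + dd s.2 - p.2 ∈ N0 B'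
    have h1 := neg_mem s6
    rwa [show -(p.2 - q.2 - pb π s.1 - dd s.2) = q.2 + pb π s.1 + dd s.2 - p.2 by abel] at h1

theorem VB_not_supp {A K : Set Y} {c : Coch Y} (hc : c ∈ N0 K) {y : Y} (hy : y ∈ A)
    (hK : K ∈ 𝓝[A] y) : y ∉ supp A c := by
  obtain ⟨U, hU, h⟩ := Basic_N0_apply hc (mem_of_mem_nhdsWithin hy hK)
  obtain ⟨V, hV, hVK⟩ := mem_nhdsWithin_iff_exists_mem_nhds_inter.1 hK
  exact (not_mem_supp hy).2 ⟨U ∩ V, inter_mem hU hV, fun l hl =>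
    h l fun z hz => ⟨hVK ⟨(hl z hz).2.2, (hl z hz).1⟩, (hl z hz).2.1⟩⟩

/-- Gluing a compatible sequence of cochains along an increasing sequence of closed sets. -/
theorem VB_glue {A : Set Y} {K : ℕ → Set Y} (hK : ∀ n, IsClosed (K n)) (hmono : Monotone K)
    {c : ℕ → Coch Y} {j : ℤ} (hb : ∀ n, Bdd (c n)) (hj : ∀ n, HomC j (c n))
    (hc : ∀ n, c (n + 1) - c n ∈ N0 (K n)) :
    ∃ g, Bdd g ∧ HomC j g ∧ ∀ m, ∀ y ∈ A, K m ∈ 𝓝[A] y → y ∉ supp A (g - c m) := by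
  classical
  have tel : ∀ n m, n ≤ m → c m - c n ∈ N0 (K n) := fun n m h => by
    induction m, h using Nat.le_induction with
    | base => rw [sub_self]; exact zero_mem _
    | succ m h ih =>
      have h1 := add_mem (LES_N0_mono (hmono h) (hc m)) ih
      rwa [sub_add_sub_cancel] at h1
  obtain ⟨ν, hν⟩ : ∃ ν : List Y → ℕ, ∀ l m, (∀ z ∈ l, z ∈ K m) → ν l ≤ m ∧ ∀ z ∈ l, z ∈ K (ν l) := by
    refine ⟨fun l => if h : ∃ n, ∀ z ∈ l, z ∈ K n then Nat.find h else 0, fun l m h => ?_⟩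
    have h1 : ∃ n, ∀ z ∈ l, z ∈ K n := ⟨m, h⟩
    simp only [dif_pos h1]
    exact ⟨Nat.find_min' h1 h, Nat.find_spec h1⟩
  have hom : HomC j fun l => c (ν l) l := fun l hl => hj _ l hl
  refine ⟨fun l => c (ν l) l, VB_bdd hom (hb _).1, hom, fun m y hy hm => ?_⟩
  have loc : ∀ n, ∃ U ∈ 𝓝 y, n ≤ m → ∀ l : List Y, (∀ z ∈ l, z ∈ K n ∧ z ∈ U) → c n l = c m l := by
    intro n
    by_cases hn : n ≤ m
    · by_cases hyn : y ∈ K n
      · obtain ⟨U, hU, h⟩ := Basic_N0_apply (tel n m hn) hyn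
        exact ⟨U, hU, fun _ l hl => (sub_eq_zero.1 (h l hl)).symm⟩
      · refine ⟨(K n)ᶜ, (hK n).isOpen_compl.mem_nhds hyn, fun _ l hl => ?_⟩
        cases l with
        | nil => rw [(hb n).1, (hb m).1]
        | cons z l => exact absurd (hl z List.mem_cons_self).1 (hl z List.mem_cons_self).2
    · exact ⟨univ, univ_mem, fun h => absurd h hn⟩
  choose U hU hUc using loc
  obtain ⟨V, hV, hVK⟩ := mem_nhdsWithin_iff_exists_mem_nhds_inter.1 hm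
  refine (not_mem_supp hy).2 ⟨V ∩ ⋂ n ∈ Finset.range (m + 1), U n,
    inter_mem hV ((biInter_finset_mem _).2 fun n _ => hU n), fun l hl => ?_⟩
  obtain ⟨h1, h2⟩ := hν l m fun z hz => hVK ⟨(hl z hz).2.1, (hl z hz).1⟩
  rw [Pi.sub_apply, sub_eq_zero]
  exact hUc _ h1 l fun z hz => ⟨h2 z hz,
    mem_iInter₂.1 (hl z hz).2.2 _ (Finset.mem_range.2 (Nat.lt_succ_of_le h1))⟩

/-- The Mittag-Leffler argument. -/
theorem VB_milnor {π : Y' → Y} {A : Set Y} {A' : Set Y'} (hc : ContinuousOn π A')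
    (hm : MapsTo π A' A) {K : ℕ → Set Y} (hK : ∀ n, IsClosed (K n))
    (hK' : ∀ n, IsClosed (A' ∩ π ⁻¹' K n)) (hmono : Monotone K) (hKA : ∀ n, K n ⊆ A)
    (hcov : ∀ y ∈ A, ∃ m, K m ∈ 𝓝[A] y) {k : ℤ}
    (h1 : ∀ n, VB_Van π (K n) (A' ∩ π ⁻¹' K n) k)
    (h2 : ∀ n, VB_Van π (K n) (A' ∩ π ⁻¹' K n) (k - 1)) : VB_Van π A A' k := by
  intro a b ha hb ka kb da db
  have hmono' : Monotone fun n => A' ∩ π ⁻¹' K n := fun n m h =>
    inter_subset_inter_right _ (preimage_mono (hmono h))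
  choose q hq using fun n => h1 n a b ha hb ka kb (LES_N0_mono (hKA n) da)
    (LES_N0_mono inter_subset_left db)
  have st : ∀ n (p : {p // VB_Prim π (K n) (A' ∩ π ⁻¹' K n) k a b p}),
      ∃ r : {p // VB_Prim π (K (n + 1)) (A' ∩ π ⁻¹' K (n + 1)) k a b p},
        r.1.1 - p.1.1 ∈ N0 (K n) ∧ r.1.2 - p.1.2 ∈ N0 (A' ∩ π ⁻¹' K n) := fun n p => by
    obtain ⟨r, r1, r2⟩ := VB_step (hmono n.le_succ) (hmono' n.le_succ) (h2 n) p.2 (hq (n + 1))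
    exact ⟨⟨r, r1⟩, r2⟩
  choose nx hnx using st
  let s : ∀ n, {p // VB_Prim π (K n) (A' ∩ π ⁻¹' K n) k a b p} := fun n =>
    Nat.rec (motive := fun n => {p // VB_Prim π (K n) (A' ∩ π ⁻¹' K n) k a b p}) ⟨q 0, hq 0⟩
      (fun n p => nx n p) n
  obtain ⟨g, g1, g2, g3⟩ := VB_glue (A := A) hK hmono (c := fun n => (s n).1.1)
    (fun n => (s n).2.1) (fun n => (s n).2.2.2.1) fun n => (hnx n (s n)).1
  obtain ⟨f, f1, f2, f3⟩ := VB_glue (A := A') hK' hmono' (c := fun n => (s n).1.2)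
    (fun n => (s n).2.2.1) (fun n => (s n).2.2.2.2.1) fun n => (hnx n (s n)).2
  refine ⟨(g, f), g1, f1, g2, f2, eq_empty_of_forall_notMem fun y hy => ?_,
    eq_empty_of_forall_notMem fun y hy => ?_⟩
  · have hy' := supp_subset _ _ hy
    obtain ⟨m, hm'⟩ := hcov y hy'
    have e : a - dd g = a - dd (s m).1.1 - dd (g - (s m).1.1) := by
      rw [dd_sub]
      abel
    have hy2 : y ∈ supp A (a - dd g) := hy
    rw [e] at hy2
    rcases supp_sub _ _ _ hy2 with h3 | h3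
    · exact VB_not_supp (s m).2.2.2.2.2.1 hy' hm' h3
    · exact g3 m y hy' hm' (supp_dd _ _ h3)
  · have hy' := supp_subset _ _ hy
    obtain ⟨m, hm'⟩ := hcov (π y) (hm hy')
    have h4 : A' ∩ π ⁻¹' K m ∈ 𝓝[A'] y :=
      inter_mem self_mem_nhdsWithin ((hc y hy').tendsto_nhdsWithin hm hm')
    have e : b - pb π g - dd f = b - pb π (s m).1.1 - dd (s m).1.2 - pb π (g - (s m).1.1) -
        dd (f - (s m).1.2) := by
      rw [dd_sub, pb_sub]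
      abel
    have hy2 : y ∈ supp A' (b - pb π g - dd f) := hy
    rw [e] at hy2
    rcases supp_sub _ _ _ hy2 with h3 | h3
    · rcases supp_sub _ _ _ h3 with h3 | h3
      · exact VB_not_supp (s m).2.2.2.2.2.2 hy' h4 h3
      · exact g3 m _ (hm hy') hm' (supp_pb hc hm _ h3)
    · exact f3 m y hy' h4 (supp_dd _ _ h3)

/-- Exhaustion by compact sets. -/
theorem VB_exhaust [Nice Y] {A : Set Y} (hA : LC A) : ∃ K : ℕ → Set Y, (∀ n, IsCompact (K n)) ∧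
    Monotone K ∧ (∀ n, K n ⊆ A) ∧ ∀ y ∈ A, ∃ m, K m ∈ 𝓝[A] y := by
  rcases A.eq_empty_or_nonempty with rfl | hne
  · exact ⟨fun _ => ∅, fun _ => isCompact_empty, monotone_const, fun _ => Subset.rfl,
      fun y hy => hy.elim⟩
  have h1 : ∀ y, ∃ C O : Set Y, IsCompact C ∧ C ⊆ A ∧ IsOpen O ∧ O ∩ A ⊆ C ∧ (y ∈ A → y ∈ O) := by
    intro y
    by_cases hy : y ∈ A
    · obtain ⟨C, c1, c2, c3⟩ := hA y hy
      obtain ⟨O, o1, o2, o3⟩ := mem_nhdsWithin.1 c3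
      exact ⟨C, O, c1, c2, o1, o3, fun _ => o2⟩
    · exact ⟨∅, ∅, isCompact_empty, empty_subset _, isOpen_empty, by simp, fun h => absurd h hy⟩
  choose C O c1 c2 o1 o2 o3 using h1
  obtain ⟨t, -, ht, hcov⟩ := TopologicalSpace.countable_cover_nhdsWithin (f := O) (s := A)
    fun y hy => mem_nhdsWithin_of_mem_nhds ((o1 y).mem_nhds (o3 y hy))
  have htne : t.Nonempty := by
    obtain ⟨y, hy⟩ := hne
    obtain ⟨x, hx, -⟩ := mem_iUnion₂.1 (hcov hy)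
    exact ⟨x, hx⟩
  obtain ⟨g, rfl⟩ := ht.exists_eq_range htne
  refine ⟨accumulate fun n => C (g n), isCompact_accumulate fun n => c1 _, monotone_accumulate,
    fun n => (accumulate_subset_iUnion n).trans (iUnion_subset fun n => c2 _), fun y hy => ?_⟩
  obtain ⟨_, ⟨m, rfl⟩, hx⟩ := mem_iUnion₂.1 (hcov hy)
  exact ⟨m, mem_nhdsWithin.2 ⟨O (g m), o1 _, hx,
    (o2 _).trans (subset_accumulate (s := fun n => C (g n)))⟩⟩

theorem vb [Nice Y] [Nice Y'] {A : Set Y} {A' : Set Y'} (hA : LC A) (hA' : LC A') {π : Y' → Y}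
    (hπ : ProperOn π A' A) {c : ℤ} (hfib : ∀ y ∈ A, AcycBelow c (A' ∩ π ⁻¹' {y})) :
    (∀ k < c, ∀ w ∈ ZZ ⊥ A', HomC k w → ∃ w₀ ∈ ZZ ⊥ A, HomC k w₀ ∧ w - pb π w₀ ∈ BB ⊥ A') ∧
    ∀ k ≤ c, ∀ w₀ ∈ ZZ ⊥ A, HomC k w₀ → pb π w₀ ∈ BB ⊥ A' → w₀ ∈ BB ⊥ A := by
  have _ := hA'
  obtain ⟨K, k1, k2, k3, k4⟩ := VB_exhaust hA
  have k5 : ∀ n, IsCompact (A' ∩ π ⁻¹' K n) := fun n => hπ.2.2 _ (k1 n) (k3 n)
  have h1 : ∀ k ≤ c, ∀ n, VB_Van π (K n) (A' ∩ π ⁻¹' K n) k := fun k hk n => by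
    have hp := hπ.restrict (k3 n)
    obtain ⟨hs, hi⟩ := VB_cc (LC.of_isCompact (k1 n)) (LC.of_isCompact (k5 n)) hp (c := c)
      fun y hy => by
        have e : A' ∩ π ⁻¹' K n ∩ π ⁻¹' {y} = A' ∩ π ⁻¹' {y} := by
          rw [inter_assoc, ← preimage_inter, inter_eq_right.2 (singleton_subset_iff.2 hy)]
        rw [e]
        exact hfib y (k3 n hy)
    rw [ZZ_cc_eq_bot (k1 n), ZZ_cc_eq_bot (k5 n), BB_cc_eq_bot (k5 n)] at hs
    rw [ZZ_cc_eq_bot (k1 n), BB_cc_eq_bot (k1 n), BB_cc_eq_bot (k5 n)] at hi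
    exact VB_van_of hp.1 hp.2.1 (hs _ (by omega)) (hi k hk)
  have h2 : ∀ k ≤ c, VB_Van π A A' k := fun k hk =>
    VB_milnor hπ.1 hπ.2.1 (fun n => (k1 n).isClosed) (fun n => (k5 n).isClosed) k2 k3 k4
      (h1 k hk) (h1 _ (by omega))
  exact ⟨fun k hk w hw hom => (h2 (k + 1) (by omega)).surj hw hom,
    fun k hk w hw hom hb => (h2 k hk).inj hw hom hb⟩

theorem AcycBelow.of_fibres [Nice Y] [Nice Y'] {A : Set Y} {A' : Set Y'} (hA : LC A) (hA' : LC A')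
    {π : Y' → Y} (hπ : ProperOn π A' A) {c : ℤ} (hfib : ∀ y ∈ A, AcycBelow c (A' ∩ π ⁻¹' {y}))
    (h : AcycBelow c A) : AcycBelow c A' := by
  obtain ⟨y, hy⟩ := h.1
  refine ⟨(hfib y hy).1.mono inter_subset_left, fun k hk w hw hom => ?_⟩
  obtain ⟨w₀, h1, h2, h3⟩ := (vb hA hA' hπ hfib).1 k hk w hw hom
  obtain ⟨z, hz⟩ := h.2 k hk w₀ h1 h2
  have h4 := add_mem h3 (pb_mem_BB hπ.1 hπ.2.1 hz)
  rw [pb_sub, pb_smul, pb_one, sub_add_sub_cancel] at h4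
  exact ⟨z, h4⟩

theorem VB_Icc_step {u : Coch ℝ} (hu : u ∈ ZZ ⊥ (Icc (0 : ℝ) 1)) {p q s t : ℝ}
    (hV : LES_Van (Icc (0 : ℝ) 1) (Ioo p q) (dd u)) (hs : s ∈ Icc (0 : ℝ) 1)
    (ht : t ∈ Icc (0 : ℝ) 1) (hs' : s ∈ Ioo p q) (ht' : t ∈ Ioo p q) (h : u ∈ BB ⊥ (Icc 0 t)) :
    u ∈ BB ⊥ (Icc 0 s) := by
  have sub : Icc 0 s ⊆ Icc (0 : ℝ) 1 := Icc_subset_Icc_right hs.2
  have hm : MapsTo (fun x => min x t) (Icc 0 s) (Icc 0 t) := fun x hx =>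
    ⟨le_min hx.1 ht.1, min_le_right _ _⟩
  have h1 : pb (fun x => min x t) u ∈ BB ⊥ (Icc 0 s) := pb_mem_BB (by fun_prop) hm h
  have h2 : -LES_D (fun x => min x t) (dd u) ∈ N0 (Icc 0 s) := by
    refine eq_empty_of_forall_notMem fun y hy => ?_
    have hy1 := supp_subset _ _ hy
    have hy2 := supp_mono sub _ hy
    rcases lt_or_ge y t with h3 | h3
    · obtain ⟨V, hV1, hV2⟩ := Basic_N0_apply hu.2 (sub hy1)
      refine (not_mem_supp (sub hy1)).2 ⟨V ∩ Iio t, inter_mem hV1 (Iio_mem_nhds h3),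
        LES_Van.prism (V := V) hV2 fun z hz hzU => ?_⟩ hy2
      rw [min_eq_left (le_of_lt hzU.2)]
      exact ⟨hzU.1, hz, hzU.1⟩
    · refine (not_mem_supp (sub hy1)).2 ⟨Ioo p q,
        Ioo_mem_nhds (ht'.1.trans_le h3) (hy1.2.trans_lt hs'.2), hV.prism fun z hz hzU => ?_⟩ hy2
      exact ⟨hzU, ⟨le_min hz.1 ht.1, (min_le_left _ _).trans hz.2⟩, lt_min hzU.1 ht'.1,
        (min_le_left _ _).trans_lt hzU.2⟩
  have h3 : pb (fun x => min x t) u - u ∈ BB ⊥ (Icc 0 s) := by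
    refine ⟨LES_D (fun x => min x t) u, mem_CC_bot.2 (LES_D_bdd _ hu.1.1), ?_⟩
    have e : pb (fun x => min x t) u - u - dd (LES_D (fun x => min x t) u) =
        LES_D (fun x => min x t) (dd u) := by
      funext l
      have := LES_homotopy (fun x => min x t) l u
      simp only [Pi.sub_apply, pb]
      linear_combination -this
    rw [e]
    exact neg_mem_iff.1 h2
  have h4 := sub_mem h1 h3
  rwa [sub_sub_cancel] at h4

/-- The closed interval (direct argument or `les` with half-open intervals). -/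
theorem acycBelow_Icc (c : ℤ) : AcycBelow c (Icc (0 : ℝ) 1) := by
  refine ⟨⟨0, left_mem_Icc.2 zero_le_one⟩, fun _ _ w hw _ => ⟨w [0], ?_⟩⟩
  have hu : w - w [0] • one ∈ ZZ ⊥ (Icc (0 : ℝ) 1) :=
    sub_mem hw (Submodule.smul_mem _ _ (one_mem_ZZ _))
  have h0 : w - w [0] • one ∈ BB ⊥ (Icc (0 : ℝ) 0) := by
    rw [Icc_self]
    exact point_ZZ (F := ⊥) ⟨mem_CC_bot.2 hw.1.1,
      LES_N0_mono (singleton_subset_iff.2 (left_mem_Icc.2 zero_le_one)) hw.2⟩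
  refine isPreconnected_Icc.induction₂'
    (fun s t => w - w [0] • one ∈ BB ⊥ (Icc 0 s) → w - w [0] • one ∈ BB ⊥ (Icc 0 t))
    (fun x hx => ?_) (fun _ _ _ _ _ _ h1 h2 => h2 ∘ h1) (left_mem_Icc.2 zero_le_one)
    (right_mem_Icc.2 zero_le_one) h0
  obtain ⟨V, hV1, hV2⟩ := Basic_N0_apply hu.2 hx
  obtain ⟨p, q, h1, h2⟩ := mem_nhds_iff_exists_Ioo_subset.1 hV1
  have h3 := LES_Van.mono hV2 h2
  filter_upwards [self_mem_nhdsWithin, mem_nhdsWithin_of_mem_nhds (Ioo_mem_nhds h1.1 h1.2)]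
    with y hy hy'
  exact ⟨VB_Icc_step hu h3 hy hx hy' h1, VB_Icc_step hu h3 hx hy h1 hy'⟩

theorem VB_fst_proper (A' : Set Y') : ProperOn Prod.fst (A' ×ˢ Icc (0 : ℝ) 1) A' := by
  refine ⟨continuousOn_fst, fun p hp => hp.1, fun C hC hCA => ?_⟩
  have e : A' ×ˢ Icc (0 : ℝ) 1 ∩ Prod.fst ⁻¹' C = C ×ˢ Icc (0 : ℝ) 1 :=
    Subset.antisymm (fun p hp => ⟨hp.2, hp.1.2⟩) fun p hp => ⟨⟨hCA hp.1, hp.2⟩, hp.1⟩
  rw [e]
  exact hC.prod isCompact_Icc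

theorem VB_fst_fib (c : ℤ) {A' : Set Y'} {y : Y'} (hy : y ∈ A') :
    AcycBelow c (A' ×ˢ Icc (0 : ℝ) 1 ∩ Prod.fst ⁻¹' {y}) :=
  AcycBelow.of_homeoOn (f := Prod.snd) (g := fun t => (y, t)) ⟨continuousOn_snd, by fun_prop,
    fun _ hp => hp.1.2, fun _ ht => ⟨⟨hy, ht⟩, rfl⟩, fun _ hp => Prod.ext (Eq.symm hp.2) rfl,
    fun _ _ => rfl⟩ (acycBelow_Icc c)

theorem VB_sec_proper [T2Space Y'] (A' : Set Y') {t : ℝ} (ht : t ∈ Icc (0 : ℝ) 1) :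
    ProperOn (fun y => (y, t)) A' (A' ×ˢ Icc (0 : ℝ) 1) := by
  refine ⟨by fun_prop, fun _ hy => ⟨hy, ht⟩, fun C hC hCA => ?_⟩
  refine ClosedIn.isCompact (A := A') ⟨_, hC.isClosed.preimage (by fun_prop), rfl⟩
    (hC.image continuous_fst) ?_ fun y hy => ⟨_, hy.2, rfl⟩
  rintro _ ⟨p, hp, rfl⟩
  exact (hCA hp).1

theorem VB_BB_of_prC {F : Filter Y} {A : Set Y} {a : Coch Y} (ha : Bdd a)
    (h : ∀ k, prC k a ∈ BB F A) : a ∈ BB F A := by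
  obtain ⟨N, hN⟩ := ha.sum_prC
  rw [hN N le_rfl]
  exact sum_mem fun k _ => h k

omit [TopologicalSpace Y'] in
theorem VB_ends (W : Coch (Y' × ℝ)) (w₀ : Coch Y') :
    pb (fun y => (y, (0 : ℝ))) (W - pb Prod.fst w₀) - pb (fun y => (y, (1 : ℝ))) (W - pb Prod.fst w₀)
      = pb (fun y => (y, (0 : ℝ))) W - pb (fun y => (y, (1 : ℝ))) W := by
  rw [pb_sub, pb_sub, pb_pb, pb_pb]
  exact sub_sub_sub_cancel_right _ _ _

/-- Homotopy invariance; only the source has to be nice. -/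
theorem homotopy_BB [Nice Y'] {A : Set Y} {A' : Set Y'} (hA' : LC A') {h : Y' × ℝ → Y}
    (hc : ContinuousOn h (A' ×ˢ Icc 0 1)) (hm : MapsTo h (A' ×ˢ Icc 0 1) A) {w : Coch Y}
    (hw : w ∈ ZZ ⊥ A) : pb (fun y => h (y, 0)) w - pb (fun y => h (y, 1)) w ∈ BB ⊥ A' := by
  have hW := pb_mem_ZZ hc hm hw
  have e : ∀ t : ℝ, pb (fun y => h (y, t)) w = pb (fun y => (y, t)) (pb h w) := fun t =>
    (pb_pb h (fun y => (y, t)) w).symm
  rw [e, e]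
  refine VB_BB_of_prC (VB_bdd_sub (hW.1.1.pb _) (hW.1.1.pb _)) fun k => ?_
  obtain ⟨w₀, -, -, h1⟩ := (vb hA' (hA'.prod (LC.of_isCompact isCompact_Icc)) (VB_fst_proper A')
    (c := k + 1) fun y hy => VB_fst_fib _ hy).1 k (lt_add_one k) _ (prC_mem_ZZ k hW) (HomC.prC _ _)
  have p0 := VB_sec_proper A' (left_mem_Icc.2 (zero_le_one' ℝ))
  have p1 := VB_sec_proper A' (right_mem_Icc.2 (zero_le_one' ℝ))
  rw [Basic_prC_sub, prC_pb _ _ (pb h w), prC_pb _ _ (pb h w), ← VB_ends _ w₀]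
  exact sub_mem (pb_mem_BB p0.1 p0.2.1 h1) (pb_mem_BB p1.1 p1.2.1 h1)

/-- Proper homotopies and compact supports. -/
theorem homotopy_BB_cc [Nice Y'] {A : Set Y} {A' : Set Y'} (hA' : LC A') {h : Y' × ℝ → Y}
    (hp : ProperOn h (A' ×ˢ Icc 0 1) A) {w : Coch Y} (hw : w ∈ ZZ (cc A) A) :
    pb (fun y => h (y, 0)) w - pb (fun y => h (y, 1)) w ∈ BB (cc A') A' := by
  have hW := pb_mem_ZZ_cc hp hw
  have e : ∀ t : ℝ, pb (fun y => h (y, t)) w = pb (fun y => (y, t)) (pb h w) := fun t =>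
    (pb_pb h (fun y => (y, t)) w).symm
  rw [e, e]
  refine VB_BB_of_prC (VB_bdd_sub (hW.1.1.pb _) (hW.1.1.pb _)) fun k => ?_
  obtain ⟨w₀, -, -, h1⟩ := (VB_cc hA' (hA'.prod (LC.of_isCompact isCompact_Icc)) (VB_fst_proper A')
    (c := k + 1) fun y hy => VB_fst_fib _ hy).1 k (lt_add_one k) _ (prC_mem_ZZ k hW) (HomC.prC _ _)
  have p0 := VB_sec_proper A' (left_mem_Icc.2 (zero_le_one' ℝ))
  have p1 := VB_sec_proper A' (right_mem_Icc.2 (zero_le_one' ℝ))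
  rw [Basic_prC_sub, prC_pb _ _ (pb h w), prC_pb _ _ (pb h w), ← VB_ends _ w₀]
  exact sub_mem (pb_mem_BB_cc p0 h1) (pb_mem_BB_cc p1 h1)

/-- `f^*` is bijective on ordinary cohomology in degrees below `c`. -/
def IsoBelow (c : ℤ) (f : Y' → Y) (A' : Set Y') (A : Set Y) : Prop :=
  ContinuousOn f A' ∧ MapsTo f A' A ∧
  (∀ k < c, ∀ w ∈ ZZ ⊥ A', HomC k w → ∃ w₀ ∈ ZZ ⊥ A, HomC k w₀ ∧ w - pb f w₀ ∈ BB ⊥ A') ∧
    ∀ k < c, ∀ w₀ ∈ ZZ ⊥ A, HomC k w₀ → pb f w₀ ∈ BB ⊥ A' → w₀ ∈ BB ⊥ A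

theorem IsoBelow.comp {Y'' : Type} [TopologicalSpace Y''] {c : ℤ} {f : Y' → Y} {g : Y'' → Y'}
    {A : Set Y} {A' : Set Y'} {A'' : Set Y''} (hf : IsoBelow c f A' A) (hg : IsoBelow c g A'' A') :
    IsoBelow c (f ∘ g) A'' A := by
  obtain ⟨f1, f2, f3, f4⟩ := hf
  obtain ⟨g1, g2, g3, g4⟩ := hg
  refine ⟨f1.comp g1 g2, f2.comp g2, fun k hk w hw hom => ?_, fun k hk w hw hom hb => ?_⟩
  · obtain ⟨w₁, a1, a2, a3⟩ := g3 k hk w hw hom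
    obtain ⟨w₀, b1, b2, b3⟩ := f3 k hk w₁ a1 a2
    have h1 := add_mem a3 (pb_mem_BB g1 g2 b3)
    rw [pb_sub, pb_pb, sub_add_sub_cancel] at h1
    exact ⟨w₀, b1, b2, h1⟩
  · exact f4 k hk w hw hom (g4 k hk _ (pb_mem_ZZ f1 f2 hw) (hom.pb f) (by rwa [pb_pb]))
theorem IsoBelow.of_comp {Y'' : Type} [TopologicalSpace Y''] {c : ℤ} {f : Y' → Y} {g : Y'' → Y'}
    {A : Set Y} {A' : Set Y'} {A'' : Set Y''} (hfc : ContinuousOn f A') (hfm : MapsTo f A' A)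
    (hfg : IsoBelow c (f ∘ g) A'' A) (hg : IsoBelow c g A'' A') : IsoBelow c f A' A := by
  obtain ⟨-, -, f3, f4⟩ := hfg
  obtain ⟨g1, g2, -, g4⟩ := hg
  refine ⟨hfc, hfm, fun k hk w hw hom => ?_, fun k hk w hw hom hb => ?_⟩
  · obtain ⟨w₀, a1, a2, a3⟩ := f3 k hk _ (pb_mem_ZZ g1 g2 hw) (hom.pb g)
    exact ⟨w₀, a1, a2, g4 k hk _ (sub_mem hw (pb_mem_ZZ hfc hfm a1)) (VB_hom_sub hom (a2.pb f))
      (by rwa [pb_sub, pb_pb])⟩
  · exact f4 k hk w hw hom (by rw [← pb_pb]; exact pb_mem_BB g1 g2 hb)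
theorem IsoBelow.congr {c : ℤ} {f f' : Y' → Y} {A : Set Y} {A' : Set Y'} (hf : IsoBelow c f A' A)
    (h : EqOn f f' A') : IsoBelow c f' A' A := by
  obtain ⟨f1, f2, f3, f4⟩ := hf
  have e : ∀ w, pb f w - pb f' w ∈ BB ⊥ A' := fun w => N0_le_BB _ _ (supp_pb_congr h w)
  refine ⟨f1.congr h.symm, f2.congr h, fun k hk w hw hom => ?_, fun k hk w hw hom hb => ?_⟩
  · obtain ⟨w₀, a1, a2, a3⟩ := f3 k hk w hw hom
    have h1 := add_mem a3 (e w₀)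
    rw [sub_add_sub_cancel] at h1
    exact ⟨w₀, a1, a2, h1⟩
  · have h1 := add_mem (e w) hb
    rw [sub_add_cancel] at h1
    exact f4 k hk w hw hom h1
theorem IsoBelow.mono {c c' : ℤ} {f : Y' → Y} {A : Set Y} {A' : Set Y'} (hf : IsoBelow c f A' A)
    (h : c' ≤ c) : IsoBelow c' f A' A :=
  ⟨hf.1, hf.2.1, fun k hk => hf.2.2.1 k (hk.trans_le h), fun k hk => hf.2.2.2 k (hk.trans_le h)⟩

theorem VB_iso_of {c : ℤ} {f : Y' → Y} {s : Y → Y'} {A : Set Y} {A' : Set Y'}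
    (hf : ContinuousOn f A') (hfm : MapsTo f A' A) (hs : ContinuousOn s A) (hsm : MapsTo s A A')
    (hfs : ∀ y ∈ A, f (s y) = y) (h : ∀ w ∈ ZZ ⊥ A', w - pb (s ∘ f) w ∈ BB ⊥ A') :
    IsoBelow c f A' A := by
  refine ⟨hf, hfm, fun k _ w hw hom => ⟨pb s w, pb_mem_ZZ hs hsm hw, hom.pb s, ?_⟩,
    fun k _ w _ _ hb => ?_⟩
  · rw [pb_pb]
    exact h w hw
  · have h1 := pb_mem_BB hs hsm hb
    rw [pb_pb] at h1
    have h2 := sub_mem h1 (N0_le_BB ⊥ A (VB_pb_inv (f := f ∘ s) hfs w))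
    rwa [sub_sub_cancel] at h2

theorem HomeoOn.isoBelow (c : ℤ) {f : Y' → Y} {g : Y → Y'} {A : Set Y} {A' : Set Y'}
    (h : HomeoOn f g A' A) : IsoBelow c f A' A := by
  obtain ⟨hf, hg, mf, mg, gf, fg⟩ := h
  refine VB_iso_of hf mf hg mg fg fun w _ => ?_
  have h1 := neg_mem (N0_le_BB ⊥ A' (VB_pb_inv (f := g ∘ f) gf w))
  rwa [neg_sub] at h1
theorem isoBelow_of_vb [Nice Y] [Nice Y'] {A : Set Y} {A' : Set Y'} (hA : LC A) (hA' : LC A')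
    {π : Y' → Y} (hπ : ProperOn π A' A) {c : ℤ}
    (hfib : ∀ y ∈ A, AcycBelow c (A' ∩ π ⁻¹' {y})) : IsoBelow c π A' A :=
  ⟨hπ.1, hπ.2.1, (vb hA hA' hπ hfib).1, fun k hk => (vb hA hA' hπ hfib).2 k hk.le⟩
/-- A map with a section such that section after map is homotopic to the identity. -/
theorem isoBelow_of_section [Nice Y'] (c : ℤ) {A : Set Y} {A' : Set Y'} (hA' : LC A')
    {f : Y' → Y} {s : Y → Y'} (hf : ContinuousOn f A') (hfm : MapsTo f A' A)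
    (hs : ContinuousOn s A) (hsm : MapsTo s A A') (hfs : ∀ y ∈ A, f (s y) = y)
    {h : Y' × ℝ → Y'} (hc : ContinuousOn h (A' ×ˢ Icc 0 1)) (hm : MapsTo h (A' ×ˢ Icc 0 1) A')
    (h0 : ∀ y ∈ A', h (y, 0) = y) (h1 : ∀ y ∈ A', h (y, 1) = s (f y)) : IsoBelow c f A' A := by
  refine VB_iso_of hf hfm hs hsm hfs fun w hw => ?_
  have a1 := homotopy_BB hA' hc hm hw
  have a2 := N0_le_BB ⊥ A' (VB_pb_inv (f := fun y => h (y, 0)) h0 w)
  have a3 : pb (fun y => h (y, 1)) w - pb (s ∘ f) w ∈ BB ⊥ A' :=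
    N0_le_BB ⊥ A' (supp_pb_congr (fun y hy => h1 y hy) w)
  have a4 := sub_mem (add_mem a1 a3) a2
  rwa [sub_add_sub_cancel, sub_sub_sub_cancel_left] at a4

end Pool.Agent.HK
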